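import Mathlib

/-! Squad KS (MP_6f8d6f_an), module HEXC, part 1: the two Gaussian integrals
`∫ (√t)⁻¹ exp(-(t r² + ν²/(4t))) = √π exp(-ν r)/r` and `∫ (√t)⁻¹ t⁻¹ exp(-ν²/(4t)) = 2√π/ν`. -/

set_option autoImplicit false

open MeasureTheory Set Filter Topology

namespace Pool.KS.HexC

/-- the Cauchy-Schlömilch substitution -/
noncomputable def cs (r ν t : ℝ) : ℝ := r * Real.sqrt t - ν / (2 * Real.sqrt t)

/-- its derivative -/
noncomputable def cs' (r ν t : ℝ) : ℝ :=
  r / (2 * Real.sqrt t) + ν / (4 * (t * Real.sqrt t))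

theorem hasDerivAt_cs (r ν t : ℝ) (ht : 0 < t) : HasDerivAt (cs r ν) (cs' r ν t) t := by
  have h1 : HasDerivAt Real.sqrt (1 / (2 * Real.sqrt t)) t := Real.hasDerivAt_sqrt ht.ne'
  have hs : 0 < Real.sqrt t := Real.sqrt_pos.mpr ht
  have h2 : HasDerivAt (fun x => r * Real.sqrt x) (r * (1 / (2 * Real.sqrt t))) t :=
    h1.const_mul r
  have h3 : HasDerivAt (fun x => (2 * Real.sqrt x)) (2 * (1 / (2 * Real.sqrt t))) t :=
    h1.const_mul 2
  have h4 : HasDerivAt (fun x => ν / (2 * Real.sqrt x))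
      ((0 * (2 * Real.sqrt t) - ν * (2 * (1 / (2 * Real.sqrt t)))) / (2 * Real.sqrt t) ^ 2) t :=
    (hasDerivAt_const t ν).div h3 (by positivity)
  have h5 := h2.sub h4
  have h6 : Real.sqrt t ^ 2 = t := Real.sq_sqrt ht.le
  have h7 : r * (1 / (2 * Real.sqrt t)) -
      ((0 * (2 * Real.sqrt t) - ν * (2 * (1 / (2 * Real.sqrt t)))) / (2 * Real.sqrt t) ^ 2)
      = cs' r ν t := by
    unfold cs'
    rw [mul_pow, h6]
    field_simp
    ring
  rw [h7] at h5
  exact h5

theorem cs'_pos (r ν t : ℝ) (hr : 0 < r) (hν : 0 < ν) (ht : 0 < t) : 0 < cs' r ν t := by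
  unfold cs'
  have hs : 0 < Real.sqrt t := Real.sqrt_pos.mpr ht
  positivity

theorem cs_strictMono (r ν : ℝ) (hr : 0 < r) (hν : 0 < ν) : StrictMonoOn (cs r ν) (Ioi 0) := by
  intro x hx y hy hxy
  have hx' : 0 < Real.sqrt x := Real.sqrt_pos.mpr hx
  have h1 : Real.sqrt x < Real.sqrt y := Real.sqrt_lt_sqrt (le_of_lt hx) hxy
  unfold cs
  have h2 : ν / (2 * Real.sqrt y) < ν / (2 * Real.sqrt x) := by
    apply div_lt_div_of_pos_left hν (by positivity)
    linarith
  have h3 : r * Real.sqrt x < r * Real.sqrt y := mul_lt_mul_of_pos_left h1 hr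
  linarith

theorem cs_image (r ν : ℝ) (hr : 0 < r) (hν : 0 < ν) : cs r ν '' Ioi 0 = univ := by
  rw [eq_univ_iff_forall]
  intro v
  -- u = √t solves `r u² - v u - ν/2 = 0`
  set u := (v + Real.sqrt (v ^ 2 + 2 * r * ν)) / (2 * r) with hu
  have h1 : 0 < v ^ 2 + 2 * r * ν := by positivity
  have h2 : |v| < Real.sqrt (v ^ 2 + 2 * r * ν) := by
    rw [← Real.sqrt_sq_eq_abs]
    apply Real.sqrt_lt_sqrt (sq_nonneg v)
    have : 0 < 2 * r * ν := by positivity
    linarith
  have h3 : 0 < u := by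
    rw [hu]
    apply div_pos _ (by positivity)
    have := neg_abs_le v
    linarith
  refine ⟨u ^ 2, mem_Ioi.mpr (by positivity), ?_⟩
  unfold cs
  rw [Real.sqrt_sq h3.le]
  have h4 : r * u ^ 2 = v * u + ν / 2 := by
    have h5 := Real.sq_sqrt h1.le
    rw [hu]
    generalize Real.sqrt (v ^ 2 + 2 * r * ν) = S at h5
    field_simp
    linear_combination h5
  field_simp
  linarith [h4]

theorem sq_cs (r ν t : ℝ) (ht : 0 < t) :
    cs r ν t ^ 2 = t * r ^ 2 - r * ν + ν ^ 2 / (4 * t) := by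
  unfold cs
  have h6 : Real.sqrt t ^ 2 = t := Real.sq_sqrt ht.le
  have hs : 0 < Real.sqrt t := Real.sqrt_pos.mpr ht
  rw [sub_sq, div_pow, mul_pow, mul_pow, h6]
  field_simp
  ring

/-- full Gaussian integral in the new variable -/
theorem int_full (r ν : ℝ) (hr : 0 < r) (hν : 0 < ν) :
    IntegrableOn (fun t => cs' r ν t * Real.exp (-(cs r ν t) ^ 2)) (Ioi 0) ∧
    ∫ t in Ioi (0 : ℝ), cs' r ν t * Real.exp (-(cs r ν t) ^ 2) = Real.sqrt Real.pi := by
  have hd : ∀ x ∈ Ioi (0 : ℝ), HasDerivWithinAt (cs r ν) (cs' r ν x) (Ioi 0) x :=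
    fun x hx => (hasDerivAt_cs r ν x hx).hasDerivWithinAt
  have hinj : InjOn (cs r ν) (Ioi 0) := (cs_strictMono r ν hr hν).injOn
  have h1 := integral_image_eq_integral_abs_deriv_smul measurableSet_Ioi hd hinj
    (fun v => Real.exp (-v ^ 2))
  have h2 := integrableOn_image_iff_integrableOn_abs_deriv_smul measurableSet_Ioi hd hinj
    (fun v => Real.exp (-v ^ 2))
  rw [cs_image r ν hr hν] at h1 h2
  have h3 : ∀ t ∈ Ioi (0 : ℝ), |cs' r ν t| • Real.exp (-(cs r ν t) ^ 2)
      = cs' r ν t * Real.exp (-(cs r ν t) ^ 2) := by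
    intro t ht
    rw [abs_of_pos (cs'_pos r ν t hr hν ht), smul_eq_mul]
  have h4 : IntegrableOn (fun v : ℝ => Real.exp (-v ^ 2)) univ := by
    rw [integrableOn_univ]
    have := integrable_exp_neg_mul_sq (b := 1) one_pos
    simpa using this
  constructor
  · exact (h2.mp h4).congr_fun h3 measurableSet_Ioi
  · rw [← setIntegral_congr_fun measurableSet_Ioi h3, ← h1, setIntegral_univ]
    have := integral_gaussian 1
    simpa using this

theorem meas_part (r ν : ℝ) (g : ℝ → ℝ) (hg : ContinuousOn g (Ioi 0)) :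
    AEStronglyMeasurable (fun t => g t * Real.exp (-(cs r ν t) ^ 2)) (volume.restrict (Ioi 0)) := by
  apply ContinuousOn.aestronglyMeasurable _ measurableSet_Ioi
  apply hg.mul
  intro t ht
  apply ContinuousAt.continuousWithinAt
  have h1 := (hasDerivAt_cs r ν t ht).continuousAt
  exact Real.continuous_exp.continuousAt.comp (h1.pow 2).neg

theorem cont1 (r : ℝ) : ContinuousOn (fun t => r / (2 * Real.sqrt t)) (Ioi 0) := by
  apply ContinuousOn.div continuousOn_const
  · exact (continuous_const.mul Real.continuous_sqrt).continuousOn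
  · intro t ht
    have : 0 < Real.sqrt t := Real.sqrt_pos.mpr ht
    positivity

theorem cont2 (ν : ℝ) : ContinuousOn (fun t => ν / (4 * (t * Real.sqrt t))) (Ioi 0) := by
  apply ContinuousOn.div continuousOn_const
  · exact (continuous_const.mul (continuous_id.mul Real.continuous_sqrt)).continuousOn
  · intro t ht
    have : 0 < Real.sqrt t := Real.sqrt_pos.mpr ht
    have ht' : (0 : ℝ) < t := ht
    positivity

theorem int_parts (r ν : ℝ) (hr : 0 < r) (hν : 0 < ν) :
    IntegrableOn (fun t => r / (2 * Real.sqrt t) * Real.exp (-(cs r ν t) ^ 2)) (Ioi 0) ∧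
    IntegrableOn (fun t => ν / (4 * (t * Real.sqrt t)) * Real.exp (-(cs r ν t) ^ 2)) (Ioi 0) := by
  have h1 := (int_full r ν hr hν).1
  constructor
  · apply Integrable.mono' h1 (meas_part r ν _ (cont1 r))
    rw [ae_restrict_iff' measurableSet_Ioi]
    refine Filter.Eventually.of_forall (fun t ht => ?_)
    have hs : 0 < Real.sqrt t := Real.sqrt_pos.mpr ht
    have ht' : (0 : ℝ) < t := ht
    rw [Real.norm_of_nonneg (by positivity)]
    apply mul_le_mul_of_nonneg_right _ (Real.exp_pos _).le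
    unfold cs'
    have : 0 < ν / (4 * (t * Real.sqrt t)) := by positivity
    linarith
  · apply Integrable.mono' h1 (meas_part r ν _ (cont2 ν))
    rw [ae_restrict_iff' measurableSet_Ioi]
    refine Filter.Eventually.of_forall (fun t ht => ?_)
    have hs : 0 < Real.sqrt t := Real.sqrt_pos.mpr ht
    have ht' : (0 : ℝ) < t := ht
    rw [Real.norm_of_nonneg (by positivity)]
    apply mul_le_mul_of_nonneg_right _ (Real.exp_pos _).le
    unfold cs'
    have : 0 < r / (2 * Real.sqrt t) := by positivity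
    linarith

/-- the symmetry `t ↦ ν²/(4 r² t)` exchanges the two parts -/
theorem int_swap (r ν : ℝ) (hr : 0 < r) (hν : 0 < ν) :
    ∫ t in Ioi (0 : ℝ), r / (2 * Real.sqrt t) * Real.exp (-(cs r ν t) ^ 2)
      = ∫ t in Ioi (0 : ℝ), ν / (4 * (t * Real.sqrt t)) * Real.exp (-(cs r ν t) ^ 2) := by
  set K := ν ^ 2 / (4 * r ^ 2) with hK
  have hK0 : 0 < K := by positivity
  have hd : ∀ x ∈ Ioi (0 : ℝ), HasDerivWithinAt (fun t => K / t) (-(K / x ^ 2)) (Ioi 0) x := by
    intro x hx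
    have hx0 : (x : ℝ) ≠ 0 := (mem_Ioi.mp hx).ne'
    have h1 : HasDerivAt (fun t => K / t) ((0 * x - K * 1) / x ^ 2) x :=
      (hasDerivAt_const x K).div (hasDerivAt_id x) hx0
    have h2 : (0 * x - K * 1) / x ^ 2 = -(K / x ^ 2) := by ring
    rw [h2] at h1
    exact h1.hasDerivWithinAt
  have hinj : InjOn (fun t => K / t) (Ioi (0 : ℝ)) := by
    intro x hx y hy h
    have hx0 : (x : ℝ) ≠ 0 := (mem_Ioi.mp hx).ne'
    have hy0 : (y : ℝ) ≠ 0 := (mem_Ioi.mp hy).ne'
    simp only at h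
    rw [div_eq_div_iff hx0 hy0] at h
    exact (mul_left_cancel₀ hK0.ne' h).symm
  have himg : (fun t => K / t) '' Ioi (0 : ℝ) = Ioi 0 := by
    ext y
    constructor
    · rintro ⟨x, hx, rfl⟩
      exact div_pos hK0 hx
    · intro hy
      have hy0 : (0 : ℝ) < y := hy
      refine ⟨K / y, div_pos hK0 hy0, ?_⟩
      field_simp
  have h1 := integral_image_eq_integral_abs_deriv_smul measurableSet_Ioi hd hinj
    (fun t => r / (2 * Real.sqrt t) * Real.exp (-(cs r ν t) ^ 2))
  rw [himg] at h1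
  rw [h1]
  apply setIntegral_congr_fun measurableSet_Ioi
  intro t ht
  have ht0 : (0 : ℝ) < t := ht
  have hs : 0 < Real.sqrt t := Real.sqrt_pos.mpr ht0
  have h6 : Real.sqrt t ^ 2 = t := Real.sq_sqrt ht0.le
  have hsq : Real.sqrt (K / t) = ν / (2 * r * Real.sqrt t) := by
    rw [hK]
    have h7 : ν ^ 2 / (4 * r ^ 2) / t = (ν / (2 * r * Real.sqrt t)) ^ 2 := by
      rw [div_pow, mul_pow, mul_pow, h6]
      field_simp
      ring
    rw [h7, Real.sqrt_sq (by positivity)]
  have hcs : cs r ν (K / t) = -(cs r ν t) := by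
    unfold cs
    rw [hsq]
    field_simp
    ring
  simp only [smul_eq_mul]
  rw [hcs, neg_sq, hsq, abs_neg, abs_of_pos (by positivity), ← mul_assoc]
  congr 1
  rw [hK]
  have h8 : t * Real.sqrt t = Real.sqrt t ^ 3 := by
    rw [pow_succ, h6]
  have h9 : t ^ 2 = Real.sqrt t ^ 4 := by
    rw [show (4 : ℕ) = 2 * 2 by norm_num, pow_mul, h6]
  rw [h8, h9]
  field_simp

/-- **subordination formula** -/
theorem subord (r ν : ℝ) (hr : 0 < r) (hν : 0 < ν) :
    IntegrableOn (fun t => (Real.sqrt t)⁻¹ * Real.exp (-(t * r ^ 2) - ν ^ 2 / (4 * t))) (Ioi 0) ∧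
    ∫ t in Ioi (0 : ℝ), (Real.sqrt t)⁻¹ * Real.exp (-(t * r ^ 2) - ν ^ 2 / (4 * t))
      = Real.sqrt Real.pi * (Real.exp (-(ν * r)) / r) := by
  have h1 := (int_parts r ν hr hν).1
  have h2 := (int_parts r ν hr hν).2
  have h3 : ∫ t in Ioi (0 : ℝ), r / (2 * Real.sqrt t) * Real.exp (-(cs r ν t) ^ 2)
      = Real.sqrt Real.pi / 2 := by
    have h4 := (int_full r ν hr hν).2
    have h5 : ∀ t, cs' r ν t * Real.exp (-(cs r ν t) ^ 2)
        = r / (2 * Real.sqrt t) * Real.exp (-(cs r ν t) ^ 2)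
          + ν / (4 * (t * Real.sqrt t)) * Real.exp (-(cs r ν t) ^ 2) := by
      intro t
      unfold cs'
      ring
    simp_rw [h5] at h4
    rw [integral_add h1 h2, ← int_swap r ν hr hν] at h4
    linarith
  have h6 : ∀ t ∈ Ioi (0 : ℝ), (2 / r * Real.exp (-(ν * r))) *
      (r / (2 * Real.sqrt t) * Real.exp (-(cs r ν t) ^ 2))
      = (Real.sqrt t)⁻¹ * Real.exp (-(t * r ^ 2) - ν ^ 2 / (4 * t)) := by
    intro t ht
    have ht0 : (0 : ℝ) < t := ht
    have hs : 0 < Real.sqrt t := Real.sqrt_pos.mpr ht0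
    rw [sq_cs r ν t ht0]
    have h7 : Real.exp (-(t * r ^ 2) - ν ^ 2 / (4 * t))
        = Real.exp (-(ν * r)) * Real.exp (-(t * r ^ 2 - r * ν + ν ^ 2 / (4 * t))) := by
      rw [← Real.exp_add]
      congr 1
      ring
    rw [h7]
    field_simp
  constructor
  · exact IntegrableOn.congr_fun (Integrable.const_mul h1 (2 / r * Real.exp (-(ν * r)))) h6
      measurableSet_Ioi
  · rw [← setIntegral_congr_fun measurableSet_Ioi h6, integral_const_mul, h3]
    field_simp

/-- the second integral -/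
theorem polar (ν : ℝ) (hν : 0 < ν) :
    IntegrableOn (fun t => (Real.sqrt t)⁻¹ * (t⁻¹ * Real.exp (-(ν ^ 2 / (4 * t))))) (Ioi 0) ∧
    ∫ t in Ioi (0 : ℝ), (Real.sqrt t)⁻¹ * (t⁻¹ * Real.exp (-(ν ^ 2 / (4 * t))))
      = 2 * Real.sqrt Real.pi / ν := by
  have hd : ∀ x ∈ Ioi (0 : ℝ), HasDerivWithinAt (fun t => ν / (2 * Real.sqrt t))
      (-(ν / (4 * (x * Real.sqrt x)))) (Ioi 0) x := by
    intro x hx
    have h1 := hasDerivAt_cs 0 ν x hx
    have h2 := h1.neg
    have h3 : (fun t => ν / (2 * Real.sqrt t)) = -(cs 0 ν) := by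
      funext t
      simp only [cs, Pi.neg_apply]
      ring
    have h4 : -(cs' 0 ν x) = -(ν / (4 * (x * Real.sqrt x))) := by
      unfold cs'
      ring
    rw [h4] at h2
    rw [h3]
    exact h2.hasDerivWithinAt
  have hinj : InjOn (fun t => ν / (2 * Real.sqrt t)) (Ioi (0 : ℝ)) := by
    intro x hx y hy h
    have hx' : 0 < Real.sqrt x := Real.sqrt_pos.mpr hx
    have hy' : 0 < Real.sqrt y := Real.sqrt_pos.mpr hy
    simp only at h
    rw [div_eq_div_iff (by positivity) (by positivity)] at h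
    have h1 := mul_left_cancel₀ hν.ne' h
    have h2 : Real.sqrt x = Real.sqrt y := by linarith
    exact (Real.sqrt_inj (le_of_lt hx) (le_of_lt hy)).mp h2
  have himg : (fun t => ν / (2 * Real.sqrt t)) '' Ioi (0 : ℝ) = Ioi 0 := by
    ext y
    constructor
    · rintro ⟨x, hx, rfl⟩
      have hx' : 0 < Real.sqrt x := Real.sqrt_pos.mpr hx
      exact div_pos hν (by positivity)
    · intro hy
      have hy0 : (0 : ℝ) < y := hy
      refine ⟨(ν / (2 * y)) ^ 2, mem_Ioi.mpr (by positivity), ?_⟩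
      simp only
      rw [Real.sqrt_sq (by positivity)]
      field_simp
  have h1 := integral_image_eq_integral_abs_deriv_smul measurableSet_Ioi hd hinj
    (fun v => Real.exp (-v ^ 2))
  have h2 := integrableOn_image_iff_integrableOn_abs_deriv_smul measurableSet_Ioi hd hinj
    (fun v => Real.exp (-v ^ 2))
  rw [himg] at h1 h2
  have h3 : ∀ t ∈ Ioi (0 : ℝ), 4 / ν * (|-(ν / (4 * (t * Real.sqrt t)))| •
      Real.exp (-(ν / (2 * Real.sqrt t)) ^ 2))
      = (Real.sqrt t)⁻¹ * (t⁻¹ * Real.exp (-(ν ^ 2 / (4 * t)))) := by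
    intro t ht
    have ht0 : (0 : ℝ) < t := ht
    have hs : 0 < Real.sqrt t := Real.sqrt_pos.mpr ht0
    have h6 : Real.sqrt t ^ 2 = t := Real.sq_sqrt ht0.le
    rw [abs_neg, abs_of_pos (by positivity), smul_eq_mul, div_pow, mul_pow, h6]
    have h7 : (2 : ℝ) ^ 2 = 4 := by norm_num
    rw [h7]
    field_simp
  have h4 : IntegrableOn (fun v : ℝ => Real.exp (-v ^ 2)) (Ioi 0) := by
    have := integrable_exp_neg_mul_sq (b := 1) one_pos
    have h5 : Integrable (fun v : ℝ => Real.exp (-v ^ 2)) := by simpa using this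
    exact h5.integrableOn
  constructor
  · exact IntegrableOn.congr_fun (Integrable.const_mul (h2.mp h4) (4 / ν)) h3 measurableSet_Ioi
  · rw [← setIntegral_congr_fun measurableSet_Ioi h3, integral_const_mul, ← h1]
    have := integral_gaussian_Ioi 1
    simp only [neg_one_mul, div_one] at this
    rw [this]
    field_simp
    ring

end Pool.KS.HexC
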