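import Pool.Agent.KS.Lib

/-! Squad KS (MP_6f8d6f_an), module CHORD: law of the chord length. -/

open MeasureTheory Set Filter Topology
open scoped ENNReal

namespace Pool.KS.CHORD

open Pool.KS Pool.KS.Lib

/-- North pole. -/
noncomputable def nz : E3 := !₂[0, 0, 1]

lemma norm_nz : ‖nz‖ = 1 := by
  rw [EuclideanSpace.norm_eq, Fin.sum_univ_three]
  simp [nz]

lemma exists_isometry (x y : E3) (h : ‖x‖ = ‖y‖) : ∃ R : E3 ≃ₗᵢ[ℝ] E3, R x = y :=
  ⟨(Submodule.span ℝ {x - y})ᗮ.reflection, Submodule.reflection_sub h⟩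

/-- Integrals against `sph` are invariant under isometries. -/
lemma lintegral_isometry (hSPH : Stmt_SPH) (R : E3 ≃ₗᵢ[ℝ] E3) (h : E3 → ℝ≥0∞)
    (hh : Measurable h) : ∫⁻ y, h (R y) ∂sph = ∫⁻ y, h y ∂sph := by
  conv_rhs => rw [← hSPH.2.2 R]
  rw [lintegral_map hh R.continuous.measurable]

lemma norm_nz_sub (φ z : ℝ) (hz : z ∈ Icc (-1 : ℝ) 1) :
    ‖nz - P !₂[φ, z]‖ = Real.sqrt (2 - 2 * z) := by
  have h1 : 0 ≤ 1 - z ^ 2 := by
    obtain ⟨h3, h4⟩ := hz
    nlinarith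
  rw [EuclideanSpace.norm_eq, Fin.sum_univ_three]
  congr 1
  have h2 : Real.sqrt (1 - z ^ 2) ^ 2 = 1 - z ^ 2 := Real.sq_sqrt h1
  have h3 := Real.sin_sq_add_cos_sq φ
  simp only [PiLp.sub_apply, nz, P, Real.norm_eq_abs, sq_abs, Matrix.cons_val_zero,
    Matrix.cons_val_one, Matrix.cons_val]
  have : (0 - Real.sqrt (1 - z ^ 2) * Real.cos φ) ^ 2 + (0 - Real.sqrt (1 - z ^ 2)
      * Real.sin φ) ^ 2 = 1 - z ^ 2 := by
    have : (0 - Real.sqrt (1 - z ^ 2) * Real.cos φ) ^ 2 + (0 - Real.sqrt (1 - z ^ 2)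
      * Real.sin φ) ^ 2 = Real.sqrt (1 - z ^ 2) ^ 2 * (Real.sin φ ^ 2 + Real.cos φ ^ 2) := by
      ring
    rw [this, h2, h3, mul_one]
  rw [this]
  ring

lemma change (g : ℝ → ℝ≥0∞) :
    ∫⁻ z in Icc (-1 : ℝ) 1, g (Real.sqrt (2 - 2 * z))
      = ∫⁻ r in Icc (0 : ℝ) 2, ENNReal.ofReal r * g r := by
  have himg : (fun r : ℝ => 1 - r ^ 2 / 2) '' Ioo 0 2 = Ioo (-1) 1 := by
    ext z
    simp only [mem_image, mem_Ioo]
    constructor
    · rintro ⟨r, ⟨h1, h2⟩, rfl⟩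
      constructor <;> nlinarith
    · rintro ⟨h1, h2⟩
      refine ⟨Real.sqrt (2 - 2 * z), ⟨Real.sqrt_pos.2 (by linarith), ?_⟩, ?_⟩
      · rw [Real.sqrt_lt' (by norm_num)]; linarith
      · rw [Real.sq_sqrt (by linarith)]; ring
  have hinj : InjOn (fun r : ℝ => 1 - r ^ 2 / 2) (Ioo 0 2) := by
    intro a ha b hb hab
    simp only at hab
    have h1 : a ^ 2 = b ^ 2 := by linarith
    exact (pow_left_inj₀ ha.1.le hb.1.le (by norm_num)).1 h1
  have h := lintegral_image_eq_lintegral_abs_deriv_mul (s := Ioo (0 : ℝ) 2)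
    (f := fun r => 1 - r ^ 2 / 2) (f' := fun r => -r) measurableSet_Ioo
    (fun x _ => by
      have : HasDerivAt (fun r : ℝ => 1 - r ^ 2 / 2) (-x) x := by
        have h1 := ((hasDerivAt_pow 2 x).div_const 2).const_sub 1
        have e : (-(((2 : ℕ) : ℝ) * x ^ (2 - 1) / 2)) = -x := by norm_num
        rw [e] at h1
        exact h1
      exact this.hasDerivWithinAt) hinj (fun z => g (Real.sqrt (2 - 2 * z)))
  rw [himg] at h
  rw [← restrict_Ioo_eq_restrict_Icc, h, ← restrict_Ioo_eq_restrict_Icc]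
  apply setLIntegral_congr_fun measurableSet_Ioo
  intro r hr
  have h1 : 2 - 2 * (1 - r ^ 2 / 2) = r ^ 2 := by ring
  simp only
  rw [h1, Real.sqrt_sq hr.1.le, abs_neg, abs_of_pos hr.1]

end CHORD

open CHORD Lib in
theorem CHORD_proof (hSPH : Stmt_SPH) : Stmt_CHORD := by
  intro x hx g hg
  obtain ⟨R, hR⟩ := exists_isometry x nz (by rw [hx, norm_nz])
  have h1 : ∫⁻ y, g ‖x - y‖ ∂sph = ∫⁻ y, g ‖nz - R y‖ ∂sph := by
    apply lintegral_congr
    intro y
    rw [← hR, ← map_sub, LinearIsometryEquiv.norm_map]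
  have hmeas : Measurable (fun y : E3 => g ‖nz - y‖) :=
    hg.comp (continuous_const.sub continuous_id).norm.measurable
  rw [h1, lintegral_isometry hSPH R (fun y => g ‖nz - y‖) hmeas, lintegral_sph _ hmeas]
  have h2 : ∀ φ : ℝ, ∫⁻ z in Icc (-1 : ℝ) 1, g ‖nz - P !₂[φ, z]‖
      = ∫⁻ r in Icc (0 : ℝ) 2, ENNReal.ofReal r * g r := by
    intro φ
    rw [← change]
    apply setLIntegral_congr_fun measurableSet_Icc
    intro z hz
    simp only
    rw [norm_nz_sub φ z hz]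
  simp only [h2, lintegral_const, Measure.restrict_apply MeasurableSet.univ, univ_inter,
    Real.volume_Ioc]
  have h3 : ∫⁻ r in Icc (0 : ℝ) 2, g r * ENNReal.ofReal (r / 2)
      = ENNReal.ofReal (1 / 2) * ∫⁻ r in Icc (0 : ℝ) 2, ENNReal.ofReal r * g r := by
    rw [← lintegral_const_mul _ (by fun_prop)]
    apply lintegral_congr
    intro r
    rw [← mul_assoc, ← ENNReal.ofReal_mul (by norm_num), mul_comm]
    congr 2
    ring
  rw [h3, mul_comm (∫⁻ r in Icc (0 : ℝ) 2, ENNReal.ofReal r * g r), ← mul_assoc,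
    ← ENNReal.ofReal_mul (by positivity)]
  congr 2
  have := Real.pi_pos
  field_simp
  ring

end Pool.KS
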