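import Mathlib

/-! Squad KS (MP_6f8d6f_an): second-order asymptotics of the minimal Coulomb energy on the
unit sphere.  Definitions. -/

open MeasureTheory Set Filter Topology
open scoped ENNReal

namespace Pool.KS

abbrev E2 := EuclideanSpace ℝ (Fin 2)
abbrev E3 := EuclideanSpace ℝ (Fin 3)

/-- Coulomb energy of a finite set: half the sum over ordered pairs (the diagonal terms
vanish because `0⁻¹ = 0`). -/
noncomputable def energy (w : Finset E3) : ℝ := (∑ x ∈ w, ∑ y ∈ w, ‖x - y‖⁻¹) / 2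

/-- A finite set of unit vectors. -/
def OnS (w : Finset E3) : Prop := ∀ x ∈ w, ‖x‖ = 1

/-- Minimal energy of `n` distinct points on the unit sphere. -/
noncomputable def Emin (n : ℕ) : ℝ :=
  sInf {e : ℝ | ∃ w : Finset E3, w.card = n ∧ OnS w ∧ e = energy w}

/-- Second-order part `E(n) - n^2/2`. -/
noncomputable def fE (n : ℕ) : ℝ := Emin n - (n : ℝ) ^ 2 / 2

/-- Lambert's cylindrical (area preserving) coordinates `(phi, z)`. -/
noncomputable def P (u : E2) : E3 :=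
  !₂[Real.sqrt (1 - u 1 ^ 2) * Real.cos (u 0), Real.sqrt (1 - u 1 ^ 2) * Real.sin (u 0), u 1]

/-- The coordinate box. -/
def box : Set E2 := {u : E2 | -Real.pi < u 0 ∧ u 0 ≤ Real.pi ∧ -1 ≤ u 1 ∧ u 1 ≤ 1}

/-- Uniform probability measure on the unit sphere (a measure on `E3`). -/
noncomputable def sph : Measure E3 :=
  ENNReal.ofReal (1 / (4 * Real.pi)) • Measure.map P (volume.restrict box)

/-- Measurable inverse of `P`. -/
noncomputable def pinv (x : E3) : E2 := !₂[Complex.arg ⟨x 0, x 1⟩, x 2]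

/-- The equatorial point `(1,0,0)`. -/
noncomputable def e0 : E3 := !₂[1, 0, 0]

/-- `P` is a near-isometry with constant `1 ± ε` on the ball of radius `δ`. -/
def NearIso (ε δ : ℝ) : Prop :=
  ∀ u v : E2, ‖u‖ < δ → ‖v‖ < δ →
    (1 - ε) * ‖u - v‖ ≤ ‖P u - P v‖ ∧ ‖P u - P v‖ ≤ (1 + ε) * ‖u - v‖

/-- Space of (unit normal, offset) of planes, with its probability measure. -/
noncomputable def pln : Measure (E3 × ℝ) :=
  sph.prod (ENNReal.ofReal (1 / 2) • volume.restrict (Icc (-1 : ℝ) 1))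

/-- The closed half space of a plane. -/
def side (t : E3 × ℝ) (x : E3) : Prop := t.2 ≤ inner ℝ t.1 x

/-- The truncated kernel: `FK K s r = max 0 (1 - s r / 4)^K / (s r)`. -/
noncomputable def FK (K : ℕ) (s r : ℝ) : ℝ := (max 0 (1 - s * r / 4)) ^ K * (s * r)⁻¹

/-- A planar source: a random set of at most `m` points, of intensity exactly `lam` on the ball
of radius `rho`, whose expected truncated pair sums inside any `D ⊆ ball` are at most
`lam * S K s * |D|`. -/
def IsSource (lam rho : ℝ) (m : ℕ) (S : ℕ → ℝ → ℝ) : Prop :=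
  ∃ (G : Type) (_ : MeasurableSpace G) (μ : Measure G) (x : Fin m → G → E2),
    IsProbabilityMeasure μ ∧ (∀ i, Measurable (x i)) ∧
    (∀ g i j, i ≠ j → ‖x i g‖ < rho → ‖x j g‖ < rho → x i g ≠ x j g) ∧
    (∀ h : E2 → ℝ≥0∞, Measurable h →
      ∑ i, ∫⁻ g, (Metric.ball (0 : E2) rho).indicator h (x i g) ∂μ
        = ENNReal.ofReal lam * ∫⁻ u in Metric.ball (0 : E2) rho, h u) ∧
    (∀ (K : ℕ) (s : ℝ), 1 ≤ K → 0 < s → ∀ D : Set E2, MeasurableSet D →
      D ⊆ Metric.ball (0 : E2) rho →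
      ∑ i, ∑ j ∈ Finset.univ.erase i, ∫⁻ g,
        D.indicator 1 (x i g) * D.indicator 1 (x j g)
          * ENNReal.ofReal (FK K s ‖x i g - x j g‖) ∂μ
        ≤ ENNReal.ofReal (lam * S K s) * volume D)

/-- Norm on the hexagonal lattice of covolume 1: `|a e1 + b e2|^2 = (2/√3)(a^2+ab+b^2)`. -/
noncomputable def hexn (p : ℤ × ℤ) : ℝ :=
  Real.sqrt (2 / Real.sqrt 3 * ((p.1 : ℝ) ^ 2 + p.1 * p.2 + (p.2 : ℝ) ^ 2))

/-- Yukawa sum over the nonzero points of the hexagonal lattice of covolume 1. -/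
noncomputable def Theta (ν : ℝ) : ℝ :=
  ∑' p : ℤ × ℤ, if p = 0 then 0 else Real.exp (-(ν * hexn p)) / hexn p

/-- Difference of Hurwitz zeta values `ζ(s,1/3) - ζ(s,2/3)`. -/
noncomputable def hz (s : ℂ) : ℂ :=
  HurwitzZeta.hurwitzZeta (((1 / 3 : ℝ) : UnitAddCircle)) s
    - HurwitzZeta.hurwitzZeta (((2 / 3 : ℝ) : UnitAddCircle)) s

/-- The Kuijlaars-Saff constant. -/
noncomputable def CKS : ℝ :=
  Real.sqrt 3 * Real.sqrt (Real.sqrt 3 / (8 * Real.pi))
    * (riemannZeta (1 / 2)).re * (hz (1 / 2)).re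

end Pool.KS
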