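import Pool.Agent.KS.Stmts

/-! Squad KS (MP_6f8d6f_an): module FUN (helper94). -/

open MeasureTheory Set Filter Topology
open scoped ENNReal

namespace Pool.KS.FUN

theorem energy_nonneg (w : Finset E3) : 0 ≤ energy w := by
  unfold energy
  have : 0 ≤ ∑ x ∈ w, ∑ y ∈ w, ‖x - y‖⁻¹ :=
    Finset.sum_nonneg fun x _ => Finset.sum_nonneg fun y _ => by positivity
  linarith

theorem bddBelow (n : ℕ) :
    BddBelow {e : ℝ | ∃ w : Finset E3, w.card = n ∧ OnS w ∧ e = energy w} := by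
  refine ⟨0, ?_⟩
  rintro e ⟨w, -, -, rfl⟩
  exact energy_nonneg w

/-- infinitely many unit vectors -/
noncomputable def pt (i : ℕ) : E3 := !₂[Real.cos (1 / ((i : ℝ) + 1)), Real.sin (1 / ((i : ℝ) + 1)), 0]

theorem pt_norm (i : ℕ) : ‖pt i‖ = 1 := by
  rw [EuclideanSpace.norm_eq, pt]
  simp [Fin.sum_univ_three]

theorem pt_inj : Function.Injective pt := by
  intro i j h
  have h0 : pt i 0 = pt j 0 := by rw [h]
  have h1 : Real.cos (1 / ((i : ℝ) + 1)) = Real.cos (1 / ((j : ℝ) + 1)) := by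
    simpa [pt] using h0
  have hi : ∀ k : ℕ, 1 / ((k : ℝ) + 1) ∈ Set.Icc 0 Real.pi := by
    intro k
    refine ⟨by positivity, ?_⟩
    have : 1 / ((k : ℝ) + 1) ≤ 1 := by
      rw [div_le_one (by positivity)]
      linarith [(Nat.cast_nonneg k : (0 : ℝ) ≤ k)]
    linarith [Real.pi_gt_three]
  have h2 := Real.injOn_cos (hi i) (hi j) h1
  have h3 : ((i : ℝ) + 1) = (j : ℝ) + 1 := by
    have := congrArg (fun x : ℝ => 1 / x) h2
    simpa using this
  have h4 : (i : ℝ) = j := by linarith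
  exact_mod_cast h4

theorem nonempty (n : ℕ) :
    {e : ℝ | ∃ w : Finset E3, w.card = n ∧ OnS w ∧ e = energy w}.Nonempty := by
  classical
  refine ⟨energy ((Finset.range n).image pt), (Finset.range n).image pt, ?_, ?_, rfl⟩
  · rw [Finset.card_image_of_injective _ pt_inj, Finset.card_range]
  · intro x hx
    obtain ⟨i, -, rfl⟩ := Finset.mem_image.1 hx
    exact pt_norm i

theorem emin_le (w : Finset E3) (hw : OnS w) : Emin w.card ≤ energy w :=
  csInf_le (bddBelow _) ⟨w, rfl, hw, rfl⟩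

theorem exists_lt (n : ℕ) (η : ℝ) (hη : 0 < η) :
    ∃ w : Finset E3, w.card = n ∧ OnS w ∧ energy w < Emin n + η := by
  obtain ⟨e, ⟨w, h1, h2, rfl⟩, h3⟩ := exists_lt_of_csInf_lt (nonempty n)
    (show sInf {e : ℝ | ∃ w : Finset E3, w.card = n ∧ OnS w ∧ e = energy w} < Emin n + η by
      change Emin n < Emin n + η
      linarith)
  exact ⟨w, h1, h2, h3⟩

theorem le_emin (n : ℕ) (b : ℝ) (h : ∀ w : Finset E3, w.card = n → OnS w → b ≤ energy w) :
    b ≤ Emin n := by
  refine le_csInf (nonempty n) ?_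
  rintro e ⟨w, h1, h2, rfl⟩
  exact h w h1 h2

theorem energy_insert (w : Finset E3) (y : E3) (hy : y ∉ w) :
    energy (Finset.cons y w hy) = energy w + ∑ x ∈ w, ‖x - y‖⁻¹ := by
  unfold energy
  simp only [Finset.sum_cons, sub_self, norm_zero, inv_zero, zero_add, Finset.sum_add_distrib]
  have : ∑ x ∈ w, ‖y - x‖⁻¹ = ∑ x ∈ w, ‖x - y‖⁻¹ :=
    Finset.sum_congr rfl fun x _ => by rw [norm_sub_rev]
  rw [this]
  ring

theorem sph_singleton (hC : Stmt_CHORD) (x : E3) (hx : ‖x‖ = 1) : sph {x} = 0 := by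
  have h := hC x hx (({0} : Set ℝ).indicator 1)
    (measurable_one.indicator (measurableSet_singleton 0))
  have h1 : ∫⁻ y, ({0} : Set ℝ).indicator (1 : ℝ → ℝ≥0∞) ‖x - y‖ ∂sph = sph {x} := by
    have : ∀ y, ({0} : Set ℝ).indicator (1 : ℝ → ℝ≥0∞) ‖x - y‖ =
        ({x} : Set E3).indicator (1 : E3 → ℝ≥0∞) y := by
      intro y
      by_cases hy : y = x
      · subst hy
        simp
      · have h1 : ‖x - y‖ ≠ 0 := by
          rw [norm_ne_zero_iff, sub_ne_zero]
          exact fun h => hy h.symm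
        rw [Set.indicator_of_notMem (by simpa using h1),
          Set.indicator_of_notMem (by simpa using hy)]
    simp_rw [this]
    rw [lintegral_indicator_one (measurableSet_singleton x)]
  rw [h1] at h
  rw [h]
  refine (lintegral_eq_zero_iff ?_).2 ?_
  · exact (measurable_one.indicator (measurableSet_singleton 0)).mul
      ((measurable_id.div_const 2).ennreal_ofReal)
  · refine ae_restrict_of_ae ?_
    have h0 : ∀ᵐ r : ℝ, r ≠ 0 := by
      rw [ae_iff]
      simp
    filter_upwards [h0] with r hr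
    rw [Set.indicator_of_notMem (by simpa using hr)]
    simp

theorem chord_inv (hC : Stmt_CHORD) (x : E3) (hx : ‖x‖ = 1) :
    ∫⁻ y, ENNReal.ofReal (‖x - y‖⁻¹) ∂sph = 1 := by
  rw [hC x hx (fun r => ENNReal.ofReal r⁻¹) (measurable_inv.ennreal_ofReal)]
  have h0 : ∀ᵐ r : ℝ ∂(volume.restrict (Icc (0 : ℝ) 2)),
      ENNReal.ofReal r⁻¹ * ENNReal.ofReal (r / 2) = ENNReal.ofReal (1 / 2) := by
    have h1 : ∀ᵐ r : ℝ ∂(volume.restrict (Icc (0 : ℝ) 2)), r ≠ 0 := by
      refine ae_restrict_of_ae ?_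
      rw [ae_iff]
      simp
    filter_upwards [h1, ae_restrict_mem measurableSet_Icc] with r hr hr2
    rw [← ENNReal.ofReal_mul (inv_nonneg.2 hr2.1)]
    congr 1
    field_simp
  rw [lintegral_congr_ae h0, lintegral_const]
  simp only [Measure.restrict_apply_univ, Real.volume_Icc, sub_zero]
  rw [← ENNReal.ofReal_mul (by norm_num)]
  norm_num

theorem step (hS : Stmt_SPH) (hC : Stmt_CHORD) (w : Finset E3) (hw : OnS w) :
    ∃ y : E3, y ∉ w ∧ ‖y‖ = 1 ∧ ∑ x ∈ w, ‖x - y‖⁻¹ ≤ w.card := by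
  obtain ⟨hP, hN, -⟩ := hS
  have hf : Measurable (fun y : E3 => ∑ x ∈ w, ENNReal.ofReal (‖x - y‖⁻¹)) := by
    refine Finset.measurable_sum _ fun x _ => ?_
    exact ((measurable_const.sub measurable_id).norm.inv).ennreal_ofReal
  have hnull : sph ((w : Set E3) ∪ {x | ¬ ‖x‖ = 1}) = 0 := by
    refine measure_union_null ?_ hN
    have : (w : Set E3) = ⋃ x ∈ w, {x} := by
      ext y
      simp
    rw [this]
    refine (measure_biUnion_null_iff w.countable_toSet).2 ?_
    intro x hx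
    exact sph_singleton hC x (hw x (by simpa using hx))
  obtain ⟨y, hy1, hy2⟩ := exists_notMem_null_le_lintegral (μ := sph) hf.aemeasurable hnull
  have hint : ∫⁻ y, ∑ x ∈ w, ENNReal.ofReal (‖x - y‖⁻¹) ∂sph = w.card := by
    rw [lintegral_finsetSum]
    · rw [Finset.sum_congr rfl fun x hx => chord_inv hC x (hw x hx)]
      simp
    · intro x _
      exact ((measurable_const.sub measurable_id).norm.inv).ennreal_ofReal
  rw [hint, ← ENNReal.ofReal_sum_of_nonneg (fun x _ => by positivity)] at hy2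
  have hy3 : y ∉ w ∧ ‖y‖ = 1 := by
    simp only [Set.mem_union, Finset.mem_coe, Set.mem_ofPred_eq, not_or, not_not] at hy1
    exact hy1
  refine ⟨y, hy3.1, hy3.2, ?_⟩
  rw [← ENNReal.ofReal_natCast, ENNReal.ofReal_le_ofReal_iff (by positivity)] at hy2
  exact hy2

theorem mono (hS : Stmt_SPH) (hC : Stmt_CHORD) (n : ℕ) : fE (n + 1) ≤ fE n := by
  obtain ⟨w, h1, h2, h3⟩ := exists_lt n (1 / 2) (by norm_num)
  obtain ⟨y, hy1, hy2, hy3⟩ := step hS hC w h2
  have h4 : OnS (Finset.cons y w hy1) := by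
    intro x hx
    rcases Finset.mem_cons.1 hx with h | h
    · rw [h]
      exact hy2
    · exact h2 x h
  have h5 := emin_le _ h4
  rw [Finset.card_cons, h1, energy_insert] at h5
  rw [h1] at hy3
  unfold fE
  push_cast
  nlinarith

theorem fE_zero : fE 0 = 0 := by
  have h1 : Emin 0 = 0 := by
    refine le_antisymm ?_ (le_emin 0 0 fun w _ _ => energy_nonneg w)
    have := emin_le ∅ (by intro x hx; simp at hx)
    simpa [energy] using this
  simp [fE, h1]

theorem nonpos (hS : Stmt_SPH) (hC : Stmt_CHORD) (n : ℕ) : fE n ≤ 0 := by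
  induction n with
  | zero => rw [fE_zero]
  | succ n ih => exact (mono hS hC n).trans ih

theorem lower (hL : Stmt_LB) (n : ℕ) : -(2 * (n * Real.sqrt n)) ≤ fE n := by
  rcases Nat.eq_zero_or_pos n with h | hn
  · subst h
    rw [fE_zero]
    simp
  have hnR : (1 : ℝ) ≤ n := by exact_mod_cast hn
  have hs1 : 1 ≤ Real.sqrt n := by
    rw [Real.one_le_sqrt]
    exact hnR
  have hss : Real.sqrt n * Real.sqrt n = n := Real.mul_self_sqrt (by positivity)
  set K : ℕ := ⌈Real.sqrt n⌉₊ with hK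
  have hK1 : Real.sqrt n ≤ K := Nat.le_ceil _
  have hK2 : (K : ℝ) < Real.sqrt n + 1 := Nat.ceil_lt_add_one (by positivity)
  have hb : (n : ℝ) ^ 2 / 2 - (n : ℝ) ^ 2 / (K + 1) - n * K / 8 ≤ Emin n := by
    refine le_emin n _ fun w h1 h2 => ?_
    have h3 := hL w h2 K
    have h4 : 0 ≤ ∑ x ∈ w, ∑ y ∈ w, ‖x - y‖⁻¹ * (1 - ‖x - y‖ / 4) ^ K := by
      refine Finset.sum_nonneg fun x hx => Finset.sum_nonneg fun y hy => ?_
      have h5 : ‖x - y‖ ≤ 2 := by
        have := norm_sub_le x y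
        rw [h2 x hx, h2 y hy] at this
        linarith
      have h6 : 0 ≤ 1 - ‖x - y‖ / 4 := by linarith
      positivity
    rw [h1] at h3
    have h7 : 2 * (n : ℝ) ^ 2 / (K + 1) = 2 * ((n : ℝ) ^ 2 / (K + 1)) := by ring
    rw [h7] at h3
    nlinarith
  have h1 : (n : ℝ) ^ 2 / (K + 1) ≤ n * Real.sqrt n := by
    rw [div_le_iff₀ (by positivity)]
    have : (n : ℝ) ^ 2 = n * Real.sqrt n * Real.sqrt n := by rw [mul_assoc, hss]; ring
    rw [this]
    refine mul_le_mul_of_nonneg_left (by linarith) (by positivity)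
  have h2 : (n : ℝ) * K / 8 ≤ n * Real.sqrt n := by
    have : (n : ℝ) * K ≤ n * (2 * Real.sqrt n) := mul_le_mul_of_nonneg_left (by linarith) (by positivity)
    have h3 : 0 ≤ (n : ℝ) * Real.sqrt n := by positivity
    nlinarith
  unfold fE
  linarith

theorem erase_sum (w : Finset E3) (x : E3) (hx : x ∈ w) (f : E3 → ℝ) :
    ∑ a ∈ w.erase x, f a = ∑ a ∈ w, f a - f x := by
  rw [← Finset.add_sum_erase w f hx]
  ring

theorem energy_erase (w : Finset E3) (x : E3) (hx : x ∈ w) :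
    energy (w.erase x) = energy w - ∑ y ∈ w, ‖x - y‖⁻¹ := by
  unfold energy
  rw [erase_sum w x hx]
  rw [Finset.sum_congr rfl fun a _ => erase_sum w x hx (fun b => ‖a - b‖⁻¹)]
  rw [erase_sum w x hx (fun b => ‖x - b‖⁻¹), Finset.sum_sub_distrib]
  have : ∑ a ∈ w, ‖a - x‖⁻¹ = ∑ a ∈ w, ‖x - a‖⁻¹ :=
    Finset.sum_congr rfl fun a _ => by rw [norm_sub_rev]
  rw [this]
  simp
  ring

theorem delete (n : ℕ) (w : Finset E3) (hw : OnS w) (hc : w.card = n + 1) :
    Emin n * (n + 1) ≤ (n - 1) * energy w := by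
  have h1 : ∑ x ∈ w, energy (w.erase x) = (n - 1) * energy w := by
    rw [Finset.sum_congr rfl fun x hx => energy_erase w x hx, Finset.sum_sub_distrib]
    have : ∑ x ∈ w, ∑ y ∈ w, ‖x - y‖⁻¹ = 2 * energy w := by unfold energy; ring
    rw [this, Finset.sum_const, hc, nsmul_eq_mul]
    push_cast
    ring
  rw [← h1]
  have h2 : ∑ _x ∈ w, Emin n = Emin n * (n + 1) := by
    rw [Finset.sum_const, hc, nsmul_eq_mul]
    push_cast
    ring
  rw [← h2]
  refine Finset.sum_le_sum fun x hx => ?_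
  have h3 : (w.erase x).card = n := by
    rw [Finset.card_erase_of_mem hx, hc]
    simp
  have h4 := emin_le (w.erase x) (fun y hy => hw y (Finset.mem_of_mem_erase hy))
  rw [h3] at h4
  exact h4

theorem back (hL : Stmt_LB) (n : ℕ) :
    fE n ≤ fE (n + 1) + 4 * Real.sqrt (n + 1) := by
  have hlow := lower hL (n + 1)
  push_cast at hlow
  have hs0 : 0 ≤ Real.sqrt ((n : ℝ) + 1) := Real.sqrt_nonneg _
  rcases Nat.eq_zero_or_pos n with h | hn
  · subst h
    rw [fE_zero]
    simp only [Nat.cast_zero, zero_add, Real.sqrt_one] at hlow ⊢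
    linarith
  have hnR : (1 : ℝ) ≤ n := by exact_mod_cast hn
  have h1 : Emin n * (n + 1) ≤ (n - 1) * Emin (n + 1) := by
    by_contra hcon
    push Not at hcon
    rcases eq_or_lt_of_le hnR with h | h
    · obtain ⟨w, hw1, hw2, -⟩ := exists_lt (n + 1) 1 one_pos
      have := delete n w hw2 hw1
      rw [← h] at this hcon
      norm_num at this hcon
      linarith
    · have hpos : 0 < (n : ℝ) - 1 := by linarith
      obtain ⟨w, hw1, hw2, hw3⟩ := exists_lt (n + 1)
        ((Emin n * (n + 1) - (n - 1) * Emin (n + 1)) / (n - 1)) (div_pos (by linarith) hpos)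
      have h2 := delete n w hw2 hw1
      have h3 := mul_lt_mul_of_pos_left hw3 hpos
      rw [mul_add, mul_div_cancel₀ _ hpos.ne'] at h3
      linarith
  have h2 : fE n * (n + 1) ≤ (n - 1) * fE (n + 1) - ((n : ℝ) + 1) / 2 := by
    unfold fE
    push_cast
    nlinarith
  have h3 : fE n * (n + 1) ≤ (fE (n + 1) + 4 * Real.sqrt (n + 1)) * (n + 1) := by
    nlinarith
  exact le_of_mul_le_mul_right h3 (by linarith)

end Pool.KS.FUN

namespace Pool.KS

theorem FUN_proof (hS : Stmt_SPH) (hC : Stmt_CHORD) (hL : Stmt_LB) : Stmt_FUN :=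
  ⟨FUN.emin_le, FUN.exists_lt, FUN.mono hS hC, FUN.back hL,
    fun n => ⟨FUN.lower hL n, FUN.nonpos hS hC n⟩⟩

end Pool.KS
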