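import Pool.Agent.KS.Stmts

/-! Squad KS (MP_6f8d6f_an), module HAAR: a random linear isometry of `E3` that sends every
unit vector to a uniform point.  We use the inverse of a Haar distributed unitary operator. -/

open MeasureTheory Set Filter Topology
open scoped ENNReal

namespace Pool.KS
namespace Haar

/-- The orthogonal group as the unitary group of the C*-algebra of operators. -/
abbrev U3 : Type := unitary (E3 →L[ℝ] E3)

instance instProper : ProperSpace (E3 →L[ℝ] E3) := FiniteDimensional.proper ℝ _

instance instContStar : ContinuousStar (E3 →L[ℝ] E3) :=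
  ⟨(ContinuousLinearMap.adjoint (𝕜 := ℝ) (E := E3) (F := E3)).continuous⟩

instance instContMul : ContinuousMul (E3 →L[ℝ] E3) := by infer_instance

lemma isCompact_unitary : IsCompact (unitary (E3 →L[ℝ] E3) : Set (E3 →L[ℝ] E3)) := by
  refine Metric.isCompact_of_isClosed_isBounded isClosed_unitary ?_
  rw [isBounded_iff_forall_norm_le]
  refine ⟨1, fun u hu => ?_⟩
  refine ContinuousLinearMap.opNorm_le_bound _ zero_le_one fun x => ?_
  have h := (Unitary.linearIsometryEquiv ⟨u, hu⟩).norm_map x
  have h2 : (Unitary.linearIsometryEquiv (⟨u, hu⟩ : U3)) x = u x := rfl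
  rw [h2] at h
  rw [h, one_mul]

instance instCompact : CompactSpace U3 := isCompact_iff_compactSpace.1 isCompact_unitary

instance instTG : IsTopologicalGroup U3 := by infer_instance

noncomputable instance instMS : MeasurableSpace U3 := borel U3

instance instBorel : BorelSpace U3 := ⟨rfl⟩

/-- Normalised Haar measure. -/
noncomputable def mu : Measure U3 :=
  Measure.haarMeasure (⊤ : TopologicalSpace.PositiveCompacts U3)

instance instProb : IsProbabilityMeasure mu := by
  refine ⟨?_⟩
  have := Measure.haarMeasure_self (K₀ := (⊤ : TopologicalSpace.PositiveCompacts U3))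
  simpa [mu] using this

instance instInv : mu.IsMulLeftInvariant := by
  unfold mu; infer_instance

/-- The action: `act g = g⁻¹`. -/
noncomputable def act (g : U3) : E3 ≃ₗᵢ[ℝ] E3 := Unitary.linearIsometryEquiv g⁻¹

lemma act_apply (g : U3) (x : E3) : act g x = ((g⁻¹ : U3) : E3 →L[ℝ] E3) x := rfl

lemma continuous_act : Continuous (fun p : U3 × E3 => act p.1 p.2) := by
  have h1 : Continuous (fun p : U3 × E3 => ((p.1⁻¹ : U3) : E3 →L[ℝ] E3)) :=
    continuous_subtype_val.comp (continuous_inv.comp continuous_fst)
  exact h1.clm_apply continuous_snd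

instance instSC : SecondCountableTopology U3 := by infer_instance

lemma measurable_act : Measurable (fun p : U3 × E3 => act p.1 p.2) :=
  continuous_act.measurable

lemma measurable_act_left (z : E3) : Measurable (fun g : U3 => act g z) :=
  (continuous_inv.subtype_val.clm_apply continuous_const :
    Continuous (fun g : U3 => ((g⁻¹ : U3) : E3 →L[ℝ] E3) z)).measurable

lemma act_mul (g h : U3) (x : E3) : act (g * h) x = act h (act g x) := by
  simp only [act, mul_inv_rev, map_mul]
  rfl

lemma exists_rot {x y : E3} (hx : ‖x‖ = 1) (hy : ‖y‖ = 1) : ∃ h : U3, act h x = y := by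
  let R : E3 ≃ₗᵢ[ℝ] E3 := (Submodule.reflection (ℝ ∙ (x - y))ᗮ)
  have hR : R x = y := Submodule.reflection_sub (by rw [hx, hy])
  refine ⟨(Unitary.linearIsometryEquiv.symm R)⁻¹, ?_⟩
  unfold act
  rw [inv_inv, MulEquiv.apply_symm_apply, hR]

attribute [local irreducible] act

/-- The law of `act g x` does not depend on the unit vector `x`. -/
lemma law_eq {x y : E3} (hx : ‖x‖ = 1) (hy : ‖y‖ = 1) :
    Measure.map (fun g => act g x) mu = Measure.map (fun g => act g y) mu := by
  have hm : ∀ z : E3, Measurable (fun g : U3 => act g z) := measurable_act_left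
  obtain ⟨h, rfl⟩ := exists_rot hx hy
  have h1 : (fun g => act g (act h x)) = (fun g => act g x) ∘ (fun g => h * g) := by
    funext g; simp [act_mul]
  rw [h1, ← Measure.map_map (hm x) (measurable_const_mul h), map_mul_left_eq_self]

theorem HAAR_proof (hS : Stmt_SPH) : Stmt_HAAR := by
  obtain ⟨hp, hn, hR⟩ := hS
  refine ⟨U3, inferInstance, mu, act, inferInstance, measurable_act, fun x hx => ?_⟩
  have hm : ∀ z : E3, Measurable (fun g : U3 => act g z) := measurable_act_left
  ext A hA
  have hpre : MeasurableSet {p : U3 × E3 | act p.1 p.2 ∈ A} := measurable_act hA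
  -- integrate over `y` uniform
  have h1 : ∫⁻ y, mu {g | act g y ∈ A} ∂sph = Measure.map (fun g => act g x) mu A := by
    have : ∀ᵐ y ∂sph, mu {g | act g y ∈ A} = Measure.map (fun g => act g x) mu A := by
      filter_upwards [hn] with y hy
      rw [law_eq hx hy, Measure.map_apply (hm y) hA]; rfl
    rw [lintegral_congr_ae this, lintegral_const, measure_univ, mul_one]
  have h2 : ∫⁻ g, sph {y | act g y ∈ A} ∂mu = sph A := by
    have : ∀ g : U3, sph {y | act g y ∈ A} = sph A := by
      intro g
      have := hR (act g)
      conv_rhs => rw [← this]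
      rw [Measure.map_apply (act g).continuous.measurable hA]; rfl
    simp only [this, lintegral_const, measure_univ, mul_one]
  have h3 : (mu.prod sph) {p : U3 × E3 | act p.1 p.2 ∈ A} = sph A := by
    rw [Measure.prod_apply hpre]; exact h2
  have h4 : (mu.prod sph) {p : U3 × E3 | act p.1 p.2 ∈ A}
      = Measure.map (fun g => act g x) mu A := by
    rw [Measure.prod_apply_symm hpre]; exact h1
  rw [← h4, h3]

end Haar

export Haar (HAAR_proof)

end Pool.KS
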