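import Pool.Agent.KS.Stmts

/-! Squad KS (MP_6f8d6f_an), module HEXA: the theta function of the hexagonal lattice,
`θ(t) = A(3t) A(t) + (A(3t/4) - A(3t)) (A(t/4) - A(t))` with `A(t) = ∑ exp(-t n²)`. -/

set_option autoImplicit false

open Filter Topology

namespace Pool.KS.HexAAux

/-- one-dimensional theta function -/
noncomputable def A (t : ℝ) : ℝ := ∑' n : ℤ, Real.exp (-(t * (n : ℝ) ^ 2))

theorem exp_le_inv (s : ℝ) (hs : 0 < s) (n : ℤ) (hn : n ≠ 0) :
    Real.exp (-(s * (n : ℝ) ^ 2)) ≤ 1 / s * (1 / (n : ℝ) ^ 2) := by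
  have hn' : (0 : ℝ) < (n : ℝ) ^ 2 := by
    have : (n : ℝ) ≠ 0 := by exact_mod_cast hn
    positivity
  have h1 : 0 < s * (n : ℝ) ^ 2 := by positivity
  have h2 := Real.add_one_le_exp (s * (n : ℝ) ^ 2)
  rw [Real.exp_neg, ← one_div, one_div_mul_one_div]
  apply one_div_le_one_div_of_le h1
  linarith

theorem summable_inv_sq : Summable (fun n : ℤ => 1 / (n : ℝ) ^ 2) :=
  Real.summable_one_div_int_pow.mpr (by norm_num)

theorem summable_A (t : ℝ) (ht : 0 < t) :
    Summable (fun n : ℤ => Real.exp (-(t * (n : ℝ) ^ 2))) := by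
  have h1 : Summable (fun n : ℤ => (if n = 0 then (1 : ℝ) else 0) + 1 / t * (1 / (n : ℝ) ^ 2)) :=
    (hasSum_ite_eq (0 : ℤ) (1 : ℝ)).summable.add (summable_inv_sq.mul_left _)
  refine Summable.of_nonneg_of_le (fun n => (Real.exp_pos _).le) (fun n => ?_) h1
  split_ifs with h
  · rw [h]
    simp
  · rw [zero_add]
    exact exp_le_inv t ht n h

/-- the constant `∑_{n ≠ 0} 1/n²` -/
noncomputable def z2 : ℝ := ∑' n : ℤ, 1 / (n : ℝ) ^ 2

theorem z2_nonneg : 0 ≤ z2 := tsum_nonneg (fun n => by positivity)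

theorem A_sub_one (s : ℝ) (hs : 0 < s) : 0 ≤ A s - 1 ∧ A s - 1 ≤ 1 / s * z2 := by
  have h1 := hasSum_ite_sub_hasSum (summable_A s hs).hasSum 0
  simp only [Int.cast_zero, ne_eq, OfNat.ofNat_ne_zero, not_false_eq_true, zero_pow, mul_zero,
    neg_zero, Real.exp_zero] at h1
  have h2 : HasSum (fun n : ℤ => 1 / s * (1 / (n : ℝ) ^ 2)) (1 / s * z2) :=
    summable_inv_sq.hasSum.mul_left _
  constructor
  · exact h1.nonneg (fun n => by split_ifs; exacts [le_rfl, (Real.exp_pos _).le])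
  · refine hasSum_le (fun n => ?_) h1 h2
    split_ifs with h
    · positivity
    · exact exp_le_inv s hs n h

/-- Poisson summation -/
theorem A_poisson (t : ℝ) (ht : 0 < t) : A t = Real.sqrt (Real.pi / t) * A (Real.pi ^ 2 / t) := by
  have hπ := Real.pi_pos
  have h1 := Real.tsum_exp_neg_mul_int_sq (a := t / Real.pi) (by positivity)
  have h2 : (fun n : ℤ => Real.exp (-Real.pi * (t / Real.pi) * (n : ℝ) ^ 2))
      = fun n : ℤ => Real.exp (-(t * (n : ℝ) ^ 2)) := by
    funext n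
    congr 1
    field_simp
  have h3 : (fun n : ℤ => Real.exp (-Real.pi / (t / Real.pi) * (n : ℝ) ^ 2))
      = fun n : ℤ => Real.exp (-(Real.pi ^ 2 / t * (n : ℝ) ^ 2)) := by
    funext n
    congr 1
    field_simp
  rw [h2, h3] at h1
  unfold A
  rw [h1, ← Real.sqrt_eq_rpow, one_div, ← Real.sqrt_inv, inv_div]

/-- the error term -/
theorem A_err (t : ℝ) (ht : 0 < t) :
    0 ≤ A t - Real.sqrt (Real.pi / t) ∧
      A t - Real.sqrt (Real.pi / t) ≤ z2 / Real.pi * Real.sqrt (t / Real.pi) := by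
  have hπ := Real.pi_pos
  have h1 := A_poisson t ht
  have h2 := A_sub_one (Real.pi ^ 2 / t) (by positivity)
  have h3 : A t - Real.sqrt (Real.pi / t)
      = Real.sqrt (Real.pi / t) * (A (Real.pi ^ 2 / t) - 1) := by
    rw [h1]; ring
  rw [h3]
  constructor
  · exact mul_nonneg (Real.sqrt_nonneg _) h2.1
  · calc Real.sqrt (Real.pi / t) * (A (Real.pi ^ 2 / t) - 1)
        ≤ Real.sqrt (Real.pi / t) * (1 / (Real.pi ^ 2 / t) * z2) :=
          mul_le_mul_of_nonneg_left h2.2 (Real.sqrt_nonneg _)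
      _ = z2 / Real.pi * Real.sqrt (t / Real.pi) := by
          have h4 : Real.sqrt (Real.pi / t) * (t / Real.pi) = Real.sqrt (t / Real.pi) := by
            have h5 : Real.pi / t = (t / Real.pi)⁻¹ := by rw [inv_div]
            rw [h5, Real.sqrt_inv]
            have h6 : 0 < Real.sqrt (t / Real.pi) := Real.sqrt_pos.mpr (by positivity)
            have h7 : Real.sqrt (t / Real.pi) ^ 2 = t / Real.pi := Real.sq_sqrt (by positivity)
            rw [inv_mul_eq_div, div_eq_iff h6.ne', ← sq, h7]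
          rw [← h4]
          field_simp

theorem even_add_odd {f : ℤ → ℝ} {m m' : ℝ} (he : HasSum (fun k => f (2 * k)) m)
    (ho : HasSum (fun k => f (2 * k + 1)) m') : HasSum f (m + m') := by
  have h1 : Function.Injective (fun k : ℤ => 2 * k) := mul_right_injective₀ (two_ne_zero' ℤ)
  have h2 : Function.Injective (fun k : ℤ => 2 * k + 1) := fun a b h => by
    simp only at h; omega
  replace ho := h2.hasSum_range_iff.2 ho
  refine (h1.hasSum_range_iff.2 he).add_isCompl ?_ ho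
  have h3 : Set.range (fun k : ℤ => 2 * k) = {n : ℤ | Even n} := by
    ext n
    constructor
    · rintro ⟨k, rfl⟩
      exact ⟨k, by ring⟩
    · rintro ⟨k, hk⟩
      exact ⟨k, by simp only; omega⟩
  have h4 : Set.range (fun k : ℤ => 2 * k + 1) = {n : ℤ | Odd n} := by
    ext n
    constructor
    · rintro ⟨k, rfl⟩
      exact ⟨k, rfl⟩
    · rintro ⟨k, hk⟩
      exact ⟨k, by simp only; omega⟩
  rw [h3, h4]
  exact Int.isCompl_even_odd

/-- the odd sum -/
theorem hasSum_odd (t : ℝ) (ht : 0 < t) :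
    HasSum (fun k : ℤ => Real.exp (-(t * (((2 * k + 1 : ℤ) : ℝ)) ^ 2 / 4))) (A (t / 4) - A t) := by
  have h0 : Summable (fun n : ℤ => Real.exp (-(t / 4 * (n : ℝ) ^ 2))) :=
    summable_A (t / 4) (by positivity)
  have h2 : Function.Injective (fun k : ℤ => 2 * k + 1) := fun a b h => by
    simp only at h; omega
  have h1 := (h0.comp_injective h2).hasSum
  have he : HasSum (fun k : ℤ => Real.exp (-(t / 4 * ((2 * k : ℤ) : ℝ) ^ 2))) (A t) := by
    have h3 : (fun k : ℤ => Real.exp (-(t / 4 * ((2 * k : ℤ) : ℝ) ^ 2)))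
        = fun k : ℤ => Real.exp (-(t * (k : ℝ) ^ 2)) := by
      funext k
      congr 1
      push_cast
      ring
    rw [h3]
    exact (summable_A t ht).hasSum
  have h4 := even_add_odd (f := fun n : ℤ => Real.exp (-(t / 4 * (n : ℝ) ^ 2))) he h1
  have h5 := h4.unique h0.hasSum
  have h6 : A (t / 4) - A t = ∑' (b : ℤ), ((fun n : ℤ => Real.exp (-(t / 4 * (n : ℝ) ^ 2))) ∘
      fun k => 2 * k + 1) b := by
    have h7 : A (t / 4) = ∑' n : ℤ, Real.exp (-(t / 4 * (n : ℝ) ^ 2)) := rfl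
    rw [h7, ← h5]
    ring
  rw [h6]
  have h8 : (fun k : ℤ => Real.exp (-(t * (((2 * k + 1 : ℤ) : ℝ)) ^ 2 / 4)))
      = ((fun n : ℤ => Real.exp (-(t / 4 * (n : ℝ) ^ 2))) ∘ fun k => 2 * k + 1) := by
    funext k
    simp only [Function.comp]
    congr 1
    push_cast
    ring
  rw [h8]
  exact h1

/-- the summand -/
noncomputable def S (t : ℝ) (p : ℤ × ℤ) : ℝ :=
  Real.exp (-(t * ((p.1 : ℝ) ^ 2 + p.1 * p.2 + (p.2 : ℝ) ^ 2)))

theorem summable_S (t : ℝ) (ht : 0 < t) : Summable (S t) := by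
  have h1 := summable_A (t / 2) (by positivity)
  have h2 := h1.mul_of_nonneg h1 (fun n => (Real.exp_pos _).le) (fun n => (Real.exp_pos _).le)
  refine Summable.of_nonneg_of_le (fun p => (Real.exp_pos _).le) (fun p => ?_) h2
  unfold S
  rw [← Real.exp_add]
  apply Real.exp_le_exp.mpr
  nlinarith [mul_nonneg ht.le (sq_nonneg ((p.1 : ℝ) + p.2))]

theorem fiber_even (t : ℝ) (ht : 0 < t) (m : ℤ) :
    HasSum (fun c : ℤ => S t (2 * m, c)) (Real.exp (-(3 * t * (m : ℝ) ^ 2)) * A t) := by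
  have h1 := (summable_A t ht).hasSum
  have h2 := (Equiv.addRight m).hasSum_iff.mpr h1
  have h3 := h2.mul_left (Real.exp (-(3 * t * (m : ℝ) ^ 2)))
  have h4 : (fun c : ℤ => S t (2 * m, c)) = fun c : ℤ => Real.exp (-(3 * t * (m : ℝ) ^ 2)) *
      ((fun n : ℤ => Real.exp (-(t * (n : ℝ) ^ 2))) ∘ (Equiv.addRight m)) c := by
    funext c
    simp only [S, Function.comp, Equiv.coe_addRight]
    rw [← Real.exp_add]
    congr 1
    push_cast
    ring
  rw [h4]
  exact h3

theorem fiber_odd (t : ℝ) (ht : 0 < t) (m : ℤ) :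
    HasSum (fun c : ℤ => S t (2 * m + 1, c))
      (Real.exp (-(3 * t * ((2 * m + 1 : ℤ) : ℝ) ^ 2 / 4)) * (A (t / 4) - A t)) := by
  have h1 := hasSum_odd t ht
  have h2 := (Equiv.addRight m).hasSum_iff.mpr h1
  have h3 := h2.mul_left (Real.exp (-(3 * t * ((2 * m + 1 : ℤ) : ℝ) ^ 2 / 4)))
  have h4 : (fun c : ℤ => S t (2 * m + 1, c)) = fun c : ℤ =>
      Real.exp (-(3 * t * ((2 * m + 1 : ℤ) : ℝ) ^ 2 / 4)) *
      ((fun k : ℤ => Real.exp (-(t * (((2 * k + 1 : ℤ) : ℝ)) ^ 2 / 4))) ∘ (Equiv.addRight m)) c := by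
    funext c
    simp only [S, Function.comp, Equiv.coe_addRight]
    rw [← Real.exp_add]
    congr 1
    push_cast
    ring
  rw [h4]
  exact h3

theorem theta_eq (t : ℝ) (ht : 0 < t) :
    ∑' p, S t p = A (3 * t) * A t + (A (3 * t / 4) - A (3 * t)) * (A (t / 4) - A t) := by
  have h3t : 0 < 3 * t := by positivity
  have hs := summable_S t ht
  have h1 : HasSum (fun b : ℤ => ∑' c : ℤ, S t (b, c)) (∑' p, S t p) :=
    hs.hasSum.prod_fiberwise (fun b => (hs.prod_factor b).hasSum)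
  have he : HasSum (fun m : ℤ => ∑' c : ℤ, S t (2 * m, c)) (A (3 * t) * A t) := by
    have h2 : (fun m : ℤ => ∑' c : ℤ, S t (2 * m, c))
        = fun m : ℤ => Real.exp (-(3 * t * (m : ℝ) ^ 2)) * A t := by
      funext m
      exact (fiber_even t ht m).tsum_eq
    rw [h2]
    exact (summable_A (3 * t) h3t).hasSum.mul_right (A t)
  have ho : HasSum (fun m : ℤ => ∑' c : ℤ, S t (2 * m + 1, c))
      ((A (3 * t / 4) - A (3 * t)) * (A (t / 4) - A t)) := by
    have h2 : (fun m : ℤ => ∑' c : ℤ, S t (2 * m + 1, c))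
        = fun m : ℤ => Real.exp (-(3 * t * ((2 * m + 1 : ℤ) : ℝ) ^ 2 / 4)) * (A (t / 4) - A t) := by
      funext m
      exact (fiber_odd t ht m).tsum_eq
    rw [h2]
    exact (hasSum_odd (3 * t) h3t).mul_right (A (t / 4) - A t)
  exact h1.unique (even_add_odd he ho)

/-- error bound with one constant -/
theorem A_approx : ∃ K : ℝ, 0 ≤ K ∧ ∀ t : ℝ, 0 < t →
    |A t - Real.sqrt Real.pi / Real.sqrt t| ≤ K * Real.sqrt t := by
  refine ⟨z2 / Real.pi / Real.sqrt Real.pi, ?_, ?_⟩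
  · have := z2_nonneg
    have hπ := Real.pi_pos
    positivity
  · intro t ht
    have h1 := A_err t ht
    have hπ := Real.pi_pos
    rw [Real.sqrt_div hπ.le, Real.sqrt_div ht.le] at h1
    rw [abs_of_nonneg h1.1]
    calc A t - Real.sqrt Real.pi / Real.sqrt t ≤ _ := h1.2
      _ = z2 / Real.pi / Real.sqrt Real.pi * Real.sqrt t := by ring

end Pool.KS.HexAAux

namespace Pool.KS

open HexAAux

theorem HEXA_proof : Stmt_HEXA := by
  obtain ⟨K, hK0, hK⟩ := A_approx
  set P := Real.sqrt Real.pi with hP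
  have hPpos : 0 < P := Real.sqrt_pos.mpr Real.pi_pos
  have hPP : P ^ 2 = Real.pi := Real.sq_sqrt Real.pi_pos.le
  have h3 : 0 < Real.sqrt 3 := Real.sqrt_pos.mpr (by norm_num)
  have h33 : Real.sqrt 3 ^ 2 = 3 := Real.sq_sqrt (by norm_num)
  have h32 : Real.sqrt 3 ≤ 2 := by
    rw [Real.sqrt_le_left (by norm_num)]; norm_num
  have h31 : 1 ≤ Real.sqrt 3 := by
    rw [Real.one_le_sqrt]; norm_num
  refine ⟨max (100 * (K * P + K ^ 2)) (∑' p, S (1 / 2) p), fun t ht => summable_S t ht, ?_, ?_⟩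
  · intro t ht ht1
    refine le_trans ?_ (le_max_left _ _)
    have h1 : (∑' p : ℤ × ℤ, Real.exp (-(t * ((p.1 : ℝ) ^ 2 + p.1 * p.2 + (p.2 : ℝ) ^ 2))))
        = ∑' p, S t p := rfl
    rw [h1, theta_eq t ht]
    set s := Real.sqrt t with hs
    have hs0 : 0 < s := Real.sqrt_pos.mpr ht
    have hs1 : s ≤ 1 := Real.sqrt_le_one.mpr ht1
    have hss : s ^ 2 = t := Real.sq_sqrt ht.le
    have e1 : Real.sqrt (3 * t) = Real.sqrt 3 * s := Real.sqrt_mul (by norm_num) t
    have e4 : Real.sqrt 4 = 2 := by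
      rw [show (4 : ℝ) = 2 ^ 2 by norm_num, Real.sqrt_sq (by norm_num)]
    have e2 : Real.sqrt (3 * t / 4) = Real.sqrt 3 * s / 2 := by
      rw [Real.sqrt_div (by positivity), e1, e4]
    have e3 : Real.sqrt (t / 4) = s / 2 := by
      rw [Real.sqrt_div (by positivity), e4]
    have a1 := hK t ht
    have a2 := hK (t / 4) (by positivity)
    have a3 := hK (3 * t) (by positivity)
    have a4 := hK (3 * t / 4) (by positivity)
    rw [e1] at a3
    rw [e2] at a4
    rw [e3] at a2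
    rw [← hs] at a1
    -- write `A = main + err`
    obtain ⟨x1, hx1⟩ : ∃ x, x = A t - P / s := ⟨_, rfl⟩
    obtain ⟨x2, hx2⟩ : ∃ x, x = A (t / 4) - P / (s / 2) := ⟨_, rfl⟩
    obtain ⟨x3, hx3⟩ : ∃ x, x = A (3 * t) - P / (Real.sqrt 3 * s) := ⟨_, rfl⟩
    obtain ⟨x4, hx4⟩ : ∃ x, x = A (3 * t / 4) - P / (Real.sqrt 3 * s / 2) := ⟨_, rfl⟩
    rw [← hx1] at a1
    rw [← hx2] at a2
    rw [← hx3] at a3
    rw [← hx4] at a4
    have b1 : |x1| ≤ 2 * K * s := le_trans a1 (by nlinarith)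
    have b2 : |x2| ≤ 2 * K * s := le_trans a2 (by nlinarith)
    have b3 : |x3| ≤ 2 * K * s := le_trans a3 (by
      have : Real.sqrt 3 * s ≤ 2 * s := mul_le_mul_of_nonneg_right h32 hs0.le
      nlinarith)
    have b4 : |x4| ≤ 2 * K * s := le_trans a4 (by
      have : Real.sqrt 3 * s ≤ 2 * s := mul_le_mul_of_nonneg_right h32 hs0.le
      nlinarith)
    have c1 : A t = P / s + x1 := by rw [hx1]; ring
    have c2 : A (t / 4) = 2 * (P / s) + x2 := by rw [hx2]; field_simp; ring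
    have c3 : A (3 * t) = P / s / Real.sqrt 3 + x3 := by rw [hx3]; field_simp; ring
    have c4 : A (3 * t / 4) = 2 * (P / s / Real.sqrt 3) + x4 := by rw [hx4]; field_simp; ring
    have main : 2 * Real.pi / (Real.sqrt 3 * t) = 2 * (P / s) * (P / s / Real.sqrt 3) := by
      rw [← hPP, ← hss]; field_simp
    rw [c1, c2, c3, c4, main]
    set y := P / s with hy
    have hy0 : 0 < y := div_pos hPpos hs0
    set z := y / Real.sqrt 3 with hz
    have hz0 : 0 < z := div_pos hy0 h3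
    have hzy : z ≤ y := by
      rw [hz, div_le_iff₀ h3]; nlinarith
    have key : ∀ x : ℝ, |x| ≤ 2 * K * s → |x| * y ≤ 2 * K * P := by
      intro x hx
      calc |x| * y ≤ 2 * K * s * y := mul_le_mul_of_nonneg_right hx hy0.le
        _ = 2 * K * P := by rw [hy]; field_simp
    have key2 : ∀ x x' : ℝ, |x| ≤ 2 * K * s → |x'| ≤ 2 * K * s → |x * x'| ≤ 4 * K ^ 2 := by
      intro x x' hx hx'
      rw [abs_mul]
      have h5 : 2 * K * s ≤ 2 * K := by nlinarith
      calc |x| * |x'| ≤ (2 * K) * (2 * K) := by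
            apply mul_le_mul (hx.trans h5) (hx'.trans h5) (abs_nonneg _) (by positivity)
        _ = 4 * K ^ 2 := by ring
    have d1 := key x1 b1
    have d2 := key x2 b2
    have d3 := key x3 b3
    have d4 := key x4 b4
    have hexp : (z + x3) * (y + x1) + (2 * z + x4 - (z + x3)) * (2 * y + x2 - (y + x1))
        - 2 * y * z = (z * x2 + y * x4) + (x3 * x1 + x4 * x2 - x4 * x1 - x3 * x2 + x3 * x1) := by
      ring
    rw [hexp]
    have f1 : |z * x2| ≤ 2 * K * P := by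
      rw [abs_mul, abs_of_pos hz0, mul_comm]
      exact le_trans (mul_le_mul_of_nonneg_left hzy (abs_nonneg _)) d2
    have f2 : |y * x4| ≤ 2 * K * P := by
      rw [abs_mul, abs_of_pos hy0, mul_comm]
      exact d4
    have f3 := key2 x3 x1 b3 b1
    have f4 := key2 x4 x2 b4 b2
    have f5 := key2 x4 x1 b4 b1
    have f6 := key2 x3 x2 b3 b2
    have hKP : 0 ≤ K * P := mul_nonneg hK0 hPpos.le
    have hK2 : 0 ≤ K ^ 2 := sq_nonneg K
    clear a1 a2 a3 a4 b1 b2 b3 b4 c1 c2 c3 c4 main key key2 d1 d2 d3 d4 hexp hx1 hx2 hx3 hx4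
    rw [abs_le] at f1 f2 f3 f4 f5 f6 ⊢
    constructor
    · linarith [f1.1, f2.1, f3.1, f4.1, f5.2, f6.2]
    · linarith [f1.2, f2.2, f3.2, f4.2, f5.1, f6.1]
  · intro t ht
    have ht0 : 0 < t := by linarith
    have h1 : (∑' p : ℤ × ℤ, Real.exp (-(t * ((p.1 : ℝ) ^ 2 + p.1 * p.2 + (p.2 : ℝ) ^ 2))))
        = ∑' p, S t p := rfl
    rw [h1]
    have h2 := hasSum_ite_sub_hasSum (summable_S t ht0).hasSum 0
    have h4 : S t 0 = 1 := by simp [S]
    rw [h4] at h2
    have h5 : HasSum (fun p => Real.exp (-t / 2) * S (1 / 2) p)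
        (Real.exp (-t / 2) * ∑' p, S (1 / 2) p) :=
      (summable_S (1 / 2) (by norm_num)).hasSum.mul_left _
    have h6 : 0 ≤ (∑' p, S t p) - 1 :=
      h2.nonneg (fun p => by split_ifs; exacts [le_rfl, (Real.exp_pos _).le])
    rw [abs_of_nonneg h6]
    have h7 : (∑' p, S t p) - 1 ≤ Real.exp (-t / 2) * ∑' p, S (1 / 2) p := by
      refine hasSum_le (fun p => ?_) h2 h5
      split_ifs with hp
      · exact mul_nonneg (Real.exp_pos _).le (Real.exp_pos _).le
      · unfold S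
        rw [← Real.exp_add]
        apply Real.exp_le_exp.mpr
        have hQ : (1 : ℝ) ≤ (p.1 : ℝ) ^ 2 + p.1 * p.2 + (p.2 : ℝ) ^ 2 := by
          have hQ' : (1 : ℤ) ≤ p.1 ^ 2 + p.1 * p.2 + p.2 ^ 2 := by
            by_contra hcon
            apply hp
            have h8 : p.1 ^ 2 + p.1 * p.2 + p.2 ^ 2 ≤ 0 := by linarith
            have h9 : p.1 ^ 2 ≤ 0 := by nlinarith [sq_nonneg (p.1 + 2 * p.2), sq_nonneg p.1]
            have h10 : p.2 ^ 2 ≤ 0 := by nlinarith [sq_nonneg (p.2 + 2 * p.1), sq_nonneg p.2]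
            have h11 : p.1 = 0 := by nlinarith [sq_nonneg p.1]
            have h12 : p.2 = 0 := by nlinarith [sq_nonneg p.2]
            exact Prod.ext h11 h12
          exact_mod_cast hQ'
        nlinarith
    calc (∑' p, S t p) - 1 ≤ Real.exp (-t / 2) * ∑' p, S (1 / 2) p := h7
      _ = (∑' p, S (1 / 2) p) * Real.exp (-t / 2) := mul_comm _ _
      _ ≤ _ := mul_le_mul_of_nonneg_right (le_max_right _ _) (Real.exp_pos _).le

end Pool.KS
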