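import Mathlib

/-! Squad KS (MP_6f8d6f_an), module HEXB, arithmetic part: the number of representations of `n`
by `a^2 + a b + b^2` is `6 ∑_{d ∣ n} χ(d)`, by the recursion
`r(p n) = (1 + χ(p)) r(n) - χ(p) r(n / p)`. -/

set_option autoImplicit false

namespace Pool.KS.HexR

open Finset

/-- the form -/
def Q (z : ℤ × ℤ) : ℤ := z.1 ^ 2 + z.1 * z.2 + z.2 ^ 2

/-- multiplication of `a + b ω`, `ω^2 = ω - 1` -/
def ml (u z : ℤ × ℤ) : ℤ × ℤ :=
  (u.1 * z.1 - u.2 * z.2, u.1 * z.2 + u.2 * z.1 + u.2 * z.2)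

/-- conjugation -/
def cj (z : ℤ × ℤ) : ℤ × ℤ := (z.1 + z.2, -z.2)

theorem Q_ml (u z : ℤ × ℤ) : Q (ml u z) = Q u * Q z := by
  simp only [Q, ml]; ring

theorem Q_cj (u : ℤ × ℤ) : Q (cj u) = Q u := by
  simp only [Q, cj]; ring

theorem cj_ml (u z : ℤ × ℤ) : ml (cj u) (ml u z) = (Q u * z.1, Q u * z.2) := by
  simp only [Q, ml, cj, Prod.mk.injEq]
  constructor <;> ring

theorem ml_cj (u z : ℤ × ℤ) : ml u (ml (cj u) z) = (Q u * z.1, Q u * z.2) := by
  simp only [Q, ml, cj, Prod.mk.injEq]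
  constructor <;> ring

theorem cj_cj (u : ℤ × ℤ) : cj (cj u) = u := by
  simp [cj]

theorem Q_smul (p : ℤ) (z : ℤ × ℤ) : Q (p * z.1, p * z.2) = p ^ 2 * Q z := by
  simp only [Q]; ring

theorem ml_smul (p : ℤ) (u z : ℤ × ℤ) :
    ml u (p * z.1, p * z.2) = (p * (ml u z).1, p * (ml u z).2) := by
  simp only [ml, Prod.mk.injEq]; constructor <;> ring

theorem ml_inj {u : ℤ × ℤ} (hu : Q u ≠ 0) {z w : ℤ × ℤ} (h : ml u z = ml u w) : z = w := by
  have h1 := cj_ml u z
  rw [h, cj_ml] at h1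
  rw [Prod.mk.injEq] at h1
  ext
  · exact (mul_left_cancel₀ hu h1.1).symm
  · exact (mul_left_cancel₀ hu h1.2).symm

/-- representations of `n` -/
noncomputable def rep (n : ℕ) : Finset (ℤ × ℤ) :=
  ((Finset.Icc (-(2 * (n : ℤ))) (2 * n)) ×ˢ (Finset.Icc (-(2 * (n : ℤ))) (2 * n))).filter
    (fun z => Q z = n)

theorem mem_rep (n : ℕ) (z : ℤ × ℤ) : z ∈ rep n ↔ Q z = n := by
  unfold rep
  rw [mem_filter]
  constructor
  · exact fun h => h.2
  · intro h
    refine ⟨?_, h⟩
    rw [Finset.mem_product, Finset.mem_Icc, Finset.mem_Icc]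
    have h1 : z.1 ^ 2 ≤ 2 * n := by
      rw [← h]; unfold Q; nlinarith [sq_nonneg (z.1 + 2 * z.2), sq_nonneg z.1]
    have h2 : z.2 ^ 2 ≤ 2 * n := by
      rw [← h]; unfold Q; nlinarith [sq_nonneg (z.2 + 2 * z.1), sq_nonneg z.2]
    have habs : ∀ a : ℤ, |a| ≤ a ^ 2 := by
      intro a
      rcases eq_or_ne a 0 with h | h
      · rw [h]; simp
      · have := Int.one_le_abs h
        rw [← sq_abs]
        nlinarith
    have h3 : |z.1| ≤ z.1 ^ 2 := habs _
    have h4 : |z.2| ≤ z.2 ^ 2 := habs _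
    have h5 := abs_le.mp (h3.trans h1)
    have h6 := abs_le.mp (h4.trans h2)
    exact ⟨⟨h5.1, h5.2⟩, ⟨h6.1, h6.2⟩⟩

theorem Q_nonneg (z : ℤ × ℤ) : 0 ≤ Q z := by
  unfold Q; nlinarith [sq_nonneg (z.1 + 2 * z.2), sq_nonneg z.1]

theorem Q_pos {z : ℤ × ℤ} (hz : z ≠ 0) : 0 < Q z := by
  rcases (Q_nonneg z).lt_or_eq with h | h
  · exact h
  · exfalso
    apply hz
    unfold Q at h
    have h1 : z.1 ^ 2 ≤ 0 := by nlinarith [sq_nonneg (z.1 + 2 * z.2), sq_nonneg z.1]
    have h2 : z.2 ^ 2 ≤ 0 := by nlinarith [sq_nonneg (z.2 + 2 * z.1), sq_nonneg z.2]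
    have h3 : z.1 = 0 := by nlinarith [sq_nonneg z.1]
    have h4 : z.2 = 0 := by nlinarith [sq_nonneg z.2]
    exact Prod.ext h3 h4

/-! ### image of `rep n` under the multiplication by `u` -/

theorem mem_image_ml {p n : ℕ} {u : ℤ × ℤ} (hu : Q u = p) (hp : 0 < p) (z : ℤ × ℤ) :
    z ∈ (rep n).image (ml u) ↔
      Q z = p * n ∧ (p : ℤ) ∣ (ml (cj u) z).1 ∧ (p : ℤ) ∣ (ml (cj u) z).2 := by
  have hp' : (p : ℤ) ≠ 0 := by exact_mod_cast hp.ne'
  rw [Finset.mem_image]
  constructor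
  · rintro ⟨w, hw, rfl⟩
    rw [mem_rep] at hw
    rw [Q_ml, hu, hw, cj_ml, hu]
    exact ⟨rfl, dvd_mul_right _ _, dvd_mul_right _ _⟩
  · rintro ⟨h1, ⟨a, ha⟩, ⟨b, hb⟩⟩
    refine ⟨(a, b), ?_, ?_⟩
    · rw [mem_rep]
      have h2 : Q (ml (cj u) z) = p * (p * n) := by
        rw [Q_ml, Q_cj, hu, h1]
      have h3 : ml (cj u) z = ((p : ℤ) * a, (p : ℤ) * b) := Prod.ext ha hb
      rw [h3] at h2
      have h4 := Q_smul p (a, b)
      simp only at h4
      rw [h4] at h2
      have h5 : (p : ℤ) ^ 2 ≠ 0 := pow_ne_zero _ hp'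
      apply mul_left_cancel₀ h5
      rw [h2]; ring
    · have h3 : ml (cj u) z = ((p : ℤ) * a, (p : ℤ) * b) := Prod.ext ha hb
      have h4 := ml_cj u z
      rw [h3] at h4
      have h5 := ml_smul p u (a, b)
      simp only at h5
      rw [h5, hu, Prod.mk.injEq] at h4
      exact Prod.ext (mul_left_cancel₀ hp' h4.1) (mul_left_cancel₀ hp' h4.2)

theorem card_image_ml {p n : ℕ} {u : ℤ × ℤ} (hu : Q u = p) (hp : 0 < p) :
    ((rep n).image (ml u)).card = (rep n).card := by
  apply Finset.card_image_of_injective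
  intro z w h
  exact ml_inj (u := u) (by rw [hu]; exact_mod_cast hp.ne') h

/-! ### multiples of `p` -/

/-- multiples of `p` among the representations -/
noncomputable def mul (p : ℕ) (m : ℕ) : Finset (ℤ × ℤ) :=
  (rep m).filter (fun z => (p : ℤ) ∣ z.1 ∧ (p : ℤ) ∣ z.2)

theorem mul_eq {p m : ℕ} (hp : 0 < p) (n : ℕ) (h : m = p * p * n) :
    (mul p m).card = (rep n).card := by
  have hp' : (p : ℤ) ≠ 0 := by exact_mod_cast hp.ne'
  have h1 : mul p m = (rep n).image (fun z => ((p : ℤ) * z.1, (p : ℤ) * z.2)) := by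
    ext z
    unfold mul
    rw [mem_filter, mem_rep, mem_image]
    constructor
    · rintro ⟨h2, ⟨a, ha⟩, ⟨b, hb⟩⟩
      refine ⟨(a, b), ?_, (Prod.ext ha hb).symm⟩
      rw [mem_rep]
      have h3 : z = ((p : ℤ) * a, (p : ℤ) * b) := Prod.ext ha hb
      rw [h3] at h2
      have h4 := Q_smul p (a, b)
      simp only at h4
      rw [h4, h] at h2
      have h5 : (p : ℤ) ^ 2 ≠ 0 := pow_ne_zero _ hp'
      apply mul_left_cancel₀ h5
      rw [h2]; push_cast; ring
    · rintro ⟨w, hw, rfl⟩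
      rw [mem_rep] at hw
      rw [Q_smul, hw, h]
      refine ⟨by push_cast; ring, dvd_mul_right _ _, dvd_mul_right _ _⟩
  rw [h1]
  apply Finset.card_image_of_injective
  intro z w h2
  simp only [Prod.mk.injEq] at h2
  exact Prod.ext (mul_left_cancel₀ hp' h2.1) (mul_left_cancel₀ hp' h2.2)

theorem mul_empty {p m : ℕ} (h : ¬ p * p ∣ m) : (mul p m).card = 0 := by
  rw [Finset.card_eq_zero]
  unfold mul
  rw [Finset.filter_eq_empty_iff]
  rintro z hz ⟨⟨a, ha⟩, ⟨b, hb⟩⟩
  rw [mem_rep] at hz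
  apply h
  have h3 : z = ((p : ℤ) * a, (p : ℤ) * b) := Prod.ext ha hb
  rw [h3] at hz
  have h4 := Q_smul p (a, b)
  simp only at h4
  rw [h4] at hz
  have h5 : ((p * p : ℕ) : ℤ) ∣ (m : ℤ) := ⟨Q (a, b), by rw [← hz]; push_cast; ring⟩
  exact_mod_cast h5

/-! ### the three cases -/

/-- the character modulo `3` -/
def chi (n : ℕ) : ℤ := if n % 3 = 1 then 1 else if n % 3 = 2 then -1 else 0

theorem chi_mul (m n : ℕ) : chi (m * n) = chi m * chi n := by
  unfold chi
  rw [Nat.mul_mod]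
  have h1 : m % 3 < 3 := Nat.mod_lt _ (by norm_num)
  have h2 : n % 3 < 3 := Nat.mod_lt _ (by norm_num)
  generalize m % 3 = a at *
  generalize n % 3 = b at *
  interval_cases a <;> interval_cases b <;> simp

theorem case3 (n : ℕ) : (rep (3 * n)).card = (rep n).card := by
  have h : rep (3 * n) = (rep n).image (ml (1, 1)) := by
    ext z
    rw [mem_image_ml (p := 3) (u := (1, 1)) (by simp [Q]) (by norm_num), mem_rep]
    constructor
    · intro h
      push_cast at h ⊢
      refine ⟨h, ?_⟩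
      simp only [cj, ml]
      unfold Q at h
      have h1 : (3 : ℤ) ∣ (z.1 - z.2) ^ 2 := ⟨n - z.1 * z.2, by linarith [h]⟩
      have h2 : (3 : ℤ) ∣ z.1 - z.2 := Int.prime_three.dvd_of_dvd_pow h1
      obtain ⟨k, hk⟩ := h2
      constructor
      · exact ⟨z.1 - k, by linarith⟩
      · exact ⟨-k, by linarith⟩
    · intro h
      push_cast at h ⊢
      exact h.1
  rw [h, card_image_ml (p := 3) (u := (1, 1)) (by simp [Q]) (by norm_num)]

/-- a root of `h² + h + 1` exists modulo a prime `p ≠ 3` iff `p ≡ 1 mod 3` -/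
theorem root_mod {p : ℕ} [Fact p.Prime] (x : ZMod p) (hx : x ^ 2 + x + 1 = 0) (h3 : p ≠ 3) :
    p % 3 = 1 := by
  have h1 : x ^ 3 = 1 := by linear_combination (x - 1) * hx
  have h2 : x ≠ 1 := by
    intro h
    rw [h] at hx
    have h4 : ((3 : ℕ) : ZMod p) = 0 := by push_cast; linear_combination hx
    rw [ZMod.natCast_eq_zero_iff] at h4
    have h5 := (Nat.prime_dvd_prime_iff_eq (Fact.out : p.Prime) Nat.prime_three).mp h4
    exact h3 h5
  have h0 : x ≠ 0 := by
    intro h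
    rw [h] at hx
    simp at hx
  have h4 : orderOf x = 3 := orderOf_eq_prime h1 h2
  have h5 : x ^ (p - 1) = 1 := ZMod.pow_card_sub_one_eq_one h0
  have h6 := orderOf_dvd_of_pow_eq_one h5
  rw [h4] at h6
  have h7 : 1 < p := (Fact.out : p.Prime).one_lt
  omega

theorem dvd_of_dvd_Q {p : ℕ} (hp : p.Prime) (h3 : p ≠ 3) (h1 : p % 3 ≠ 1) {z : ℤ × ℤ}
    (h : (p : ℤ) ∣ Q z) : (p : ℤ) ∣ z.1 ∧ (p : ℤ) ∣ z.2 := by
  have : Fact p.Prime := ⟨hp⟩
  have h4 : ((Q z : ℤ) : ZMod p) = 0 := (ZMod.intCast_zmod_eq_zero_iff_dvd _ _).mpr h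
  unfold Q at h4
  push_cast at h4
  have h5 : (p : ℤ) ∣ z.2 := by
    by_contra hcon
    have h6 : ((z.2 : ℤ) : ZMod p) ≠ 0 := fun h =>
      hcon ((ZMod.intCast_zmod_eq_zero_iff_dvd _ _).mp h)
    apply h1
    apply root_mod ((z.1 : ZMod p) / (z.2 : ZMod p)) _ h3
    field_simp
    linear_combination h4
  refine ⟨?_, h5⟩
  have h6 : ((z.2 : ℤ) : ZMod p) = 0 := (ZMod.intCast_zmod_eq_zero_iff_dvd _ _).mpr h5
  rw [h6] at h4
  have h7 : ((z.1 : ℤ) : ZMod p) = 0 := by
    have h8 : ((z.1 : ℤ) : ZMod p) ^ 2 = 0 := by linear_combination h4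
    exact pow_eq_zero_iff (two_ne_zero) |>.mp h8
  exact (ZMod.intCast_zmod_eq_zero_iff_dvd _ _).mp h7

theorem rep_eq_mul {p : ℕ} (hp : p.Prime) (h3 : p ≠ 3) (h1 : p % 3 ≠ 1) (n : ℕ) :
    rep (p * n) = mul p (p * n) := by
  unfold mul
  rw [Finset.filter_true_of_mem]
  intro z hz
  rw [mem_rep] at hz
  exact dvd_of_dvd_Q hp h3 h1 (hz ▸ ⟨n, by push_cast; ring⟩)

theorem exists_root {p : ℕ} (hp : p.Prime) (h1 : p % 3 = 1) :
    ∃ h : ℤ, (p : ℤ) ∣ h ^ 2 + h + 1 := by
  have : Fact p.Prime := ⟨hp⟩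
  have h2 : 3 ∣ Fintype.card (ZMod p)ˣ := by
    rw [ZMod.card_units_eq_totient, Nat.totient_prime hp]
    have := hp.one_lt
    omega
  have : Fact (Nat.Prime 3) := ⟨Nat.prime_three⟩
  obtain ⟨x, hx⟩ := exists_prime_orderOf_dvd_card 3 h2
  have h3 : x ^ 3 = 1 := by rw [← hx]; exact pow_orderOf_eq_one x
  have h4 : x ≠ 1 := by
    intro h
    rw [h, orderOf_one] at hx
    norm_num at hx
  obtain ⟨h, hh⟩ := ZMod.intCast_surjective (x : ZMod p)
  refine ⟨h, ?_⟩
  rw [← ZMod.intCast_zmod_eq_zero_iff_dvd]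
  push_cast
  rw [hh]
  have h5 : ((x : ZMod p) - 1) * ((x : ZMod p) ^ 2 + x + 1) = 0 := by
    have h6 := congrArg Units.val h3
    rw [Units.val_pow_eq_pow_val, Units.val_one] at h6
    linear_combination h6
  rcases mul_eq_zero.mp h5 with h6 | h6
  · exfalso
    apply h4
    ext
    rw [Units.val_one]
    linear_combination h6
  · exact h6

/-- a prime `≡ 1 mod 3` is a value of `Q` (Thue) -/
theorem exists_Q_eq {p : ℕ} (hp : p.Prime) (h1 : p % 3 = 1) : ∃ u : ℤ × ℤ, Q u = p := by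
  obtain ⟨h, hh⟩ := exists_root hp h1
  have : Fact p.Prime := ⟨hp⟩
  set k := Nat.sqrt p with hk
  have hk1 : p < (k + 1) * (k + 1) := Nat.lt_succ_sqrt p
  have hk2 : k * k ≤ p := Nat.sqrt_le p
  have hk3 : k * k ≠ p := by
    intro h
    exact Nat.Prime.ne_one hp (by
      have h5 : k ∣ p := ⟨k, h.symm⟩
      rcases (Nat.dvd_prime hp).mp h5 with h6 | h6
      · rw [h6] at h; omega
      · rw [h6] at h
        have := hp.one_lt
        nlinarith)
  -- pigeonhole
  have hpig : ∃ x ∈ (Finset.range (k + 1) ×ˢ Finset.range (k + 1)),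
      ∃ y ∈ (Finset.range (k + 1) ×ˢ Finset.range (k + 1)), x ≠ y ∧
        ((x.1 : ZMod p) - (h : ZMod p) * x.2 = (y.1 : ZMod p) - (h : ZMod p) * y.2) := by
    apply Finset.exists_ne_map_eq_of_card_lt_of_maps_to (t := (Finset.univ : Finset (ZMod p)))
    · rw [Finset.card_product, Finset.card_range, Finset.card_univ, ZMod.card]
      exact hk1
    · intro x _
      exact Finset.mem_coe.mpr (Finset.mem_univ _)
  obtain ⟨x, hx, y, hy, hxy, heq⟩ := hpig
  rw [Finset.mem_product, Finset.mem_range, Finset.mem_range] at hx hy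
  set a : ℤ := (x.1 : ℤ) - y.1 with ha
  set b : ℤ := (x.2 : ℤ) - y.2 with hb
  have hab : (a, b) ≠ (0 : ℤ × ℤ) := by
    intro h0
    apply hxy
    rw [Prod.mk_eq_zero] at h0
    ext
    · have := h0.1; omega
    · have := h0.2; omega
  have hdvd : (p : ℤ) ∣ a - h * b := by
    rw [← ZMod.intCast_zmod_eq_zero_iff_dvd]
    rw [ha, hb]
    push_cast
    linear_combination heq
  have hQ : (p : ℤ) ∣ Q (a, b) := by
    obtain ⟨c, hc⟩ := hdvd
    obtain ⟨e, he⟩ := hh
    have h5 : a = p * c + h * b := by linarith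
    simp only [Q]
    refine ⟨c * (a + h * b + b) + b ^ 2 * e, ?_⟩
    have h6 : b ^ 2 * (h ^ 2 + h + 1) = b ^ 2 * (p * e) := by rw [he]
    rw [h5]
    linear_combination h6
  have hpos : 0 < Q (a, b) := Q_pos hab
  have hka : |a| ≤ k := by rw [abs_le]; constructor <;> omega
  have hkb : |b| ≤ k := by rw [abs_le]; constructor <;> omega
  have hkp : (k : ℤ) * k < p := by
    have : k * k < p := lt_of_le_of_ne hk2 hk3
    exact_mod_cast this
  have hlt : Q (a, b) < 3 * p := by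
    simp only [Q]
    have h5 : a ^ 2 ≤ k * k := by rw [← sq_abs]; nlinarith [abs_nonneg a]
    have h6 : b ^ 2 ≤ k * k := by rw [← sq_abs]; nlinarith [abs_nonneg b]
    nlinarith [sq_nonneg (a - b)]
  obtain ⟨c, hc⟩ := hQ
  have hp0 : (0 : ℤ) < p := by exact_mod_cast hp.pos
  have hc1 : 0 < c := by
    by_contra hcon
    have : (p : ℤ) * c ≤ 0 := mul_nonpos_of_nonneg_of_nonpos hp0.le (by linarith)
    linarith
  have hc2 : c < 3 := by
    by_contra hcon
    have : (p : ℤ) * 3 ≤ p * c := mul_le_mul_of_nonneg_left (by linarith) hp0.le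
    linarith
  have hc3 : c = 1 ∨ c = 2 := by omega
  rcases hc3 with hc3 | hc3
  · exact ⟨(a, b), by rw [hc, hc3, mul_one]⟩
  · exfalso
    rw [hc3] at hc
    have h2 : (2 : ℤ) ∣ Q (a, b) := ⟨p, by rw [hc]; ring⟩
    have h3 : ((2 : ℕ) : ℤ) ∣ a ∧ ((2 : ℕ) : ℤ) ∣ b :=
      dvd_of_dvd_Q Nat.prime_two (by norm_num) (by norm_num) (z := (a, b)) (by exact_mod_cast h2)
    obtain ⟨⟨a', ha'⟩, ⟨b', hb'⟩⟩ := h3
    have h4 : (2 : ℤ) ∣ p := by
      refine ⟨Q (a', b'), ?_⟩
      simp only [Q] at hc ⊢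
      push_cast at ha' hb'
      rw [ha', hb'] at hc
      linarith
    have h5 : 2 ∣ p := by exact_mod_cast h4
    have h6 : p = 2 := ((Nat.prime_dvd_prime_iff_eq Nat.prime_two hp).mp h5).symm
    omega

theorem case1 {p : ℕ} (hp : p.Prime) (h1 : p % 3 = 1) (n : ℕ) :
    (rep (p * n)).card + (mul p (p * n)).card = 2 * (rep n).card := by
  obtain ⟨u, hu⟩ := exists_Q_eq hp h1
  have hp0 : (p : ℤ) ≠ 0 := by exact_mod_cast hp.ne_zero
  have hpp : Prime (p : ℤ) := Nat.prime_iff_prime_int.mp hp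
  have hcu : Q (cj u) = p := by rw [Q_cj, hu]
  set A := (rep n).image (ml u) with hA
  set B := (rep n).image (ml (cj u)) with hB
  have hunion : A ∪ B = rep (p * n) := by
    ext z
    rw [mem_union, hA, hB, mem_image_ml hu hp.pos, mem_image_ml hcu hp.pos, cj_cj, mem_rep]
    constructor
    · rintro (h | h)
      · rw [h.1]; push_cast; ring
      · rw [h.1]; push_cast; ring
    · intro h
      have h2 : Q z = p * n := by rw [h]; push_cast; ring
      -- second component of `ml (cj u) z` is `u.1 z.2 - u.2 z.1`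
      have h3 : (p : ℤ) ∣ (ml (cj u) z).2 * (ml u z).2 := by
        refine ⟨z.2 ^ 2 - n * u.2 ^ 2, ?_⟩
        have h4 : (ml (cj u) z).2 * (ml u z).2 = Q u * z.2 ^ 2 - Q z * u.2 ^ 2 := by
          simp only [ml, cj, Q]; ring
        rw [h4, hu, h2]; ring
      have key : ∀ v : ℤ × ℤ, Q v = p → (p : ℤ) ∣ (ml v z).2 → (p : ℤ) ∣ (ml v z).1 := by
        intro v hv hdv
        have h5 : Q (ml v z) = p * (p * n) := by rw [Q_ml, hv, h2]
        have h6 : (p : ℤ) ∣ (ml v z).1 ^ 2 := by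
          obtain ⟨c, hc⟩ := hdv
          unfold Q at h5
          rw [hc] at h5
          exact ⟨p * n - (ml v z).1 * c - p * c ^ 2, by linear_combination h5⟩
        exact hpp.dvd_of_dvd_pow h6
      rcases hpp.dvd_or_dvd h3 with h4 | h4
      · exact Or.inl ⟨h2, key _ hcu h4, h4⟩
      · exact Or.inr ⟨h2, key _ hu h4, h4⟩
  have hinter : A ∩ B = mul p (p * n) := by
    ext z
    rw [mem_inter, hA, hB, mem_image_ml hu hp.pos, mem_image_ml hcu hp.pos, cj_cj]
    unfold mul
    rw [mem_filter, mem_rep]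
    constructor
    · rintro ⟨⟨h2, h3, h4⟩, ⟨_, h5, h6⟩⟩
      refine ⟨by rw [h2]; push_cast; ring, ?_⟩
      -- trace of `u` is prime to `p`
      have htr : ¬ (p : ℤ) ∣ 2 * u.1 + u.2 := by
        intro ht
        obtain ⟨c, hc⟩ := ht
        have h7 : (2 * u.1 + u.2) ^ 2 = 4 * p - 3 * u.2 ^ 2 := by
          rw [← hu]; unfold Q; ring
        have h8 : (p : ℤ) ∣ 3 * u.2 ^ 2 := by
          refine ⟨4 - p * c ^ 2, ?_⟩
          rw [hc] at h7
          linear_combination h7
        have h9 : (p : ℤ) ∣ u.2 := by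
          rcases hpp.dvd_or_dvd h8 with h10 | h10
          · exfalso
            have h11 : p ∣ 3 := by exact_mod_cast h10
            have h12 := (Nat.prime_dvd_prime_iff_eq hp Nat.prime_three).mp h11
            omega
          · exact hpp.dvd_of_dvd_pow h10
        obtain ⟨e, he⟩ := h9
        have h10 : (p : ℤ) ∣ 4 := by
          refine ⟨c ^ 2 + 3 * e ^ 2, ?_⟩
          rw [hc, he] at h7
          have h11 : (p : ℤ) * (4 - p * (c ^ 2 + 3 * e ^ 2)) = 0 := by linear_combination -h7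
          rcases mul_eq_zero.mp h11 with h12 | h12
          · exact absurd h12 hp0
          · linarith
        have h11 : p ∣ 2 ^ 2 := by
          have : ((p : ℕ) : ℤ) ∣ ((2 ^ 2 : ℕ) : ℤ) := by push_cast; norm_num; exact h10
          exact_mod_cast this
        have h12 := hp.dvd_of_dvd_pow h11
        have h13 := (Nat.prime_dvd_prime_iff_eq hp Nat.prime_two).mp h12
        omega
      constructor
      · have h7 : (p : ℤ) ∣ (2 * u.1 + u.2) * z.1 := by
          have h8 : (2 * u.1 + u.2) * z.1 = (ml (cj u) z).1 + (ml u z).1 := by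
            simp only [ml, cj]; ring
          rw [h8]; exact dvd_add h3 h5
        exact (hpp.dvd_or_dvd h7).resolve_left htr
      · have h7 : (p : ℤ) ∣ (2 * u.1 + u.2) * z.2 := by
          have h8 : (2 * u.1 + u.2) * z.2 = (ml (cj u) z).2 + (ml u z).2 := by
            simp only [ml, cj]; ring
          rw [h8]; exact dvd_add h4 h6
        exact (hpp.dvd_or_dvd h7).resolve_left htr
    · rintro ⟨h2, ⟨a, ha⟩, ⟨b, hb⟩⟩
      have h3 : z = ((p : ℤ) * a, (p : ℤ) * b) := Prod.ext ha hb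
      have h4 : Q z = p * n := by rw [h2]; push_cast; ring
      have h5 := ml_smul p u (a, b)
      have h6 := ml_smul p (cj u) (a, b)
      simp only at h5 h6
      refine ⟨⟨h4, ?_, ?_⟩, ⟨h4, ?_, ?_⟩⟩
      · rw [h3, h6]; exact dvd_mul_right _ _
      · rw [h3, h6]; exact dvd_mul_right _ _
      · rw [h3, h5]; exact dvd_mul_right _ _
      · rw [h3, h5]; exact dvd_mul_right _ _
  rw [← hunion, ← hinter, Finset.card_union_add_card_inter, hA, hB, card_image_ml hu hp.pos,
    card_image_ml hcu hp.pos]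
  ring

/-- number of representations -/
noncomputable def r (n : ℕ) : ℤ := (rep n).card

theorem r_rec {p : ℕ} (hp : p.Prime) (n : ℕ) (hn : 0 < n) :
    r (p * n) = (1 + chi p) * r n - chi p * (if p ∣ n then r (n / p) else 0) := by
  have hmul : ((mul p (p * n)).card : ℤ) = if p ∣ n then r (n / p) else 0 := by
    split_ifs with h
    · obtain ⟨m, rfl⟩ := h
      rw [Nat.mul_div_cancel_left _ hp.pos, mul_eq hp.pos m (by ring)]
      rfl
    · rw [mul_empty]
      · rfl
      · intro h2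
        apply h
        exact Nat.dvd_of_mul_dvd_mul_left hp.pos h2
  by_cases h3 : p = 3
  · subst h3
    have : chi 3 = 0 := rfl
    rw [this]
    unfold r
    rw [case3]
    ring
  · by_cases h1 : p % 3 = 1
    · have h2 : chi p = 1 := by unfold chi; rw [if_pos h1]
      have h4 := case1 hp h1 n
      rw [h2, ← hmul]
      unfold r
      have h5 : (((rep (p * n)).card + (mul p (p * n)).card : ℕ) : ℤ)
        = ((2 * (rep n).card : ℕ) : ℤ) := by rw [h4]
      push_cast at h5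
      linarith
    · have h2 : p % 3 = 2 := by
        have h4 : p % 3 ≠ 0 := by
          intro h5
          have h6 : 3 ∣ p := Nat.dvd_of_mod_eq_zero h5
          exact h3 ((Nat.prime_dvd_prime_iff_eq Nat.prime_three hp).mp h6).symm
        omega
      have h4 : chi p = -1 := by unfold chi; rw [if_neg h1, if_pos h2]
      rw [h4, ← hmul]
      unfold r
      rw [rep_eq_mul hp h3 h1]
      ring

/-- the divisor sum -/
def G (n : ℕ) : ℤ := ∑ d ∈ n.divisors, chi d

theorem G_rec {p : ℕ} (hp : p.Prime) (n : ℕ) (hn : 0 < n) :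
    G (p * n) = (1 + chi p) * G n - chi p * (if p ∣ n then G (n / p) else 0) := by
  have h1 : (p * n).divisors = n.divisors ∪ n.divisors.image (fun d => p * d) := by
    ext d
    rw [mem_union, mem_image, Nat.mem_divisors, Nat.mem_divisors]
    constructor
    · rintro ⟨h2, h3⟩
      by_cases h4 : p ∣ d
      · obtain ⟨e, rfl⟩ := h4
        right
        exact ⟨e, Nat.mem_divisors.mpr ⟨Nat.dvd_of_mul_dvd_mul_left hp.pos h2, hn.ne'⟩, rfl⟩
      · left
        refine ⟨?_, hn.ne'⟩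
        have h5 : Nat.Coprime d p := ((Nat.Prime.coprime_iff_not_dvd hp).mpr h4).symm
        exact h5.dvd_of_dvd_mul_left h2
    · rintro (⟨h2, _⟩ | ⟨e, h2, rfl⟩)
      · exact ⟨h2.mul_left p, (Nat.mul_pos hp.pos hn).ne'⟩
      · rw [Nat.mem_divisors] at h2
        exact ⟨Nat.mul_dvd_mul_left p h2.1, (Nat.mul_pos hp.pos hn).ne'⟩
  have himg : ∑ d ∈ n.divisors.image (fun d => p * d), chi d = chi p * G n := by
    rw [Finset.sum_image (fun a _ b _ h => Nat.eq_of_mul_eq_mul_left hp.pos h)]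
    unfold G
    rw [Finset.mul_sum]
    exact Finset.sum_congr rfl (fun d _ => chi_mul p d)
  have hint : ∑ d ∈ n.divisors ∩ n.divisors.image (fun d => p * d), chi d
      = chi p * (if p ∣ n then G (n / p) else 0) := by
    split_ifs with h
    · obtain ⟨m, rfl⟩ := h
      have hm : 0 < m := Nat.pos_of_mul_pos_left hn
      rw [Nat.mul_div_cancel_left _ hp.pos]
      have h2 : (p * m).divisors ∩ (p * m).divisors.image (fun d => p * d)
          = m.divisors.image (fun d => p * d) := by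
        ext d
        rw [mem_inter, mem_image, mem_image]
        constructor
        · rintro ⟨h3, e, h4, rfl⟩
          rw [Nat.mem_divisors] at h3
          exact ⟨e, Nat.mem_divisors.mpr ⟨Nat.dvd_of_mul_dvd_mul_left hp.pos h3.1, hm.ne'⟩, rfl⟩
        · rintro ⟨e, h4, rfl⟩
          rw [Nat.mem_divisors] at h4
          refine ⟨Nat.mem_divisors.mpr ⟨Nat.mul_dvd_mul_left p h4.1, hn.ne'⟩, e, ?_, rfl⟩
          exact Nat.mem_divisors.mpr ⟨h4.1.mul_left p, hn.ne'⟩
      rw [h2, Finset.sum_image (fun a _ b _ h => Nat.eq_of_mul_eq_mul_left hp.pos h)]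
      unfold G
      rw [Finset.mul_sum]
      exact Finset.sum_congr rfl (fun d _ => chi_mul p d)
    · rw [mul_zero]
      apply Finset.sum_eq_zero
      intro d hd
      exfalso
      rw [mem_inter, mem_image] at hd
      obtain ⟨h3, e, h4, rfl⟩ := hd
      rw [Nat.mem_divisors] at h3
      exact h ((dvd_mul_right p e).trans h3.1)
  have h2 := Finset.sum_union_inter (s₁ := n.divisors)
    (s₂ := n.divisors.image (fun d => p * d)) (f := chi)
  rw [← h1, himg, hint] at h2
  have h3 : ∑ d ∈ (p * n).divisors, chi d = G (p * n) := rfl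
  have h4 : ∑ d ∈ n.divisors, chi d = G n := rfl
  rw [h3, h4] at h2
  linarith

theorem r_one : r 1 = 6 := by decide

theorem G_one : G 1 = 1 := by decide

/-- the number of representations of `n` by `a² + a b + b²` -/
theorem r_eq (n : ℕ) (hn : 0 < n) : r n = 6 * G n := by
  induction n using Nat.strong_induction_on with
  | _ n ih =>
    by_cases h1 : n = 1
    · rw [h1, r_one, G_one]; rfl
    · have hp := Nat.minFac_prime h1
      set p := n.minFac with hpdef
      obtain ⟨m, hm⟩ := Nat.minFac_dvd n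
      have hm0 : 0 < m := by
        rcases Nat.eq_zero_or_pos m with h | h
        · rw [h, mul_zero] at hm; omega
        · exact h
      have hmn : m < n := by
        rw [hm]
        have := hp.one_lt
        rw [← hpdef]
        nlinarith
      rw [hm, ← hpdef, r_rec hp m hm0, G_rec hp m hm0, ih m hmn hm0]
      split_ifs with h
      · have h2 : 0 < m / p := Nat.div_pos (Nat.le_of_dvd hm0 h) hp.pos
        have h3 : m / p < n := lt_of_le_of_lt (Nat.div_le_self m p) hmn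
        rw [ih (m / p) h3 h2]
        ring
      · ring

end Pool.KS.HexR
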