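import Pool.Agent.KS.Stmts
import Pool.Agent.KS.HexR

/-! Squad KS (MP_6f8d6f_an), module HEXB. -/

set_option autoImplicit false

namespace Pool.KS.HexBAux

open Finset Pool.KS.HexR

/-- the character modulo 3 on `ZMod 3` -/
noncomputable def Phi (j : ZMod 3) : ℂ := if j = 1 then 1 else if j = 2 then -1 else 0

theorem Phi_natCast (n : ℕ) : Phi (n : ZMod 3) = chi n := by
  unfold Phi chi
  have h1 : ((n : ZMod 3) = 1) ↔ n % 3 = 1 := by
    rw [show (1 : ZMod 3) = ((1 : ℕ) : ZMod 3) by norm_num, ZMod.natCast_eq_natCast_iff]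
    rfl
  have h2 : ((n : ZMod 3) = 2) ↔ n % 3 = 2 := by
    rw [show (2 : ZMod 3) = ((2 : ℕ) : ZMod 3) by norm_num, ZMod.natCast_eq_natCast_iff]
    rfl
  simp only [h1, h2]
  split_ifs <;> simp

theorem LFunction_Phi (s : ℂ) : ZMod.LFunction Phi s = (3 : ℂ) ^ (-s) * hz s := by
  unfold ZMod.LFunction hz
  have h1 : ∑ j : ZMod 3, Phi j * HurwitzZeta.hurwitzZeta (ZMod.toAddCircle j) s
      = Phi 0 * HurwitzZeta.hurwitzZeta (ZMod.toAddCircle (0 : ZMod 3)) s
        + Phi 1 * HurwitzZeta.hurwitzZeta (ZMod.toAddCircle (1 : ZMod 3)) s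
        + Phi 2 * HurwitzZeta.hurwitzZeta (ZMod.toAddCircle (2 : ZMod 3)) s :=
    Fin.sum_univ_three (fun j : ZMod 3 => Phi j * HurwitzZeta.hurwitzZeta (ZMod.toAddCircle j) s)
  have e0 : Phi 0 = 0 := by
    unfold Phi
    rw [if_neg (by decide), if_neg (by decide)]
  have e1 : Phi 1 = 1 := by
    unfold Phi
    rw [if_pos rfl]
  have e2 : Phi 2 = -1 := by
    unfold Phi
    rw [if_neg (by decide), if_pos rfl]
  have c1 : ZMod.toAddCircle (1 : ZMod 3) = (((1 / 3 : ℝ)) : UnitAddCircle) := by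
    have := ZMod.toAddCircle_natCast (N := 3) 1
    simpa using this
  have c2 : ZMod.toAddCircle (2 : ZMod 3) = (((2 / 3 : ℝ)) : UnitAddCircle) := by
    have := ZMod.toAddCircle_natCast (N := 3) 2
    simpa using this
  rw [h1, e0, e1, e2, c1, c2]
  push_cast
  ring

/-- the arithmetic function `chi` -/
noncomputable def chiA : ArithmeticFunction ℂ := ⟨fun n => (chi n : ℂ), by simp [chi]⟩

theorem chiA_apply (n : ℕ) : chiA n = (chi n : ℂ) := rfl

theorem hasSum_G (s : ℂ) (hs : 1 < s.re) :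
    LSeriesHasSum (fun n => (G n : ℂ)) s (riemannZeta s * ((3 : ℂ) ^ (-s) * hz s)) := by
  have h1 : LSeriesSummable (fun n => ((ArithmeticFunction.zeta n : ℕ) : ℂ)) s :=
    ArithmeticFunction.LSeriesSummable_zeta_iff.mpr hs
  have h2 : LSeriesHasSum (fun n => ((ArithmeticFunction.zeta n : ℕ) : ℂ)) s (riemannZeta s) :=
    ArithmeticFunction.LSeries_zeta_eq_riemannZeta hs ▸ h1.LSeriesHasSum
  have h3 : LSeriesHasSum (fun n => (chi n : ℂ)) s ((3 : ℂ) ^ (-s) * hz s) := by
    have h4 : LSeriesSummable (fun n : ℕ => Phi (n : ZMod 3)) s :=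
      ZMod.LSeriesSummable_of_one_lt_re Phi hs
    have h5 := h4.LSeriesHasSum
    rw [← ZMod.LFunction_eq_LSeries Phi hs, LFunction_Phi] at h5
    simp only [Phi_natCast] at h5
    exact h5
  have h6 := ArithmeticFunction.LSeriesHasSum_mul
    (f := (ArithmeticFunction.zeta : ArithmeticFunction ℂ)) (g := chiA) (s := s)
    (a := riemannZeta s) (b := (3 : ℂ) ^ (-s) * hz s) (by
      simpa only [ArithmeticFunction.natCoe_apply] using h2) h3
  have h7 : (fun n => ((ArithmeticFunction.zeta : ArithmeticFunction ℂ) * chiA) n)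
      = fun n => (G n : ℂ) := by
    funext n
    rw [ArithmeticFunction.coe_zeta_mul_apply]
    unfold G
    push_cast
    rfl
  rw [h7] at h6
  exact h6

/-- the value of the form as a natural number -/
def qn (p : ℤ × ℤ) : ℕ := (Q p).toNat

theorem cast_qn (p : ℤ × ℤ) : ((qn p : ℕ) : ℤ) = Q p := Int.toNat_of_nonneg (Q_nonneg p)

/-- the summand -/
noncomputable def fs (s : ℝ) (p : ℤ × ℤ) : ℝ :=
  if p = 0 then (0 : ℝ) else ((p.1 : ℝ) ^ 2 + p.1 * p.2 + (p.2 : ℝ) ^ 2) ^ (-s)

/-- the grouped summand -/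
noncomputable def gs (s : ℝ) (n : ℕ) : ℝ := if n = 0 then 0 else (r n : ℝ) * (n : ℝ) ^ (-s)

theorem fs_eq (s : ℝ) (p : ℤ × ℤ) (n : ℕ) (hn : n ≠ 0) (hp : qn p = n) :
    fs s p = (n : ℝ) ^ (-s) := by
  unfold fs
  have h1 := cast_qn p
  rw [hp] at h1
  have h2 : p ≠ 0 := by
    intro h
    rw [h] at h1
    have : Q (0 : ℤ × ℤ) = 0 := by simp [Q]
    rw [this] at h1
    exact hn (by exact_mod_cast h1)
  rw [if_neg h2]
  have h3 : ((p.1 : ℝ) ^ 2 + p.1 * p.2 + (p.2 : ℝ) ^ 2) = ((Q p : ℤ) : ℝ) := by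
    unfold Q; push_cast; ring
  rw [h3, ← h1]
  norm_num

theorem fs_nonneg (s : ℝ) (p : ℤ × ℤ) : 0 ≤ fs s p := by
  unfold fs
  split_ifs
  · exact le_rfl
  · apply Real.rpow_nonneg
    nlinarith [sq_nonneg ((p.1 : ℝ) + 2 * p.2), sq_nonneg (p.1 : ℝ)]

theorem hasSum_fiber (s : ℝ) (n : ℕ) :
    HasSum (fun x : {p : ℤ × ℤ // qn p = n} => fs s x) (gs s n) := by
  have h1 : HasSum ((fs s) ∘ ((↑) : {p : ℤ × ℤ | qn p = n} → ℤ × ℤ)) (gs s n) := by
    rw [hasSum_subtype_iff_indicator]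
    by_cases hn : n = 0
    · have h2 : ({p : ℤ × ℤ | qn p = n}).indicator (fs s) = fun _ => 0 := by
        funext p
        rw [Set.indicator_apply]
        split_ifs with h
        · have h3 := cast_qn p
          rw [h, hn] at h3
          have h4 : p = 0 := by
            by_contra hcon
            have := Q_pos hcon
            omega
          unfold fs
          rw [if_pos h4]
        · rfl
      rw [h2]
      unfold gs
      rw [if_pos hn]
      exact hasSum_zero
    · have h2 : gs s n = ∑ p ∈ rep n, ({p : ℤ × ℤ | qn p = n}).indicator (fs s) p := by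
        unfold gs
        rw [if_neg hn]
        rw [Finset.sum_congr rfl (g := fun _ => (n : ℝ) ^ (-s))]
        · rw [Finset.sum_const, nsmul_eq_mul]
          unfold r
          push_cast
          rfl
        · intro p hp
          rw [mem_rep, ← cast_qn] at hp
          have h3 : qn p = n := by exact_mod_cast hp
          rw [Set.indicator_of_mem (show p ∈ {p : ℤ × ℤ | qn p = n} from h3)]
          exact fs_eq s p n hn h3
      rw [h2]
      apply hasSum_sum_of_ne_finset_zero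
      intro p hp
      rw [Set.indicator_of_notMem]
      intro h3
      apply hp
      rw [mem_rep, ← cast_qn]
      exact_mod_cast h3
  exact h1

theorem hasSum_gs (s : ℝ) (hs : 1 < s) :
    HasSum (fun n => ((gs s n : ℝ) : ℂ)) (6 * (riemannZeta s * ((3 : ℂ) ^ (-(s : ℂ)) * hz s))) := by
  have h1 := hasSum_G (s : ℂ) (by simpa using hs)
  have h2 := HasSum.mul_left (6 : ℂ) h1
  have h3 : (fun n => ((gs s n : ℝ) : ℂ))
      = fun n => (6 : ℂ) * LSeries.term (fun n => (G n : ℂ)) (s : ℂ) n := by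
    funext n
    unfold gs
    by_cases hn : n = 0
    · rw [if_pos hn, hn]
      simp
    · rw [if_neg hn, LSeries.term_of_ne_zero hn, r_eq n (Nat.pos_of_ne_zero hn)]
      push_cast
      rw [Complex.ofReal_cpow (by positivity)]
      push_cast
      rw [Complex.cpow_neg]
      ring
  rw [h3]
  exact h2

end Pool.KS.HexBAux

namespace Pool.KS

open HexBAux

theorem HEXB_proof : Stmt_HEXB := by
  intro s hs
  have h1 := hasSum_gs s hs
  have h2 : Summable (gs s) := Complex.summable_ofReal.mp h1.summable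
  have h3 : Summable (fun x : Σ n : ℕ, {p : ℤ × ℤ // qn p = n} => fs s x.2) := by
    rw [summable_sigma_of_nonneg (fun x => fs_nonneg s _)]
    refine ⟨fun n => (hasSum_fiber s n).summable, ?_⟩
    have h4 : (fun n => ∑' x : {p : ℤ × ℤ // qn p = n}, fs s x) = gs s := by
      funext n
      exact (hasSum_fiber s n).tsum_eq
    rw [h4]
    exact h2
  have h5 : Summable (fs s) := by
    have := (Equiv.sigmaFiberEquiv qn).summable_iff (f := fs s)
    exact this.mp h3
  refine ⟨h5, ?_⟩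
  have h6 : ∑' p, fs s p = ∑' n, gs s n := by
    rw [← (Equiv.sigmaFiberEquiv qn).tsum_eq (fs s)]
    have h7 := h3.tsum_sigma' (fun n => (hasSum_fiber s n).summable)
    have h8 : (fun n => ∑' x : {p : ℤ × ℤ // qn p = n}, fs s x) = gs s := by
      funext n
      exact (hasSum_fiber s n).tsum_eq
    rw [h8] at h7
    exact h7
  have h9 : ((∑' p, fs s p : ℝ) : ℂ) = 6 * (riemannZeta s * ((3 : ℂ) ^ (-(s : ℂ)) * hz s)) := by
    rw [h6, Complex.ofReal_tsum]
    exact h1.tsum_eq
  have h10 : ((∑' p : ℤ × ℤ,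
      if p = 0 then (0 : ℝ) else ((p.1 : ℝ) ^ 2 + p.1 * p.2 + (p.2 : ℝ) ^ 2) ^ (-s) : ℝ) : ℂ)
      = ((∑' p, fs s p : ℝ) : ℂ) := rfl
  rw [h10, h9]
  ring

end Pool.KS
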