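import Pool.Agent.KS.Stmts
import Pool.Agent.KS.HexR

/-! Squad KS (MP_6f8d6f_an), module HEXC, part 2: analytic continuation of the Epstein zeta
function of the hexagonal lattice to `s = 1/2`. -/

set_option autoImplicit false

open MeasureTheory Set Filter Topology

namespace Pool.KS.HexC

/-- the form as a real number -/
noncomputable def Qr (p : ℤ × ℤ) : ℝ := (p.1 : ℝ) ^ 2 + p.1 * p.2 + (p.2 : ℝ) ^ 2

/-- theta function -/
noncomputable def th (t : ℝ) : ℝ := ∑' p : ℤ × ℤ, Real.exp (-(t * Qr p))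

/-- the constant `2π/√3` -/
noncomputable def kk : ℝ := 2 * Real.pi / Real.sqrt 3

theorem Qr_cast (p : ℤ × ℤ) : Qr p = ((HexR.Q p : ℤ) : ℝ) := by
  unfold Qr HexR.Q; push_cast; ring

theorem Qr_nonneg (p : ℤ × ℤ) : 0 ≤ Qr p := by
  rw [Qr_cast]; exact_mod_cast HexR.Q_nonneg p

theorem Qr_zero : Qr 0 = 0 := by simp [Qr]

theorem one_le_Qr {p : ℤ × ℤ} (hp : p ≠ 0) : 1 ≤ Qr p := by
  rw [Qr_cast]
  have := HexR.Q_pos hp
  exact_mod_cast this

/-- the data given by `HEXA` -/
def HexAData (c : ℝ) : Prop :=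
  (∀ t : ℝ, 0 < t → Summable (fun p : ℤ × ℤ => Real.exp (-(t * Qr p)))) ∧
    (∀ t : ℝ, 0 < t → t ≤ 1 → |th t - 2 * Real.pi / (Real.sqrt 3 * t)| ≤ c) ∧
    (∀ t : ℝ, 1 ≤ t → |th t - 1| ≤ c * Real.exp (-t / 2))

theorem th_continuousOn (c : ℝ) (h : HexAData c) : ContinuousOn th (Ioi 0) := by
  intro t ht
  have ht0 : (0 : ℝ) < t := ht
  apply ContinuousAt.continuousWithinAt
  have h1 : ContinuousOn th (Ici (t / 2)) := by
    unfold th
    apply continuousOn_tsum (u := fun p : ℤ × ℤ => Real.exp (-(t / 2 * Qr p)))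
    · intro p
      exact (Real.continuous_exp.comp (continuous_id.mul continuous_const).neg).continuousOn
    · exact h.1 (t / 2) (by positivity)
    · intro p x hx
      rw [Real.norm_of_nonneg (Real.exp_pos _).le]
      apply Real.exp_le_exp.mpr
      have h2 : t / 2 ≤ x := hx
      have h3 := mul_le_mul_of_nonneg_right h2 (Qr_nonneg p)
      linarith
  exact h1.continuousAt (Ici_mem_nhds (by linarith))

/-- `th - 1`, complex valued -/
noncomputable def FF (t : ℝ) : ℂ := ((th t - 1 : ℝ) : ℂ)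

/-- indicator of `(0, 1]` -/
noncomputable def I1 : ℝ → ℂ := indicator (Ioc 0 1) (fun _ => 1 : ℝ → ℂ)

/-- `1/t` on `(0, 1]` -/
noncomputable def Im : ℝ → ℂ := indicator (Ioc 0 1) (fun t => (t : ℂ) ^ (-1 : ℂ) : ℝ → ℂ)

/-- the regularised function -/
noncomputable def ff (t : ℝ) : ℂ := FF t - ((kk : ℂ) • Im t - I1 t)

theorem kk_div (t : ℝ) : kk / t = 2 * Real.pi / (Real.sqrt 3 * t) := by
  unfold kk; rw [div_div]

theorem ff_small (t : ℝ) (ht : 0 < t) (ht1 : t ≤ 1) : ff t = ((th t - kk / t : ℝ) : ℂ) := by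
  unfold ff FF Im I1
  rw [indicator_of_mem (show t ∈ Ioc (0 : ℝ) 1 from ⟨ht, ht1⟩),
    indicator_of_mem (show t ∈ Ioc (0 : ℝ) 1 from ⟨ht, ht1⟩), Complex.cpow_neg_one, smul_eq_mul]
  push_cast
  ring

theorem ff_large (t : ℝ) (ht : 1 < t) : ff t = ((th t - 1 : ℝ) : ℂ) := by
  unfold ff FF Im I1
  rw [indicator_of_notMem (fun h => absurd h.2 (not_le.mpr ht)),
    indicator_of_notMem (fun h => absurd h.2 (not_le.mpr ht))]
  simp

theorem ff_locInt (c : ℝ) (h : HexAData c) : LocallyIntegrableOn ff (Ioi 0) := by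
  rw [locallyIntegrableOn_iff isOpen_Ioi.isLocallyClosed]
  intro K hK hc
  have h1 : ContinuousOn FF (Ioi 0) := by
    unfold FF
    exact Complex.continuous_ofReal.comp_continuousOn ((th_continuousOn c h).sub continuousOn_const)
  have h2 : IntegrableOn FF K := (h1.mono hK).integrableOn_compact hc
  have h3 : IntegrableOn I1 K :=
    ((continuousOn_const (c := (1 : ℂ)) (s := K)).integrableOn_compact hc).indicator
      measurableSet_Ioc
  have h4 : IntegrableOn Im K := by
    apply IntegrableOn.indicator _ measurableSet_Ioc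
    apply ContinuousOn.integrableOn_compact hc
    intro t ht
    apply ContinuousAt.continuousWithinAt
    have ht0 : (0 : ℝ) < t := hK ht
    exact Complex.continuousAt_ofReal_cpow_const t (-1) (Or.inr ht0.ne')
  unfold ff
  exact h2.sub ((h4.smul (kk : ℂ)).sub h3)

theorem ff_top (c : ℝ) (h : HexAData c) : ff =O[atTop] fun t => Real.exp (-(1 / 2) * t) := by
  apply Asymptotics.IsBigO.of_bound c
  filter_upwards [eventually_gt_atTop 1] with t ht
  rw [ff_large t ht, Complex.norm_real, Real.norm_eq_abs, Real.norm_of_nonneg (Real.exp_pos _).le]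
  have h1 := h.2.2 t ht.le
  have h2 : -t / 2 = -(1 / 2) * t := by ring
  rw [h2] at h1
  exact h1

theorem ff_bot (c : ℝ) (h : HexAData c) : ff =O[𝓝[>] 0] (fun t : ℝ => t ^ (-(0 : ℝ))) := by
  apply Asymptotics.IsBigO.of_bound c
  have h1 : Ioc (0 : ℝ) 1 ∈ 𝓝[>] (0 : ℝ) := Ioc_mem_nhdsGT one_pos
  filter_upwards [h1] with t ht
  rw [ff_small t ht.1 ht.2, Complex.norm_real, Real.norm_eq_abs, neg_zero, Real.rpow_zero,
    norm_one, mul_one, kk_div]
  exact h.2.1 t ht.1 ht.2

theorem ff_conv (c : ℝ) (h : HexAData c) (s : ℂ) (hs : 0 < s.re) : MellinConvergent ff s :=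
  mellinConvergent_of_isBigO_rpow_exp (a := 1 / 2) (b := 0) (by norm_num) (ff_locInt c h)
    (ff_top c h) (ff_bot c h) hs

theorem ff_diff (c : ℝ) (h : HexAData c) (s : ℂ) (hs : 0 < s.re) :
    DifferentiableAt ℂ (mellin ff) s :=
  mellin_differentiableAt_of_isBigO_rpow_exp (a := 1 / 2) (b := 0) (by norm_num) (ff_locInt c h)
    (ff_top c h) (ff_bot c h) hs

/-- the continuation -/
noncomputable def Lam (s : ℂ) : ℂ := mellin ff s + ((kk : ℂ) / (s - 1) - 1 / s)

theorem mellin_FF (c : ℝ) (h : HexAData c) (s : ℂ) (hs : 1 < s.re) : mellin FF s = Lam s := by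
  have h1 := hasMellin_one_Ioc (s := s) (by linarith)
  have h2 := hasMellin_cpow_Ioc (-1) (s := s) (by rw [Complex.neg_re, Complex.one_re]; linarith)
  have h3 : HasMellin (fun t => (kk : ℂ) • Im t) s ((kk : ℂ) • mellin Im s) :=
    hasMellin_const_smul h2.1 (kk : ℂ)
  have h4 : HasMellin (fun t => (kk : ℂ) • Im t - I1 t) s
      (mellin (fun t => (kk : ℂ) • Im t) s - mellin I1 s) := hasMellin_sub h3.1 h1.1
  have h5 := hasMellin_add (ff_conv c h s (by linarith)) h4.1
  have h6 : (fun t => ff t + ((kk : ℂ) • Im t - I1 t)) = FF := by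
    funext t
    unfold ff
    ring
  rw [h6] at h5
  rw [h5.2, h4.2, h3.2]
  unfold Lam
  have h7 : mellin I1 s = 1 / s := h1.2
  have h8 : mellin Im s = 1 / (s + (-1)) := h2.2
  rw [h7, h8, smul_eq_mul]
  ring

/-- completed zeta -/
noncomputable def Zc (s : ℂ) : ℂ :=
  Complex.Gamma s * (6 * riemannZeta s * (3 : ℂ) ^ (-s) * hz s)

theorem mellin_FF' (c : ℝ) (h : HexAData c) (hB : Stmt_HEXB) (s : ℝ) (hs : 1 < s) :
    mellin FF s = Zc s := by
  obtain ⟨h1, h2⟩ := hB s hs
  have h3 : ∀ t ∈ Ioi (0 : ℝ), HasSum (fun p : ℤ × ℤ =>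
      (if p = 0 then (0 : ℂ) else 1) * (Real.exp (-(Qr p) * t) : ℂ)) (FF t) := by
    intro t ht
    have ht0 : (0 : ℝ) < t := ht
    have h4 : HasSum (fun p : ℤ × ℤ => Real.exp (-(t * Qr p))) (th t) := (h.1 t ht0).hasSum
    have h5 := hasSum_ite_sub_hasSum h4 0
    rw [Qr_zero, mul_zero, neg_zero, Real.exp_zero] at h5
    have h6 := Complex.hasSum_ofReal.mpr h5
    have h7 : (fun p : ℤ × ℤ => ((if p = 0 then (0 : ℝ) else Real.exp (-(t * Qr p)) : ℝ) : ℂ))
        = fun p : ℤ × ℤ => (if p = 0 then (0 : ℂ) else 1) * (Real.exp (-(Qr p) * t) : ℂ) := by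
      funext p
      split_ifs with hp
      · simp
      · rw [one_mul, show -(t * Qr p) = -(Qr p) * t by ring]
    rw [h7] at h6
    exact h6
  have h4 : Summable (fun p : ℤ × ℤ => ‖(if p = 0 then (0 : ℂ) else 1)‖ / (Qr p) ^ ((s : ℂ)).re) := by
    have h5 : (fun p : ℤ × ℤ => ‖(if p = 0 then (0 : ℂ) else 1)‖ / (Qr p) ^ ((s : ℂ)).re)
        = fun p : ℤ × ℤ =>
      if p = 0 then (0 : ℝ) else ((p.1 : ℝ) ^ 2 + p.1 * p.2 + (p.2 : ℝ) ^ 2) ^ (-s) := by
      funext p
      split_ifs with hp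
      · simp
      · rw [norm_one, Complex.ofReal_re, Real.rpow_neg (by exact Qr_nonneg p), one_div]
        rfl
    rw [h5]
    exact h1
  have h5 := hasSum_mellin (a := fun p : ℤ × ℤ => (if p = 0 then (0 : ℂ) else 1)) (p := Qr)
    (F := FF) (s := (s : ℂ)) (fun p => by
      by_cases hp : p = 0
      · left; simp [hp]
      · right
        have := one_le_Qr hp
        linarith) (by rw [Complex.ofReal_re]; linarith) h3 h4
  have h6 : (fun p : ℤ × ℤ => Complex.Gamma (s : ℂ) * (if p = 0 then (0 : ℂ) else 1)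
      / ((Qr p : ℝ) : ℂ) ^ (s : ℂ))
      = fun p : ℤ × ℤ => Complex.Gamma (s : ℂ) * ((if p = 0 then (0 : ℝ) else
          ((p.1 : ℝ) ^ 2 + p.1 * p.2 + (p.2 : ℝ) ^ 2) ^ (-s) : ℝ) : ℂ) := by
    funext p
    split_ifs with hp
    · simp
    · have h7 : ((p.1 : ℝ) ^ 2 + p.1 * p.2 + (p.2 : ℝ) ^ 2) = Qr p := rfl
      rw [h7, Complex.ofReal_cpow (Qr_nonneg p), Complex.ofReal_neg, Complex.cpow_neg, mul_one,
        div_eq_mul_inv]
  rw [h6] at h5
  have h7 := h5.tsum_eq
  rw [tsum_mul_left, ← Complex.ofReal_tsum, h2] at h7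
  rw [← h7]
  rfl

/-- the domain of the continuation -/
def UU : Set ℂ := {s : ℂ | 0 < s.re ∧ (s.re ≠ 1 ∨ 0 < s.im)}

theorem UU_open : IsOpen UU := by
  have h : UU = {s : ℂ | 0 < s.re} ∩ ({s : ℂ | s.re ≠ 1} ∪ {s : ℂ | 0 < s.im}) := by
    ext s; rfl
  rw [h]
  apply (isOpen_lt continuous_const Complex.continuous_re).inter
  apply IsOpen.union
  · exact isOpen_ne_fun Complex.continuous_re continuous_const
  · exact isOpen_lt continuous_const Complex.continuous_im

theorem UU_conn : IsPreconnected UU := by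
  have ha : (1 + Complex.I) ∈ UU := by
    refine ⟨by simp, Or.inr (by simp)⟩
  have h : StarConvex ℝ (1 + Complex.I) UU := by
    intro s hs a b ha hb hab
    obtain ⟨h1, h2⟩ := hs
    have hre : (a • (1 + Complex.I) + b • s).re = a + b * s.re := by simp
    have him : (a • (1 + Complex.I) + b • s).im = a + b * s.im := by simp
    show 0 < (a • (1 + Complex.I) + b • s).re ∧ ((a • (1 + Complex.I) + b • s).re ≠ 1 ∨
      0 < (a • (1 + Complex.I) + b • s).im)
    rw [hre, him]
    constructor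
    · rcases ha.lt_or_eq with h3 | h3
      · have : 0 ≤ b * s.re := mul_nonneg hb h1.le
        linarith
      · rw [← h3] at hab ⊢
        have hb1 : b = 1 := by linarith
        rw [hb1]
        linarith
    · by_cases hb0 : b = 0
      · right
        rw [hb0]
        have : a = 1 := by linarith
        linarith
      · have hb1 : 0 < b := lt_of_le_of_ne hb (Ne.symm hb0)
        rcases h2 with h2 | h2
        · left
          intro h3
          apply h2
          have h4 : b * (s.re - 1) = 0 := by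
            have : a = 1 - b := by linarith
            rw [this] at h3
            linarith
          rcases mul_eq_zero.mp h4 with h5 | h5
          · exact absurd h5 hb0
          · linarith
        · right
          have : 0 < b * s.im := mul_pos hb1 h2
          linarith
  exact (h.isPathConnected ha).isConnected.isPreconnected

theorem Lam_analytic (c : ℝ) (h : HexAData c) : AnalyticOnNhd ℂ Lam UU := by
  apply DifferentiableOn.analyticOnNhd _ UU_open
  intro s hs
  apply DifferentiableAt.differentiableWithinAt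
  have hs0 : s ≠ 0 := by
    intro h0
    rw [h0] at hs
    exact lt_irrefl _ hs.1
  have hs1 : s - 1 ≠ 0 := by
    intro h0
    have h1 : s = 1 := by linear_combination h0
    rw [h1] at hs
    rcases hs.2 with h2 | h2
    · exact h2 rfl
    · simp at h2
  unfold Lam
  apply DifferentiableAt.add (ff_diff c h s hs.1)
  apply DifferentiableAt.sub
  · exact (differentiableAt_const _).div (differentiableAt_id.sub (differentiableAt_const _)) hs1
  · exact (differentiableAt_const _).div differentiableAt_id hs0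

theorem Zc_analytic : AnalyticOnNhd ℂ Zc UU := by
  apply DifferentiableOn.analyticOnNhd _ UU_open
  intro s hs
  apply DifferentiableAt.differentiableWithinAt
  have hs1 : s ≠ 1 := by
    intro h1
    rw [h1] at hs
    rcases hs.2 with h2 | h2
    · exact h2 rfl
    · simp at h2
  unfold Zc
  apply DifferentiableAt.mul
  · apply Complex.differentiableAt_Gamma
    intro m hm
    have h2 := hs.1
    rw [hm] at h2
    simp at h2
    have : (0 : ℝ) ≤ m := Nat.cast_nonneg m
    linarith
  · apply DifferentiableAt.mul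
    · apply DifferentiableAt.mul
      · exact (differentiableAt_const _).mul (differentiableAt_riemannZeta hs1)
      · apply DifferentiableAt.const_cpow differentiableAt_id.neg
        left
        norm_num
    · unfold hz
      exact (HurwitzZeta.differentiableAt_hurwitzZeta _ hs1).sub
        (HurwitzZeta.differentiableAt_hurwitzZeta _ hs1)

/-- **the value at `1/2`** -/
theorem Lam_half (c : ℝ) (h : HexAData c) (hB : Stmt_HEXB) : Lam (1 / 2) = Zc (1 / 2) := by
  have h2 : (2 : ℂ) ∈ UU := ⟨by norm_num, Or.inl (by norm_num)⟩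
  have h3 : (1 / 2 : ℂ) ∈ UU := ⟨by norm_num, Or.inl (by norm_num)⟩
  apply AnalyticOnNhd.eqOn_of_preconnected_of_frequently_eq (Lam_analytic c h) Zc_analytic UU_conn
    h2 _ h3
  have h4 : ∀ᶠ x : ℝ in 𝓝[≠] (2 : ℝ), Lam (x : ℂ) = Zc (x : ℂ) := by
    have h5 : ∀ᶠ x : ℝ in 𝓝 (2 : ℝ), 1 < x := eventually_gt_nhds (by norm_num)
    filter_upwards [h5.filter_mono nhdsWithin_le_nhds] with x hx
    rw [← mellin_FF c h x (by rw [Complex.ofReal_re]; exact hx), mellin_FF' c h hB x hx]
  have h6 : Tendsto (fun x : ℝ => (x : ℂ)) (𝓝[≠] (2 : ℝ)) (𝓝[≠] (2 : ℂ)) := by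
    apply tendsto_nhdsWithin_of_tendsto_nhds_of_eventually_within
    · have : Tendsto (fun x : ℝ => (x : ℂ)) (𝓝 (2 : ℝ)) (𝓝 ((2 : ℝ) : ℂ)) :=
        Complex.continuous_ofReal.continuousAt
      push_cast at this
      exact this.mono_left nhdsWithin_le_nhds
    · filter_upwards [self_mem_nhdsWithin] with x hx
      intro h7
      apply hx
      have h8 : (x : ℂ) = ((2 : ℝ) : ℂ) := by push_cast; exact h7
      exact_mod_cast h8
  exact h6.frequently h4.frequently

end Pool.KS.HexC
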