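import Pool.Agent.KS.HexC1
import Pool.Agent.KS.HexC2

/-! Squad KS (MP_6f8d6f_an), module HEXC: the limit of the Yukawa sums. -/

set_option autoImplicit false

open MeasureTheory Set Filter Topology

namespace Pool.KS.HexC

/-! ### the function `g(t) = t^(-1/2) (th t - 1 - kk/t)` -/

noncomputable def g (t : ℝ) : ℝ := (Real.sqrt t)⁻¹ * (th t - 1 - kk / t)

theorem sqrt_inv (t : ℝ) (ht : 0 < t) : (Real.sqrt t)⁻¹ = t ^ (-(1 / 2) : ℝ) := by
  rw [Real.rpow_neg ht.le, Real.sqrt_eq_rpow]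

theorem sqrt_inv_mul (t : ℝ) (ht : 0 < t) : (Real.sqrt t)⁻¹ * (1 / t) = t ^ (-(3 / 2) : ℝ) := by
  have h1 : 1 / t = t ^ (-1 : ℝ) := by rw [Real.rpow_neg_one, one_div]
  rw [sqrt_inv t ht, h1, ← Real.rpow_add ht]
  norm_num

theorem cpow_half (t : ℝ) (ht : 0 < t) :
    (t : ℂ) ^ ((1 / 2 : ℂ) - 1) = (((Real.sqrt t)⁻¹ : ℝ) : ℂ) := by
  rw [sqrt_inv t ht, Complex.ofReal_cpow ht.le]
  congr 1
  push_cast
  norm_num

theorem int_small : IntegrableOn (fun t : ℝ => (Real.sqrt t)⁻¹) (Ioc 0 1) ∧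
    ∫ t in Ioc (0 : ℝ) 1, (Real.sqrt t)⁻¹ = 2 := by
  have h : ∀ t ∈ Ioc (0 : ℝ) 1, t ^ (-(1 / 2) : ℝ) = (Real.sqrt t)⁻¹ :=
    fun t ht => (sqrt_inv t ht.1).symm
  constructor
  · have h1 : IntervalIntegrable (fun x : ℝ => x ^ (-(1 / 2) : ℝ)) volume 0 1 :=
      intervalIntegral.intervalIntegrable_rpow' (by norm_num)
    rw [intervalIntegrable_iff_integrableOn_Ioc_of_le zero_le_one] at h1
    exact h1.congr_fun h measurableSet_Ioc
  · rw [← setIntegral_congr_fun measurableSet_Ioc h,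
      ← intervalIntegral.integral_of_le zero_le_one, integral_rpow (Or.inl (by norm_num))]
    norm_num

theorem int_large : IntegrableOn (fun t : ℝ => (Real.sqrt t)⁻¹ * (kk / t)) (Ioi 1) ∧
    ∫ t in Ioi (1 : ℝ), (Real.sqrt t)⁻¹ * (kk / t) = 2 * kk := by
  have h : ∀ t ∈ Ioi (1 : ℝ), kk * t ^ (-(3 / 2) : ℝ) = (Real.sqrt t)⁻¹ * (kk / t) := by
    intro t ht
    have ht0 : (0 : ℝ) < t := lt_trans one_pos ht
    rw [← sqrt_inv_mul t ht0]
    ring
  constructor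
  · exact IntegrableOn.congr_fun (Integrable.const_mul
      (integrableOn_Ioi_rpow_of_lt (a := -(3 / 2)) (c := 1) (by norm_num) one_pos) kk) h
      measurableSet_Ioi
  · rw [← setIntegral_congr_fun measurableSet_Ioi h, integral_const_mul,
      integral_Ioi_rpow_of_lt (by norm_num) one_pos]
    norm_num
    ring

theorem g_main (c : ℝ) (h : HexAData c) :
    IntegrableOn g (Ioi 0) ∧ ((∫ t in Ioi (0 : ℝ), g t : ℝ) : ℂ) = Lam (1 / 2) := by
  have hconv := ff_conv c h (1 / 2) (by norm_num)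
  unfold MellinConvergent at hconv
  have hU : Ioc (0 : ℝ) 1 ∪ Ioi 1 = Ioi 0 := Ioc_union_Ioi_eq_Ioi zero_le_one
  have hD : Disjoint (Ioc (0 : ℝ) 1) (Ioi 1) := by
    rw [Set.disjoint_left]
    intro x hx hx'
    exact absurd hx.2 (not_le.mpr hx')
  have hc1 : IntegrableOn (fun t : ℝ => (t : ℂ) ^ ((1 / 2 : ℂ) - 1) • ff t) (Ioc 0 1) :=
    hconv.mono_set Ioc_subset_Ioi_self
  have hc2 : IntegrableOn (fun t : ℝ => (t : ℂ) ^ ((1 / 2 : ℂ) - 1) • ff t) (Ioi 1) :=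
    hconv.mono_set (Ioi_subset_Ioi zero_le_one)
  have e1 : ∀ t ∈ Ioc (0 : ℝ) 1, (t : ℂ) ^ ((1 / 2 : ℂ) - 1) • ff t
      - (((Real.sqrt t)⁻¹ : ℝ) : ℂ) = ((g t : ℝ) : ℂ) := by
    intro t ht
    rw [cpow_half t ht.1, ff_small t ht.1 ht.2, smul_eq_mul]
    unfold g
    push_cast
    ring
  have e2 : ∀ t ∈ Ioi (1 : ℝ), (t : ℂ) ^ ((1 / 2 : ℂ) - 1) • ff t
      - (((Real.sqrt t)⁻¹ * (kk / t) : ℝ) : ℂ) = ((g t : ℝ) : ℂ) := by
    intro t ht
    have ht0 : (0 : ℝ) < t := lt_trans one_pos ht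
    rw [cpow_half t ht0, ff_large t ht, smul_eq_mul]
    unfold g
    push_cast
    ring
  have s1 : IntegrableOn (fun t : ℝ => (((Real.sqrt t)⁻¹ : ℝ) : ℂ)) (Ioc 0 1) :=
    int_small.1.ofReal
  have s2 : IntegrableOn (fun t : ℝ => (((Real.sqrt t)⁻¹ * (kk / t) : ℝ) : ℂ)) (Ioi 1) :=
    int_large.1.ofReal
  have g1 : IntegrableOn (fun t => ((g t : ℝ) : ℂ)) (Ioc 0 1) :=
    IntegrableOn.congr_fun (hc1.sub s1) e1 measurableSet_Ioc
  have g2 : IntegrableOn (fun t => ((g t : ℝ) : ℂ)) (Ioi 1) :=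
    IntegrableOn.congr_fun (hc2.sub s2) e2 measurableSet_Ioi
  have g0 : IntegrableOn (fun t => ((g t : ℝ) : ℂ)) (Ioi 0) := by
    rw [← hU]
    exact g1.union g2
  constructor
  · have h3 := g0.re
    exact h3
  · have h30 : ((∫ t in Ioi (0 : ℝ), g t : ℝ) : ℂ) = ∫ t in Ioi (0 : ℝ), ((g t : ℝ) : ℂ) :=
      integral_complex_ofReal.symm
    rw [h30, ← hU, setIntegral_union hD measurableSet_Ioi g1 g2,
      ← setIntegral_congr_fun measurableSet_Ioc e1, ← setIntegral_congr_fun measurableSet_Ioi e2,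
      integral_sub hc1 s1, integral_sub hc2 s2]
    have h4 : ∫ t in Ioc (0 : ℝ) 1, (((Real.sqrt t)⁻¹ : ℝ) : ℂ) = 2 := by
      rw [integral_complex_ofReal, int_small.2]; norm_num
    have h5 : ∫ t in Ioi (1 : ℝ), (((Real.sqrt t)⁻¹ * (kk / t) : ℝ) : ℂ) = 2 * kk := by
      rw [integral_complex_ofReal, int_large.2]; push_cast; ring
    rw [h4, h5]
    have h6 : mellin ff (1 / 2) = (∫ t in Ioc (0 : ℝ) 1, (t : ℂ) ^ ((1 / 2 : ℂ) - 1) • ff t)
        + ∫ t in Ioi (1 : ℝ), (t : ℂ) ^ ((1 / 2 : ℂ) - 1) • ff t := by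
      unfold mellin
      rw [← hU, setIntegral_union hD measurableSet_Ioi hc1 hc2]
    unfold Lam
    rw [h6]
    norm_num
    ring

/-! ### rescaling -/

/-- `c = sqrt (2/√3)` -/
noncomputable def cc : ℝ := Real.sqrt (2 / Real.sqrt 3)

theorem cc_pos : 0 < cc := Real.sqrt_pos.mpr (by positivity)

theorem cc_sq : cc ^ 2 = 2 / Real.sqrt 3 := Real.sq_sqrt (by positivity)

theorem one_le_cc : 1 ≤ cc := by
  have h1 : (1 : ℝ) ≤ cc ^ 2 := by
    rw [cc_sq, le_div_iff₀ (by positivity), one_mul]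
    rw [Real.sqrt_le_left (by norm_num)]
    norm_num
  nlinarith [cc_pos]

theorem hexn_eq (p : ℤ × ℤ) : hexn p = cc * Real.sqrt (Qr p) := by
  unfold hexn cc Qr
  rw [Real.sqrt_mul (by positivity)]

theorem hexn_sq (p : ℤ × ℤ) : hexn p ^ 2 = cc ^ 2 * Qr p := by
  rw [hexn_eq, mul_pow, Real.sq_sqrt (Qr_nonneg p)]

theorem hexn_pos {p : ℤ × ℤ} (hp : p ≠ 0) : 1 ≤ hexn p := by
  rw [hexn_eq]
  have h1 : 1 ≤ Real.sqrt (Qr p) := by
    rw [Real.one_le_sqrt]; exact one_le_Qr hp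
  nlinarith [one_le_cc]

/-- `G t = t^(-1/2) (th (c² t) - 1 - π/t)` -/
noncomputable def G (t : ℝ) : ℝ := (Real.sqrt t)⁻¹ * (th (cc ^ 2 * t) - 1 - Real.pi / t)

theorem G_eq (t : ℝ) (ht : t ∈ Ioi (0 : ℝ)) : cc * g (cc ^ 2 * t) = G t := by
  have ht0 : (0 : ℝ) < t := ht
  have hs : 0 < Real.sqrt t := Real.sqrt_pos.mpr ht0
  have h1 : Real.sqrt (cc ^ 2 * t) = cc * Real.sqrt t := by
    rw [Real.sqrt_mul (by positivity), Real.sqrt_sq cc_pos.le]
  have h2 : kk / (cc ^ 2 * t) = Real.pi / t := by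
    unfold kk
    rw [cc_sq]
    field_simp
  unfold g G
  rw [h1, h2]
  have := cc_pos
  field_simp

theorem G_main (c : ℝ) (h : HexAData c) :
    IntegrableOn G (Ioi 0) ∧ ∫ t in Ioi (0 : ℝ), G t = (∫ t in Ioi (0 : ℝ), g t) / cc := by
  have h1 := (g_main c h).1
  have hc2 : 0 < cc ^ 2 := by have := cc_pos; positivity
  constructor
  · have h2 : IntegrableOn (fun t => g (cc ^ 2 * t)) (Ioi 0) := by
      rw [integrableOn_Ioi_comp_mul_left_iff g 0 hc2, mul_zero]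
      exact h1
    exact IntegrableOn.congr_fun (Integrable.const_mul h2 cc) G_eq measurableSet_Ioi
  · rw [← setIntegral_congr_fun measurableSet_Ioi G_eq, integral_const_mul,
      integral_comp_mul_left_Ioi g 0 hc2, mul_zero, smul_eq_mul]
    have := cc_pos
    field_simp

/-! ### Yukawa sums as integrals -/

theorem yuk_summable (hB : Stmt_HEXB) (ν : ℝ) (hν : 0 < ν) :
    Summable (fun p : ℤ × ℤ => if p = 0 then 0 else Real.exp (-(ν * hexn p)) / hexn p) := by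
  have h1 := (hB 2 (by norm_num)).1
  have h2 := h1.mul_left (24 / ν ^ 4)
  refine Summable.of_nonneg_of_le (fun p => ?_) (fun p => ?_) h2
  · split_ifs with hp
    · exact le_rfl
    · have := hexn_pos hp
      positivity
  · split_ifs with hp
    · simp
    · have h3 := hexn_pos hp
      have h4 : 0 < hexn p := by linarith
      have h5 := Real.pow_div_factorial_le_exp (ν * hexn p) (by positivity) 4
      have h6 : (Nat.factorial 4 : ℝ) = 24 := by norm_num [Nat.factorial]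
      rw [h6] at h5
      have h7 : ((p.1 : ℝ) ^ 2 + p.1 * p.2 + (p.2 : ℝ) ^ 2) ^ (-(2 : ℝ)) = (Qr p ^ 2)⁻¹ := by
        show Qr p ^ (-(2 : ℝ)) = (Qr p ^ 2)⁻¹
        rw [Real.rpow_neg (Qr_nonneg p)]
        norm_cast
      rw [h7, Real.exp_neg]
      have hQ : 1 ≤ Qr p := one_le_Qr hp
      have h8 : Qr p ^ 2 ≤ hexn p ^ 4 := by
        have h9 : Qr p ≤ hexn p ^ 2 := by
          rw [hexn_sq]
          have h11 := one_le_cc
          have h12 : 1 ≤ cc ^ 2 := by nlinarith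
          nlinarith
        calc Qr p ^ 2 ≤ (hexn p ^ 2) ^ 2 := by
              apply pow_le_pow_left₀ (by linarith) h9
          _ = hexn p ^ 4 := by ring
      have h10 : 0 < (ν * hexn p) ^ 4 / 24 := by positivity
      calc (Real.exp (ν * hexn p))⁻¹ / hexn p ≤ (Real.exp (ν * hexn p))⁻¹ / 1 := by
            apply div_le_div_of_nonneg_left (by positivity) one_pos h3
        _ = (Real.exp (ν * hexn p))⁻¹ := div_one _
        _ ≤ ((ν * hexn p) ^ 4 / 24)⁻¹ := inv_anti₀ h10 h5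
        _ = 24 / ν ^ 4 * (hexn p ^ 4)⁻¹ := by
            rw [mul_pow]
            field_simp
        _ ≤ 24 / ν ^ 4 * (Qr p ^ 2)⁻¹ := by
            apply mul_le_mul_of_nonneg_left _ (by positivity)
            exact inv_anti₀ (by positivity) h8

/-- the summand of the integral representation -/
noncomputable def Fp (ν : ℝ) (p : ℤ × ℤ) (t : ℝ) : ℝ :=
  if p = 0 then 0 else (Real.sqrt t)⁻¹ * Real.exp (-(t * hexn p ^ 2) - ν ^ 2 / (4 * t))

theorem Fp_nonneg (ν : ℝ) (p : ℤ × ℤ) (t : ℝ) : 0 ≤ Fp ν p t := by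
  unfold Fp
  split_ifs
  · exact le_rfl
  · positivity

theorem Fp_int (ν : ℝ) (hν : 0 < ν) (p : ℤ × ℤ) :
    IntegrableOn (Fp ν p) (Ioi 0) ∧ ∫ t in Ioi (0 : ℝ), Fp ν p t
      = Real.sqrt Real.pi *
        (if p = 0 then 0 else Real.exp (-(ν * hexn p)) / hexn p) := by
  unfold Fp
  split_ifs with hp
  · simp
  · have h3 := hexn_pos hp
    exact subord (hexn p) ν (by linarith) hν

theorem Fp_tsum (c : ℝ) (h : HexAData c) (ν : ℝ) (t : ℝ) (ht : 0 < t) :
    ∑' p, Fp ν p t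
      = (Real.sqrt t)⁻¹ * (Real.exp (-(ν ^ 2 / (4 * t))) * (th (cc ^ 2 * t) - 1)) := by
  have hc2 : 0 < cc ^ 2 * t := by have := cc_pos; positivity
  have h4 : HasSum (fun p : ℤ × ℤ => Real.exp (-(cc ^ 2 * t * Qr p))) (th (cc ^ 2 * t)) :=
    (h.1 _ hc2).hasSum
  have h5 := hasSum_ite_sub_hasSum h4 0
  rw [Qr_zero, mul_zero, neg_zero, Real.exp_zero] at h5
  have h6 := h5.mul_left ((Real.sqrt t)⁻¹ * Real.exp (-(ν ^ 2 / (4 * t))))
  have h7 : (fun p : ℤ × ℤ => (Real.sqrt t)⁻¹ * Real.exp (-(ν ^ 2 / (4 * t))) *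
      (if p = 0 then 0 else Real.exp (-(cc ^ 2 * t * Qr p)))) = fun p => Fp ν p t := by
    funext p
    unfold Fp
    split_ifs with hp
    · simp
    · rw [mul_assoc, ← Real.exp_add, hexn_sq]
      congr 2
      ring
  rw [h7] at h6
  rw [h6.tsum_eq]
  ring

theorem Theta_eq (c : ℝ) (h : HexAData c) (hB : Stmt_HEXB) (ν : ℝ) (hν : 0 < ν) :
    Real.sqrt Real.pi * Theta ν = ∫ t in Ioi (0 : ℝ),
      (Real.sqrt t)⁻¹ * (Real.exp (-(ν ^ 2 / (4 * t))) * (th (cc ^ 2 * t) - 1)) := by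
  have h1 := hasSum_integral_of_summable_integral_norm (μ := volume.restrict (Ioi (0 : ℝ)))
    (F := fun p t => Fp ν p t) (fun p => (Fp_int ν hν p).1) (by
      have h2 : (fun p : ℤ × ℤ => ∫ t in Ioi (0 : ℝ), ‖Fp ν p t‖)
          = fun p => Real.sqrt Real.pi *
            (if p = 0 then 0 else Real.exp (-(ν * hexn p)) / hexn p) := by
        funext p
        rw [← (Fp_int ν hν p).2]
        apply integral_congr_ae
        exact Filter.Eventually.of_forall (fun t => Real.norm_of_nonneg (Fp_nonneg ν p t))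
      rw [h2]
      exact (yuk_summable hB ν hν).mul_left _)
  have h3 : (fun p : ℤ × ℤ => ∫ t in Ioi (0 : ℝ), Fp ν p t)
      = fun p => Real.sqrt Real.pi *
        (if p = 0 then 0 else Real.exp (-(ν * hexn p)) / hexn p) := by
    funext p
    exact (Fp_int ν hν p).2
  have h4 := h1.tsum_eq
  rw [h3, tsum_mul_left] at h4
  unfold Theta
  rw [h4]
  apply setIntegral_congr_fun measurableSet_Ioi
  intro t ht
  exact Fp_tsum c h ν t ht

theorem exp_le_one (ν t : ℝ) (ht : 0 < t) : Real.exp (-(ν ^ 2 / (4 * t))) ≤ 1 := by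
  rw [Real.exp_le_one_iff]
  have : 0 ≤ ν ^ 2 / (4 * t) := by positivity
  linarith

theorem meas_E (ν : ℝ) :
    AEStronglyMeasurable (fun t => Real.exp (-(ν ^ 2 / (4 * t)))) (volume.restrict (Ioi (0 : ℝ))) := by
  apply Measurable.aestronglyMeasurable
  exact Real.measurable_exp.comp (measurable_const.div (measurable_const.mul measurable_id)).neg

theorem EG_int (c : ℝ) (h : HexAData c) (ν : ℝ) :
    IntegrableOn (fun t => Real.exp (-(ν ^ 2 / (4 * t))) * G t) (Ioi 0) := by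
  have h1 := (G_main c h).1
  apply Integrable.mono' h1.norm ((meas_E ν).mul h1.1)
  rw [ae_restrict_iff' measurableSet_Ioi]
  refine Filter.Eventually.of_forall (fun t ht => ?_)
  have ht0 : (0 : ℝ) < t := ht
  show ‖Real.exp (-(ν ^ 2 / (4 * t))) * G t‖ ≤ ‖G t‖
  rw [norm_mul, Real.norm_of_nonneg (Real.exp_pos _).le]
  calc Real.exp (-(ν ^ 2 / (4 * t))) * ‖G t‖ ≤ 1 * ‖G t‖ :=
        mul_le_mul_of_nonneg_right (exp_le_one ν t ht0) (norm_nonneg _)
    _ = ‖G t‖ := one_mul _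

theorem Theta_sub (c : ℝ) (h : HexAData c) (hB : Stmt_HEXB) (ν : ℝ) (hν : 0 < ν) :
    Theta ν - 2 * Real.pi / ν = (Real.sqrt Real.pi)⁻¹ *
      ∫ t in Ioi (0 : ℝ), Real.exp (-(ν ^ 2 / (4 * t))) * G t := by
  have hπ : 0 < Real.sqrt Real.pi := Real.sqrt_pos.mpr Real.pi_pos
  have hππ : Real.sqrt Real.pi * Real.sqrt Real.pi = Real.pi :=
    Real.mul_self_sqrt Real.pi_pos.le
  have h1 := Theta_eq c h hB ν hν
  have h2 := polar ν hν
  have h3 : ∀ t ∈ Ioi (0 : ℝ),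
      Real.exp (-(ν ^ 2 / (4 * t))) * G t
        + Real.pi * ((Real.sqrt t)⁻¹ * (t⁻¹ * Real.exp (-(ν ^ 2 / (4 * t)))))
      = (Real.sqrt t)⁻¹ * (Real.exp (-(ν ^ 2 / (4 * t))) * (th (cc ^ 2 * t) - 1)) := by
    intro t ht
    have ht0 : (0 : ℝ) < t := ht
    unfold G
    field_simp
    ring
  rw [← setIntegral_congr_fun measurableSet_Ioi h3, integral_add (EG_int c h ν)
    (Integrable.const_mul h2.1 Real.pi), integral_const_mul, h2.2] at h1
  have h4 : Real.sqrt Real.pi * (Theta ν - 2 * Real.pi / ν)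
      = ∫ t in Ioi (0 : ℝ), Real.exp (-(ν ^ 2 / (4 * t))) * G t := by
    rw [mul_sub, h1]
    ring
  rw [← h4]
  field_simp

theorem E_limit (t : ℝ) :
    Tendsto (fun ν : ℝ => Real.exp (-(ν ^ 2 / (4 * t))) * G t) (𝓝[>] 0) (𝓝 (G t)) := by
  have h1 : Continuous (fun ν : ℝ => Real.exp (-(ν ^ 2 / (4 * t))) * G t) := by
    fun_prop
  have h2 := h1.tendsto 0
  simp only [ne_eq, OfNat.ofNat_ne_zero, not_false_eq_true, zero_pow, zero_div, neg_zero,
    Real.exp_zero, one_mul] at h2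
  exact h2.mono_left nhdsWithin_le_nhds

theorem int_limit (c : ℝ) (h : HexAData c) :
    Tendsto (fun ν : ℝ => ∫ t in Ioi (0 : ℝ), Real.exp (-(ν ^ 2 / (4 * t))) * G t) (𝓝[>] 0)
      (𝓝 (∫ t in Ioi (0 : ℝ), G t)) := by
  have h1 := (G_main c h).1
  apply tendsto_integral_filter_of_dominated_convergence (fun t => ‖G t‖)
  · exact Filter.Eventually.of_forall (fun ν => (EG_int c h ν).1)
  · refine Filter.Eventually.of_forall (fun ν => ?_)
    rw [ae_restrict_iff' measurableSet_Ioi]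
    refine Filter.Eventually.of_forall (fun t ht => ?_)
    have ht0 : (0 : ℝ) < t := ht
    rw [norm_mul, Real.norm_of_nonneg (Real.exp_pos _).le]
    calc Real.exp (-(ν ^ 2 / (4 * t))) * ‖G t‖ ≤ 1 * ‖G t‖ :=
          mul_le_mul_of_nonneg_right (exp_le_one ν t ht0) (norm_nonneg _)
      _ = ‖G t‖ := one_mul _
  · exact h1.norm
  · exact Filter.Eventually.of_forall (fun t => E_limit t)

theorem int_g_value (c : ℝ) (h : HexAData c) (hB : Stmt_HEXB) :
    ∫ t in Ioi (0 : ℝ), g t = Real.sqrt Real.pi * (6 / Real.sqrt 3) *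
      ((riemannZeta (1 / 2)).re * (hz (1 / 2)).re) := by
  have h1 := (g_main c h).2
  rw [Lam_half c h hB] at h1
  unfold Zc at h1
  have hG : Complex.Gamma (1 / 2) = ((Real.sqrt Real.pi : ℝ) : ℂ) := by
    have h2 := Complex.Gamma_ofReal (1 / 2)
    push_cast at h2
    rw [h2, Real.Gamma_one_half_eq]
  have h3 : (3 : ℂ) ^ (-(1 / 2) : ℂ) = (((Real.sqrt 3)⁻¹ : ℝ) : ℂ) := by
    have h4 : (((3 : ℝ) ^ (-(1 / 2) : ℝ) : ℝ) : ℂ) = (3 : ℂ) ^ (-(1 / 2) : ℂ) := by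
      rw [Complex.ofReal_cpow (by norm_num)]
      push_cast
      rfl
    rw [← h4, ← sqrt_inv 3 (by norm_num)]
  have hre : riemannZeta (1 / 2) = (((riemannZeta (1 / 2)).re : ℝ) : ℂ) := by
    have h5 := riemannZeta_conj (1 / 2)
    have h6 : (starRingEnd ℂ) (1 / 2 : ℂ) = 1 / 2 := by
      rw [map_div₀, map_one, Complex.conj_ofNat]
    rw [h6] at h5
    exact (Complex.conj_eq_iff_real.mp h5.symm).elim (fun r hr => by rw [hr, Complex.ofReal_re])
  have h7 : ((∫ t in Ioi (0 : ℝ), g t : ℝ) : ℂ)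
      = ((Real.sqrt Real.pi * (6 / Real.sqrt 3) * (riemannZeta (1 / 2)).re : ℝ) : ℂ)
        * hz (1 / 2) := by
    rw [h1, hG, h3]
    conv_lhs => rw [hre]
    push_cast
    ring
  have h8 := congrArg Complex.re h7
  rw [Complex.ofReal_re, Complex.re_ofReal_mul] at h8
  rw [h8]
  ring

theorem const_eq : (Real.sqrt Real.pi)⁻¹ * (Real.sqrt Real.pi * (6 / Real.sqrt 3) *
      ((riemannZeta (1 / 2)).re * (hz (1 / 2)).re) / cc) = 4 * Real.sqrt Real.pi * CKS := by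
  have hπ : 0 < Real.sqrt Real.pi := Real.sqrt_pos.mpr Real.pi_pos
  have hcc := cc_pos
  unfold CKS
  have h3 : 0 < Real.sqrt 3 := Real.sqrt_pos.mpr (by norm_num)
  have h33 : Real.sqrt 3 ^ 2 = 3 := Real.sq_sqrt (by norm_num)
  have hmain : 6 / (Real.sqrt 3 * cc)
      = 4 * Real.sqrt Real.pi * (Real.sqrt 3 * Real.sqrt (Real.sqrt 3 / (8 * Real.pi))) := by
    have ha : 0 ≤ 6 / (Real.sqrt 3 * cc) := by positivity
    have hb : 0 ≤ 4 * Real.sqrt Real.pi *
        (Real.sqrt 3 * Real.sqrt (Real.sqrt 3 / (8 * Real.pi))) := by positivity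
    rw [← pow_left_inj₀ ha hb (two_ne_zero)]
    rw [div_pow, mul_pow, mul_pow, mul_pow, mul_pow, h33, cc_sq,
      Real.sq_sqrt Real.pi_pos.le, Real.sq_sqrt (by positivity)]
    have hpi := Real.pi_pos
    field_simp
    norm_num
  calc (Real.sqrt Real.pi)⁻¹ * (Real.sqrt Real.pi * (6 / Real.sqrt 3) *
      ((riemannZeta (1 / 2)).re * (hz (1 / 2)).re) / cc)
      = 6 / (Real.sqrt 3 * cc) * ((riemannZeta (1 / 2)).re * (hz (1 / 2)).re) := by
        field_simp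
    _ = _ := by
        rw [hmain]
        ring

end Pool.KS.HexC

namespace Pool.KS

open HexC

theorem HEXC_proof (hA : Stmt_HEXA) (hB : Stmt_HEXB) : Stmt_HEXC := by
  obtain ⟨c, hc⟩ := hA
  have h : HexAData c := hc
  have h1 : Tendsto (fun ν : ℝ => (Real.sqrt Real.pi)⁻¹ *
      ∫ t in Ioi (0 : ℝ), Real.exp (-(ν ^ 2 / (4 * t))) * G t) (𝓝[>] 0)
      (𝓝 (4 * Real.sqrt Real.pi * CKS)) := by
    have h2 := (int_limit c h).const_mul (Real.sqrt Real.pi)⁻¹
    rw [(G_main c h).2, int_g_value c h hB, const_eq] at h2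
    exact h2
  refine h1.congr' ?_
  filter_upwards [self_mem_nhdsWithin] with ν hν
  exact (Theta_sub c h hB ν hν).symm

end Pool.KS
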