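import Pool.Agent.KS.Stmts

open MeasureTheory Set Filter Topology ProbabilityTheory
open scoped ENNReal

namespace Pool.KS

namespace Ind

/-! ### Deterministic part -/

theorem fE_le_add (hF : Stmt_FUN) (N d : ℕ) :
    fE N ≤ fE (N + d) + 4 * d * Real.sqrt ((N : ℝ) + d) := by
  induction d with
  | zero => simp
  | succ d ih =>
    have h1 := hF.2.2.2.1 (N + d)
    have h2 : Real.sqrt ((N : ℝ) + d) ≤ Real.sqrt ((N : ℝ) + (d + 1)) :=
      Real.sqrt_le_sqrt (by linarith)
    have h3 : 4 * (d : ℝ) * Real.sqrt ((N : ℝ) + d) ≤ 4 * d * Real.sqrt ((N : ℝ) + (d + 1)) := by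
      gcongr
    have e : ((N + d : ℕ) : ℝ) + 1 = (N : ℝ) + (d + 1) := by push_cast; ring
    rw [e] at h1
    have e2 : N + (d + 1) = N + d + 1 := by ring
    rw [e2]
    push_cast
    nlinarith

theorem fE_anti (hF : Stmt_FUN) : Antitone fE := antitone_nat_of_succ_le hF.2.2.1

theorem fE_cmp (hF : Stmt_FUN) (N n m : ℕ) (hm : 1 ≤ m) :
    fE N ≤ fE n + 2 * m * N + (2 / m + 4) * ((n : ℝ) - N) ^ 2 := by
  have hm' : (0 : ℝ) < m := by exact_mod_cast hm
  rcases le_total n N with h | h
  · have h1 := fE_anti hF h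
    have h2 : (0 : ℝ) ≤ 2 * m * N := by positivity
    have h3 : (0 : ℝ) ≤ (2 / m + 4) * ((n : ℝ) - N) ^ 2 := by positivity
    linarith
  · obtain ⟨d, rfl⟩ := Nat.exists_eq_add_of_le h
    have h1 := fE_le_add hF N d
    have h2 : Real.sqrt ((N : ℝ) + d) ≤ Real.sqrt N + Real.sqrt d := by
      apply Real.sqrt_le_iff.2
      refine ⟨by positivity, ?_⟩
      have a := Real.sq_sqrt (show (0 : ℝ) ≤ N by positivity)
      have b := Real.sq_sqrt (show (0 : ℝ) ≤ d by positivity)
      have c : 0 ≤ Real.sqrt (N : ℝ) * Real.sqrt d := by positivity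
      nlinarith
    have h3 : (d : ℝ) * Real.sqrt d ≤ (d : ℝ) ^ 2 := by
      have : Real.sqrt (d : ℝ) ≤ d := by
        apply Real.sqrt_le_iff.2
        refine ⟨by positivity, ?_⟩
        rcases Nat.eq_zero_or_pos d with h0 | h0
        · subst h0; simp
        · have : (1 : ℝ) ≤ d := by exact_mod_cast h0
          nlinarith
      have hd : (0 : ℝ) ≤ d := by positivity
      nlinarith
    have h4 : 4 * (d : ℝ) * Real.sqrt N ≤ 2 * m * N + 2 / m * (d : ℝ) ^ 2 := by
      have a := Real.sq_sqrt (show (0 : ℝ) ≤ N by positivity)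
      have b : 2 * (m : ℝ) * N + 2 / m * (d : ℝ) ^ 2 - 4 * d * Real.sqrt N
          = 2 / m * (m * Real.sqrt N - d) ^ 2 := by
        field_simp
        rw [← sub_eq_zero]
        ring_nf
        rw [a]
        ring
      have c : 0 ≤ 2 / (m : ℝ) * (m * Real.sqrt N - d) ^ 2 := by positivity
      linarith
    have h5 : 4 * (d : ℝ) * Real.sqrt ((N : ℝ) + d)
        ≤ 4 * d * Real.sqrt N + 4 * (d * Real.sqrt d) := by
      have hd : (0 : ℝ) ≤ d := by positivity
      nlinarith
    push_cast
    have e : (N : ℝ) + d - N = d := by ring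
    rw [e]
    nlinarith

/-- deterministic superposition -/
theorem det (hF : Stmt_FUN) {J : Type} [Fintype J] (y : J → E3) (sel : J → Prop)
    [DecidablePred sel] (h1 : ∀ j, sel j → ‖y j‖ = 1)
    (hinj : ∀ j k, sel j → sel k → j ≠ k → y j ≠ y k) (N m : ℕ) (hm : 1 ≤ m) :
    fE N ≤ (∑ j, ∑ k, (if sel j then (1 : ℝ) else 0) * (if sel k then 1 else 0)
        * ‖y j - y k‖⁻¹) / 2 - (∑ j, if sel j then (1 : ℝ) else 0) ^ 2 / 2 + 2 * m * N
        + (2 / m + 4) * ((∑ j, if sel j then (1 : ℝ) else 0) - N) ^ 2 := by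
  classical
  set T : Finset J := Finset.univ.filter sel with hT
  set w : Finset E3 := T.image y with hw
  have hTinj : Set.InjOn y T := by
    intro j hj k hk hjk
    by_contra hne
    have hj' : sel j := by simpa [hT] using hj
    have hk' : sel k := by simpa [hT] using hk
    exact hinj j k hj' hk' hne hjk
  have hcard : w.card = T.card := Finset.card_image_of_injOn hTinj
  have hOn : OnS w := by
    intro x hx
    rw [hw, Finset.mem_image] at hx
    obtain ⟨j, hj, rfl⟩ := hx
    exact h1 j (by simpa [hT] using hj)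
  have hsum : (∑ j, if sel j then (1 : ℝ) else 0) = (w.card : ℝ) := by
    rw [hcard, hT, Finset.card_filter]
    push_cast
    rfl
  have hen : energy w = (∑ j, ∑ k, (if sel j then (1 : ℝ) else 0) * (if sel k then 1 else 0)
        * ‖y j - y k‖⁻¹) / 2 := by
    unfold energy
    rw [hw, Finset.sum_image hTinj]
    congr 1
    rw [hT, Finset.sum_filter]
    refine Finset.sum_congr rfl fun j _ => ?_
    rw [Finset.sum_image hTinj, hT, Finset.sum_filter]
    by_cases hj : sel j
    · simp only [hj, if_true, one_mul]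
      refine Finset.sum_congr rfl fun k _ => ?_
      by_cases hk : sel k <;> simp [hk]
    · simp [hj]
  have h2 := hF.1 w hOn
  have h3 := fE_cmp hF N w.card m hm
  rw [hsum, ← hen]
  have h4 : fE w.card = Emin w.card - (w.card : ℝ) ^ 2 / 2 := rfl
  linarith

/-! ### Integrals over products -/

section prod
variable {C : Type} [Fintype C] {G : Type} [MeasurableSpace G] (μ : Measure G)
  [IsProbabilityMeasure μ]

theorem one_coord (c : C) (F : G → ℝ≥0∞) (hF : Measurable F) :
    ∫⁻ ω, F (ω c) ∂(Measure.pi (fun _ : C => μ)) = ∫⁻ g, F g ∂μ :=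
  (measurePreserving_eval (fun _ : C => μ) c).lintegral_comp hF

theorem two_coord {c c' : C} (h : c ≠ c') (F : G → G → ℝ≥0∞)
    (hF : Measurable (fun p : G × G => F p.1 p.2)) :
    ∫⁻ ω, F (ω c) (ω c') ∂(Measure.pi (fun _ : C => μ)) = ∫⁻ g, ∫⁻ g', F g g' ∂μ ∂μ := by
  have h1 : iIndepFun (fun (i : C) (ω : C → G) => ω i) (Measure.pi (fun _ : C => μ)) :=
    iIndepFun_pi (X := fun (_ : C) (g : G) => g) (fun i => aemeasurable_id)
  have h2 := h1.indepFun h
  have m1 : Measurable (fun ω : C → G => ω c) := measurable_pi_apply c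
  have m2 : Measurable (fun ω : C → G => ω c') := measurable_pi_apply c'
  rw [indepFun_iff_map_prod_eq_prod_map_map m1.aemeasurable m2.aemeasurable] at h2
  have e1 : Measure.map (fun ω : C → G => ω c) (Measure.pi (fun _ : C => μ)) = μ :=
    (measurePreserving_eval (fun _ : C => μ) c).map_eq
  have e2 : Measure.map (fun ω : C → G => ω c') (Measure.pi (fun _ : C => μ)) = μ :=
    (measurePreserving_eval (fun _ : C => μ) c').map_eq
  rw [e1, e2] at h2
  have h3 : ∫⁻ ω, F (ω c) (ω c') ∂(Measure.pi (fun _ : C => μ))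
      = ∫⁻ p, F p.1 p.2 ∂(Measure.map (fun ω : C → G => (ω c, ω c'))
          (Measure.pi (fun _ : C => μ))) := by
    rw [lintegral_map hF (m1.prodMk m2)]
  rw [h3, h2, lintegral_prod _ hF.aemeasurable]

end prod

/-! ### The chord integral -/

theorem chord_one (hC : Stmt_CHORD) (x : E3) (hx : ‖x‖ = 1) :
    ∫⁻ y, ENNReal.ofReal (‖x - y‖⁻¹) ∂sph = 1 := by
  rw [hC x hx (fun r => ENNReal.ofReal (r⁻¹)) (by fun_prop)]
  have h1 : ∫⁻ r in Icc (0 : ℝ) 2, ENNReal.ofReal (r⁻¹) * ENNReal.ofReal (r / 2)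
      = ∫⁻ r in Icc (0 : ℝ) 2, ENNReal.ofReal (1 / 2) := by
    apply lintegral_congr_ae
    have h0 : ∀ᵐ r ∂(volume.restrict (Icc (0 : ℝ) 2)), r ≠ 0 := by
      apply ae_restrict_of_ae
      exact Measure.ae_ne volume 0
    filter_upwards [h0, ae_restrict_mem measurableSet_Icc] with r hr hr2
    rw [← ENNReal.ofReal_mul (by have := hr2.1; positivity)]
    congr 1
    field_simp
  rw [h1, lintegral_const, Measure.restrict_apply MeasurableSet.univ, univ_inter,
    Real.volume_Icc, ← ENNReal.ofReal_mul (by norm_num)]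
  norm_num

theorem measurable_K : Measurable (fun p : E3 × E3 => ENNReal.ofReal (‖p.1 - p.2‖⁻¹)) := by
  fun_prop

section main
variable {C : Type} [Fintype C] {G : Type} [MeasurableSpace G] (μ : Measure G)
  [IsProbabilityMeasure μ] (N m : ℕ) (cell : C → Set E3) (x : C → Fin m → G → E3)

/-- total chord integral over pairs of cells -/
theorem total (hS : Stmt_SPH) (hC : Stmt_CHORD)
    (hcell : ∀ c, MeasurableSet (cell c))
    (hdisj : ∀ c c', c ≠ c' → Disjoint (cell c) (cell c'))
    (hunit : ∀ c, ∀ y ∈ cell c, ‖y‖ = 1) (hfull : sph (⋃ c, cell c) = 1) :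
    ∑ c, ∑ c', ∫⁻ y in cell c, ∫⁻ z in cell c', ENNReal.ofReal (‖y - z‖⁻¹) ∂sph ∂sph = 1 := by
  classical
  have hprob : IsProbabilityMeasure sph := hS.1
  have hU : MeasurableSet (⋃ c, cell c) := MeasurableSet.iUnion hcell
  have hae : ∀ᵐ y ∂sph, y ∈ ⋃ c, cell c := by
    rw [← prob_compl_eq_zero_iff hU] at hfull
    exact mem_ae_iff.2 hfull
  have hr : sph.restrict (⋃ c, cell c) = sph := Measure.restrict_eq_self_of_ae_mem hae
  have hpd : Pairwise (Function.onFun Disjoint cell) := fun c c' h => hdisj c c' h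
  have h1 : ∀ f : E3 → ℝ≥0∞, ∑ c, ∫⁻ y in cell c, f y ∂sph = ∫⁻ y, f y ∂sph := by
    intro f
    have := lintegral_iUnion (μ := sph) hcell hpd f
    rw [hr, tsum_fintype] at this
    exact this.symm
  have h2 : ∀ c, ∑ c', ∫⁻ y in cell c, ∫⁻ z in cell c', ENNReal.ofReal (‖y - z‖⁻¹) ∂sph ∂sph
      = ∫⁻ y in cell c, 1 ∂sph := by
    intro c
    rw [← lintegral_finsetSum]
    · apply setLIntegral_congr_fun (hcell c)
      intro y hy
      show ∑ c', ∫⁻ z in cell c', ENNReal.ofReal (‖y - z‖⁻¹) ∂sph = 1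
      rw [h1 (fun z => ENNReal.ofReal (‖y - z‖⁻¹))]
      exact chord_one hC y (hunit c y hy)
    · intro c' _
      exact measurable_K.lintegral_prod_right'
  rw [Finset.sum_congr rfl fun c _ => h2 c, h1 (fun _ => 1)]
  simp

theorem cross (hS : Stmt_SPH)
    (hcell : ∀ c, MeasurableSet (cell c)) (hx : ∀ c i, Measurable (x c i))
    (hint : ∀ c, ∀ h : E3 → ℝ≥0∞, Measurable h →
      ∑ i, ∫⁻ g, (cell c).indicator h (x c i g) ∂μ = N * ∫⁻ y in cell c, h y ∂sph)
    {c c' : C} (hcc : c ≠ c') :
    ∑ i, ∑ j, ∫⁻ ω, (cell c).indicator 1 (x c i (ω c)) * (cell c').indicator 1 (x c' j (ω c'))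
        * ENNReal.ofReal (‖x c i (ω c) - x c' j (ω c')‖⁻¹) ∂(Measure.pi fun _ : C => μ)
      = (N : ℝ≥0∞) ^ 2
        * ∫⁻ y in cell c, ∫⁻ z in cell c', ENNReal.ofReal (‖y - z‖⁻¹) ∂sph ∂sph := by
  have hprob : IsProbabilityMeasure sph := hS.1
  have m1 : ∀ c, Measurable ((cell c).indicator (1 : E3 → ℝ≥0∞)) :=
    fun c => measurable_one.indicator (hcell c)
  have hΦ : Measurable (fun y : E3 => ∫⁻ z in cell c', ENNReal.ofReal (‖y - z‖⁻¹) ∂sph) :=
    measurable_K.lintegral_prod_right'
  have h1 : ∀ i, ∑ j, ∫⁻ ω, (cell c).indicator 1 (x c i (ω c))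
        * (cell c').indicator 1 (x c' j (ω c'))
        * ENNReal.ofReal (‖x c i (ω c) - x c' j (ω c')‖⁻¹) ∂(Measure.pi fun _ : C => μ)
      = ∫⁻ g, (cell c).indicator (fun y => (N : ℝ≥0∞) *
          ∫⁻ z in cell c', ENNReal.ofReal (‖y - z‖⁻¹) ∂sph) (x c i g) ∂μ := by
    intro i
    have h2 : ∀ j, ∫⁻ ω, (cell c).indicator 1 (x c i (ω c))
        * (cell c').indicator 1 (x c' j (ω c'))
        * ENNReal.ofReal (‖x c i (ω c) - x c' j (ω c')‖⁻¹) ∂(Measure.pi fun _ : C => μ)
        = ∫⁻ g, (cell c).indicator 1 (x c i g) * ∫⁻ g', (cell c').indicator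
          (fun z => ENNReal.ofReal (‖x c i g - z‖⁻¹)) (x c' j g') ∂μ ∂μ := by
      intro j
      rw [two_coord μ hcc (fun g g' => (cell c).indicator 1 (x c i g)
        * (cell c').indicator 1 (x c' j g') * ENNReal.ofReal (‖x c i g - x c' j g'‖⁻¹))]
      · apply lintegral_congr
        intro g
        rw [← lintegral_const_mul]
        · apply lintegral_congr
          intro g'
          by_cases h : x c' j g' ∈ cell c'
          · rw [indicator_of_mem h, indicator_of_mem h]
            simp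
          · rw [indicator_of_notMem h, indicator_of_notMem h]
            simp
        · have b : Measurable ((cell c').indicator
              (fun z => ENNReal.ofReal (‖x c i g - z‖⁻¹))) :=
            Measurable.indicator (by fun_prop) (hcell c')
          exact b.comp (hx c' j)
      · have a1 : Measurable (fun p : G × G => (cell c).indicator (1 : E3 → ℝ≥0∞) (x c i p.1)) :=
          (m1 c).comp ((hx c i).comp measurable_fst)
        have a2 : Measurable (fun p : G × G => (cell c').indicator (1 : E3 → ℝ≥0∞)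
          (x c' j p.2)) := (m1 c').comp ((hx c' j).comp measurable_snd)
        have b1 : Measurable (fun p : G × G => x c i p.1) := (hx c i).comp measurable_fst
        have b2 : Measurable (fun p : G × G => x c' j p.2) := (hx c' j).comp measurable_snd
        have a3 : Measurable (fun p : G × G => ENNReal.ofReal (‖x c i p.1 - x c' j p.2‖⁻¹)) :=
          (b1.sub b2).norm.inv.ennreal_ofReal
        exact (a1.mul a2).mul a3
    rw [Finset.sum_congr rfl fun j _ => h2 j, ← lintegral_finsetSum]
    · apply lintegral_congr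
      intro g
      rw [← Finset.mul_sum, hint c' (fun z => ENNReal.ofReal (‖x c i g - z‖⁻¹)) (by fun_prop)]
      by_cases h : x c i g ∈ cell c
      · rw [indicator_of_mem h, indicator_of_mem h]
        simp
      · rw [indicator_of_notMem h, indicator_of_notMem h]
        simp
    · intro j _
      have a1 : Measurable (fun g : G => (cell c).indicator (1 : E3 → ℝ≥0∞) (x c i g)) :=
        (m1 c).comp (hx c i)
      refine a1.mul ?_
      have a2 : Measurable (fun p : G × G => (cell c').indicator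
          (fun z => ENNReal.ofReal (‖x c i p.1 - z‖⁻¹)) (x c' j p.2)) := by
        have : (fun p : G × G => (cell c').indicator
          (fun z => ENNReal.ofReal (‖x c i p.1 - z‖⁻¹)) (x c' j p.2))
          = fun p : G × G => (cell c').indicator 1 (x c' j p.2)
            * ENNReal.ofReal (‖x c i p.1 - x c' j p.2‖⁻¹) := by
          funext p
          by_cases h : x c' j p.2 ∈ cell c'
          · rw [indicator_of_mem h, indicator_of_mem h]
            simp
          · rw [indicator_of_notMem h, indicator_of_notMem h]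
            simp
        rw [this]
        have b1 : Measurable (fun p : G × G => x c i p.1) := (hx c i).comp measurable_fst
        have b2 : Measurable (fun p : G × G => x c' j p.2) := (hx c' j).comp measurable_snd
        have a2 : Measurable (fun p : G × G => (cell c').indicator (1 : E3 → ℝ≥0∞)
          (x c' j p.2)) := (m1 c').comp b2
        exact a2.mul (b1.sub b2).norm.inv.ennreal_ofReal
      exact a2.lintegral_prod_right'
  rw [Finset.sum_congr rfl fun i _ => h1 i, hint c _ (hΦ.const_mul _), lintegral_const_mul _ hΦ]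
  ring

/-- expected doubled energy -/
theorem energy_bound (hS : Stmt_SPH) (hC : Stmt_CHORD)
    (hcell : ∀ c, MeasurableSet (cell c))
    (hdisj : ∀ c c', c ≠ c' → Disjoint (cell c) (cell c'))
    (hunit : ∀ c, ∀ y ∈ cell c, ‖y‖ = 1) (hfull : sph (⋃ c, cell c) = 1)
    (hx : ∀ c i, Measurable (x c i))
    (hint : ∀ c, ∀ h : E3 → ℝ≥0∞, Measurable h →
      ∑ i, ∫⁻ g, (cell c).indicator h (x c i g) ∂μ = N * ∫⁻ y in cell c, h y ∂sph)
    (A B : ℝ)
    (hA : (∑ c, ∑ i, ∑ j ∈ Finset.univ.erase i, ∫⁻ g,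
        (cell c).indicator 1 (x c i g) * (cell c).indicator 1 (x c j g)
          * ENNReal.ofReal (‖x c i g - x c j g‖⁻¹) ∂μ ≤ ENNReal.ofReal A))
    (hB : ENNReal.ofReal B ≤
      ∑ c, ∫⁻ y in cell c, ∫⁻ z in cell c, ENNReal.ofReal (‖y - z‖⁻¹) ∂sph ∂sph) :
    (∑ c, ∑ i, ∑ c', ∑ j, ∫⁻ ω, (cell c).indicator 1 (x c i (ω c))
        * (cell c').indicator 1 (x c' j (ω c'))
        * ENNReal.ofReal (‖x c i (ω c) - x c' j (ω c')‖⁻¹) ∂(Measure.pi fun _ : C => μ))
      + (N : ℝ≥0∞) ^ 2 * ENNReal.ofReal B ≤ ENNReal.ofReal A + (N : ℝ≥0∞) ^ 2 := by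
  classical
  have m1 : ∀ c, Measurable ((cell c).indicator (1 : E3 → ℝ≥0∞)) :=
    fun c => measurable_one.indicator (hcell c)
  set I : C → C → ℝ≥0∞ := fun c c' =>
    ∫⁻ y in cell c, ∫⁻ z in cell c', ENNReal.ofReal (‖y - z‖⁻¹) ∂sph ∂sph with hI
  set Q : C → Fin m → C → Fin m → ℝ≥0∞ := fun c i c' j =>
    ∫⁻ ω, (cell c).indicator 1 (x c i (ω c))
        * (cell c').indicator 1 (x c' j (ω c'))
        * ENNReal.ofReal (‖x c i (ω c) - x c' j (ω c')‖⁻¹) ∂(Measure.pi fun _ : C => μ) with hQ
  have hcross : ∀ c c', c ≠ c' → ∑ i, ∑ j, Q c i c' j = (N : ℝ≥0∞) ^ 2 * I c c' :=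
    fun c c' h => cross μ N m cell x hS hcell hx hint h
  have hself : ∀ c, ∑ i, ∑ j, Q c i c j = ∑ i, ∑ j ∈ Finset.univ.erase i, ∫⁻ g,
        (cell c).indicator 1 (x c i g) * (cell c).indicator 1 (x c j g)
          * ENNReal.ofReal (‖x c i g - x c j g‖⁻¹) ∂μ := by
    intro c
    refine Finset.sum_congr rfl fun i _ => ?_
    have h0 : Q c i c i = 0 := by
      simp only [hQ, sub_self, norm_zero, inv_zero, ENNReal.ofReal_zero, mul_zero, lintegral_zero]
    rw [← Finset.add_sum_erase _ _ (Finset.mem_univ i), h0, zero_add]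
    refine Finset.sum_congr rfl fun j _ => ?_
    simp only [hQ]
    refine one_coord μ c (fun g => (cell c).indicator 1 (x c i g)
      * (cell c).indicator 1 (x c j g) * ENNReal.ofReal (‖x c i g - x c j g‖⁻¹)) ?_
    exact (((m1 c).comp (hx c i)).mul ((m1 c).comp (hx c j))).mul
      ((hx c i).sub (hx c j)).norm.inv.ennreal_ofReal
  have htot := total cell hS hC hcell hdisj hunit hfull
  have hsplit : ∑ c, ∑ i, ∑ c', ∑ j, Q c i c' j
      = ∑ c, ∑ i, ∑ j, Q c i c j + ∑ c, ∑ c' ∈ Finset.univ.erase c, (N : ℝ≥0∞) ^ 2 * I c c' := by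
    rw [← Finset.sum_add_distrib]
    refine Finset.sum_congr rfl fun c _ => ?_
    rw [Finset.sum_comm, ← Finset.add_sum_erase _ _ (Finset.mem_univ c)]
    congr 1
    refine Finset.sum_congr rfl fun c' hc' => ?_
    exact hcross c c' (Finset.ne_of_mem_erase hc').symm
  have htot2 : ∑ c, ∑ c' ∈ Finset.univ.erase c, (N : ℝ≥0∞) ^ 2 * I c c'
      + (N : ℝ≥0∞) ^ 2 * ∑ c, I c c = (N : ℝ≥0∞) ^ 2 := by
    rw [Finset.mul_sum, ← Finset.sum_add_distrib]
    have : ∀ c, ∑ c' ∈ Finset.univ.erase c, (N : ℝ≥0∞) ^ 2 * I c c' + (N : ℝ≥0∞) ^ 2 * I c c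
        = (N : ℝ≥0∞) ^ 2 * ∑ c', I c c' := by
      intro c
      rw [Finset.sum_erase_add _ _ (Finset.mem_univ c), Finset.mul_sum]
    rw [Finset.sum_congr rfl fun c _ => this c, ← Finset.mul_sum, htot, mul_one]
  calc (∑ c, ∑ i, ∑ c', ∑ j, Q c i c' j) + (N : ℝ≥0∞) ^ 2 * ENNReal.ofReal B
      ≤ (∑ c, ∑ i, ∑ j, Q c i c j + ∑ c, ∑ c' ∈ Finset.univ.erase c, (N : ℝ≥0∞) ^ 2 * I c c')
        + (N : ℝ≥0∞) ^ 2 * ∑ c, I c c := by
        rw [hsplit]
        gcongr
    _ = ∑ c, ∑ i, ∑ j, Q c i c j + (N : ℝ≥0∞) ^ 2 := by rw [add_assoc, htot2]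
    _ ≤ ENNReal.ofReal A + (N : ℝ≥0∞) ^ 2 := by
        gcongr
        rw [Finset.sum_congr rfl fun c _ => hself c]
        exact hA

open Classical in
/-- number of selected points in a cell -/
noncomputable def R (c : C) (g : G) : ℝ := ∑ i, if x c i g ∈ cell c then (1 : ℝ) else 0

omit [Fintype C] [MeasurableSpace G] in
theorem R_nonneg (c : C) (g : G) : 0 ≤ R m cell x c g := by
  classical
  unfold R
  exact Finset.sum_nonneg fun i _ => by split_ifs <;> norm_num

omit [Fintype C] [MeasurableSpace G] in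
theorem R_le (c : C) (g : G) : R m cell x c g ≤ m := by
  classical
  unfold R
  calc ∑ i : Fin m, (if x c i g ∈ cell c then (1 : ℝ) else 0) ≤ ∑ _i : Fin m, (1 : ℝ) :=
        Finset.sum_le_sum fun i _ => by split_ifs <;> norm_num
    _ = m := by simp

omit [Fintype C] in
theorem R_meas (hcell : ∀ c, MeasurableSet (cell c)) (hx : ∀ c i, Measurable (x c i)) (c : C) :
    Measurable (R m cell x c) := by
  classical
  unfold R
  refine Finset.measurable_fun_sum _ fun i _ => ?_
  exact Measurable.ite ((hcell c).preimage (hx c i)) measurable_const measurable_const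

omit [Fintype C] [IsProbabilityMeasure μ] in
theorem R_int
    (hcell : ∀ c, MeasurableSet (cell c)) (hx : ∀ c i, Measurable (x c i))
    (hint : ∀ c, ∀ h : E3 → ℝ≥0∞, Measurable h →
      ∑ i, ∫⁻ g, (cell c).indicator h (x c i g) ∂μ = N * ∫⁻ y in cell c, h y ∂sph) (c : C) :
    ∫ g, R m cell x c g ∂μ = N * (sph (cell c)).toReal := by
  classical
  rw [integral_eq_lintegral_of_nonneg_ae (Eventually.of_forall fun g => R_nonneg m cell x c g)
    (R_meas m cell x hcell hx c).aestronglyMeasurable]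
  have h1 : ∀ g, ENNReal.ofReal (R m cell x c g) = ∑ i, (cell c).indicator 1 (x c i g) := by
    intro g
    unfold R
    rw [ENNReal.ofReal_sum_of_nonneg (fun i _ => by split_ifs <;> norm_num)]
    refine Finset.sum_congr rfl fun i _ => ?_
    by_cases h : x c i g ∈ cell c <;> simp [h]
  rw [lintegral_congr h1, lintegral_finsetSum]
  · rw [hint c 1 measurable_one]
    simp
  · intro i _
    exact (measurable_one.indicator (hcell c)).comp (hx c i)

end main

theorem bdd_integrable {Ω : Type} [MeasurableSpace Ω] (P : Measure Ω) [IsFiniteMeasure P]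
    (f : Ω → ℝ) (hf : Measurable f) (K : ℝ) (h : ∀ ω, |f ω| ≤ K) : Integrable f P :=
  Integrable.of_bound hf.aestronglyMeasurable K (Eventually.of_forall h)

end Ind

open Ind in
theorem IND_proof (hFUN : Stmt_FUN) (hSPH : Stmt_SPH) (hCHORD : Stmt_CHORD) : Stmt_IND := by
  intro C _ G _ μ N m cell x A B hμ hN hcell hdisj hunit hfull hx hne hint hA0 hA hB
  classical
  have hprob : IsProbabilityMeasure sph := hSPH.1
  set P : Measure (C → G) := Measure.pi fun _ : C => μ with hP
  have hN' : (1 : ℝ) ≤ N := by exact_mod_cast hN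
  -- sum of the masses of the cells
  have hpd : Pairwise (Function.onFun Disjoint cell) := fun c c' h => hdisj c c' h
  have hmass : ∑ c, (sph (cell c)).toReal = 1 := by
    rw [← ENNReal.toReal_sum (fun c _ => measure_ne_top _ _)]
    have h2 := measure_iUnion (μ := sph) hpd hcell
    rw [tsum_fintype, hfull] at h2
    rw [← h2]
    simp
  -- m ≥ 1
  have hm : 1 ≤ m := by
    by_contra hm
    have hm0 : m = 0 := by omega
    subst hm0
    have h1 : ∀ c, sph (cell c) = 0 := by
      intro c
      have h2 := hint c 1 measurable_one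
      simp only [Finset.univ_eq_empty, Finset.sum_empty, Pi.one_apply, lintegral_const,
        Measure.restrict_apply MeasurableSet.univ, univ_inter, one_mul] at h2
      have h3 : (N : ℝ≥0∞) ≠ 0 := by
        simp only [ne_eq, Nat.cast_eq_zero]
        omega
      exact (mul_eq_zero.1 h2.symm).resolve_left h3
    rw [Finset.sum_congr rfl fun c _ => by rw [h1 c]] at hmass
    simp at hmass
  have hm' : (1 : ℝ) ≤ m := by exact_mod_cast hm
  -- the count
  set n : (C → G) → ℝ := fun ω => ∑ c, R m cell x c (ω c) with hn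
  have hRm := R_meas m cell x hcell hx
  have hnm : Measurable n := by
    refine Finset.measurable_fun_sum _ fun c _ => ?_
    exact (hRm c).comp (measurable_pi_apply c)
  have hn0 : ∀ ω, 0 ≤ n ω := fun ω => Finset.sum_nonneg fun c _ => R_nonneg m cell x c (ω c)
  have hn1 : ∀ ω, n ω ≤ Fintype.card C * m := by
    intro ω
    calc n ω ≤ ∑ _c : C, (m : ℝ) := Finset.sum_le_sum fun c _ => R_le m cell x c (ω c)
      _ = Fintype.card C * m := by simp
  have hRI : ∀ c, Integrable (R m cell x c) μ := fun c =>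
    bdd_integrable μ _ (hRm c) m fun g => by
      rw [abs_of_nonneg (R_nonneg m cell x c g)]
      exact R_le m cell x c g
  have hnI : Integrable n P := by
    refine bdd_integrable P n hnm (Fintype.card C * m) fun ω => ?_
    rw [abs_of_nonneg (hn0 ω)]
    exact hn1 ω
  have hEn : ∫ ω, n ω ∂P = N := by
    simp only [hn]
    rw [integral_finsetSum]
    · have h1 : ∀ c, ∫ ω, R m cell x c (ω c) ∂P = N * (sph (cell c)).toReal := by
        intro c
        rw [← R_int μ N m cell x hcell hx hint c]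
        have := (measurePreserving_eval (fun _ : C => μ) c)
        have h3 := integral_map (μ := Measure.pi fun _ : C => μ) (φ := Function.eval c)
          (measurable_pi_apply c).aemeasurable (f := R m cell x c)
          (hRm c).aestronglyMeasurable
        rw [this.map_eq] at h3
        exact h3.symm
      rw [Finset.sum_congr rfl fun c _ => h1 c, ← Finset.mul_sum, hmass, mul_one]
    · intro c _
      refine bdd_integrable P _ ((hRm c).comp (measurable_pi_apply c)) m fun ω => ?_
      rw [abs_of_nonneg (R_nonneg m cell x c _)]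
      exact R_le m cell x c _
  -- the variance
  set V : ℝ := ∫ ω, (n ω - N) ^ 2 ∂P with hV
  have hV0 : 0 ≤ V := integral_nonneg fun ω => sq_nonneg _
  have hV1 : V ≤ m * N := by
    have hRL : ∀ c, MemLp (R m cell x c) 2 μ := by
      intro c
      refine MemLp.of_bound (hRm c).aestronglyMeasurable m (Eventually.of_forall fun g => ?_)
      rw [Real.norm_of_nonneg (R_nonneg m cell x c g)]
      exact R_le m cell x c g
    have h1 := variance_sum_pi (μ := fun _ : C => μ) (X := fun c => R m cell x c) hRL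
    have h2 : (∑ c, fun ω : C → G => R m cell x c (ω c)) = n := by
      funext ω
      simp [hn]
    rw [h2, variance_eq_integral hnm.aemeasurable] at h1
    rw [hEn] at h1
    rw [hV, h1]
    calc ∑ c, Var[R m cell x c; μ] ≤ ∑ c, m * (N * (sph (cell c)).toReal) := by
          refine Finset.sum_le_sum fun c _ => ?_
          calc Var[R m cell x c; μ] ≤ μ[(R m cell x c) ^ 2] :=
                variance_le_expectation_sq (hRm c).aestronglyMeasurable
            _ ≤ ∫ g, m * R m cell x c g ∂μ := by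
                refine integral_mono ?_ ((hRI c).const_mul _) fun g => ?_
                · refine bdd_integrable μ _ ((hRm c).pow_const 2) ((m : ℝ) ^ 2) fun g => ?_
                  have a := R_nonneg m cell x c g
                  have b := R_le m cell x c g
                  show |(R m cell x c g) ^ 2| ≤ (m : ℝ) ^ 2
                  rw [abs_of_nonneg (sq_nonneg _)]
                  nlinarith
                · have a := R_nonneg m cell x c g
                  have b := R_le m cell x c g
                  show (R m cell x c g) ^ 2 ≤ m * R m cell x c g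
                  nlinarith
            _ = m * (N * (sph (cell c)).toReal) := by
                rw [integral_const_mul, R_int μ N m cell x hcell hx hint c]
      _ = m * N := by rw [← Finset.mul_sum, ← Finset.mul_sum, hmass, mul_one]
  -- the energy
  set W : (C → G) → ℝ := fun ω => ∑ c, ∑ i, ∑ c', ∑ j,
    (if x c i (ω c) ∈ cell c then (1 : ℝ) else 0) * (if x c' j (ω c') ∈ cell c' then 1 else 0)
      * ‖x c i (ω c) - x c' j (ω c')‖⁻¹ with hW
  have hmi : ∀ c i, Measurable (fun ω : C → G => x c i (ω c)) := fun c i =>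
    (hx c i).comp (measurable_pi_apply c)
  have hWt : ∀ c i c' j, Measurable (fun ω : C → G =>
      (if x c i (ω c) ∈ cell c then (1 : ℝ) else 0) * (if x c' j (ω c') ∈ cell c' then 1 else 0)
      * ‖x c i (ω c) - x c' j (ω c')‖⁻¹) := by
    intro c i c' j
    refine (Measurable.mul ?_ ?_).mul ((hmi c i).sub (hmi c' j)).norm.inv
    · exact Measurable.ite ((hcell c).preimage (hmi c i)) measurable_const measurable_const
    · exact Measurable.ite ((hcell c').preimage (hmi c' j)) measurable_const measurable_const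
  have hWm : Measurable W := by
    refine Finset.measurable_fun_sum _ fun c _ => Finset.measurable_fun_sum _ fun i _ =>
      Finset.measurable_fun_sum _ fun c' _ => Finset.measurable_fun_sum _ fun j _ => ?_
    exact hWt c i c' j
  have hterm : ∀ c i c' j (ω : C → G), 0 ≤ (if x c i (ω c) ∈ cell c then (1 : ℝ) else 0)
      * (if x c' j (ω c') ∈ cell c' then 1 else 0) * ‖x c i (ω c) - x c' j (ω c')‖⁻¹ := by
    intro c i c' j ω
    have a : (0 : ℝ) ≤ (if x c i (ω c) ∈ cell c then (1 : ℝ) else 0) := by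
      split_ifs <;> norm_num
    have b : (0 : ℝ) ≤ (if x c' j (ω c') ∈ cell c' then (1 : ℝ) else 0) := by
      split_ifs <;> norm_num
    positivity
  have hW0 : ∀ ω, 0 ≤ W ω := fun ω => Finset.sum_nonneg fun c _ => Finset.sum_nonneg fun i _ =>
    Finset.sum_nonneg fun c' _ => Finset.sum_nonneg fun j _ => hterm c i c' j ω
  have hWE : ∫⁻ ω, ENNReal.ofReal (W ω) ∂P = ∑ c, ∑ i, ∑ c', ∑ j,
      ∫⁻ ω, (cell c).indicator 1 (x c i (ω c)) * (cell c').indicator 1 (x c' j (ω c'))
        * ENNReal.ofReal (‖x c i (ω c) - x c' j (ω c')‖⁻¹) ∂P := by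
    have e : ∀ c i c' j (ω : C → G), ENNReal.ofReal
        ((if x c i (ω c) ∈ cell c then (1 : ℝ) else 0)
      * (if x c' j (ω c') ∈ cell c' then 1 else 0) * ‖x c i (ω c) - x c' j (ω c')‖⁻¹)
        = (cell c).indicator 1 (x c i (ω c)) * (cell c').indicator 1 (x c' j (ω c'))
        * ENNReal.ofReal (‖x c i (ω c) - x c' j (ω c')‖⁻¹) := by
      intro c i c' j ω
      by_cases h1 : x c i (ω c) ∈ cell c <;> by_cases h2 : x c' j (ω c') ∈ cell c' <;>
        simp [h1, h2]
    have e2 : ∀ ω, ENNReal.ofReal (W ω) = ∑ c, ∑ i, ∑ c', ∑ j, ENNReal.ofReal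
        ((if x c i (ω c) ∈ cell c then (1 : ℝ) else 0)
      * (if x c' j (ω c') ∈ cell c' then 1 else 0) * ‖x c i (ω c) - x c' j (ω c')‖⁻¹) := by
      intro ω
      simp only [hW]
      rw [ENNReal.ofReal_sum_of_nonneg (fun c _ => Finset.sum_nonneg fun i _ =>
        Finset.sum_nonneg fun c' _ => Finset.sum_nonneg fun j _ => hterm c i c' j ω)]
      refine Finset.sum_congr rfl fun c _ => ?_
      rw [ENNReal.ofReal_sum_of_nonneg (fun i _ =>
        Finset.sum_nonneg fun c' _ => Finset.sum_nonneg fun j _ => hterm c i c' j ω)]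
      refine Finset.sum_congr rfl fun i _ => ?_
      rw [ENNReal.ofReal_sum_of_nonneg (fun c' _ => Finset.sum_nonneg fun j _ =>
        hterm c i c' j ω)]
      refine Finset.sum_congr rfl fun c' _ => ?_
      rw [ENNReal.ofReal_sum_of_nonneg (fun j _ => hterm c i c' j ω)]
    rw [lintegral_congr e2]
    have hm4 := fun c i c' j => (hWt c i c' j).ennreal_ofReal
    rw [lintegral_finsetSum _ (fun c _ => Finset.measurable_fun_sum _ fun i _ =>
      Finset.measurable_fun_sum _ fun c' _ => Finset.measurable_fun_sum _ fun j _ => hm4 c i c' j)]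
    refine Finset.sum_congr rfl fun c _ => ?_
    rw [lintegral_finsetSum _ (fun i _ =>
      Finset.measurable_fun_sum _ fun c' _ => Finset.measurable_fun_sum _ fun j _ => hm4 c i c' j)]
    refine Finset.sum_congr rfl fun i _ => ?_
    rw [lintegral_finsetSum _ (fun c' _ => Finset.measurable_fun_sum _ fun j _ =>
      hm4 c i c' j)]
    refine Finset.sum_congr rfl fun c' _ => ?_
    rw [lintegral_finsetSum _ (fun j _ => hm4 c i c' j)]
    refine Finset.sum_congr rfl fun j _ => ?_
    exact lintegral_congr fun ω => e c i c' j ω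
  have hEB := energy_bound μ N m cell x hSPH hCHORD hcell hdisj hunit hfull hx hint A B hA hB
  rw [← hP, ← hWE] at hEB
  have hfin : ∫⁻ ω, ENNReal.ofReal (W ω) ∂P ≠ ⊤ := by
    have h1 : ENNReal.ofReal A + (N : ℝ≥0∞) ^ 2 ≠ ⊤ := by
      simp [ENNReal.add_eq_top, ENNReal.pow_eq_top_iff]
    exact ne_top_of_le_ne_top h1 (le_trans le_self_add hEB)
  have hWI : Integrable W P := by
    refine ⟨hWm.aestronglyMeasurable, ?_⟩
    rw [hasFiniteIntegral_iff_ofReal (Eventually.of_forall hW0)]
    exact lt_top_iff_ne_top.2 hfin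
  have hWval : ∫ ω, W ω ∂P + (N : ℝ) ^ 2 * B ≤ A + (N : ℝ) ^ 2 := by
    rw [integral_eq_lintegral_of_nonneg_ae (Eventually.of_forall hW0) hWm.aestronglyMeasurable]
    have h1 := ENNReal.toReal_mono (by simp [ENNReal.add_eq_top, ENNReal.pow_eq_top_iff]) hEB
    rw [ENNReal.toReal_add hfin (by
      exact ENNReal.mul_ne_top (by simp) ENNReal.ofReal_ne_top),
      ENNReal.toReal_add ENNReal.ofReal_ne_top (by simp), ENNReal.toReal_mul,
      ENNReal.toReal_ofReal hA0] at h1
    simp only [ENNReal.toReal_pow, ENNReal.toReal_natCast] at h1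
    have h2 : B ≤ (ENNReal.ofReal B).toReal := by
      rw [ENNReal.toReal_ofReal']
      exact le_max_left _ _
    have h3 : (N : ℝ) ^ 2 * B ≤ (N : ℝ) ^ 2 * (ENNReal.ofReal B).toReal := by gcongr
    linarith
  -- pointwise inequality
  have hpt : ∀ ω, fE N ≤ W ω / 2 - ((n ω - N) ^ 2 + 2 * N * n ω - N ^ 2) / 2 + 2 * m * N
      + (2 / m + 4) * (n ω - N) ^ 2 := by
    intro ω
    have h1 := det hFUN (J := C × Fin m) (fun j => x j.1 j.2 (ω j.1))
      (fun j => x j.1 j.2 (ω j.1) ∈ cell j.1) (fun j hj => hunit _ _ hj)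
      (by
        rintro ⟨c, i⟩ ⟨c', i'⟩ h h' hcc
        by_cases hc : c = c'
        · subst hc
          exact hne c (ω c) i i' (fun hii => hcc (by rw [hii])) h h'
        · intro heq
          have heq' : x c i (ω c) = x c' i' (ω c') := heq
          have h'' : x c i (ω c) ∈ cell c' := by rw [heq']; exact h'
          exact Set.disjoint_left.1 (hdisj c c' hc) h h'') N m hm
    have h2 : ∑ j : C × Fin m, (if x j.1 j.2 (ω j.1) ∈ cell j.1 then (1 : ℝ) else 0) = n ω := by
      rw [Fintype.sum_prod_type]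
      simp only [hn, R]
    have h3 : ∑ j : C × Fin m, ∑ k : C × Fin m,
        (if x j.1 j.2 (ω j.1) ∈ cell j.1 then (1 : ℝ) else 0)
        * (if x k.1 k.2 (ω k.1) ∈ cell k.1 then 1 else 0)
        * ‖x j.1 j.2 (ω j.1) - x k.1 k.2 (ω k.1)‖⁻¹ = W ω := by
      rw [Fintype.sum_prod_type]
      simp only [hW]
      refine Finset.sum_congr rfl fun c _ => Finset.sum_congr rfl fun i _ => ?_
      rw [Fintype.sum_prod_type]
    have h4 : fE N ≤ W ω / 2 - n ω ^ 2 / 2 + 2 * m * N + (2 / m + 4) * (n ω - N) ^ 2 := by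
      rw [← h2, ← h3]
      exact h1
    have h5 : (n ω - N) ^ 2 + 2 * N * n ω - N ^ 2 = n ω ^ 2 := by ring
    rw [h5]
    exact h4
  -- integrate
  have hsqI : Integrable (fun ω => (n ω - N) ^ 2) P := by
    refine bdd_integrable P _ ((hnm.sub_const _).pow_const 2)
      ((Fintype.card C * m + N) ^ 2) fun ω => ?_
    rw [abs_of_nonneg (sq_nonneg _), ← sq_abs (n ω - N)]
    have a := hn0 ω
    have b := hn1 ω
    have c : |n ω - N| ≤ Fintype.card C * m + N := by
      rw [abs_le]
      constructor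
      · have : (0 : ℝ) ≤ Fintype.card C * m := by positivity
        linarith
      · linarith
    have d := abs_nonneg (n ω - N)
    nlinarith
  have i0 : Integrable (fun ω => (n ω - N) ^ 2 + 2 * N * n ω) P := hsqI.add (hnI.const_mul _)
  have i00 : Integrable (fun ω => (n ω - N) ^ 2 + 2 * N * n ω - (N : ℝ) ^ 2) P :=
    i0.sub (integrable_const _)
  have i1 : Integrable (fun ω => ((n ω - N) ^ 2 + 2 * N * n ω - (N : ℝ) ^ 2) / 2) P :=
    i00.div_const 2
  have i2 : Integrable (fun ω => W ω / 2 - ((n ω - N) ^ 2 + 2 * N * n ω - (N : ℝ) ^ 2) / 2) P :=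
    (hWI.div_const 2).sub i1
  have i3 : Integrable (fun ω => W ω / 2 - ((n ω - N) ^ 2 + 2 * N * n ω - (N : ℝ) ^ 2) / 2
      + 2 * m * N) P := i2.add (integrable_const _)
  have hall : fE N ≤ ∫ ω, (W ω / 2 - ((n ω - N) ^ 2 + 2 * N * n ω - N ^ 2) / 2 + 2 * m * N
      + (2 / m + 4) * (n ω - N) ^ 2) ∂P := by
    have hI1 : Integrable (fun ω => W ω / 2 - ((n ω - N) ^ 2 + 2 * N * n ω - (N : ℝ) ^ 2) / 2
        + 2 * m * N + (2 / m + 4) * (n ω - N) ^ 2) P := i3.add (hsqI.const_mul _)
    have h0 : ∫ _ω : C → G, fE N ∂P = fE N := by simp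
    rw [← h0]
    exact integral_mono (integrable_const _) hI1 hpt
  have hval : ∫ ω, (W ω / 2 - ((n ω - N) ^ 2 + 2 * N * n ω - N ^ 2) / 2 + 2 * m * N
      + (2 / m + 4) * (n ω - N) ^ 2) ∂P
      = (∫ ω, W ω ∂P) / 2 - (V + 2 * N * N - N ^ 2) / 2 + 2 * m * N + (2 / m + 4) * V := by
    have e1 : ∫ ω, ((n ω - N) ^ 2 + 2 * N * n ω - (N : ℝ) ^ 2) / 2 ∂P
        = (V + 2 * N * N - N ^ 2) / 2 := by
      rw [integral_div, integral_sub i0 (integrable_const _),
        integral_add hsqI (hnI.const_mul _), integral_const_mul, hEn]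
      simp [hV]
    rw [integral_add i3 (hsqI.const_mul _),
      integral_add i2 (integrable_const _),
      integral_sub (hWI.div_const 2) i1, e1, integral_div]
    rw [integral_const_mul (2 / (m : ℝ) + 4) (fun ω => (n ω - N) ^ 2)]
    simp [hV]
  rw [hval] at hall
  have hm2 : 2 / (m : ℝ) * V ≤ 2 * N := by
    have : 2 / (m : ℝ) * V ≤ 2 / m * (m * N) := by gcongr
    have e : 2 / (m : ℝ) * (m * N) = 2 * N := by field_simp
    linarith
  nlinarith

end Pool.KS
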