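import Pool.Agent.KS.Lib

/-! Squad KS (MP_6f8d6f_an), module ISO: Lambert's coordinates are a near-isometry near `0`. -/

open MeasureTheory Set Filter Topology
open scoped ENNReal

namespace Pool.KS

namespace ISO

/-- the derivative of `P` at `0` -/
noncomputable def L : E2 →L[ℝ] E3 :=
  LinearMap.toContinuousLinearMap
    { toFun := fun u => !₂[0, u 0, u 1]
      map_add' := by
        intro u v
        ext i
        fin_cases i <;> simp
      map_smul' := by
        intro c u
        ext i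
        fin_cases i <;> simp }

lemma L_apply (u : E2) : L u = !₂[0, u 0, u 1] := rfl

lemma norm_L (u : E2) : ‖L u‖ = ‖u‖ := by
  rw [EuclideanSpace.norm_eq, EuclideanSpace.norm_eq, Fin.sum_univ_three, Fin.sum_univ_two, L_apply]
  simp

lemma strict : HasStrictFDerivAt P L 0 := by
  have h0 : HasStrictFDerivAt (fun u : E2 => u 0) (EuclideanSpace.proj (𝕜 := ℝ) (0 : Fin 2)) 0 :=
    (EuclideanSpace.proj (𝕜 := ℝ) (0 : Fin 2)).hasStrictFDerivAt
  have h1 : HasStrictFDerivAt (fun u : E2 => u 1) (EuclideanSpace.proj (𝕜 := ℝ) (1 : Fin 2)) 0 :=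
    (EuclideanSpace.proj (𝕜 := ℝ) (1 : Fin 2)).hasStrictFDerivAt
  have hs : HasStrictFDerivAt (fun u : E2 => Real.sqrt (1 - u 1 ^ 2)) (0 : E2 →L[ℝ] ℝ) 0 := by
    have ha := (h1.pow 2).const_sub 1
    have hb := HasStrictFDerivAt.sqrt ha (by simp)
    have e : (1 / (2 * Real.sqrt (1 - (0 : E2) 1 ^ 2))) •
        -((2 • (0 : E2) 1 ^ (2 - 1)) • EuclideanSpace.proj (𝕜 := ℝ) (1 : Fin 2)) =
        (0 : E2 →L[ℝ] ℝ) := by
      ext u
      simp
    rw [e] at hb
    exact hb
  rw [hasStrictFDerivAt_euclidean]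
  intro i
  fin_cases i
  · have hc := hs.mul h0.cos
    have e : (fun u : E2 => P u ((fun i => i) ⟨0, by omega⟩)) =
        fun u : E2 => Real.sqrt (1 - u 1 ^ 2) * Real.cos (u 0) := by
      funext u; rfl
    rw [e]
    refine hc.congr_fderiv ?_
    ext u
    simp [L_apply]
  · have hc := hs.mul h0.sin
    have e : (fun u : E2 => P u ((fun i => i) ⟨1, by omega⟩)) =
        fun u : E2 => Real.sqrt (1 - u 1 ^ 2) * Real.sin (u 0) := by
      funext u; rfl
    rw [e]
    refine hc.congr_fderiv ?_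
    ext u
    simp [L_apply]
  · have e : (fun u : E2 => P u ((fun i => i) ⟨2, by omega⟩)) = fun u : E2 => u 1 := by
      funext u; rfl
    rw [e]
    refine h1.congr_fderiv ?_
    ext u
    simp [L_apply]

end ISO

theorem ISO_proof : Stmt_ISO := by
  intro ε hε
  have h := ISO.strict.isLittleO.def hε
  rw [Metric.eventually_nhds_iff_ball] at h
  obtain ⟨δ, hδ, hb⟩ := h
  refine ⟨min δ (1 / 10), lt_min hδ (by norm_num), min_le_right _ _, ?_⟩
  intro u v hu hv
  have hu' : ‖u‖ < δ := hu.trans_le (min_le_left _ _)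
  have hv' : ‖v‖ < δ := hv.trans_le (min_le_left _ _)
  have h1 := hb (u, v) (by
    rw [Metric.mem_ball, dist_eq_norm]
    simp only [Prod.mk_sub_mk, sub_zero]
    rw [Prod.norm_def]
    exact max_lt hu' hv')
  simp only at h1
  have h2 : P u - P v = (P u - P v - ISO.L (u - v)) + ISO.L (u - v) := by abel
  have h3 := norm_add_le (P u - P v - ISO.L (u - v)) (ISO.L (u - v))
  rw [← h2, ISO.norm_L] at h3
  have h4 := norm_sub_le (P u - P v) (P u - P v - ISO.L (u - v))
  have h5 : P u - P v - (P u - P v - ISO.L (u - v)) = ISO.L (u - v) := by abel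
  rw [h5, ISO.norm_L] at h4
  constructor <;> linarith

end Pool.KS
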