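import Pool.Agent.KS.Stmts

open MeasureTheory Set Filter Topology
open scoped ENNReal

namespace Pool.KS.LB

lemma geom (q : ℝ) (K : ℕ) : (∑ i ∈ Finset.range K, q ^ i) * (1 - q) = 1 - q ^ K := by
  have h := geom_sum_mul q K
  linarith

lemma term (r : ℝ) (K : ℕ) :
    r⁻¹ - r⁻¹ * (1 - r / 4) ^ K
      = (1 / 4) * (∑ i ∈ Finset.range K, (1 - r / 4) ^ i) - (if r = 0 then (K : ℝ) / 4 else 0) := by
  by_cases h : r = 0
  · subst h; simp; ring
  · simp only [h, if_false, sub_zero]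
    have hg := geom (1 - r / 4) K
    have : (∑ i ∈ Finset.range K, (1 - r / 4) ^ i) * (r / 4) = 1 - (1 - r / 4) ^ K := by
      rw [← hg]; ring
    have h2 : (∑ i ∈ Finset.range K, (1 - r / 4) ^ i) = (1 - (1 - r / 4) ^ K) * (4 * r⁻¹) := by
      rw [← this]
      have : r * r⁻¹ = 1 := mul_inv_cancel₀ h
      linear_combination (-(∑ i ∈ Finset.range K, (1 - r / 4) ^ i)) * this
    rw [h2]; ring

lemma int_pow (K : ℕ) : ∫ r in (0 : ℝ)..2, (1 - r / 4) ^ K ≤ 4 / (K + 1) := by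
  have h : ∀ r ∈ uIcc (0 : ℝ) 2, HasDerivAt (fun r : ℝ => -(4 * (1 - r / 4) ^ (K + 1) / (K + 1)))
      ((1 - r / 4) ^ K) r := by
    intro r _
    have h1 : HasDerivAt (fun r : ℝ => 1 - r / 4) (-(1 / 4)) r := by
      simpa using ((hasDerivAt_id r).div_const 4).const_sub 1
    have h2 := h1.pow (K + 1)
    have h3 := ((h2.const_mul 4).div_const ((K : ℝ) + 1)).neg
    have h4 : HasDerivAt (fun r : ℝ => -(4 * (1 - r / 4) ^ (K + 1) / (K + 1)))
      (-(4 * (↑(K + 1) * (1 - r / 4) ^ (K + 1 - 1) * -(1 / 4)) / ((K : ℝ) + 1))) r := h3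
    have h5 : -(4 * (↑(K + 1) * (1 - r / 4) ^ (K + 1 - 1) * -(1 / 4)) / ((K : ℝ) + 1))
        = (1 - r / 4) ^ K := by
      have : ((K : ℝ) + 1) ≠ 0 := by positivity
      rw [Nat.add_sub_cancel]
      push_cast
      field_simp
    rw [h5] at h4
    exact h4
  rw [intervalIntegral.integral_eq_sub_of_hasDerivAt h (by
    apply Continuous.intervalIntegrable; fun_prop)]
  have hK : (0 : ℝ) < (K : ℝ) + 1 := by positivity
  have h2 : (0 : ℝ) ≤ (1 - 2 / 4 : ℝ) ^ (K + 1) := by positivity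
  have : -(4 * (1 - 2 / 4 : ℝ) ^ (K + 1) / ((K : ℝ) + 1)) - -(4 * (1 - 0 / 4) ^ (K + 1) / ((K : ℝ) + 1))
      = 4 / (K + 1) - 4 * (1 - 2 / 4 : ℝ) ^ (K + 1) / ((K : ℝ) + 1) := by
    simp; ring
  rw [this]
  have : 0 ≤ 4 * (1 - 2 / 4 : ℝ) ^ (K + 1) / ((K : ℝ) + 1) := by positivity
  linarith

lemma sum_c (K : ℕ) :
    1 - 2 / ((K : ℝ) + 1) ≤ (1 / 4) * ∑ i ∈ Finset.range K,
      ∫ r in (0 : ℝ)..2, (1 - r / 4) ^ i * (r / 2) := by
  rw [← intervalIntegral.integral_finsetSum (fun i _ => by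
    apply Continuous.intervalIntegrable; fun_prop)]
  rw [← intervalIntegral.integral_const_mul]
  have : (fun r : ℝ => (1 / 4) * ∑ i ∈ Finset.range K, (1 - r / 4) ^ i * (r / 2))
      = fun r => (1 / 2 : ℝ) - (1 / 2) * (1 - r / 4) ^ K := by
    funext r
    rw [← Finset.sum_mul]
    have := geom (1 - r / 4) K
    have h2 : (∑ i ∈ Finset.range K, (1 - r / 4) ^ i) * (r / 4) = 1 - (1 - r / 4) ^ K := by
      rw [← this]; ring
    linear_combination (1 / 2) * h2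
  rw [this, intervalIntegral.integral_sub (by simp) (by
    apply Continuous.intervalIntegrable; fun_prop), intervalIntegral.integral_const_mul]
  have := int_pow K
  simp only [intervalIntegral.integral_const, smul_eq_mul]
  have e : 2 / ((K : ℝ) + 1) = (1 / 2) * (4 / (K + 1)) := by ring
  rw [e]; nlinarith

end Pool.KS.LB

namespace Pool.KS

theorem LB_proof (hPD : Stmt_PD) : Stmt_LB := by
  intro w hw K
  have h1 : 2 * energy w - ∑ x ∈ w, ∑ y ∈ w, ‖x - y‖⁻¹ * (1 - ‖x - y‖ / 4) ^ K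
      = (1 / 4) * (∑ i ∈ Finset.range K, ∑ x ∈ w, ∑ y ∈ w, (1 - ‖x - y‖ / 4) ^ i)
        - w.card * K / 4 := by
    unfold energy
    have e1 : 2 * ((∑ x ∈ w, ∑ y ∈ w, ‖x - y‖⁻¹) / 2) = ∑ x ∈ w, ∑ y ∈ w, ‖x - y‖⁻¹ := by ring
    rw [e1, ← Finset.sum_sub_distrib]
    have e2 : ∀ x ∈ w, (∑ y ∈ w, ‖x - y‖⁻¹) - ∑ y ∈ w, ‖x - y‖⁻¹ * (1 - ‖x - y‖ / 4) ^ K
        = (1 / 4) * (∑ y ∈ w, ∑ i ∈ Finset.range K, (1 - ‖x - y‖ / 4) ^ i) - K / 4 := by
      intro x hx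
      rw [← Finset.sum_sub_distrib, Finset.sum_congr rfl (fun y _ => LB.term ‖x - y‖ K),
        Finset.sum_sub_distrib, ← Finset.mul_sum]
      congr 1
      rw [Finset.sum_eq_single x]
      · simp
      · intro y _ hy
        rw [if_neg]
        rw [norm_eq_zero, sub_eq_zero]
        exact fun h => hy h.symm
      · intro h; exact absurd hx h
    rw [Finset.sum_congr rfl e2, Finset.sum_sub_distrib, ← Finset.mul_sum]
    congr 1
    · congr 1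
      have e3 : ∀ x ∈ w, (∑ y ∈ w, ∑ i ∈ Finset.range K, (1 - ‖x - y‖ / 4) ^ i)
          = ∑ i ∈ Finset.range K, ∑ y ∈ w, (1 - ‖x - y‖ / 4) ^ i := fun x _ => Finset.sum_comm
      rw [Finset.sum_congr rfl e3]
      exact Finset.sum_comm
    · simp; ring
  have h2 : (w.card : ℝ) ^ 2 * ∑ i ∈ Finset.range K, ∫ r in (0 : ℝ)..2, (1 - r / 4) ^ i * (r / 2)
      ≤ ∑ i ∈ Finset.range K, ∑ x ∈ w, ∑ y ∈ w, (1 - ‖x - y‖ / 4) ^ i := by
    rw [Finset.mul_sum]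
    exact Finset.sum_le_sum (fun i _ => hPD w hw i)
  have h3 := LB.sum_c K
  have h4 : (w.card : ℝ) ^ 2 * (1 - 2 / ((K : ℝ) + 1)) ≤ (w.card : ℝ) ^ 2 * ((1 / 4) *
      ∑ i ∈ Finset.range K, ∫ r in (0 : ℝ)..2, (1 - r / 4) ^ i * (r / 2)) :=
    mul_le_mul_of_nonneg_left h3 (by positivity)
  have e : 2 * (w.card : ℝ) ^ 2 / (K + 1) = (w.card : ℝ) ^ 2 * (2 / ((K : ℝ) + 1)) := by ring
  rw [e]
  nlinarith

end Pool.KS
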