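import Pool.Agent.KS.Stmts

/-! Squad KS, module LIMA (MP_6f8d6f_an): existence of the second-order limit. -/

open MeasureTheory Set Filter Topology
open scoped ENNReal

namespace Pool.KS

namespace LIMA

lemma pow_cmp (K K' : ℕ) (t r ρ : ℝ) (hr : 0 < r) (hrρ : r ≤ ρ) (hρ : ρ ≤ 2)
    (h : (K' : ℝ) * (1 + ρ / 2) ≤ K * t) :
    (max 0 (1 - t * r / 4)) ^ K ≤ (1 - r / 4) ^ K' := by
  have h1 : max 0 (1 - t * r / 4) ≤ Real.exp (-(t * r / 4)) := by
    apply max_le (Real.exp_pos _).le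
    have := Real.add_one_le_exp (-(t * r / 4))
    linarith
  have h2 : (max 0 (1 - t * r / 4)) ^ K ≤ Real.exp (-(K * t * r / 4)) := by
    calc _ ≤ (Real.exp (-(t * r / 4))) ^ K := pow_le_pow_left₀ (le_max_left _ _) h1 K
      _ = Real.exp (-(K * t * r / 4)) := by
        rw [← Real.exp_nat_mul]; congr 1; ring
  have h3 : Real.exp (-((1 + ρ / 2) * (r / 4))) ≤ 1 - r / 4 := by
    rw [Real.exp_neg]
    have hx : r / 4 ≤ 1 / 2 := by linarith
    have h4 := Real.add_one_le_exp ((1 + ρ / 2) * (r / 4))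
    have h5 : 1 ≤ (1 - r / 4) * Real.exp ((1 + ρ / 2) * (r / 4)) := by
      have h6 : (1 - r / 4) * ((1 + ρ / 2) * (r / 4) + 1)
          ≤ (1 - r / 4) * Real.exp ((1 + ρ / 2) * (r / 4)) := by
        apply mul_le_mul_of_nonneg_left h4; linarith
      have h7 : 0 ≤ (1 - r / 4) * ((ρ - r) / 2 * (r / 4)) := by
        apply mul_nonneg (by linarith)
        apply mul_nonneg (by linarith) (by linarith)
      have h8 : 0 ≤ (r / 4) ^ 2 * (1 - 2 * (r / 4)) := by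
        apply mul_nonneg (sq_nonneg _) (by linarith)
      nlinarith [h6, h7, h8]
    rw [inv_le_iff_one_le_mul₀ (Real.exp_pos _)]
    linarith
  calc _ ≤ Real.exp (-(K * t * r / 4)) := h2
    _ ≤ Real.exp (K' * (-((1 + ρ / 2) * (r / 4)))) := by
        apply Real.exp_le_exp.2
        have : (K' : ℝ) * (1 + ρ / 2) * (r / 4) ≤ K * t * (r / 4) :=
          mul_le_mul_of_nonneg_right h (by linarith)
        linarith
    _ = (Real.exp (-((1 + ρ / 2) * (r / 4)))) ^ K' := by rw [← Real.exp_nat_mul]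
    _ ≤ (1 - r / 4) ^ K' := pow_le_pow_left₀ (Real.exp_pos _).le h3 K'

lemma dist_le_two (w : Finset E3) (hw : OnS w) {x y : E3} (hx : x ∈ w) (hy : y ∈ w) :
    ‖x - y‖ ≤ 2 := by
  have := norm_sub_le x y
  rw [hw x hx, hw y hy] at this
  linarith

/-- Bound for the pair sums of the rotated source. -/
lemma S_bound (hLB : Stmt_LB) (w : Finset E3) (hw : OnS w) (hM : 2 ≤ w.card)
    (ε : ℝ) (hε : 0 < ε) (hε2 : ε ≤ 1 / 2) (ρ : ℝ) (hρ : 4 * ρ ≤ 2) (s : ℝ) (hs : 0 < s)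
    (K K' : ℕ) (hK : (K' : ℝ) * (1 + 4 * ρ / 2) ≤ K * ((1 - ε) / (1 + ε) * s)) :
    (1 / (w.card : ℝ)) * ∑ x ∈ w, ∑ y ∈ w,
          (if x ≠ y ∧ ‖x - y‖ ≤ 4 * ρ then FK K ((1 - ε) * s) (‖x - y‖ / (1 + ε)) else 0)
      ≤ (1 / (w.card : ℝ)) * (((1 - ε) / (1 + ε) * s)⁻¹ *
        (2 * energy w - (w.card : ℝ) ^ 2 + 2 * (w.card : ℝ) ^ 2 / (K' + 1)
          + w.card * K' / 4)) := by
  have hθ : 0 < (1 - ε) / (1 + ε) := div_pos (by linarith) (by linarith)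
  have hθs : 0 < (1 - ε) / (1 + ε) * s := mul_pos hθ hs
  have hM0 : (0 : ℝ) < w.card := by
    have : (2 : ℝ) ≤ w.card := by exact_mod_cast hM
    linarith
  apply mul_le_mul_of_nonneg_left _ (by positivity)
  calc _ ≤ ∑ x ∈ w, ∑ y ∈ w, ((1 - ε) / (1 + ε) * s)⁻¹ *
        (‖x - y‖⁻¹ * (1 - ‖x - y‖ / 4) ^ K') := by
        apply Finset.sum_le_sum
        intro x hx
        apply Finset.sum_le_sum
        intro y hy
        have h2 := dist_le_two w hw hx hy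
        split_ifs with hc
        · have hr : 0 < ‖x - y‖ := norm_pos_iff.2 (sub_ne_zero.2 hc.1)
          have e1 : (1 - ε) * s * (‖x - y‖ / (1 + ε)) = (1 - ε) / (1 + ε) * s * ‖x - y‖ := by
            field_simp
          unfold FK
          rw [e1, mul_inv]
          have := pow_cmp K K' ((1 - ε) / (1 + ε) * s) ‖x - y‖ (4 * ρ) hr hc.2 hρ hK
          calc _ ≤ (1 - ‖x - y‖ / 4) ^ K' * (((1 - ε) / (1 + ε) * s)⁻¹ * ‖x - y‖⁻¹) :=
                mul_le_mul_of_nonneg_right this (by positivity)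
            _ = _ := by ring
        · have : 0 ≤ 1 - ‖x - y‖ / 4 := by linarith
          positivity
    _ = ((1 - ε) / (1 + ε) * s)⁻¹ * ∑ x ∈ w, ∑ y ∈ w,
        (‖x - y‖⁻¹ * (1 - ‖x - y‖ / 4) ^ K') := by
        rw [Finset.mul_sum]
        apply Finset.sum_congr rfl
        intro x _
        rw [Finset.mul_sum]
    _ ≤ _ := mul_le_mul_of_nonneg_left (hLB w hw K') (by positivity)

/-- One step bound, before dividing. -/
lemma step (hSRCW : Stmt_SRCW) (hTILE : Stmt_TILE) (hLB : Stmt_LB)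
    (ε δ : ℝ) (hε : 0 < ε) (hε2 : ε ≤ 1 / 2) (hδ : 0 < δ) (hδ2 : δ ≤ 1 / 10)
    (hN : NearIso ε δ) (w : Finset E3) (hw : OnS w) (hM : 2 ≤ w.card)
    (ρ : ℝ) (hρ : 0 < ρ) (hρδ : ρ ≤ δ) (N K K' : ℕ) (a : ℝ) (hN1 : 1 ≤ N) (hK1 : 1 ≤ K)
    (ha : 0 < a) (h4a : 4 * a < Real.sqrt ((w.card : ℝ) / N) * ρ)
    (hsρ : Real.sqrt ((w.card : ℝ) / N) * ρ ≤ δ)
    (hK : (K' : ℝ) * (1 + 4 * ρ / 2) ≤ K * ((1 - ε) / (1 + ε) * Real.sqrt ((w.card : ℝ) / N))) :
    fE N ≤ (N : ℝ) / 2 * ((1 / (w.card : ℝ)) *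
          (((1 - ε) / (1 + ε) * Real.sqrt ((w.card : ℝ) / N))⁻¹ *
        (2 * energy w - (w.card : ℝ) ^ 2 + 2 * (w.card : ℝ) ^ 2 / (K' + 1)
          + w.card * K' / 4)))
          - (N : ℝ) ^ 2 / (K + 1) * (1 - (1 / 2) ^ (K + 1))
          + 12 * (N : ℝ) ^ 2 / (a * (K + 1) ^ 2) + 8 * w.card * N := by
  have hM0 : (0 : ℝ) < w.card := by
    have : (2 : ℝ) ≤ w.card := by exact_mod_cast hM
    linarith
  have hN0 : (0 : ℝ) < N := by exact_mod_cast hN1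
  have hsrc := hSRCW ε δ hε hε2 hδ hδ2 hN w hw hM ρ hρ hρδ
  have e : 4 * Real.pi * ((w.card : ℝ) / (4 * Real.pi)) / N = (w.card : ℝ) / N := by
    have := Real.pi_pos
    field_simp
  have hS : ∀ (K : ℕ) (s : ℝ), 0 < s → 0 ≤ (fun (K : ℕ) (s : ℝ) => (1 / (w.card : ℝ)) *
      ∑ x ∈ w, ∑ y ∈ w,
          if x ≠ y ∧ ‖x - y‖ ≤ 4 * ρ then FK K s (‖x - y‖ / (1 + ε)) else 0) K s := by
    intro K s hs
    apply mul_nonneg (by positivity)
    apply Finset.sum_nonneg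
    intro x _
    apply Finset.sum_nonneg
    intro y _
    split_ifs
    · unfold FK
      have h0 : 0 ≤ max 0 (1 - s * (‖x - y‖ / (1 + ε)) / 4) := le_max_left _ _
      positivity
    · exact le_refl _
  have h := hTILE ε δ hε hε2 hδ hδ2 hN (w.card / (4 * Real.pi)) ρ w.card _
    (by have := Real.pi_pos; positivity) hρ hS hsrc N K a hN1 hK1 ha
    (by rw [e]; exact h4a) (by rw [e]; exact hsρ)
  rw [e] at h
  have hs : 0 < Real.sqrt ((w.card : ℝ) / N) := Real.sqrt_pos.2 (by positivity)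
  have hb := S_bound hLB w hw hM ε hε hε2 ρ (by linarith) _ hs K K' hK
  have hb2 := mul_le_mul_of_nonneg_left hb (show (0 : ℝ) ≤ (N : ℝ) / 2 by positivity)
  linarith

/-- normalised energy -/
noncomputable def gE (N : ℕ) : ℝ := fE N / (N * Real.sqrt N)

/-- One step bound, divided by `N ^ (3/2)`. -/
lemma step2 (hSRCW : Stmt_SRCW) (hTILE : Stmt_TILE) (hLB : Stmt_LB) (hFUN : Stmt_FUN)
    (ε δ : ℝ) (hε : 0 < ε) (hε2 : ε ≤ 1 / 2) (hδ : 0 < δ) (hδ2 : δ ≤ 1 / 10)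
    (hNI : NearIso ε δ) (M : ℕ) (hM : 2 ≤ M) (D : ℝ) (hD : 0 < D)
    (hρδ : 5 * D / Real.sqrt M ≤ δ) (N K K' : ℕ) (hN1 : 1 ≤ N) (hK1 : 1 ≤ K)
    (hsρ : 5 * D / Real.sqrt N ≤ δ)
    (hK : (K' : ℝ) * (1 + 10 * D / Real.sqrt M) / ((1 - ε) / (1 + ε) * Real.sqrt M)
      * Real.sqrt N ≤ K) :
    gE N ≤ ((1 - ε) / (1 + ε))⁻¹ * (gE M + (M * Real.sqrt M)⁻¹
        + Real.sqrt M / (K' + 1) + (K' / Real.sqrt M) / 8)
      - (Real.sqrt N / (K + 1)) * (1 - (1 / 2) ^ (K + 1))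
      + 12 / D * (Real.sqrt N / (K + 1)) ^ 2 + 8 * M / Real.sqrt N := by
  obtain ⟨w, hwc, hw, hwe⟩ := hFUN.2.1 M 1 one_pos
  have hθ : 0 < (1 - ε) / (1 + ε) := div_pos (by linarith) (by linarith)
  have hM0 : (0 : ℝ) < M := by
    have : (2 : ℝ) ≤ M := by exact_mod_cast hM
    linarith
  have hN0 : (0 : ℝ) < N := by exact_mod_cast hN1
  have hsM : 0 < Real.sqrt M := Real.sqrt_pos.2 hM0
  have hsN : 0 < Real.sqrt N := Real.sqrt_pos.2 hN0
  have hsM2 : Real.sqrt M * Real.sqrt M = M := Real.mul_self_sqrt hM0.le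
  have hsN2 : Real.sqrt N * Real.sqrt N = N := Real.mul_self_sqrt hN0.le
  set θ := (1 - ε) / (1 + ε) with hθdef
  have es : Real.sqrt ((w.card : ℝ) / N) = Real.sqrt M / Real.sqrt N := by
    rw [hwc, Real.sqrt_div hM0.le]
  have h := step hSRCW hTILE hLB ε δ hε hε2 hδ hδ2 hNI w hw (by rw [hwc]; exact hM)
    (5 * D / Real.sqrt M) (by positivity) hρδ N K K' (D / Real.sqrt N) hN1 hK1
    (by positivity)
    (by
      rw [es]
      have : Real.sqrt M / Real.sqrt N * (5 * D / Real.sqrt M) = 5 * D / Real.sqrt N := by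
        field_simp
      rw [this, mul_div_assoc', div_lt_div_iff_of_pos_right hsN]
      linarith)
    (by
      rw [es]
      have : Real.sqrt M / Real.sqrt N * (5 * D / Real.sqrt M) = 5 * D / Real.sqrt N := by
        field_simp
      rw [this]; exact hsρ)
    (by
      rw [es]
      have h1 : (K' : ℝ) * (1 + 10 * D / Real.sqrt M) / (θ * Real.sqrt M)
        * Real.sqrt N * (θ * (Real.sqrt M / Real.sqrt N)) = K' * (1 + 4 * (5 * D / Real.sqrt M) / 2) := by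
        field_simp
        ring
      rw [← h1]
      apply mul_le_mul_of_nonneg_right hK
      positivity)
  rw [es, hwc] at h
  rw [← hθdef] at h
  have hfM : energy w - (M : ℝ) ^ 2 / 2 ≤ fE M + 1 := by
    unfold fE; linarith
  -- first term
  have h1 : (N : ℝ) / 2 * ((1 / (M : ℝ)) * ((θ * (Real.sqrt M / Real.sqrt N))⁻¹ *
        (2 * energy w - (M : ℝ) ^ 2 + 2 * (M : ℝ) ^ 2 / (K' + 1) + M * K' / 4)))
      = (N * Real.sqrt N) * (θ⁻¹ * ((M * Real.sqrt M)⁻¹ *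
        (energy w - (M : ℝ) ^ 2 / 2 + (M : ℝ) ^ 2 / (K' + 1) + M * K' / 8))) := by
    have : (0 : ℝ) < (K' : ℝ) + 1 := by positivity
    field_simp
    ring
  have h2 : (M * Real.sqrt M)⁻¹ *
        (energy w - (M : ℝ) ^ 2 / 2 + (M : ℝ) ^ 2 / (K' + 1) + M * K' / 8)
      ≤ gE M + (M * Real.sqrt M)⁻¹ + Real.sqrt M / (K' + 1) + (K' / Real.sqrt M) / 8 := by
    have e1 : gE M + (M * Real.sqrt M)⁻¹ + Real.sqrt M / (K' + 1) + (K' / Real.sqrt M) / 8
      = (M * Real.sqrt M)⁻¹ * (fE M + 1 + (M : ℝ) ^ 2 / (K' + 1) + M * K' / 8) := by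
      unfold gE
      have : (0 : ℝ) < (K' : ℝ) + 1 := by positivity
      have hM2 : (M : ℝ) = Real.sqrt M ^ 2 := by rw [sq]; exact hsM2.symm
      field_simp
      rw [← sq] at hsM2
      nlinarith [hsM2]
    rw [e1]
    apply mul_le_mul_of_nonneg_left _ (by positivity)
    linarith
  have h3 : (N * Real.sqrt N) * (θ⁻¹ * ((M * Real.sqrt M)⁻¹ *
        (energy w - (M : ℝ) ^ 2 / 2 + (M : ℝ) ^ 2 / (K' + 1) + M * K' / 8)))
      ≤ (N * Real.sqrt N) * (θ⁻¹ * (gE M + (M * Real.sqrt M)⁻¹ + Real.sqrt M / (K' + 1)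
        + (K' / Real.sqrt M) / 8)) := by
    apply mul_le_mul_of_nonneg_left _ (by positivity)
    apply mul_le_mul_of_nonneg_left h2 (by positivity)
  have hK0 : (0 : ℝ) < (K : ℝ) + 1 := by positivity
  have h4 : (N : ℝ) ^ 2 / (K + 1) * (1 - (1 / 2) ^ (K + 1))
      = (N * Real.sqrt N) * ((Real.sqrt N / (K + 1)) * (1 - (1 / 2) ^ (K + 1))) := by
    have : (N : ℝ) ^ 2 = (N * Real.sqrt N) * Real.sqrt N := by
      rw [mul_assoc, hsN2]; ring
    rw [this]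
    field_simp
  have h5 : 12 * (N : ℝ) ^ 2 / (D / Real.sqrt N * (K + 1) ^ 2)
      = (N * Real.sqrt N) * (12 / D * (Real.sqrt N / (K + 1)) ^ 2) := by
    have : (Real.sqrt N / (K + 1)) ^ 2 = N / (K + 1) ^ 2 := by
      rw [div_pow, sq (Real.sqrt N), hsN2]
    rw [this]
    field_simp
  have h6 : 8 * (M : ℝ) * N = (N * Real.sqrt N) * (8 * M / Real.sqrt N) := by
    field_simp
  rw [h1, h4, h5, h6] at h
  have hNN : 0 < (N : ℝ) * Real.sqrt N := by positivity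
  have h7 : fE N ≤ (N * Real.sqrt N) * (θ⁻¹ * (gE M + (M * Real.sqrt M)⁻¹
        + Real.sqrt M / (K' + 1) + (K' / Real.sqrt M) / 8)
      - (Real.sqrt N / (K + 1)) * (1 - (1 / 2) ^ (K + 1))
      + 12 / D * (Real.sqrt N / (K + 1)) ^ 2 + 8 * M / Real.sqrt N) := by
    linarith
  unfold gE
  rw [div_le_iff₀ hNN]
  unfold gE at h7
  linarith

lemma tendsto_sqrt_nat : Tendsto (fun N : ℕ => Real.sqrt N) atTop atTop :=
  Real.tendsto_sqrt_atTop.comp tendsto_natCast_atTop_atTop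

lemma tendsto_inv_sqrt_nat : Tendsto (fun N : ℕ => (Real.sqrt N)⁻¹) atTop (𝓝 0) :=
  tendsto_inv_atTop_zero.comp tendsto_sqrt_nat

/-- Limit `N → ∞`. -/
lemma step3 (hSRCW : Stmt_SRCW) (hTILE : Stmt_TILE) (hLB : Stmt_LB) (hFUN : Stmt_FUN)
    (ε δ : ℝ) (hε : 0 < ε) (hε2 : ε ≤ 1 / 2) (hδ : 0 < δ) (hδ2 : δ ≤ 1 / 10)
    (hNI : NearIso ε δ) (M : ℕ) (hM : 2 ≤ M) (D : ℝ) (hD : 0 < D)
    (hρδ : 5 * D / Real.sqrt M ≤ δ) (K' : ℕ) (hK' : 1 ≤ K') (B : ℝ)
    (hB : ((1 - ε) / (1 + ε))⁻¹ * (gE M + (M * Real.sqrt M)⁻¹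
        + Real.sqrt M / (K' + 1) + (K' / Real.sqrt M) / 8)
      - (1 - ε) / (1 + ε) / ((K' / Real.sqrt M) * (1 + 10 * D / Real.sqrt M))
      + 12 / D * ((1 - ε) / (1 + ε) / ((K' / Real.sqrt M) * (1 + 10 * D / Real.sqrt M))) ^ 2
      < B) :
    ∀ᶠ N : ℕ in atTop, gE N ≤ B := by
  have hθ : 0 < (1 - ε) / (1 + ε) := div_pos (by linarith) (by linarith)
  set θ := (1 - ε) / (1 + ε) with hθdef
  have hM0 : (0 : ℝ) < M := by
    have : (2 : ℝ) ≤ M := by exact_mod_cast hM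
    linarith
  have hsM : 0 < Real.sqrt M := Real.sqrt_pos.2 hM0
  have hK'0 : (0 : ℝ) < K' := by exact_mod_cast hK'
  set c : ℝ := (K' : ℝ) * (1 + 10 * D / Real.sqrt M) / (θ * Real.sqrt M) with hc
  have hc0 : 0 < c := by positivity
  let K : ℕ → ℕ := fun N => ⌈c * Real.sqrt N⌉₊
  have hKlim : Tendsto (fun N : ℕ => ((K N : ℕ) : ℝ) / Real.sqrt N) atTop (𝓝 c) :=
    (tendsto_nat_ceil_mul_div_atTop hc0.le).comp tendsto_sqrt_nat
  have hK1lim : Tendsto (fun N : ℕ => (((K N : ℕ) : ℝ) + 1) / Real.sqrt N) atTop (𝓝 c) := by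
    have := hKlim.add tendsto_inv_sqrt_nat
    rw [add_zero] at this
    refine this.congr (fun N => ?_)
    rw [add_div, one_div]
  have hinv : Tendsto (fun N : ℕ => Real.sqrt N / (((K N : ℕ) : ℝ) + 1)) atTop (𝓝 c⁻¹) := by
    have := hK1lim.inv₀ hc0.ne'
    refine this.congr (fun N => ?_)
    rw [inv_div]
  have hKtop : Tendsto K atTop atTop := by
    apply tendsto_nat_ceil_atTop.comp
    exact tendsto_sqrt_nat.const_mul_atTop hc0
  have hhalf : Tendsto (fun N : ℕ => (1 - (1 / 2 : ℝ) ^ (K N + 1))) atTop (𝓝 (1 - 0)) := by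
    apply tendsto_const_nhds.sub
    have := tendsto_pow_atTop_nhds_zero_of_lt_one (r := (1 / 2 : ℝ)) (by norm_num) (by norm_num)
    exact this.comp ((tendsto_add_atTop_nat 1).comp hKtop)
  have hlim : Tendsto (fun N : ℕ => θ⁻¹ * (gE M + (M * Real.sqrt M)⁻¹
        + Real.sqrt M / (K' + 1) + (K' / Real.sqrt M) / 8)
      - (Real.sqrt N / (((K N : ℕ) : ℝ) + 1)) * (1 - (1 / 2) ^ (K N + 1))
      + 12 / D * (Real.sqrt N / (((K N : ℕ) : ℝ) + 1)) ^ 2 + 8 * M / Real.sqrt N) atTop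
      (𝓝 (θ⁻¹ * (gE M + (M * Real.sqrt M)⁻¹
        + Real.sqrt M / (K' + 1) + (K' / Real.sqrt M) / 8) - c⁻¹ * (1 - 0)
        + 12 / D * (c⁻¹) ^ 2 + 8 * M * 0)) := by
    refine ((tendsto_const_nhds.sub (hinv.mul hhalf)).add ((hinv.pow 2).const_mul _)).add ?_
    refine (tendsto_inv_sqrt_nat.const_mul (8 * (M : ℝ))).congr (fun N => ?_)
    rw [div_eq_mul_inv]
  have ec : c⁻¹ = θ / ((K' / Real.sqrt M) * (1 + 10 * D / Real.sqrt M)) := by
    rw [hc]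
    have : 0 < 1 + 10 * D / Real.sqrt M := by positivity
    field_simp
  have hlt : θ⁻¹ * (gE M + (M * Real.sqrt M)⁻¹
        + Real.sqrt M / (K' + 1) + (K' / Real.sqrt M) / 8) - c⁻¹ * (1 - 0)
        + 12 / D * (c⁻¹) ^ 2 + 8 * M * 0 < B := by
    rw [ec]; simpa using hB
  have hev := hlim.eventually (gt_mem_nhds hlt)
  have hsmall : ∀ᶠ N : ℕ in atTop, 5 * D / Real.sqrt N ≤ δ := by
    have : Tendsto (fun N : ℕ => 5 * D / Real.sqrt N) atTop (𝓝 0) := by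
      have := tendsto_inv_sqrt_nat.const_mul (5 * D)
      rw [mul_zero] at this
      exact this.congr (fun N => by rw [div_eq_mul_inv])
    exact this.eventually (ge_mem_nhds hδ)
  filter_upwards [hev, hsmall, eventually_ge_atTop 1, hKtop.eventually_ge_atTop 1]
    with N h1 h2 h3 h4
  have := step2 hSRCW hTILE hLB hFUN ε δ hε hε2 hδ hδ2 hNI M hM D hD hρδ N (K N) K' h3 h4 h2
    (Nat.le_ceil _)
  exact this.trans h1.le

/-- The key comparison. -/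
lemma key (hISO : Stmt_ISO) (hSRCW : Stmt_SRCW) (hTILE : Stmt_TILE) (hLB : Stmt_LB)
    (hFUN : Stmt_FUN) (η : ℝ) (hη : 0 < η) :
    ∀ᶠ M : ℕ in atTop, ∀ᶠ N : ℕ in atTop, gE N ≤ gE M + η := by
  -- choice of the parameters
  obtain ⟨ε, hε, hε2, hεη⟩ : ∃ ε : ℝ, 0 < ε ∧ ε ≤ 1 / 2 ∧
      ((1 - ε) / (1 + ε))⁻¹ * (1 / η + η / 8) - (1 - ε) / (1 + ε) / η < η / 4 := by
    have hcont : ContinuousAt (fun ε : ℝ => ((1 - ε) / (1 + ε))⁻¹ * (1 / η + η / 8)
        - (1 - ε) / (1 + ε) / η) 0 := by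
      have h1 : ContinuousAt (fun ε : ℝ => (1 - ε) / (1 + ε)) 0 := by
        apply ContinuousAt.div
        · fun_prop
        · fun_prop
        · norm_num
      have h2 : ContinuousAt (fun ε : ℝ => ((1 - ε) / (1 + ε))⁻¹) 0 := by
        apply h1.inv₀; norm_num
      exact (h2.mul continuousAt_const).sub (h1.div_const _)
    have hval : (fun ε : ℝ => ((1 - ε) / (1 + ε))⁻¹ * (1 / η + η / 8)
        - (1 - ε) / (1 + ε) / η) 0 < η / 4 := by
      simp only [sub_zero, add_zero, div_one, inv_one, one_mul]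
      linarith
    have hev := hcont.eventually (gt_mem_nhds hval)
    have hev2 : ∀ᶠ ε : ℝ in 𝓝[>] 0, ((1 - ε) / (1 + ε))⁻¹ * (1 / η + η / 8)
        - (1 - ε) / (1 + ε) / η < η / 4 := hev.filter_mono nhdsWithin_le_nhds
    have hev3 : ∀ᶠ ε : ℝ in 𝓝[>] 0, ε ≤ 1 / 2 :=
      (ge_mem_nhds (by norm_num : (0 : ℝ) < 1 / 2) : ∀ᶠ ε : ℝ in 𝓝 0, ε ≤ 1 / 2).filter_mono
        nhdsWithin_le_nhds
    obtain ⟨ε, h1, h2, h3⟩ := (hev2.and (hev3.and self_mem_nhdsWithin)).exists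
    exact ⟨ε, h3, h2, h1⟩
  obtain ⟨δ, hδ, hδ2, hNI⟩ := hISO ε hε
  have hθ : 0 < (1 - ε) / (1 + ε) := div_pos (by linarith) (by linarith)
  have hθ1 : (1 - ε) / (1 + ε) ≤ 1 := by rw [div_le_one (by linarith)]; linarith
  set θ := (1 - ε) / (1 + ε) with hθdef
  have hD : (0 : ℝ) < 96 / η ^ 3 := by positivity
  set D : ℝ := 96 / η ^ 3 with hDdef
  let K' : ℕ → ℕ := fun M => ⌊η * Real.sqrt M⌋₊
  have hK'lim : Tendsto (fun M : ℕ => ((K' M : ℕ) : ℝ) / Real.sqrt M) atTop (𝓝 η) :=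
    (tendsto_nat_floor_mul_div_atTop hη.le).comp tendsto_sqrt_nat
  have hK'1lim : Tendsto (fun M : ℕ => Real.sqrt M / (((K' M : ℕ) : ℝ) + 1)) atTop
      (𝓝 (η⁻¹)) := by
    have h1 : Tendsto (fun M : ℕ => (((K' M : ℕ) : ℝ) + 1) / Real.sqrt M) atTop (𝓝 η) := by
      have := hK'lim.add tendsto_inv_sqrt_nat
      rw [add_zero] at this
      refine this.congr (fun N => ?_)
      rw [add_div, one_div]
    have := h1.inv₀ hη.ne'
    refine this.congr (fun N => ?_)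
    rw [inv_div]
  have hK'top : Tendsto K' atTop atTop := by
    apply tendsto_nat_floor_atTop.comp
    exact tendsto_sqrt_nat.const_mul_atTop hη
  have hDlim : Tendsto (fun M : ℕ => 1 + 10 * D / Real.sqrt M) atTop (𝓝 (1 + 0)) := by
    apply tendsto_const_nhds.add
    have := tendsto_inv_sqrt_nat.const_mul (10 * D)
    rw [mul_zero] at this
    exact this.congr (fun N => by rw [div_eq_mul_inv])
  have hMM : Tendsto (fun M : ℕ => ((M : ℝ) * Real.sqrt M)⁻¹) atTop (𝓝 0) :=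
    tendsto_inv_atTop_zero.comp
      (tendsto_natCast_atTop_atTop.atTop_mul_atTop₀ tendsto_sqrt_nat)
  have hu : Tendsto (fun M : ℕ => θ / ((((K' M : ℕ) : ℝ) / Real.sqrt M)
      * (1 + 10 * D / Real.sqrt M))) atTop (𝓝 (θ / (η * (1 + 0)))) :=
    tendsto_const_nhds.div (hK'lim.mul hDlim) (by simpa using hη.ne')
  have hlim : Tendsto (fun M : ℕ => θ⁻¹ * (((M : ℝ) * Real.sqrt M)⁻¹
        + Real.sqrt M / (((K' M : ℕ) : ℝ) + 1) + (((K' M : ℕ) : ℝ) / Real.sqrt M) / 8)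
      - θ / ((((K' M : ℕ) : ℝ) / Real.sqrt M) * (1 + 10 * D / Real.sqrt M))
      + 12 / D * (θ / ((((K' M : ℕ) : ℝ) / Real.sqrt M) * (1 + 10 * D / Real.sqrt M))) ^ 2)
      atTop (𝓝 (θ⁻¹ * (0 + η⁻¹ + η / 8) - θ / (η * (1 + 0))
        + 12 / D * (θ / (η * (1 + 0))) ^ 2)) :=
    ((((hMM.add hK'1lim).add (hK'lim.div_const 8)).const_mul _).sub hu).add
      ((hu.pow 2).const_mul _)
  have hlt : θ⁻¹ * (0 + η⁻¹ + η / 8) - θ / (η * (1 + 0))
        + 12 / D * (θ / (η * (1 + 0))) ^ 2 < η := by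
    have e1 : 12 / D * (θ / (η * (1 + 0))) ^ 2 ≤ η / 8 := by
      rw [hDdef, add_zero, mul_one]
      have : 12 / (96 / η ^ 3) * (θ / η) ^ 2 = η / 8 * θ ^ 2 := by
        field_simp
        ring
      rw [this]
      have h2 : θ ^ 2 ≤ 1 := by nlinarith
      nlinarith
    rw [add_zero, mul_one] at *
    rw [zero_add, inv_eq_one_div η] at *
    linarith
  have hev := hlim.eventually (gt_mem_nhds hlt)
  have hsmall : ∀ᶠ M : ℕ in atTop, 5 * D / Real.sqrt M ≤ δ := by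
    have : Tendsto (fun N : ℕ => 5 * D / Real.sqrt N) atTop (𝓝 0) := by
      have := tendsto_inv_sqrt_nat.const_mul (5 * D)
      rw [mul_zero] at this
      exact this.congr (fun N => by rw [div_eq_mul_inv])
    exact this.eventually (ge_mem_nhds hδ)
  filter_upwards [hev, hsmall, eventually_ge_atTop 2, hK'top.eventually_ge_atTop 1]
    with M h1 h2 h3 h4
  apply step3 hSRCW hTILE hLB hFUN ε δ hε hε2 hδ hδ2 hNI M h3 D hD h2 (K' M) h4
  rw [← hθdef]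
  have hg0 : gE M ≤ 0 := by
    unfold gE
    apply div_nonpos_of_nonpos_of_nonneg (hFUN.2.2.2.2 M).2 (by positivity)
  have h5 : θ⁻¹ * gE M ≤ gE M := by
    have : 1 ≤ θ⁻¹ := (one_le_inv₀ hθ).2 hθ1
    nlinarith
  have e3 : θ⁻¹ * (gE M + ((M : ℝ) * Real.sqrt M)⁻¹
        + Real.sqrt M / (((K' M : ℕ) : ℝ) + 1) + (((K' M : ℕ) : ℝ) / Real.sqrt M) / 8)
      = θ⁻¹ * gE M + θ⁻¹ * (((M : ℝ) * Real.sqrt M)⁻¹
        + Real.sqrt M / (((K' M : ℕ) : ℝ) + 1) + (((K' M : ℕ) : ℝ) / Real.sqrt M) / 8) := by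
    ring
  rw [e3]
  linarith

end LIMA

open LIMA in
theorem LIMA_proof (hISO : Stmt_ISO) (hSRCW : Stmt_SRCW) (hTILE : Stmt_TILE) (hLB : Stmt_LB)
    (hFUN : Stmt_FUN) : Stmt_LIMA := by
  have hb1 : ∀ N : ℕ, gE N ≤ 0 := by
    intro N
    unfold gE
    exact div_nonpos_of_nonpos_of_nonneg (hFUN.2.2.2.2 N).2 (by positivity)
  have hb2 : ∀ N : ℕ, -2 ≤ gE N := by
    intro N
    unfold gE
    rcases Nat.eq_zero_or_pos N with h | h
    · subst h; simp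
    · have hN0 : (0 : ℝ) < N := by exact_mod_cast h
      rw [le_div_iff₀ (by positivity)]
      have := (hFUN.2.2.2.2 N).1
      linarith
  have hbdd1 : IsBoundedUnder (· ≤ ·) atTop gE := isBoundedUnder_of ⟨0, hb1⟩
  have hbdd2 : IsBoundedUnder (· ≥ ·) atTop gE := isBoundedUnder_of ⟨-2, hb2⟩
  refine ⟨liminf gE atTop, ?_⟩
  change Tendsto gE atTop (𝓝 (liminf gE atTop))
  rw [tendsto_order]
  constructor
  · intro a ha
    exact eventually_lt_of_lt_liminf ha hbdd2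
  · intro a ha
    set l := liminf gE atTop with hl
    set η : ℝ := min 1 ((a - l) / 3) with hη
    have hη0 : 0 < η := lt_min one_pos (by linarith)
    have hη1 : η ≤ 1 := min_le_left _ _
    have hη2 : η ≤ (a - l) / 3 := min_le_right _ _
    have hfreq : ∃ᶠ M : ℕ in atTop, gE M < l + η := by
      apply frequently_lt_of_liminf_lt (hbdd1.isCoboundedUnder_ge)
      rw [← hl]; linarith
    have hkey := key hISO hSRCW hTILE hLB hFUN η hη0
    obtain ⟨M, hM1, hM2⟩ := (hfreq.and_eventually hkey).exists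
    filter_upwards [hM2] with N hN
    linarith

end Pool.KS
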