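import Pool.Agent.KS.Stmts

/-! Squad KS, module LIMB (MP_6f8d6f_an): asymptotic upper bound by the hexagonal constant. -/

open MeasureTheory Set Filter Topology
open scoped ENNReal

namespace Pool.KS

namespace LIMB

lemma tendsto_sqrt_nat : Tendsto (fun N : ℕ => Real.sqrt N) atTop atTop :=
  Real.tendsto_sqrt_atTop.comp tendsto_natCast_atTop_atTop

lemma tendsto_inv_sqrt_nat : Tendsto (fun N : ℕ => (Real.sqrt N)⁻¹) atTop (𝓝 0) :=
  tendsto_inv_atTop_zero.comp tendsto_sqrt_nat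

lemma hexn_nonneg (p : ℤ × ℤ) : 0 ≤ hexn p := Real.sqrt_nonneg _

/-- `Theta` is antitone on the positive axis. -/
lemma Theta_anti (hs : ∀ ν : ℝ, 0 < ν → Summable (fun p : ℤ × ℤ =>
      if p = 0 then 0 else Real.exp (-(ν * hexn p)) / hexn p)) {ν ν' : ℝ} (hν : 0 < ν)
    (h : ν ≤ ν') : Theta ν' ≤ Theta ν := by
  unfold Theta
  apply Summable.tsum_le_tsum _ (hs ν' (hν.trans_le h)) (hs ν hν)
  intro p
  split_ifs with hp
  · exact le_refl _
  · apply div_le_div_of_nonneg_right _ (hexn_nonneg p)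
    apply Real.exp_le_exp.2
    have := mul_le_mul_of_nonneg_right h (hexn_nonneg p)
    linarith

lemma Theta_nonneg (ν : ℝ) : 0 ≤ Theta ν := by
  unfold Theta
  apply tsum_nonneg
  intro p
  split_ifs with hp
  · exact le_refl _
  · exact div_nonneg (Real.exp_pos _).le (hexn_nonneg p)

/-- One step bound divided by `N ^ (3/2)`. -/
lemma step (hSRCL : Stmt_SRCL) (hTILE : Stmt_TILE)
    (ε δ : ℝ) (hε : 0 < ε) (hε2 : ε ≤ 1 / 2) (hδ : 0 < δ) (hδ2 : δ ≤ 1 / 10)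
    (hNI : NearIso ε δ) (D : ℝ) (hD : 0 < D) (m : ℕ)
    (hm : IsSource 1 (2 * D) m (fun K s => 1 / s * Theta (K * s / 4)))
    (ν : ℝ) (hν : 0 < ν)
    (N K : ℕ) (hN1 : 1 ≤ N) (hK1 : 1 ≤ K)
    (hsρ : 2 * D * Real.sqrt (4 * Real.pi) / Real.sqrt N ≤ δ)
    (hK : 4 * ν / ((1 - ε) * Real.sqrt (4 * Real.pi)) * Real.sqrt N ≤ K) :
    fE N ≤ (Theta ν / (2 * (1 - ε) * Real.sqrt (4 * Real.pi))
      - (Real.sqrt N / (K + 1)) * (1 - (1 / 2) ^ (K + 1))
      + 12 / D * (Real.sqrt N / (K + 1)) ^ 2 + 8 * m / Real.sqrt N) * (N * Real.sqrt N) := by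
  have hpi := Real.pi_gt_three
  set r := Real.sqrt (4 * Real.pi) with hr
  have hr2 : 2 < r := by
    rw [hr]
    apply Real.lt_sqrt_of_sq_lt
    linarith
  have hr0 : 0 < r := by linarith
  have hN0 : (0 : ℝ) < N := by exact_mod_cast hN1
  have hsN : 0 < Real.sqrt N := Real.sqrt_pos.2 hN0
  have hsN2 : Real.sqrt N * Real.sqrt N = N := Real.mul_self_sqrt hN0.le
  have hε1 : 0 < 1 - ε := by linarith
  have es : Real.sqrt (4 * Real.pi * 1 / N) = r / Real.sqrt N := by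
    rw [mul_one, Real.sqrt_div (by positivity)]
  have hS : ∀ (K : ℕ) (s : ℝ), 0 < s →
      0 ≤ (fun (K : ℕ) (s : ℝ) => 1 / s * Theta (K * s / 4)) K s := by
    intro K s hs
    exact mul_nonneg (by positivity) (Theta_nonneg _)
  have h := hTILE ε δ hε hε2 hδ hδ2 hNI 1 (2 * D) m _ one_pos (by linarith) hS hm
    N K (D / Real.sqrt N) hN1 hK1 (by positivity)
    (by
      rw [es]
      have e1 : 4 * (D / Real.sqrt N) = 4 * D / Real.sqrt N := by ring
      have e2 : r / Real.sqrt N * (2 * D) = 2 * r * D / Real.sqrt N := by ring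
      rw [e1, e2]
      apply div_lt_div_of_pos_right _ hsN
      nlinarith)
    (by
      rw [es]
      have e2 : r / Real.sqrt N * (2 * D) = 2 * D * r / Real.sqrt N := by ring
      rw [e2]; exact hsρ)
  rw [es] at h
  have hTh : Theta (K * ((1 - ε) * (r / Real.sqrt N)) / 4) ≤ Theta ν := by
    apply Theta_anti hSRCL.1 hν
    have h1 := mul_le_mul_of_nonneg_right hK
      (show 0 ≤ (1 - ε) * (r / Real.sqrt N) / 4 by positivity)
    have h2 : 4 * ν / ((1 - ε) * r) * Real.sqrt N * ((1 - ε) * (r / Real.sqrt N) / 4) = ν := by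
      field_simp
    rw [h2] at h1
    linarith
  have hmain : (N : ℝ) / 2 * (1 / ((1 - ε) * (r / Real.sqrt N))
      * Theta (K * ((1 - ε) * (r / Real.sqrt N)) / 4))
      ≤ Theta ν / (2 * (1 - ε) * r) * (N * Real.sqrt N) := by
    have e3 : Theta ν / (2 * (1 - ε) * r) * (N * Real.sqrt N)
      = (N : ℝ) / 2 * (1 / ((1 - ε) * (r / Real.sqrt N)) * Theta ν) := by
      field_simp
    rw [e3]
    apply mul_le_mul_of_nonneg_left _ (by positivity)
    exact mul_le_mul_of_nonneg_left hTh (by positivity)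
  have hK0 : (0 : ℝ) < (K : ℝ) + 1 := by positivity
  have h4 : (N : ℝ) ^ 2 / (K + 1) * (1 - (1 / 2) ^ (K + 1))
      = (N * Real.sqrt N) * ((Real.sqrt N / (K + 1)) * (1 - (1 / 2) ^ (K + 1))) := by
    have : (N : ℝ) ^ 2 = (N * Real.sqrt N) * Real.sqrt N := by
      rw [mul_assoc, hsN2]; ring
    rw [this]
    field_simp
  have h5 : 12 * (N : ℝ) ^ 2 / (D / Real.sqrt N * (K + 1) ^ 2)
      = (N * Real.sqrt N) * (12 / D * (Real.sqrt N / (K + 1)) ^ 2) := by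
    have : (Real.sqrt N / (K + 1)) ^ 2 = N / (K + 1) ^ 2 := by
      rw [div_pow, sq (Real.sqrt N), hsN2]
    rw [this]
    field_simp
  have h6 : 8 * (m : ℝ) * N = (N * Real.sqrt N) * (8 * m / Real.sqrt N) := by
    field_simp
  rw [h4, h5, h6] at h
  linarith

/-- Limit `N → ∞`. -/
lemma step2 (hSRCL : Stmt_SRCL) (hTILE : Stmt_TILE)
    (ε δ : ℝ) (hε : 0 < ε) (hε2 : ε ≤ 1 / 2) (hδ : 0 < δ) (hδ2 : δ ≤ 1 / 10)
    (hNI : NearIso ε δ) (D : ℝ) (hD : 0 < D) (ν : ℝ) (hν : 0 < ν) (B : ℝ)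
    (hB : Theta ν / (2 * (1 - ε) * Real.sqrt (4 * Real.pi))
      - (1 - ε) * Real.sqrt (4 * Real.pi) / (4 * ν)
      + 12 / D * ((1 - ε) * Real.sqrt (4 * Real.pi) / (4 * ν)) ^ 2 < B) :
    ∀ᶠ N : ℕ in atTop, fE N ≤ B * (N * Real.sqrt N) := by
  obtain ⟨m, hm⟩ := hSRCL.2 (2 * D) (by linarith)
  have hpi := Real.pi_pos
  have hr0 : 0 < Real.sqrt (4 * Real.pi) := Real.sqrt_pos.2 (by positivity)
  have hε1 : 0 < 1 - ε := by linarith
  set c : ℝ := 4 * ν / ((1 - ε) * Real.sqrt (4 * Real.pi)) with hc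
  have hc0 : 0 < c := by positivity
  let K : ℕ → ℕ := fun N => ⌈c * Real.sqrt N⌉₊
  have hKlim : Tendsto (fun N : ℕ => ((K N : ℕ) : ℝ) / Real.sqrt N) atTop (𝓝 c) :=
    (tendsto_nat_ceil_mul_div_atTop hc0.le).comp tendsto_sqrt_nat
  have hK1lim : Tendsto (fun N : ℕ => (((K N : ℕ) : ℝ) + 1) / Real.sqrt N) atTop (𝓝 c) := by
    have := hKlim.add tendsto_inv_sqrt_nat
    rw [add_zero] at this
    refine this.congr (fun N => ?_)
    rw [add_div, one_div]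
  have hinv : Tendsto (fun N : ℕ => Real.sqrt N / (((K N : ℕ) : ℝ) + 1)) atTop (𝓝 c⁻¹) := by
    have := hK1lim.inv₀ hc0.ne'
    refine this.congr (fun N => ?_)
    rw [inv_div]
  have hKtop : Tendsto K atTop atTop := by
    apply tendsto_nat_ceil_atTop.comp
    exact tendsto_sqrt_nat.const_mul_atTop hc0
  have hhalf : Tendsto (fun N : ℕ => (1 - (1 / 2 : ℝ) ^ (K N + 1))) atTop (𝓝 (1 - 0)) := by
    apply tendsto_const_nhds.sub
    have := tendsto_pow_atTop_nhds_zero_of_lt_one (r := (1 / 2 : ℝ)) (by norm_num) (by norm_num)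
    exact this.comp ((tendsto_add_atTop_nat 1).comp hKtop)
  have hlim : Tendsto (fun N : ℕ => Theta ν / (2 * (1 - ε) * Real.sqrt (4 * Real.pi))
      - (Real.sqrt N / (((K N : ℕ) : ℝ) + 1)) * (1 - (1 / 2) ^ (K N + 1))
      + 12 / D * (Real.sqrt N / (((K N : ℕ) : ℝ) + 1)) ^ 2 + 8 * m / Real.sqrt N) atTop
      (𝓝 (Theta ν / (2 * (1 - ε) * Real.sqrt (4 * Real.pi)) - c⁻¹ * (1 - 0)
        + 12 / D * (c⁻¹) ^ 2 + 8 * m * 0)) := by
    refine ((tendsto_const_nhds.sub (hinv.mul hhalf)).add ((hinv.pow 2).const_mul _)).add ?_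
    refine (tendsto_inv_sqrt_nat.const_mul (8 * (m : ℝ))).congr (fun N => ?_)
    rw [div_eq_mul_inv]
  have ec : c⁻¹ = (1 - ε) * Real.sqrt (4 * Real.pi) / (4 * ν) := by
    rw [hc, inv_div]
  have hlt : Theta ν / (2 * (1 - ε) * Real.sqrt (4 * Real.pi)) - c⁻¹ * (1 - 0)
        + 12 / D * (c⁻¹) ^ 2 + 8 * m * 0 < B := by
    rw [ec]; simpa using hB
  have hev := hlim.eventually (gt_mem_nhds hlt)
  have hsmall : ∀ᶠ N : ℕ in atTop, 2 * D * Real.sqrt (4 * Real.pi) / Real.sqrt N ≤ δ := by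
    have : Tendsto (fun N : ℕ => 2 * D * Real.sqrt (4 * Real.pi) / Real.sqrt N) atTop (𝓝 0) := by
      have := tendsto_inv_sqrt_nat.const_mul (2 * D * Real.sqrt (4 * Real.pi))
      rw [mul_zero] at this
      exact this.congr (fun N => by rw [div_eq_mul_inv])
    exact this.eventually (ge_mem_nhds hδ)
  filter_upwards [hev, hsmall, eventually_ge_atTop 1, hKtop.eventually_ge_atTop 1]
    with N h1 h2 h3 h4
  have h5 := step hSRCL hTILE ε δ hε hε2 hδ hδ2 hNI D hD m hm ν hν N (K N) h3 h4 h2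
    (Nat.le_ceil _)
  refine h5.trans ?_
  apply mul_le_mul_of_nonneg_right h1.le
  positivity

end LIMB

open LIMB in
theorem LIMB_proof (hISO : Stmt_ISO) (hSRCL : Stmt_SRCL) (hTILE : Stmt_TILE)
    (hHEXC : Stmt_HEXC) (_hFUN : Stmt_FUN) : Stmt_LIMB := by
  intro η hη
  have hpi := Real.pi_pos
  have hsp : 0 < Real.sqrt Real.pi := Real.sqrt_pos.2 hpi
  have hsp2 : Real.sqrt Real.pi * Real.sqrt Real.pi = Real.pi := Real.mul_self_sqrt hpi.le
  have er : Real.sqrt (4 * Real.pi) = 2 * Real.sqrt Real.pi := by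
    rw [Real.sqrt_mul (by norm_num), show (4 : ℝ) = 2 ^ 2 by norm_num,
      Real.sqrt_sq (by norm_num)]
  -- choice of `ν`
  obtain ⟨ν, hν, hν2⟩ : ∃ ν : ℝ, 0 < ν ∧
      Theta ν - 2 * Real.pi / ν < 4 * Real.sqrt Real.pi * (CKS + η / 2) := by
    have hlt : 4 * Real.sqrt Real.pi * CKS < 4 * Real.sqrt Real.pi * (CKS + η / 2) := by
      apply mul_lt_mul_of_pos_left _ (by positivity)
      linarith
    have hev : ∀ᶠ ν : ℝ in 𝓝[>] 0,
        Theta ν - 2 * Real.pi / ν < 4 * Real.sqrt Real.pi * (CKS + η / 2) :=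
      Filter.Tendsto.eventually hHEXC (gt_mem_nhds hlt)
    obtain ⟨ν, h1, h2⟩ := (hev.and self_mem_nhdsWithin).exists
    exact ⟨ν, h2, h1⟩
  -- choice of `ε`
  obtain ⟨ε, hε, hε2, hεη⟩ : ∃ ε : ℝ, 0 < ε ∧ ε ≤ 1 / 2 ∧
      Theta ν / (2 * (1 - ε) * Real.sqrt (4 * Real.pi))
      - (1 - ε) * Real.sqrt (4 * Real.pi) / (4 * ν) < CKS + η / 2 := by
    have hcont : ContinuousAt (fun ε : ℝ => Theta ν / (2 * (1 - ε) * Real.sqrt (4 * Real.pi))
      - (1 - ε) * Real.sqrt (4 * Real.pi) / (4 * ν)) 0 := by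
      apply ContinuousAt.sub
      · apply ContinuousAt.div
        · fun_prop
        · fun_prop
        · rw [er]; simpa using hsp.ne'
      · fun_prop
    have hval : (fun ε : ℝ => Theta ν / (2 * (1 - ε) * Real.sqrt (4 * Real.pi))
      - (1 - ε) * Real.sqrt (4 * Real.pi) / (4 * ν)) 0 < CKS + η / 2 := by
      have e1 : (fun ε : ℝ => Theta ν / (2 * (1 - ε) * Real.sqrt (4 * Real.pi))
        - (1 - ε) * Real.sqrt (4 * Real.pi) / (4 * ν)) 0
        = (Theta ν - 2 * Real.pi / ν) / (4 * Real.sqrt Real.pi) := by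
        simp only [sub_zero, mul_one, one_mul]
        rw [er]
        rw [← sq] at hsp2
        field_simp
        rw [hsp2]
        ring
      rw [e1, div_lt_iff₀ (by positivity)]
      linarith
    have hev2 : ∀ᶠ ε : ℝ in 𝓝[>] 0, Theta ν / (2 * (1 - ε) * Real.sqrt (4 * Real.pi))
      - (1 - ε) * Real.sqrt (4 * Real.pi) / (4 * ν) < CKS + η / 2 :=
      (hcont.eventually (gt_mem_nhds hval)).filter_mono nhdsWithin_le_nhds
    have hev3 : ∀ᶠ ε : ℝ in 𝓝[>] 0, ε ≤ 1 / 2 :=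
      (ge_mem_nhds (by norm_num : (0 : ℝ) < 1 / 2) : ∀ᶠ ε : ℝ in 𝓝 0, ε ≤ 1 / 2).filter_mono
        nhdsWithin_le_nhds
    obtain ⟨ε, h1, h2, h3⟩ := (hev2.and (hev3.and self_mem_nhdsWithin)).exists
    exact ⟨ε, h3, h2, h1⟩
  obtain ⟨δ, hδ, hδ2, hNI⟩ := hISO ε hε
  -- choice of `D`
  set u : ℝ := (1 - ε) * Real.sqrt (4 * Real.pi) / (4 * ν) with hu
  have hD : 0 < 24 * (u ^ 2 + 1) / η := by positivity
  have hDb : 12 / (24 * (u ^ 2 + 1) / η) * u ^ 2 ≤ η / 2 := by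
    have e1 : 12 / (24 * (u ^ 2 + 1) / η) * u ^ 2 = η / 2 * (u ^ 2 / (u ^ 2 + 1)) := by
      field_simp
      ring
    rw [e1]
    have h1 : u ^ 2 / (u ^ 2 + 1) ≤ 1 := by
      rw [div_le_one (by positivity)]; linarith
    nlinarith
  apply step2 hSRCL hTILE ε δ hε hε2 hδ hδ2 hNI (24 * (u ^ 2 + 1) / η) hD ν hν (CKS + η)
  rw [← hu]
  linarith

end Pool.KS
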