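import Pool.Agent.KS.PD

/-! Squad KS (MP_6f8d6f_an), module LOWB: the lower bound
`energy w ≥ M^2/2 - (√2 π / 8) M^(3/2)` for `M ≥ 5` points on the sphere.

Random planes `(n, τ)`, `n` uniform on the sphere, `τ` Lebesgue, weighted with the profile
`m (⟨n,x⟩ - τ)`, `m z = (l/2) cos (l z)` for `|z| ≤ π/(2l)`. -/

open MeasureTheory Set Filter Topology
open scoped ENNReal

namespace Pool.KS.LOWB

open Pool.KS Pool.KS.Lib Pool.KS.CHORD Pool.KS.PLN

/-- Archimedes: `⟨n, v⟩` is uniform on `[-‖v‖, ‖v‖]`. -/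
lemma archimedes (hSPH : Stmt_SPH) (F : ℝ → ℝ≥0∞) (hF : Measurable F) (v : E3) :
    ∫⁻ n, F (inner ℝ n v) ∂sph
      = ENNReal.ofReal (1 / 2) * ∫⁻ z in Icc (-1 : ℝ) 1, F (‖v‖ * z) := by
  obtain ⟨R, hR⟩ := exists_isometry v (‖v‖ • nz) (by rw [norm_smul, norm_nz]; simp)
  have h1 : ∫⁻ n, F (inner ℝ n v) ∂sph
      = ∫⁻ n, (fun m : E3 => F (‖v‖ * m 2)) (R n) ∂sph := by
    apply lintegral_congr
    intro n
    simp only
    congr 1
    rw [← LinearIsometryEquiv.inner_map_map R n v, hR, inner_smul_right]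
    congr 1
    simp [nz, PiLp.inner_apply, Fin.sum_univ_three]
  have hm2 : Measurable (fun m : E3 => F (‖v‖ * m 2)) := by
    have := measurable_coord3 2
    fun_prop
  rw [h1, lintegral_isometry hSPH R _ hm2, lintegral_sph _ hm2]
  have h2 : ∀ φ z : ℝ, (P !₂[φ, z]) 2 = z := by
    intro φ z
    simp [P]
  simp only [h2]
  simp only [lintegral_const, Measure.restrict_apply MeasurableSet.univ, univ_inter,
    Real.volume_Ioc]
  rw [mul_comm (∫⁻ z in Icc (-1 : ℝ) 1, F (‖v‖ * z)), ← mul_assoc,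
    ← ENNReal.ofReal_mul (by positivity)]
  congr 2
  have := Real.pi_pos
  field_simp
  ring

lemma lintegral_comp_mul (F : ℝ → ℝ≥0∞) (c : ℝ) (hc : 0 < c) :
    ∫⁻ z, F (c * z) = ENNReal.ofReal c⁻¹ * ∫⁻ z, F z := by
  have h1 : MeasurableEmbedding (fun z : ℝ => c * z) :=
    (Homeomorph.mulLeft₀ c hc.ne').measurableEmbedding
  rw [← h1.lintegral_map, Real.map_volume_mul_left hc.ne', lintegral_smul_measure,
    abs_of_pos (inv_pos.2 hc), smul_eq_mul]

/-- The main inequality. -/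
lemma main_ineq (hSPH : Stmt_SPH) (m : ℝ → ℝ≥0∞) (hm : Measurable m) (hm1 : ∫⁻ z, m z = 1)
    (γ : ℝ → ℝ≥0∞) (hγ : Measurable γ)
    (hγm : ∀ τ, γ τ ≤ ENNReal.ofReal (1 / 2) * ∫⁻ z in Icc (-1 : ℝ) 1, m (z - τ))
    (hfin : ∫⁻ τ, γ τ * γ τ ≠ ⊤) (w : Finset E3) (hw : OnS w) :
    (w.card : ℝ≥0∞) ^ 2 * ∫⁻ τ, γ τ * γ τ
      ≤ (w.card : ℝ≥0∞) * (∫⁻ z, m z * m z) + ENNReal.ofReal (energy w) := by
  have hp : IsProbabilityMeasure sph := hSPH.1
  set M : ℝ≥0∞ := (w.card : ℝ≥0∞) with hM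
  set G := ∫⁻ τ, γ τ * γ τ with hG
  have hmeas : ∀ x : E3, Measurable (fun p : E3 × ℝ => m (inner ℝ p.1 x - p.2)) := by
    intro x
    have : Measurable (fun p : E3 × ℝ => inner ℝ p.1 x - p.2) :=
      ((continuous_fst.inner continuous_const).sub continuous_snd).measurable
    exact hm.comp this
  have hmeas1 : ∀ (x n : E3), Measurable (fun τ : ℝ => m (inner ℝ n x - τ)) := by
    intro x n
    exact hm.comp (by fun_prop)
  have hmγ : ∀ (x n : E3), Measurable (fun τ : ℝ => m (inner ℝ n x - τ) * γ τ) :=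
    fun x n => (hmeas1 x n).mul hγ
  have hmm : ∀ (x y n : E3), Measurable
      (fun τ : ℝ => m (inner ℝ n x - τ) * m (inner ℝ n y - τ)) :=
    fun x y n => (hmeas1 x n).mul (hmeas1 y n)
  have hγγ : Measurable (fun τ : ℝ => γ τ * γ τ) := hγ.mul hγ
  -- the linear term
  have hlin : ∀ x ∈ w, G ≤ ∫⁻ n, (∫⁻ τ, m (inner ℝ n x - τ) * γ τ) ∂sph := by
    intro x hx
    rw [lintegral_lintegral_swap]
    · rw [hG]
      apply lintegral_mono
      intro τ
      simp only
      rw [lintegral_mul_const _ (by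
        have := (hmeas x).comp (measurable_id.prodMk (measurable_const (a := τ)))
        exact this), archimedes hSPH (fun s => m (s - τ)) (by fun_prop) x, hw x hx]
      simp only [one_mul]
      gcongr
      exact hγm τ
    · exact ((hmeas x).mul (hγ.comp measurable_snd)).aemeasurable
  -- the quadratic terms
  have hquad : ∀ x y : E3, ∫⁻ n, (∫⁻ τ, m (inner ℝ n x - τ) * m (inner ℝ n y - τ)) ∂sph
      ≤ (if x = y then ∫⁻ z, m z * m z else 0) + ENNReal.ofReal (‖x - y‖⁻¹ / 2) := by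
    intro x y
    by_cases hxy : x = y
    · subst hxy
      rw [if_pos rfl]
      have : ∀ n : E3, ∫⁻ τ, m (inner ℝ n x - τ) * m (inner ℝ n x - τ)
          = ∫⁻ z, m z * m z := by
        intro n
        exact lintegral_sub_left_eq_self (fun z => m z * m z) (inner ℝ n x)
      simp only [this, lintegral_const, measure_univ, mul_one]
      exact le_self_add
    · rw [if_neg hxy, zero_add]
      have hv : 0 < ‖x - y‖ := norm_pos_iff.2 (sub_ne_zero.2 hxy)
      have h1 : ∀ n : E3, ∫⁻ τ, m (inner ℝ n x - τ) * m (inner ℝ n y - τ)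
          = (fun t : ℝ => ∫⁻ σ, m (t + σ) * m σ) (inner ℝ n (x - y)) := by
        intro n
        have := lintegral_sub_left_eq_self (μ := (volume : Measure ℝ))
          (fun σ => m (inner ℝ n (x - y) + σ) * m σ) (inner ℝ n y)
        simp only at this ⊢
        rw [← this]
        apply lintegral_congr
        intro τ
        rw [inner_sub_right]
        congr 2
        ring
      have hA : Measurable (fun p : ℝ × ℝ => m (p.1 + p.2) * m p.2) :=
        (hm.comp (by fun_prop)).mul (hm.comp measurable_snd)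
      simp only [h1]
      rw [archimedes hSPH (fun t : ℝ => ∫⁻ σ, m (t + σ) * m σ) hA.lintegral_prod_right']
      have h2 : ∫⁻ t, ∫⁻ σ, m (t + σ) * m σ = 1 := by
        rw [lintegral_lintegral_swap hA.aemeasurable]
        have : ∀ σ : ℝ, ∫⁻ t, m (t + σ) * m σ = m σ := by
          intro σ
          rw [lintegral_mul_const _ (by fun_prop), lintegral_add_right_eq_self, hm1, one_mul]
        simp only [this, hm1]
      calc ENNReal.ofReal (1 / 2) * ∫⁻ z in Icc (-1 : ℝ) 1, ∫⁻ σ, m (‖x - y‖ * z + σ) * m σ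
          ≤ ENNReal.ofReal (1 / 2) * ∫⁻ z, ∫⁻ σ, m (‖x - y‖ * z + σ) * m σ := by
            gcongr
            exact Measure.restrict_le_self
        _ = ENNReal.ofReal (1 / 2) * (ENNReal.ofReal ‖x - y‖⁻¹ * 1) := by
            rw [lintegral_comp_mul (fun t => ∫⁻ σ, m (t + σ) * m σ) _ hv, h2]
        _ = ENNReal.ofReal (‖x - y‖⁻¹ / 2) := by
            rw [mul_one, ← ENNReal.ofReal_mul (by norm_num)]
            congr 1
            ring
        _ ≤ _ := le_refl _
  -- integrate the pointwise inequality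
  have hpt : ∀ n : E3, ∀ τ : ℝ, 2 * ((∑ x ∈ w, m (inner ℝ n x - τ)) * (M * γ τ))
      ≤ (∑ x ∈ w, ∑ y ∈ w, m (inner ℝ n x - τ) * m (inner ℝ n y - τ))
        + M ^ 2 * (γ τ * γ τ) := by
    intro n τ
    have := PD.two_mul_le (∑ x ∈ w, m (inner ℝ n x - τ)) (M * γ τ)
    rw [Finset.sum_mul_sum] at this
    calc _ ≤ _ := this
      _ = _ := by ring
  have hint := lintegral_mono (μ := sph) (fun n => lintegral_mono (μ := volume) (hpt n))
  have hL : 2 * (M * (M * G)) ≤ ∫⁻ n, (∫⁻ τ,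
      2 * ((∑ x ∈ w, m (inner ℝ n x - τ)) * (M * γ τ))) ∂sph := by
    have e1 : ∀ n : E3, ∫⁻ τ, 2 * ((∑ x ∈ w, m (inner ℝ n x - τ)) * (M * γ τ))
        = 2 * M * ∑ x ∈ w, ∫⁻ τ, m (inner ℝ n x - τ) * γ τ := by
      intro n
      rw [← lintegral_finsetSum _ (fun x _ => hmγ x n), ← lintegral_const_mul _
        (Finset.measurable_sum _ (fun x _ => hmγ x n))]
      apply lintegral_congr
      intro τ
      rw [← Finset.sum_mul]
      ring
    simp only [e1]
    have hm3 : ∀ x : E3, Measurable (fun n : E3 => ∫⁻ τ, m (inner ℝ n x - τ) * γ τ) := by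
      intro x
      exact ((hmeas x).mul (hγ.comp measurable_snd)).lintegral_prod_right'
    rw [lintegral_const_mul _ (Finset.measurable_sum _ (fun x _ => hm3 x)),
      lintegral_finsetSum _ (fun x _ => hm3 x)]
    calc 2 * (M * (M * G)) = 2 * M * ∑ x ∈ w, G := by
          rw [Finset.sum_const, nsmul_eq_mul]; ring
      _ ≤ _ := by
          gcongr with x hx
          exact hlin x hx
  have hR : ∫⁻ n, (∫⁻ τ, ((∑ x ∈ w, ∑ y ∈ w, m (inner ℝ n x - τ) * m (inner ℝ n y - τ))
        + M ^ 2 * (γ τ * γ τ))) ∂sph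
      ≤ (M * ∫⁻ z, m z * m z) + ENNReal.ofReal (energy w) + M ^ 2 * G := by
    have hm4 : ∀ x y : E3, Measurable (fun p : E3 × ℝ =>
        m (inner ℝ p.1 x - p.2) * m (inner ℝ p.1 y - p.2)) :=
      fun x y => (hmeas x).mul (hmeas y)
    have e1 : ∀ n : E3, ∫⁻ τ, ((∑ x ∈ w, ∑ y ∈ w, m (inner ℝ n x - τ) * m (inner ℝ n y - τ))
        + M ^ 2 * (γ τ * γ τ))
        = (∑ x ∈ w, ∑ y ∈ w, ∫⁻ τ, m (inner ℝ n x - τ) * m (inner ℝ n y - τ)) + M ^ 2 * G := by
      intro n
      rw [lintegral_add_right _ (hγγ.const_mul _), lintegral_const_mul _ hγγ,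
        lintegral_finsetSum _ (fun x _ => Finset.measurable_sum _
          (fun y _ => hmm x y n))]
      congr 1
      apply Finset.sum_congr rfl
      intro x _
      rw [lintegral_finsetSum _ (fun y _ => hmm x y n)]
    simp only [e1]
    rw [lintegral_add_right _ measurable_const, lintegral_const, measure_univ, mul_one]
    gcongr
    have hm5 : ∀ x y : E3, Measurable (fun n : E3 =>
        ∫⁻ τ, m (inner ℝ n x - τ) * m (inner ℝ n y - τ)) :=
      fun x y => (hm4 x y).lintegral_prod_right'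
    rw [lintegral_finsetSum _ (fun x _ => Finset.measurable_sum _ (fun y _ => hm5 x y))]
    have e2 : ∀ x ∈ w, ∫⁻ n, (∑ y ∈ w, ∫⁻ τ, m (inner ℝ n x - τ) * m (inner ℝ n y - τ)) ∂sph
        ≤ ∑ y ∈ w, ((if x = y then ∫⁻ z, m z * m z else 0)
          + ENNReal.ofReal (‖x - y‖⁻¹ / 2)) := by
      intro x _
      rw [lintegral_finsetSum _ (fun y _ => hm5 x y)]
      exact Finset.sum_le_sum (fun y _ => hquad x y)
    refine (Finset.sum_le_sum e2).trans (le_of_eq ?_)
    have e3 : ∀ x ∈ w, ∑ y ∈ w, ((if x = y then ∫⁻ z, m z * m z else 0)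
          + ENNReal.ofReal (‖x - y‖⁻¹ / 2))
        = (∫⁻ z, m z * m z) + ENNReal.ofReal (∑ y ∈ w, ‖x - y‖⁻¹ / 2) := by
      intro x hx
      rw [Finset.sum_add_distrib, Finset.sum_ite_eq, if_pos hx,
        ENNReal.ofReal_sum_of_nonneg (fun y _ => by positivity)]
    rw [Finset.sum_congr rfl e3, Finset.sum_add_distrib, Finset.sum_const, nsmul_eq_mul,
      ← ENNReal.ofReal_sum_of_nonneg (fun x _ => Finset.sum_nonneg (fun y _ => by positivity))]
    congr 2
    unfold energy
    rw [Finset.sum_div]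
    apply Finset.sum_congr rfl
    intro x _
    rw [Finset.sum_div]
  have hfinal := hL.trans (hint.trans hR)
  have h5 : 2 * (M * (M * G)) = M ^ 2 * G + M ^ 2 * G := by ring
  rw [h5] at hfinal
  have h6 : M ^ 2 * G ≠ ⊤ := by
    apply ENNReal.mul_ne_top _ hfin
    rw [hM]
    exact ENNReal.pow_ne_top (ENNReal.natCast_ne_top _)
  exact (ENNReal.add_le_add_iff_right h6).1 hfinal

/-! ### The cosine profile -/

/-- half width -/
noncomputable def a (l : ℝ) : ℝ := Real.pi / (2 * l)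

/-- the profile -/
noncomputable def m (l z : ℝ) : ℝ≥0∞ :=
  (Icc (-a l) (a l)).indicator (fun z => ENNReal.ofReal (l / 2 * Real.cos (l * z))) z

/-- explicit lower bound of the averaged profile -/
noncomputable def γ1 (l τ : ℝ) : ℝ≥0∞ :=
  (Icc (-(1 - a l)) (1 - a l)).indicator (fun _ => ENNReal.ofReal (1 / 2)) τ

noncomputable def γ2 (l τ : ℝ) : ℝ≥0∞ :=
  (Ioc (1 - a l) (1 + a l)).indicator
    (fun τ => ENNReal.ofReal ((1 + Real.sin (l * (1 - τ))) / 4)) τ

noncomputable def γ3 (l τ : ℝ) : ℝ≥0∞ :=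
  (Ico (-(1 + a l)) (-(1 - a l))).indicator
    (fun τ => ENNReal.ofReal ((1 + Real.sin (l * (1 + τ))) / 4)) τ

noncomputable def γ (l τ : ℝ) : ℝ≥0∞ := γ1 l τ + (γ2 l τ + γ3 l τ)

lemma l_mul_a (l : ℝ) (hl : 0 < l) : l * a l = Real.pi / 2 := by
  unfold a; field_simp

lemma a_pos (l : ℝ) (hl : 0 < l) : 0 < a l := by
  unfold a; positivity

lemma cos_nonneg (l : ℝ) (hl : 0 < l) (z : ℝ) (hz : z ∈ Icc (-a l) (a l)) :
    0 ≤ Real.cos (l * z) := by
  apply Real.cos_nonneg_of_mem_Icc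
  have h := l_mul_a l hl
  constructor
  · nlinarith [hz.1]
  · nlinarith [hz.2]

lemma measurable_m (l : ℝ) : Measurable (m l) := by
  unfold m
  exact Measurable.indicator (by fun_prop) measurableSet_Icc

lemma measurable_γ1 (l : ℝ) : Measurable (γ1 l) := by
  unfold γ1
  exact Measurable.indicator (by fun_prop) measurableSet_Icc

lemma measurable_γ2 (l : ℝ) : Measurable (γ2 l) := by
  unfold γ2
  exact Measurable.indicator (by fun_prop) measurableSet_Ioc

lemma measurable_γ3 (l : ℝ) : Measurable (γ3 l) := by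
  unfold γ3
  exact Measurable.indicator (by fun_prop) measurableSet_Ico

lemma measurable_γ (l : ℝ) : Measurable (γ l) :=
  (measurable_γ1 l).add ((measurable_γ2 l).add (measurable_γ3 l))

/-- partial integral of the profile -/
lemma int_cos (l : ℝ) (hl : 0 < l) (p q : ℝ) (hp : -a l ≤ p) (hpq : p ≤ q) (hq : q ≤ a l) :
    ∫⁻ z in Icc p q, ENNReal.ofReal (l / 2 * Real.cos (l * z))
      = ENNReal.ofReal ((Real.sin (l * q) - Real.sin (l * p)) / 2) := by
  have hc : Continuous (fun z : ℝ => l / 2 * Real.cos (l * z)) := by fun_prop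
  rw [← ofReal_integral_eq_lintegral_ofReal hc.integrableOn_Icc]
  · congr 1
    rw [integral_Icc_eq_integral_Ioc, ← intervalIntegral.integral_of_le hpq]
    have hd : ∀ x ∈ uIcc p q, HasDerivAt (fun z : ℝ => Real.sin (l * z) / 2)
        (l / 2 * Real.cos (l * x)) x := by
      intro x _
      have h1 : HasDerivAt (fun z : ℝ => l * z) l x := by
        simpa using (hasDerivAt_id x).const_mul l
      have h2 := (h1.sin).div_const 2
      have e : Real.cos (l * x) * l / 2 = l / 2 * Real.cos (l * x) := by ring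
      rw [e] at h2
      exact h2
    rw [intervalIntegral.integral_eq_sub_of_hasDerivAt hd (hc.intervalIntegrable _ _)]
    ring
  · filter_upwards [ae_restrict_mem measurableSet_Icc] with z hz
    have := cos_nonneg l hl z ⟨hp.trans hz.1, hz.2.trans hq⟩
    positivity

lemma lint_m (l : ℝ) (hl : 0 < l) : ∫⁻ z, m l z = 1 := by
  unfold m
  rw [lintegral_indicator measurableSet_Icc,
    int_cos l hl _ _ le_rfl (by have := a_pos l hl; linarith) le_rfl, mul_neg, l_mul_a l hl,
    Real.sin_neg, Real.sin_pi_div_two]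
  norm_num

lemma lint_m2 (l : ℝ) (hl : 0 < l) :
    ∫⁻ z, m l z * m l z = ENNReal.ofReal (Real.pi * l / 8) := by
  have ha := a_pos l hl
  have h1 : ∀ z, m l z * m l z = (Icc (-a l) (a l)).indicator
      (fun z => ENNReal.ofReal ((l / 2 * Real.cos (l * z)) ^ 2)) z := by
    intro z
    unfold m
    by_cases hz : z ∈ Icc (-a l) (a l)
    · rw [indicator_of_mem hz, indicator_of_mem hz, ← ENNReal.ofReal_mul (by
        have := cos_nonneg l hl z hz
        positivity), sq]
    · rw [indicator_of_notMem hz, indicator_of_notMem hz, zero_mul]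
  simp only [h1]
  have hc : Continuous (fun z : ℝ => (l / 2 * Real.cos (l * z)) ^ 2) := by fun_prop
  rw [lintegral_indicator measurableSet_Icc, ← ofReal_integral_eq_lintegral_ofReal
    hc.integrableOn_Icc (Filter.Eventually.of_forall (fun z => sq_nonneg _))]
  congr 1
  rw [integral_Icc_eq_integral_Ioc, ← intervalIntegral.integral_of_le (by linarith)]
  have hd : ∀ x ∈ uIcc (-a l) (a l), HasDerivAt
      (fun z : ℝ => l ^ 2 / 8 * z + l / 8 * (Real.sin (l * z) * Real.cos (l * z)))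
        ((l / 2 * Real.cos (l * x)) ^ 2) x := by
    intro x _
    have h1 : HasDerivAt (fun z : ℝ => l * z) l x := by
      simpa using (hasDerivAt_id x).const_mul l
    have h2 : HasDerivAt (fun z : ℝ => l ^ 2 / 8 * z) (l ^ 2 / 8) x := by
      simpa using (hasDerivAt_id x).const_mul (l ^ 2 / 8)
    have h3 := h2.add (((h1.sin).mul (h1.cos)).const_mul (l / 8))
    have hs := Real.sin_sq_add_cos_sq (l * x)
    have e : l ^ 2 / 8 + l / 8 * (Real.cos (l * x) * l * Real.cos (l * x)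
        + Real.sin (l * x) * (-Real.sin (l * x) * l)) = (l / 2 * Real.cos (l * x)) ^ 2 := by
      have : Real.sin (l * x) ^ 2 = 1 - Real.cos (l * x) ^ 2 := by linarith
      calc _ = l ^ 2 / 8 + l ^ 2 / 8 * (Real.cos (l * x) ^ 2 - Real.sin (l * x) ^ 2) := by ring
        _ = _ := by rw [this]; ring
    rw [e] at h3
    exact h3
  rw [intervalIntegral.integral_eq_sub_of_hasDerivAt hd (hc.intervalIntegrable _ _)]
  rw [mul_neg l, l_mul_a l hl, Real.cos_neg, Real.cos_pi_div_two]
  have : a l = Real.pi / (2 * l) := rfl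
  rw [this]
  field_simp
  ring

/-- `∫ (1 + sin)^2 / 16`. -/
lemma int_sin (l : ℝ) (hl : 0 < l) :
    ∫⁻ s in Icc (-a l) (a l), ENNReal.ofReal (((1 + Real.sin (l * s)) / 4) ^ 2)
      = ENNReal.ofReal (3 / 16 * a l) := by
  have ha := a_pos l hl
  have hc : Continuous (fun z : ℝ => ((1 + Real.sin (l * z)) / 4) ^ 2) := by fun_prop
  rw [← ofReal_integral_eq_lintegral_ofReal
    hc.integrableOn_Icc (Filter.Eventually.of_forall (fun z => sq_nonneg _))]
  congr 1
  rw [integral_Icc_eq_integral_Ioc, ← intervalIntegral.integral_of_le (by linarith)]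
  have hd : ∀ x ∈ uIcc (-a l) (a l), HasDerivAt
      (fun z : ℝ => 3 / 32 * z - 1 / (8 * l) * Real.cos (l * z)
        - 1 / (32 * l) * (Real.sin (l * z) * Real.cos (l * z)))
        (((1 + Real.sin (l * x)) / 4) ^ 2) x := by
    intro x _
    have h1 : HasDerivAt (fun z : ℝ => l * z) l x := by
      simpa using (hasDerivAt_id x).const_mul l
    have h2 : HasDerivAt (fun z : ℝ => 3 / 32 * z) (3 / 32) x := by
      simpa using (hasDerivAt_id x).const_mul (3 / 32)
    have h3 := (h2.sub ((h1.cos).const_mul (1 / (8 * l)))).sub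
      (((h1.sin).mul (h1.cos)).const_mul (1 / (32 * l)))
    have hs := Real.sin_sq_add_cos_sq (l * x)
    have e : 3 / 32 - 1 / (8 * l) * (-Real.sin (l * x) * l)
        - 1 / (32 * l) * (Real.cos (l * x) * l * Real.cos (l * x)
        + Real.sin (l * x) * (-Real.sin (l * x) * l)) = ((1 + Real.sin (l * x)) / 4) ^ 2 := by
      have : Real.cos (l * x) ^ 2 = 1 - Real.sin (l * x) ^ 2 := by linarith
      calc _ = 3 / 32 + Real.sin (l * x) / 8
            - (Real.cos (l * x) ^ 2 - Real.sin (l * x) ^ 2) / 32 := by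
            field_simp
            ring
        _ = _ := by rw [this]; ring
    rw [e] at h3
    exact h3
  rw [intervalIntegral.integral_eq_sub_of_hasDerivAt hd (hc.intervalIntegrable _ _)]
  rw [mul_neg l, l_mul_a l hl, Real.cos_neg, Real.cos_pi_div_two]
  ring

lemma shift (l τ : ℝ) : ∫⁻ z in Icc (-1 : ℝ) 1, m l (z - τ)
    = ∫⁻ s in Icc (-1 - τ) (1 - τ), m l s := by
  rw [← lintegral_indicator measurableSet_Icc, ← lintegral_indicator measurableSet_Icc,
    ← lintegral_sub_right_eq_self (fun s => (Icc (-1 - τ) (1 - τ)).indicator (m l) s) τ]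
  apply lintegral_congr
  intro z
  by_cases hz : z ∈ Icc (-1 : ℝ) 1
  · rw [indicator_of_mem hz, indicator_of_mem]
    exact ⟨by linarith [hz.1], by linarith [hz.2]⟩
  · rw [indicator_of_notMem hz, indicator_of_notMem]
    rintro ⟨h1, h2⟩
    exact hz ⟨by linarith, by linarith⟩

lemma g_ge (l : ℝ) (hl : 0 < l) (τ p q : ℝ) (hp : -a l ≤ p) (hpq : p ≤ q) (hq : q ≤ a l)
    (hp' : -1 - τ ≤ p) (hq' : q ≤ 1 - τ) :
    ENNReal.ofReal ((Real.sin (l * q) - Real.sin (l * p)) / 2)
      ≤ ∫⁻ z in Icc (-1 : ℝ) 1, m l (z - τ) := by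
  rw [shift, ← int_cos l hl p q hp hpq hq]
  calc _ = ∫⁻ z in Icc p q, m l z := by
        apply setLIntegral_congr_fun measurableSet_Icc
        intro z hz
        simp only
        unfold m
        rw [indicator_of_mem]
        exact ⟨hp.trans hz.1, hz.2.trans hq⟩
    _ ≤ _ := lintegral_mono_set (Icc_subset_Icc hp' hq')

lemma γ_le (l : ℝ) (hl : 0 < l) (ha1 : a l ≤ 1) (τ : ℝ) :
    γ l τ ≤ ENNReal.ofReal (1 / 2) * ∫⁻ z in Icc (-1 : ℝ) 1, m l (z - τ) := by
  have ha := a_pos l hl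
  have hla := l_mul_a l hl
  unfold γ γ1 γ2 γ3
  by_cases h1 : τ ∈ Icc (-(1 - a l)) (1 - a l)
  · rw [indicator_of_mem h1, indicator_of_notMem (fun h => absurd h.1 (not_lt.2 h1.2)),
      indicator_of_notMem (fun h => absurd h.2 (not_lt.2 h1.1)), add_zero, add_zero]
    have h := g_ge l hl τ (-a l) (a l) le_rfl (by linarith) le_rfl (by linarith [h1.1])
      (by linarith [h1.2])
    rw [mul_neg l, hla, Real.sin_neg, Real.sin_pi_div_two] at h
    norm_num at h
    calc ENNReal.ofReal (1 / 2) = ENNReal.ofReal (1 / 2) * 1 := by rw [mul_one]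
      _ ≤ _ := by gcongr
  · rw [indicator_of_notMem h1, zero_add]
    by_cases h2 : τ ∈ Ioc (1 - a l) (1 + a l)
    · rw [indicator_of_mem h2, indicator_of_notMem (fun h => by
        have h3 := h.2
        have h4 := h2.1
        linarith), add_zero]
      have h := g_ge l hl τ (-a l) (1 - τ) le_rfl (by linarith [h2.2]) (by linarith [h2.1])
        (by linarith [h2.1]) le_rfl
      rw [mul_neg l, hla, Real.sin_neg, Real.sin_pi_div_two] at h
      calc ENNReal.ofReal ((1 + Real.sin (l * (1 - τ))) / 4)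
          = ENNReal.ofReal (1 / 2) * ENNReal.ofReal ((Real.sin (l * (1 - τ)) - -1) / 2) := by
            rw [← ENNReal.ofReal_mul (by norm_num)]
            congr 1
            ring
        _ ≤ _ := by gcongr
    · rw [indicator_of_notMem h2, zero_add]
      by_cases h3 : τ ∈ Ico (-(1 + a l)) (-(1 - a l))
      · rw [indicator_of_mem h3]
        have h := g_ge l hl τ (-1 - τ) (a l) (by linarith [h3.2]) (by linarith [h3.1]) le_rfl
          le_rfl (by linarith [h3.2])
        have e : l * (-1 - τ) = -(l * (1 + τ)) := by ring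
        rw [hla, e, Real.sin_neg, Real.sin_pi_div_two] at h
        calc ENNReal.ofReal ((1 + Real.sin (l * (1 + τ))) / 4)
            = ENNReal.ofReal (1 / 2) * ENNReal.ofReal ((1 - -Real.sin (l * (1 + τ))) / 2) := by
              rw [← ENNReal.ofReal_mul (by norm_num)]
              congr 1
              ring
          _ ≤ _ := by gcongr
      · rw [indicator_of_notMem h3]
        exact zero_le

lemma γ_le_half (l : ℝ) (hl : 0 < l) (ha1 : a l ≤ 1) (τ : ℝ) : γ l τ ≤ 1 := by
  refine (γ_le l hl ha1 τ).trans ?_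
  calc _ ≤ ENNReal.ofReal (1 / 2) * ∫⁻ z, m l (z - τ) := by
        gcongr
        exact Measure.restrict_le_self
    _ = ENNReal.ofReal (1 / 2) := by
        rw [lintegral_sub_right_eq_self (fun z => m l z) τ, lint_m l hl, mul_one]
    _ ≤ 1 := by
        rw [← ENNReal.ofReal_one]
        exact ENNReal.ofReal_le_ofReal (by norm_num)

lemma γ_fin (l : ℝ) (hl : 0 < l) (ha1 : a l ≤ 1) : ∫⁻ τ, γ l τ * γ l τ ≠ ⊤ := by
  have ha := a_pos l hl
  have h : ∀ τ, γ l τ * γ l τ ≤ (Icc (-2 : ℝ) 2).indicator (fun _ => 1) τ := by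
    intro τ
    by_cases hτ : τ ∈ Icc (-2 : ℝ) 2
    · rw [indicator_of_mem hτ]
      calc _ ≤ (1 : ℝ≥0∞) * 1 := by
            gcongr <;> exact γ_le_half l hl ha1 τ
        _ = 1 := one_mul 1
    · rw [indicator_of_notMem hτ]
      have : γ l τ = 0 := by
        unfold γ γ1 γ2 γ3
        rw [indicator_of_notMem, indicator_of_notMem, indicator_of_notMem, add_zero, add_zero]
        · rintro ⟨h1, h2⟩
          exact hτ ⟨by linarith, by linarith⟩
        · rintro ⟨h1, h2⟩
          exact hτ ⟨by linarith, by linarith⟩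
        · rintro ⟨h1, h2⟩
          exact hτ ⟨by linarith, by linarith⟩
      rw [this, zero_mul]
  apply ne_of_lt
  calc _ ≤ ∫⁻ τ, (Icc (-2 : ℝ) 2).indicator (fun _ => (1 : ℝ≥0∞)) τ := lintegral_mono h
    _ = volume (Icc (-2 : ℝ) 2) := by
        rw [lintegral_indicator measurableSet_Icc, setLIntegral_one]
    _ < ⊤ := by rw [Real.volume_Icc]; exact ENNReal.ofReal_lt_top

lemma int_sin' (l : ℝ) (hl : 0 < l) :
    ∫⁻ s, (Ico (-a l) (a l)).indicator
      (fun s => ENNReal.ofReal (((1 + Real.sin (l * s)) / 4) ^ 2)) s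
      = ENNReal.ofReal (3 / 16 * a l) := by
  rw [lintegral_indicator measurableSet_Ico, ← int_sin l hl,
    Measure.restrict_congr_set Ico_ae_eq_Icc]

lemma sin_bound (x : ℝ) : 0 ≤ (1 + Real.sin x) / 4 := by
  have := Real.neg_one_le_sin x
  linarith

lemma γ2_sq (l : ℝ) (hl : 0 < l) :
    ∫⁻ τ, γ2 l τ * γ2 l τ = ENNReal.ofReal (3 / 16 * a l) := by
  rw [← int_sin' l hl, ← lintegral_sub_left_eq_self (fun s => (Ico (-a l) (a l)).indicator
      (fun s => ENNReal.ofReal (((1 + Real.sin (l * s)) / 4) ^ 2)) s) (1 : ℝ)]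
  apply lintegral_congr
  intro τ
  unfold γ2
  by_cases h : τ ∈ Ioc (1 - a l) (1 + a l)
  · have h' : 1 - τ ∈ Ico (-a l) (a l) := ⟨by linarith [h.2], by linarith [h.1]⟩
    rw [indicator_of_mem h, indicator_of_mem h', ← ENNReal.ofReal_mul (sin_bound _), sq]
  · rw [indicator_of_notMem h, indicator_of_notMem, zero_mul]
    rintro ⟨h1, h2⟩
    exact h ⟨by linarith, by linarith⟩

lemma γ3_sq (l : ℝ) (hl : 0 < l) :
    ∫⁻ τ, γ3 l τ * γ3 l τ = ENNReal.ofReal (3 / 16 * a l) := by
  rw [← int_sin' l hl, ← lintegral_add_left_eq_self (fun s => (Ico (-a l) (a l)).indicator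
      (fun s => ENNReal.ofReal (((1 + Real.sin (l * s)) / 4) ^ 2)) s) (1 : ℝ)]
  apply lintegral_congr
  intro τ
  unfold γ3
  by_cases h : τ ∈ Ico (-(1 + a l)) (-(1 - a l))
  · have h' : 1 + τ ∈ Ico (-a l) (a l) := ⟨by linarith [h.1], by linarith [h.2]⟩
    rw [indicator_of_mem h, indicator_of_mem h', ← ENNReal.ofReal_mul (sin_bound _), sq]
  · rw [indicator_of_notMem h, indicator_of_notMem, zero_mul]
    rintro ⟨h1, h2⟩
    exact h ⟨by linarith, by linarith⟩

lemma γ1_sq (l : ℝ) :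
    ∫⁻ τ, γ1 l τ * γ1 l τ = ENNReal.ofReal ((1 - a l) / 2) := by
  have h : ∀ τ, γ1 l τ * γ1 l τ = (Icc (-(1 - a l)) (1 - a l)).indicator
      (fun _ => ENNReal.ofReal (1 / 4)) τ := by
    intro τ
    unfold γ1
    by_cases h : τ ∈ Icc (-(1 - a l)) (1 - a l)
    · rw [indicator_of_mem h, indicator_of_mem h, ← ENNReal.ofReal_mul (by norm_num)]
      norm_num
    · rw [indicator_of_notMem h, indicator_of_notMem h, zero_mul]
  simp only [h]
  rw [lintegral_indicator measurableSet_Icc, setLIntegral_const, Real.volume_Icc,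
    ← ENNReal.ofReal_mul (by norm_num)]
  congr 1
  ring

lemma γ_sq (l : ℝ) (hl : 0 < l) (ha1 : a l ≤ 1) :
    ENNReal.ofReal (1 / 2 - a l / 8) ≤ ∫⁻ τ, γ l τ * γ l τ := by
  have ha := a_pos l hl
  have h : ∀ τ, γ1 l τ * γ1 l τ + (γ2 l τ * γ2 l τ + γ3 l τ * γ3 l τ) ≤ γ l τ * γ l τ := by
    intro τ
    unfold γ
    have e : (γ1 l τ + (γ2 l τ + γ3 l τ)) * (γ1 l τ + (γ2 l τ + γ3 l τ))
        = (γ1 l τ * γ1 l τ + (γ2 l τ * γ2 l τ + γ3 l τ * γ3 l τ))
          + (2 * γ1 l τ * (γ2 l τ + γ3 l τ) + 2 * γ2 l τ * γ3 l τ) := by ring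
    rw [e]
    exact le_self_add
  calc ENNReal.ofReal (1 / 2 - a l / 8)
      = ENNReal.ofReal ((1 - a l) / 2) + (ENNReal.ofReal (3 / 16 * a l)
        + ENNReal.ofReal (3 / 16 * a l)) := by
        rw [← ENNReal.ofReal_add (by positivity) (by positivity),
          ← ENNReal.ofReal_add (by linarith) (by positivity)]
        congr 1
        ring
    _ = ∫⁻ τ, (γ1 l τ * γ1 l τ + (γ2 l τ * γ2 l τ + γ3 l τ * γ3 l τ)) := by
        have m1 : Measurable (fun τ => γ1 l τ * γ1 l τ) :=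
          (measurable_γ1 l).mul (measurable_γ1 l)
        have m2 : Measurable (fun τ => γ2 l τ * γ2 l τ) :=
          (measurable_γ2 l).mul (measurable_γ2 l)
        rw [lintegral_add_left m1, lintegral_add_left m2, γ1_sq l, γ2_sq l hl, γ3_sq l hl]
    _ ≤ _ := lintegral_mono h

/-- The inequality with the parameter `l`. -/
lemma param (hSPH : Stmt_SPH) (w : Finset E3) (hw : OnS w) (l : ℝ) (hl : Real.pi / 2 ≤ l) :
    (w.card : ℝ) ^ 2 * (1 / 2 - Real.pi / (16 * l))
      ≤ w.card * (Real.pi * l / 8) + energy w := by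
  have hpi := Real.pi_pos
  have hl0 : 0 < l := by linarith
  have ha1 : a l ≤ 1 := by
    unfold a
    rw [div_le_one (by positivity)]
    linarith
  have h := main_ineq hSPH (m l) (measurable_m l) (lint_m l hl0) (γ l) (measurable_γ l)
    (γ_le l hl0 ha1) (γ_fin l hl0 ha1) w hw
  rw [lint_m2 l hl0] at h
  have h2 : (w.card : ℝ≥0∞) ^ 2 * ENNReal.ofReal (1 / 2 - a l / 8)
      ≤ (w.card : ℝ≥0∞) * ENNReal.ofReal (Real.pi * l / 8) + ENNReal.ofReal (energy w) := by
    refine le_trans ?_ h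
    gcongr
    exact γ_sq l hl0 ha1
  have hen : 0 ≤ energy w := by
    unfold energy
    positivity
  have hM : (w.card : ℝ≥0∞) = ENNReal.ofReal (w.card : ℝ) := by simp
  rw [hM, ← ENNReal.ofReal_pow (by positivity), ← ENNReal.ofReal_mul (by positivity),
    ← ENNReal.ofReal_mul (by positivity), ← ENNReal.ofReal_add (by positivity) hen,
    ENNReal.ofReal_le_ofReal_iff (by positivity)] at h2
  have e : a l / 8 = Real.pi / (16 * l) := by
    unfold a
    field_simp
    ring
  rw [e] at h2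
  exact h2

end Pool.KS.LOWB

namespace Pool.KS

/-- LOWB: explicit nonasymptotic lower bound. -/
def Stmt_LOWB : Prop :=
  ∀ w : Finset E3, OnS w → 5 ≤ w.card →
    (w.card : ℝ) ^ 2 / 2 - Real.sqrt 2 * Real.pi / 8 * (w.card * Real.sqrt w.card) ≤ energy w

theorem LOWB_proof (hSPH : Stmt_SPH) : Stmt_LOWB := by
  intro w hw h5
  have hpi := Real.pi_pos
  have hM5 : (5 : ℝ) ≤ w.card := by exact_mod_cast h5
  have hM0 : (0 : ℝ) < w.card := by linarith
  set M : ℝ := (w.card : ℝ) with hM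
  have hl : Real.pi / 2 ≤ Real.sqrt M / Real.sqrt 2 := by
    rw [← Real.sqrt_div (by positivity)]
    apply Real.le_sqrt_of_sq_le
    have h3 := Real.pi_lt_d2
    have : (Real.pi / 2) ^ 2 ≤ (3.15 / 2) ^ 2 := by gcongr
    refine this.trans ?_
    norm_num
    linarith
  have h := LOWB.param hSPH w hw (Real.sqrt M / Real.sqrt 2) hl
  have hs2 : 0 < Real.sqrt 2 := by positivity
  have hsM : 0 < Real.sqrt M := Real.sqrt_pos.2 hM0
  have hs2' : Real.sqrt 2 ^ 2 = 2 := Real.sq_sqrt (by norm_num)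
  have hsM' : Real.sqrt M ^ 2 = M := Real.sq_sqrt hM0.le
  have e1 : M ^ 2 * (1 / 2 - Real.pi / (16 * (Real.sqrt M / Real.sqrt 2)))
      = M ^ 2 / 2 - Real.sqrt 2 * Real.pi / 16 * (M * Real.sqrt M) := by
    have hMM : M ^ 2 = M * Real.sqrt M * Real.sqrt M := by
      rw [mul_assoc, ← sq (Real.sqrt M), hsM']; ring
    have h7 : M * Real.sqrt M * Real.sqrt M * (Real.pi / (16 * (Real.sqrt M / Real.sqrt 2)))
        = Real.sqrt 2 * Real.pi / 16 * (M * Real.sqrt M) := by
      field_simp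
    rw [← h7, ← hMM]
    ring
  have e2 : M * (Real.pi * (Real.sqrt M / Real.sqrt 2) / 8)
      = Real.sqrt 2 * Real.pi / 16 * (M * Real.sqrt M) := by
    have : Real.sqrt M / Real.sqrt 2 = Real.sqrt 2 * Real.sqrt M / 2 := by
      rw [div_eq_div_iff hs2.ne' (by norm_num)]
      nlinarith [hs2']
    rw [this]
    ring
  rw [← hM, e1, e2] at h
  linarith

end Pool.KS
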