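import Pool.Agent.KS.PINV

open MeasureTheory Set Filter Topology
open scoped ENNReal

namespace Pool.KS

namespace Sph

/-- spherical coordinates `(rho, phi, z)` -/
noncomputable def Phi (v : Fin 3 → ℝ) : Fin 3 → ℝ :=
  ![v 0 * (Real.sqrt (1 - v 2 ^ 2) * Real.cos (v 1)),
    v 0 * (Real.sqrt (1 - v 2 ^ 2) * Real.sin (v 1)), v 0 * v 2]

theorem Phi_eq (v : Fin 3 → ℝ) : WithLp.toLp 2 (Phi v) = v 0 • P !₂[v 1, v 2] := by
  ext i
  fin_cases i <;> simp [Phi, P]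

/-- the matrix of the derivative -/
noncomputable def Mat (v : Fin 3 → ℝ) : Matrix (Fin 3) (Fin 3) ℝ :=
  !![Real.sqrt (1 - v 2 ^ 2) * Real.cos (v 1),
      -(v 0 * Real.sqrt (1 - v 2 ^ 2) * Real.sin (v 1)),
      -(v 0 * v 2 / Real.sqrt (1 - v 2 ^ 2) * Real.cos (v 1));
     Real.sqrt (1 - v 2 ^ 2) * Real.sin (v 1),
      v 0 * Real.sqrt (1 - v 2 ^ 2) * Real.cos (v 1),
      -(v 0 * v 2 / Real.sqrt (1 - v 2 ^ 2) * Real.sin (v 1));
     v 2, 0, v 0]

theorem det_Mat (v : Fin 3 → ℝ) (hv : v 2 ∈ Ioo (-1 : ℝ) 1) : (Mat v).det = v 0 ^ 2 := by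
  have h1 : 0 < 1 - v 2 ^ 2 := by nlinarith [hv.1, hv.2]
  have hs := Real.sq_sqrt h1.le
  have hs0 : 0 < Real.sqrt (1 - v 2 ^ 2) := Real.sqrt_pos.2 h1
  set s := Real.sqrt (1 - v 2 ^ 2) with hsdef
  have hc := Real.cos_sq_add_sin_sq (v 1)
  rw [Matrix.det_fin_three]
  simp only [Mat, ← hsdef, Matrix.of_apply, Matrix.cons_val', Matrix.cons_val_zero,
    Matrix.cons_val_one, Matrix.cons_val, Matrix.cons_val_fin_one]
  field_simp
  have h2 : v 2 ^ 2 = 1 - s ^ 2 := by linarith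
  have h3 : Real.sin (v 1) ^ 2 = 1 - Real.cos (v 1) ^ 2 := by linarith
  ring_nf
  simp only [h2, h3]
  ring

theorem hasDeriv (v : Fin 3 → ℝ) (hv : v 2 ∈ Ioo (-1 : ℝ) 1) :
    HasFDerivAt Phi (LinearMap.toContinuousLinearMap (Matrix.toLin' (Mat v))) v := by
  have h1 : 0 < 1 - v 2 ^ 2 := by nlinarith [hv.1, hv.2]
  have hs0 : 0 < Real.sqrt (1 - v 2 ^ 2) := Real.sqrt_pos.2 h1
  have p0 : HasFDerivAt (fun w : Fin 3 → ℝ => w 0)
    (ContinuousLinearMap.proj (R := ℝ) (φ := fun _ : Fin 3 => ℝ) 0) v := hasFDerivAt_apply 0 v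
  have p1 : HasFDerivAt (fun w : Fin 3 → ℝ => w 1)
    (ContinuousLinearMap.proj (R := ℝ) (φ := fun _ : Fin 3 => ℝ) 1) v := hasFDerivAt_apply 1 v
  have p2 : HasFDerivAt (fun w : Fin 3 → ℝ => w 2)
    (ContinuousLinearMap.proj (R := ℝ) (φ := fun _ : Fin 3 => ℝ) 2) v := hasFDerivAt_apply 2 v
  have q : HasFDerivAt (fun w : Fin 3 → ℝ => Real.sqrt (1 - w 2 ^ 2)) _ v :=
    ((p2.pow 2).const_sub 1).sqrt h1.ne'
  have c := p1.cos
  have s := p1.sin
  rw [hasFDerivAt_pi']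
  intro i
  fin_cases i
  · refine (p0.mul (q.mul c)).congr_fderiv ?_
    ext w
    simp [Mat, Matrix.toLin'_apply, dotProduct, Fin.sum_univ_three]
    field_simp
    ring
  · refine (p0.mul (q.mul s)).congr_fderiv ?_
    ext w
    simp [Mat, Matrix.toLin'_apply, dotProduct, Fin.sum_univ_three]
    field_simp
    ring
  · refine (p0.mul p2).congr_fderiv ?_
    ext w
    simp [Mat, Matrix.toLin'_apply, dotProduct, Fin.sum_univ_three]
    ring

theorem norm_P (u : E2) (hu : u 1 ∈ Icc (-1 : ℝ) 1) : ‖P u‖ = 1 := by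
  have h1 : 0 ≤ 1 - u 1 ^ 2 := by nlinarith [hu.1, hu.2]
  have h2 : ‖P u‖ ^ 2 = 1 := by
    rw [PinvAux.norm_sq3]
    have hs := Real.sq_sqrt h1
    have hc := Real.cos_sq_add_sin_sq (u 0)
    simp only [P]
    simp only [Matrix.cons_val_zero, Matrix.cons_val_one, Matrix.cons_val]
    nlinarith
  have h3 := norm_nonneg (P u)
  nlinarith

def D : Set (Fin 3 → ℝ) :=
  {v | v 0 ∈ Ioo (0 : ℝ) 1 ∧ v 1 ∈ Ioo (-Real.pi) Real.pi ∧ v 2 ∈ Ioo (-1 : ℝ) 1}

def DA (A : Set E3) : Set (Fin 3 → ℝ) := {v | v ∈ D ∧ P !₂[v 1, v 2] ∈ A}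

def cone (A : Set E3) : Set E3 := {x | ‖x‖ ∈ Ioo (0 : ℝ) 1 ∧ ‖x‖⁻¹ • x ∈ A}

noncomputable def wt (x : E3) : ℝ≥0∞ := ENNReal.ofReal ((‖x‖ ^ 2)⁻¹)

theorem norm_PD {v : Fin 3 → ℝ} (hv : v ∈ D) : ‖P !₂[v 1, v 2]‖ = 1 :=
  norm_P _ ⟨hv.2.2.1.le, hv.2.2.2.le⟩

theorem norm_Phi {v : Fin 3 → ℝ} (hv : v ∈ D) : ‖(WithLp.toLp 2 (Phi v) : E3)‖ = v 0 := by
  rw [Phi_eq, norm_smul, norm_PD hv, mul_one, Real.norm_of_nonneg hv.1.1.le]

theorem injOn_Phi : InjOn Phi D := by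
  intro v hv v' hv' h
  have h0 : v 0 = v' 0 := by rw [← norm_Phi hv, ← norm_Phi hv', h]
  have h1 : (WithLp.toLp 2 (Phi v) : E3) = WithLp.toLp 2 (Phi v') := by rw [h]
  rw [Phi_eq, Phi_eq, ← h0] at h1
  have h2 : P !₂[v 1, v 2] = P !₂[v' 1, v' 2] := smul_right_injective E3 hv.1.1.ne' h1
  have hb : ∀ w ∈ D, pinv (P !₂[w 1, w 2]) = !₂[w 1, w 2] := by
    intro w hw
    refine PINV_proof.2.2.2.1 _ ⟨hw.2.1.1, hw.2.1.2.le, hw.2.2.1.le, hw.2.2.2.le⟩ ?_
    exact abs_lt.2 hw.2.2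
  have h3 : (!₂[v 1, v 2] : E2) = !₂[v' 1, v' 2] := by
    rw [← hb v hv, ← hb v' hv', h2]
  have h4 : v 1 = v' 1 := by simpa using congrArg (fun u : E2 => u 0) h3
  have h5 : v 2 = v' 2 := by simpa using congrArg (fun u : E2 => u 1) h3
  funext i
  fin_cases i
  · exact h0
  · exact h4
  · exact h5

theorem image_sub (A : Set E3) : Phi '' DA A ⊆ (WithLp.toLp 2) ⁻¹' cone A := by
  rintro _ ⟨v, hv, rfl⟩
  refine ⟨?_, ?_⟩
  · rw [norm_Phi hv.1]
    exact hv.1.1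
  · rw [norm_Phi hv.1, Phi_eq, smul_smul, inv_mul_cancel₀ hv.1.1.1.ne', one_smul]
    exact hv.2

theorem sub_image (A : Set E3) :
    (WithLp.toLp 2) ⁻¹' cone A ⊆ Phi '' DA A ∪ {y : Fin 3 → ℝ | y 1 = 0} := by
  intro y hy
  by_cases h1 : y 1 = 0
  · exact Or.inr h1
  left
  set x : E3 := WithLp.toLp 2 y with hx
  have hx0 : 0 < ‖x‖ := hy.1.1
  set z : E3 := ‖x‖⁻¹ • x with hz
  have hz1 : ‖z‖ = 1 := by
    rw [hz, norm_smul, norm_inv, norm_norm, inv_mul_cancel₀ hx0.ne']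
  have hPz : P (pinv z) = z := PINV_proof.2.2.1 z hz1
  have hzi : ∀ i, z i = ‖x‖⁻¹ * y i := fun i => rfl
  have hz10 : z 1 ≠ 0 := by
    rw [hzi]
    exact mul_ne_zero (inv_ne_zero hx0.ne') h1
  have hsq := PinvAux.norm_sq3 z
  rw [hz1] at hsq
  have hz2 : z 2 ∈ Ioo (-1 : ℝ) 1 := by
    have : 0 < z 1 ^ 2 := by positivity
    have h2 : z 2 ^ 2 < 1 := by nlinarith [sq_nonneg (z 0)]
    have := (sq_lt_one_iff_abs_lt_one (z 2)).1 h2
    exact abs_lt.1 this
  have hz0 : Complex.arg ⟨z 0, z 1⟩ ∈ Ioo (-Real.pi) Real.pi := by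
    have h2 := Complex.arg_mem_Ioc (⟨z 0, z 1⟩ : ℂ)
    refine ⟨h2.1, lt_of_le_of_ne h2.2 ?_⟩
    rw [Ne, Complex.arg_eq_pi_iff]
    intro h3
    exact hz10 h3.2
  refine ⟨![‖x‖, Complex.arg ⟨z 0, z 1⟩, z 2], ⟨⟨hy.1, hz0, hz2⟩, ?_⟩, ?_⟩
  · show P !₂[Complex.arg ⟨z 0, z 1⟩, z 2] ∈ A
    have : P !₂[Complex.arg ⟨z 0, z 1⟩, z 2] = z := hPz
    rw [this]
    exact hy.2
  · have h2 : (WithLp.toLp 2 (Phi ![‖x‖, Complex.arg ⟨z 0, z 1⟩, z 2]) : E3) = x := by
      rw [Phi_eq]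
      show ‖x‖ • P (pinv z) = x
      rw [hPz, hz, smul_smul, mul_inv_cancel₀ hx0.ne', one_smul]
    have h3 := congrArg (WithLp.ofLp) h2
    exact h3

theorem meas_D : MeasurableSet D := by
  have h : D = (fun v : Fin 3 → ℝ => v 0) ⁻¹' Ioo 0 1 ∩ ((fun v : Fin 3 → ℝ => v 1) ⁻¹'
    Ioo (-Real.pi) Real.pi ∩ (fun v : Fin 3 → ℝ => v 2) ⁻¹' Ioo (-1) 1) := rfl
  rw [h]
  exact ((measurable_pi_apply 0) measurableSet_Ioo).inter
    (((measurable_pi_apply 1) measurableSet_Ioo).inter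
    ((measurable_pi_apply 2) measurableSet_Ioo))

theorem meas_P2 : Measurable (fun v : Fin 3 → ℝ => P !₂[v 1, v 2]) := by
  refine PinvAux.continuous_P.measurable.comp ?_
  refine (WithLp.measurable_toLp 2 _).comp ?_
  refine measurable_pi_lambda _ fun i => ?_
  fin_cases i
  · exact measurable_pi_apply 1
  · exact measurable_pi_apply 2

theorem meas_DA {A : Set E3} (hA : MeasurableSet A) : MeasurableSet (DA A) :=
  meas_D.inter (meas_P2 hA)

theorem meas_cone {A : Set E3} (hA : MeasurableSet A) : MeasurableSet (cone A) := by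
  have h1 : Measurable (fun x : E3 => ‖x‖⁻¹ • x) := by fun_prop
  exact (measurable_norm measurableSet_Ioo).inter (h1 hA)

theorem meas_wt : Measurable wt := by
  unfold wt
  fun_prop

theorem cone_int {A : Set E3} (hA : MeasurableSet A) :
    ∫⁻ x in cone A, wt x = volume (DA A) := by
  have h1 := (PiLp.volume_preserving_toLp (Fin 3)).setLIntegral_comp_preimage
    (meas_cone hA) meas_wt
  rw [← h1]
  have hnull : volume {y : Fin 3 → ℝ | y 1 = 0} = 0 := by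
    rw [volume_pi]
    exact Measure.pi_hyperplane (fun _ : Fin 3 => (volume : Measure ℝ)) 1 0
  have hae : ((WithLp.toLp 2) ⁻¹' cone A : Set (Fin 3 → ℝ)) =ᵐ[volume] Phi '' DA A := by
    refine Filter.EventuallyLE.antisymm ?_ ?_
    · rw [ae_le_set]
      refine measure_mono_null ?_ hnull
      intro y hy
      exact (sub_image A hy.1).resolve_left hy.2
    · exact HasSubset.Subset.eventuallyLE (image_sub A)
  rw [setLIntegral_congr hae]
  have h2 := lintegral_image_eq_lintegral_abs_det_fderiv_mul volume (meas_DA hA)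
    (f := Phi) (f' := fun v => LinearMap.toContinuousLinearMap (Matrix.toLin' (Mat v)))
    (fun v hv => (hasDeriv v hv.1.2.2).hasFDerivWithinAt)
    (injOn_Phi.mono fun v hv => hv.1) (fun y => wt (WithLp.toLp 2 y))
  rw [h2]
  have h3 : ∀ v ∈ DA A, ENNReal.ofReal
      |(LinearMap.toContinuousLinearMap (Matrix.toLin' (Mat v))).det|
      * wt (WithLp.toLp 2 (Phi v)) = 1 := by
    intro v hv
    have h4 : (LinearMap.toContinuousLinearMap (Matrix.toLin' (Mat v))).det = v 0 ^ 2 := by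
      rw [LinearMap.det_toContinuousLinearMap, LinearMap.det_toLin', det_Mat v hv.1.2.2]
    rw [h4, wt, norm_Phi hv.1, abs_of_nonneg (sq_nonneg _),
      ← ENNReal.ofReal_mul (sq_nonneg _), mul_inv_cancel₀ (by
        have := hv.1.1.1
        positivity), ENNReal.ofReal_one]
  rw [setLIntegral_congr_fun (meas_DA hA) h3]
  simp

/-- planar part -/
def B2 (A : Set E3) : Set (Fin 2 → ℝ) :=
  {u | u 0 ∈ Ioo (-Real.pi) Real.pi ∧ u 1 ∈ Ioo (-1 : ℝ) 1 ∧ P !₂[u 0, u 1] ∈ A}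

theorem vol_DA (A : Set E3) : volume (DA A) = volume (B2 A) := by
  have h1 := volume_preserving_piFinSuccAbove (fun _ : Fin 3 => ℝ) 0
  have h2 : DA A = (MeasurableEquiv.piFinSuccAbove (fun _ : Fin 3 => ℝ) 0) ⁻¹'
      (Ioo (0 : ℝ) 1 ×ˢ B2 A) := by
    ext v
    constructor
    · rintro ⟨⟨a, b, c⟩, d⟩
      exact ⟨a, b, c, d⟩
    · rintro ⟨a, b, c, d⟩
      exact ⟨⟨a, b, c⟩, d⟩
  rw [h2, h1.measure_preimage_equiv]
  rw [Measure.volume_eq_prod, Measure.prod_prod, Real.volume_Ioo]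
  simp

theorem vol_B2 (A : Set E3) : volume (B2 A) = volume (box ∩ P ⁻¹' A) := by
  have h1 := EuclideanSpace.volume_preserving_symm_measurableEquiv_toLp (Fin 2)
  have h2 : volume (box ∩ P ⁻¹' A) =
      volume ((MeasurableEquiv.toLp 2 (Fin 2 → ℝ)).symm.symm ⁻¹' (box ∩ P ⁻¹' A)) :=
    (h1.symm.measure_preimage_equiv _).symm
  rw [h2]
  have hnull : ∀ (i : Fin 2) (a : ℝ), volume {y : Fin 2 → ℝ | y i = a} = 0 := by
    intro i a
    rw [volume_pi]
    exact Measure.pi_hyperplane (fun _ : Fin 2 => (volume : Measure ℝ)) i a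
  apply measure_congr
  refine Filter.EventuallyLE.antisymm ?_ ?_
  · refine HasSubset.Subset.eventuallyLE ?_
    intro u hu
    refine ⟨⟨hu.1.1, hu.1.2.le, hu.2.1.1.le, hu.2.1.2.le⟩, ?_⟩
    have : P !₂[u 0, u 1] = P (WithLp.toLp 2 u) := rfl
    exact hu.2.2
  · rw [ae_le_set]
    refine measure_mono_null (t := {y : Fin 2 → ℝ | y 0 = Real.pi} ∪
      ({y : Fin 2 → ℝ | y 1 = -1} ∪ {y : Fin 2 → ℝ | y 1 = 1})) ?_ ?_
    · rintro u ⟨⟨⟨a, b, c, d⟩, e⟩, f⟩
      by_contra hne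
      simp only [mem_union, mem_setOf_eq, not_or] at hne
      obtain ⟨n1, n2, n3⟩ := hne
      refine f ⟨⟨a, lt_of_le_of_ne b n1⟩, ⟨lt_of_le_of_ne c (Ne.symm n2),
        lt_of_le_of_ne d n3⟩, e⟩
    · rw [measure_union_null_iff, measure_union_null_iff]
      exact ⟨hnull _ _, hnull _ _, hnull _ _⟩

theorem sph_apply {A : Set E3} (hA : MeasurableSet A) :
    sph A = ENNReal.ofReal (1 / (4 * Real.pi)) * volume (box ∩ P ⁻¹' A) := by
  unfold sph
  rw [Measure.smul_apply, Measure.map_apply PinvAux.continuous_P.measurable hA,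
    Measure.restrict_apply (PinvAux.continuous_P.measurable hA), smul_eq_mul, inter_comm]

theorem sph_cone {A : Set E3} (hA : MeasurableSet A) :
    sph A = ENNReal.ofReal (1 / (4 * Real.pi)) * ∫⁻ x in cone A, wt x := by
  rw [sph_apply hA, cone_int hA, vol_DA, vol_B2]

theorem vol_box : volume (box ∩ P ⁻¹' univ) = ENNReal.ofReal (4 * Real.pi) := by
  rw [← vol_B2]
  have h : B2 univ = Set.pi univ (fun i : Fin 2 =>
      (![Ioo (-Real.pi) Real.pi, Ioo (-1 : ℝ) 1] : Fin 2 → Set ℝ) i) := by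
    ext u
    simp [B2, Set.mem_pi, Fin.forall_fin_two]
  rw [h, volume_pi_pi, Fin.prod_univ_two]
  simp only [Matrix.cons_val_zero, Matrix.cons_val_one, Real.volume_Ioo]
  rw [← ENNReal.ofReal_mul (by have := Real.pi_pos; linarith)]
  congr 1
  ring

end Sph

open Sph in
theorem SPH_proof : Stmt_SPH := by
  refine ⟨⟨?_⟩, ?_, ?_⟩
  · rw [sph_apply MeasurableSet.univ, vol_box,
      ← ENNReal.ofReal_mul (by have := Real.pi_pos; positivity)]
    have := Real.pi_pos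
    rw [one_div, inv_mul_cancel₀ (by positivity), ENNReal.ofReal_one]
  · have h1 : ∀ᵐ x ∂(Measure.map P (volume.restrict box)), ‖x‖ = 1 := by
      rw [ae_map_iff PinvAux.continuous_P.measurable.aemeasurable
        (measurableSet_eq_fun measurable_norm measurable_const)]
      have hb : MeasurableSet box := by
        have h0 : Measurable (fun u : E2 => u 0) := by fun_prop
        have h1 : Measurable (fun u : E2 => u 1) := by fun_prop
        have : box = (fun u : E2 => u 0) ⁻¹' Ioc (-Real.pi) Real.pi ∩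
            (fun u : E2 => u 1) ⁻¹' Icc (-1) 1 := by
          ext u
          simp only [box, mem_setOf_eq, mem_inter_iff, mem_preimage, mem_Ioc, mem_Icc]
          tauto
        rw [this]
        exact (h0 measurableSet_Ioc).inter (h1 measurableSet_Icc)
      filter_upwards [ae_restrict_mem hb] with u hu
      exact norm_P u ⟨hu.2.2.1, hu.2.2.2⟩
    unfold sph
    exact Measure.ae_smul_measure h1 _
  · intro R
    ext A hA
    have hR : Measurable R := R.continuous.measurable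
    rw [Measure.map_apply hR hA, sph_cone (hR hA), sph_cone hA]
    congr 1
    have h1 : cone (R ⁻¹' A) = R ⁻¹' cone A := by
      ext x
      simp only [cone, mem_setOf_eq, mem_preimage, R.norm_map, map_smul]
    rw [h1, ← R.measurePreserving.setLIntegral_comp_preimage (meas_cone hA) meas_wt]
    refine lintegral_congr fun x => ?_
    simp only [wt, R.norm_map]

end Pool.KS
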