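import Pool.Agent.KS.Stmts

/-! Squad KS (MP_6f8d6f_an): SRCL, the source made of the randomly shifted hexagonal lattice. -/

set_option autoImplicit false

namespace Pool.KS.SRCL

open MeasureTheory Set Filter Topology
open scoped ENNReal

/-- length of the shortest vector -/
noncomputable def cc : ℝ := Real.sqrt (2 / Real.sqrt 3)

lemma cc_pos : 0 < cc := Real.sqrt_pos.2 (by positivity)

lemma s3_sq : Real.sqrt 3 * Real.sqrt 3 = 3 := Real.mul_self_sqrt (by norm_num)

lemma s3_pos : 0 < Real.sqrt 3 := by positivity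

lemma cc_sq : cc ^ 2 = 2 / Real.sqrt 3 := Real.sq_sqrt (by positivity)

lemma one_le_cc_sq : 1 ≤ cc ^ 2 := by
  rw [cc_sq, le_div_iff₀ s3_pos, one_mul]
  nlinarith [s3_sq, s3_pos]

/-- lattice vectors -/
noncomputable def Lam (p : ℤ × ℤ) : E2 :=
  !₂[cc * ((p.1 : ℝ) + p.2 / 2), cc * (Real.sqrt 3 / 2) * p.2]

lemma norm_Lam (p : ℤ × ℤ) : ‖Lam p‖ = hexn p := by
  rw [EuclideanSpace.norm_eq, Fin.sum_univ_two]
  unfold hexn Lam
  congr 1
  simp only [Real.norm_eq_abs, sq_abs, Matrix.cons_val_zero, Matrix.cons_val_one]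
  rw [← cc_sq]
  have := s3_sq
  linear_combination (cc ^ 2 * (p.2 : ℝ) ^ 2 / 4) * this

/-- lattice coordinates -/
noncomputable def M : Matrix (Fin 2) (Fin 2) ℝ :=
  !![1 / cc, -(1 / (cc * Real.sqrt 3)); 0, 2 / (cc * Real.sqrt 3)]

lemma M_det : M.det = 1 := by
  unfold M
  rw [Matrix.det_fin_two_of]
  have h := cc_pos
  have h3 := s3_pos
  have h2 : cc ^ 2 * Real.sqrt 3 = 2 := by
    rw [cc_sq]
    field_simp
  field_simp
  linarith

noncomputable def T : E2 →ₗ[ℝ] E2 := Matrix.toEuclideanLin M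

lemma T_det : LinearMap.det T = 1 := by
  unfold T
  rw [Matrix.toEuclideanLin_eq_toLin, LinearMap.det_toLin, M_det]

lemma T_zero (u : E2) : T u 0 = 1 / cc * u 0 + -(1 / (cc * Real.sqrt 3)) * u 1 := by
  unfold T
  rw [Matrix.ofLp_toEuclideanLin_apply]
  simp [M, Matrix.mulVec, dotProduct, Fin.sum_univ_two]

lemma T_one (u : E2) : T u 1 = 2 / (cc * Real.sqrt 3) * u 1 := by
  unfold T
  rw [Matrix.ofLp_toEuclideanLin_apply]
  simp [M, Matrix.mulVec, dotProduct, Fin.sum_univ_two]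

lemma T_Lam_zero (p : ℤ × ℤ) : T (Lam p) 0 = p.1 := by
  rw [T_zero]
  have h0 : Lam p 0 = cc * ((p.1 : ℝ) + p.2 / 2) := rfl
  have h1 : Lam p 1 = cc * (Real.sqrt 3 / 2) * p.2 := rfl
  rw [h0, h1]
  have h := cc_pos
  have h3 := s3_pos
  field_simp
  ring

lemma T_Lam_one (p : ℤ × ℤ) : T (Lam p) 1 = p.2 := by
  rw [T_one]
  have h1 : Lam p 1 = cc * (Real.sqrt 3 / 2) * p.2 := rfl
  rw [h1]
  have h := cc_pos
  have h3 := s3_pos
  field_simp

/-- cell of a point -/
noncomputable def pi' (u : E2) : ℤ × ℤ := (⌊T u 0⌋, ⌊T u 1⌋)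

lemma pi_add (g : E2) (v : ℤ × ℤ) : pi' (g + Lam v) = pi' g + v := by
  unfold pi'
  have e0 : T (g + Lam v) 0 = T g 0 + v.1 := by
    rw [map_add, PiLp.add_apply, T_Lam_zero]
  have e1 : T (g + Lam v) 1 = T g 1 + v.2 := by
    rw [map_add, PiLp.add_apply, T_Lam_one]
  rw [e0, e1, Int.floor_add_intCast, Int.floor_add_intCast]
  rfl

lemma meas_T (i : Fin 2) : Measurable fun u : E2 => T u i := by
  have h : Continuous T := T.continuous_of_finiteDimensional
  exact ((EuclideanSpace.proj i).continuous.comp h).measurable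

lemma meas_pi : Measurable pi' :=
  ((meas_T 0).floor).prodMk ((meas_T 1).floor)

/-- the fundamental cell -/
noncomputable def F : Set E2 := pi' ⁻¹' {0}

lemma meas_F : MeasurableSet F := meas_pi (measurableSet_singleton _)

lemma vol_F : volume F = 1 := by
  have h1 : F = T ⁻¹' {u : E2 | ∀ i, u i ∈ Ico (0 : ℝ) 1} := by
    ext u
    simp only [F, pi', mem_preimage, mem_singleton_iff, mem_setOf_eq, Prod.mk_eq_zero,
      Int.floor_eq_zero_iff, Fin.forall_fin_two]
  rw [h1, Measure.addHaar_preimage_linearMap volume (by rw [T_det]; exact one_ne_zero), T_det]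
  simp only [inv_one, abs_one, ENNReal.ofReal_one, one_mul]
  have h2 : {u : E2 | ∀ i, u i ∈ Ico (0 : ℝ) 1} =
      (@WithLp.ofLp 2 (Fin 2 → ℝ)) ⁻¹' (Set.pi univ fun _ => Ico (0 : ℝ) 1) := by
    ext u
    simp [Set.mem_pi]
  rw [h2, (PiLp.volume_preserving_ofLp (Fin 2)).measure_preimage
    (MeasurableSet.univ_pi fun _ => measurableSet_Ico).nullMeasurableSet, Real.volume_pi_Ico]
  simp

/-- unfolding -/
lemma unfold_lintegral {f : E2 → ℝ≥0∞} (hf : Measurable f) :
    ∫⁻ u, f u = ∑' v : ℤ × ℤ, ∫⁻ g in F, f (g + Lam v) := by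
  have h1 : (⋃ v : ℤ × ℤ, pi' ⁻¹' {v}) = univ := by
    ext u
    simp
  have hm : ∀ v : ℤ × ℤ, MeasurableSet (pi' ⁻¹' {v}) := fun v =>
    meas_pi (measurableSet_singleton _)
  rw [← setLIntegral_univ, ← h1, lintegral_iUnion hm (by
    intro v v' hv
    rw [Function.onFun, Set.disjoint_iff]
    rintro u ⟨h1, h2⟩
    exact hv (h1.symm.trans h2))]
  congr 1
  funext v
  rw [← lintegral_indicator (hm v), ← lintegral_indicator meas_F,
    ← lintegral_add_right_eq_self _ (Lam v)]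
  congr 1
  funext g
  by_cases hg : g ∈ F
  · rw [indicator_of_mem hg, indicator_of_mem]
    show pi' (g + Lam v) = v
    rw [pi_add, show pi' g = 0 from hg, zero_add]
  · rw [indicator_of_notMem hg, indicator_of_notMem]
    intro h
    apply hg
    have h2 : pi' (g + Lam v) = v := h
    rw [pi_add] at h2
    show pi' g = 0
    simpa using h2

/-- cells meeting the ball -/
lemma finite_cells (rho : ℝ) : ∃ V : Finset (ℤ × ℤ), ∀ u ∈ Metric.ball (0 : E2) rho, pi' u ∈ V := by
  set T' : E2 →L[ℝ] E2 := LinearMap.toContinuousLinearMap T with hT'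
  set B : ℤ := ⌈‖T'‖ * rho⌉ + 1 with hB
  refine ⟨(Finset.Icc (-B) B) ×ˢ (Finset.Icc (-B) B), fun u hu => ?_⟩
  rw [mem_ball_zero_iff] at hu
  have h1 : ∀ i, |T u i| ≤ ‖T'‖ * rho := by
    intro i
    have h2 : ‖T u i‖ ≤ ‖T u‖ := PiLp.norm_apply_le (T u) i
    have h3 : ‖T' u‖ ≤ ‖T'‖ * ‖u‖ := T'.le_opNorm u
    have h4 : T' u = T u := rfl
    rw [h4] at h3
    rw [Real.norm_eq_abs] at h2
    refine h2.trans (h3.trans ?_)
    gcongr
  have h5 : ∀ i, ⌊T u i⌋ ∈ Finset.Icc (-B) B := by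
    intro i
    have h6 := abs_le.1 (h1 i)
    have h7 := Int.le_ceil (‖T'‖ * rho)
    rw [Finset.mem_Icc]
    constructor
    · rw [Int.le_floor, hB]
      push_cast
      linarith
    · have h8 : (⌊T u i⌋ : ℝ) ≤ ⌈‖T'‖ * rho⌉ := (Int.floor_le _).trans (h6.2.trans h7)
      have h9 : ⌊T u i⌋ ≤ ⌈‖T'‖ * rho⌉ := by exact_mod_cast h8
      rw [hB]
      linarith
  rw [Finset.mem_product]
  exact ⟨h5 0, h5 1⟩

/-! ### Summability -/

lemma hexn_ge (p : ℤ × ℤ) : (|(p.1 : ℝ)| + |(p.2 : ℝ)|) / 2 ≤ hexn p := by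
  unfold hexn
  rw [← cc_sq]
  refine Real.le_sqrt_of_sq_le ?_
  have h := one_le_cc_sq
  have h1 : ((|(p.1 : ℝ)| + |(p.2 : ℝ)|) / 2) ^ 2 ≤ (p.1 : ℝ) ^ 2 + p.1 * p.2 + (p.2 : ℝ) ^ 2 := by
    have h2 := sq_abs (p.1 : ℝ)
    have h3 := sq_abs (p.2 : ℝ)
    have h4 : -(|(p.1 : ℝ)| * |(p.2 : ℝ)|) ≤ (p.1 : ℝ) * p.2 := by
      rw [← abs_mul]
      exact neg_abs_le _
    nlinarith [sq_nonneg (|(p.1 : ℝ)| - |(p.2 : ℝ)|)]
  have h5 : 0 ≤ (p.1 : ℝ) ^ 2 + p.1 * p.2 + (p.2 : ℝ) ^ 2 := le_trans (sq_nonneg _) h1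
  nlinarith

lemma hexn_ge_one {p : ℤ × ℤ} (hp : p ≠ 0) : 1 ≤ hexn p := by
  unfold hexn
  rw [← cc_sq]
  refine Real.le_sqrt_of_sq_le ?_
  have h := one_le_cc_sq
  have h1 : (1 : ℝ) ≤ (p.1 : ℝ) ^ 2 + p.1 * p.2 + (p.2 : ℝ) ^ 2 := by
    have : 1 ≤ p.1 ^ 2 + p.1 * p.2 + p.2 ^ 2 := by
      by_contra hlt
      have h3 : p.1 ^ 2 + p.1 * p.2 + p.2 ^ 2 ≤ 0 := by omega
      have h6 : (p.1 + p.2) ^ 2 + p.1 ^ 2 + p.2 ^ 2 ≤ 0 := by nlinarith
      have h4 : p.1 = 0 := by nlinarith [sq_nonneg p.1, sq_nonneg p.2, sq_nonneg (p.1 + p.2)]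
      have h5 : p.2 = 0 := by nlinarith [sq_nonneg p.1, sq_nonneg p.2, sq_nonneg (p.1 + p.2)]
      exact hp (Prod.ext h4 h5)
    exact_mod_cast this
  nlinarith

lemma summable_exp_abs {ν : ℝ} (hν : 0 < ν) : Summable fun n : ℤ => Real.exp (-(ν * |(n : ℝ)|)) := by
  have h1 : Summable fun n : ℕ => Real.exp (-(ν * n)) := by
    have h2 : (fun n : ℕ => Real.exp (-(ν * n))) = fun n : ℕ => (Real.exp (-ν)) ^ n := by
      funext n
      rw [← Real.exp_nat_mul]
      congr 1
      ring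
    rw [h2]
    exact summable_geometric_of_lt_one (Real.exp_pos _).le
      ((Real.exp_lt_exp.2 (by linarith : -ν < 0)).trans_eq Real.exp_zero)
  refine Summable.of_nat_of_neg ?_ ?_
  · refine h1.congr fun n => ?_
    rw [Int.cast_natCast, abs_of_nonneg (Nat.cast_nonneg n)]
  · refine h1.congr fun n => ?_
    rw [Int.cast_neg, Int.cast_natCast, abs_neg, abs_of_nonneg (Nat.cast_nonneg n)]

lemma summable_yukawa {ν : ℝ} (hν : 0 < ν) : Summable (fun p : ℤ × ℤ =>
      if p = 0 then 0 else Real.exp (-(ν * hexn p)) / hexn p) := by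
  have hν2 : 0 < ν / 2 := by linarith
  have h1 := (summable_exp_abs hν2).mul_of_nonneg (summable_exp_abs hν2)
    (fun _ => (Real.exp_pos _).le) fun _ => (Real.exp_pos _).le
  refine Summable.of_nonneg_of_le ?_ ?_ h1
  · intro p
    split_ifs with hp
    · exact le_rfl
    · have := hexn_ge_one hp
      positivity
  · intro p
    split_ifs with hp
    · positivity
    · have h2 := hexn_ge_one hp
      have h3 := hexn_ge p
      rw [← Real.exp_add]
      rw [div_le_iff₀ (by linarith)]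
      calc Real.exp (-(ν * hexn p)) ≤ Real.exp (-(ν / 2 * |(p.1 : ℝ)|) + -(ν / 2 * |(p.2 : ℝ)|)) := by
            refine Real.exp_le_exp.2 ?_
            nlinarith
        _ ≤ _ := le_mul_of_one_le_right (Real.exp_pos _).le h2

/-- the truncated kernel is at most the Yukawa kernel -/
lemma FK_le {K : ℕ} {s r : ℝ} (hs : 0 < s) (hr : 0 < r) :
    FK K s r ≤ 1 / s * (Real.exp (-(K * s / 4 * r)) / r) := by
  unfold FK
  have h1 : max 0 (1 - s * r / 4) ≤ Real.exp (-(s * r / 4)) := by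
    refine max_le (Real.exp_pos _).le ?_
    have := Real.add_one_le_exp (-(s * r / 4))
    linarith
  have h2 : (max 0 (1 - s * r / 4)) ^ K ≤ Real.exp (-(K * s / 4 * r)) := by
    calc (max 0 (1 - s * r / 4)) ^ K ≤ (Real.exp (-(s * r / 4))) ^ K :=
          pow_le_pow_left₀ (le_max_left _ _) h1 K
      _ = Real.exp (-(K * s / 4 * r)) := by
          rw [← Real.exp_nat_mul]
          congr 1
          ring
  calc (max 0 (1 - s * r / 4)) ^ K * (s * r)⁻¹ ≤ Real.exp (-(K * s / 4 * r)) * (s * r)⁻¹ := by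
        gcongr
    _ = 1 / s * (Real.exp (-(K * s / 4 * r)) / r) := by
        field_simp

/-- The sum of the kernel over the nonzero lattice vectors. -/
lemma sum_FK {K : ℕ} {s : ℝ} (hK : 1 ≤ K) (hs : 0 < s) :
    ∑' w : ℤ × ℤ, (if w = 0 then 0 else ENNReal.ofReal (FK K s ‖Lam w‖))
      ≤ ENNReal.ofReal (1 * (1 / s * Theta (K * s / 4))) := by
  have hν : 0 < (K : ℝ) * s / 4 := by
    have : (0 : ℝ) < K := by exact_mod_cast hK
    positivity
  have hsum := (summable_yukawa hν).mul_left (1 / s)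
  have hnn : ∀ w : ℤ × ℤ, 0 ≤ 1 / s * (if w = 0 then 0 else
      Real.exp (-((K : ℝ) * s / 4 * hexn w)) / hexn w) := by
    intro w
    split_ifs with hw
    · simp
    · have := hexn_ge_one hw
      positivity
  rw [one_mul]
  unfold Theta
  rw [← tsum_mul_left, ENNReal.ofReal_tsum_of_nonneg hnn hsum]
  refine ENNReal.tsum_le_tsum fun w => ?_
  split_ifs with hw
  · exact bot_le
  · rw [norm_Lam]
    exact ENNReal.ofReal_le_ofReal (FK_le hs (by linarith [hexn_ge_one hw]))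

lemma Lam_sub (v w : ℤ × ℤ) : Lam v - Lam w = Lam (v - w) := by
  unfold Lam
  ext i
  fin_cases i
  · simp
    ring
  · simp
    ring

lemma Lam_ne {v w : ℤ × ℤ} (h : v ≠ w) : Lam v ≠ Lam w := by
  intro h1
  have h2 := hexn_ge_one (sub_ne_zero.2 h)
  rw [← norm_Lam, ← Lam_sub, h1, sub_self, norm_zero] at h2
  linarith

/-- intensity -/
lemma intensity {rho : ℝ} {V : Finset (ℤ × ℤ)}
    (hV : ∀ u ∈ Metric.ball (0 : E2) rho, pi' u ∈ V) {h : E2 → ℝ≥0∞} (hh : Measurable h) :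
    ∑ v ∈ V, ∫⁻ g in F, (Metric.ball (0 : E2) rho).indicator h (g + Lam v)
      = ∫⁻ u in Metric.ball (0 : E2) rho, h u := by
  rw [← lintegral_indicator measurableSet_ball,
    unfold_lintegral (hh.indicator measurableSet_ball)]
  symm
  refine tsum_eq_sum fun v hv => ?_
  rw [← lintegral_indicator meas_F]
  refine (lintegral_congr fun g => ?_).trans lintegral_zero
  by_cases hg : g ∈ F
  · rw [indicator_of_mem hg]
    refine indicator_of_notMem (fun hb => hv ?_) _
    have h1 := hV _ hb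
    rw [pi_add, show pi' g = 0 from hg, zero_add] at h1
    exact h1
  · rw [indicator_of_notMem hg]

end Pool.KS.SRCL

namespace Pool.KS

open MeasureTheory Set Filter Topology SRCL
open scoped ENNReal

theorem SRCL_proof : Stmt_SRCL := by
  refine ⟨fun ν hν => summable_yukawa hν, fun rho hrho => ?_⟩
  obtain ⟨V, hV⟩ := finite_cells rho
  classical
  let e : Fin V.card ≃ V := V.equivFin.symm
  have hsumV : ∀ f : ℤ × ℤ → ℝ≥0∞, ∑ i : Fin V.card, f (e i : ℤ × ℤ) = ∑ v ∈ V, f v := by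
    intro f
    rw [← Finset.sum_coe_sort V f]
    exact Equiv.sum_comp e (fun v : V => f v)
  refine ⟨V.card, E2, inferInstance, volume.restrict F, fun i g => g + Lam (e i), ?_, ?_, ?_, ?_, ?_⟩
  · refine ⟨?_⟩
    rw [Measure.restrict_apply_univ, vol_F]
  · intro i
    exact measurable_id.add_const _
  · intro g i j hij _ _ h
    have h1 : Lam (e i) = Lam (e j) := add_left_cancel h
    refine Lam_ne ?_ h1
    intro h2
    exact hij (e.injective (Subtype.ext h2))
  · intro h hh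
    rw [hsumV fun v => ∫⁻ g in F, (Metric.ball (0 : E2) rho).indicator h (g + Lam v),
      intensity hV hh, ENNReal.ofReal_one, one_mul]
  · intro K s hK hs D hD hDb
    have hI : ∑ i : Fin V.card, ∫⁻ g in F, D.indicator 1 (g + Lam (e i)) = volume D := by
      rw [hsumV fun v => ∫⁻ g in F, D.indicator 1 (g + Lam v)]
      have h1 := intensity hV (h := D.indicator (1 : E2 → ℝ≥0∞)) (measurable_one.indicator hD)
      have h2 : (Metric.ball (0 : E2) rho).indicator (D.indicator (1 : E2 → ℝ≥0∞))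
          = D.indicator 1 := by
        rw [indicator_indicator, inter_eq_right.2 hDb]
      rw [h2] at h1
      rw [h1, lintegral_indicator_one hD, Measure.restrict_apply hD, inter_eq_left.2 hDb]
    have hterm : ∀ i j : Fin V.card, i ≠ j →
        ∫⁻ g in F, D.indicator 1 (g + Lam (e i)) * D.indicator 1 (g + Lam (e j))
          * ENNReal.ofReal (FK K s ‖(g + Lam (e i)) - (g + Lam (e j))‖)
        ≤ (∫⁻ g in F, D.indicator 1 (g + Lam (e i))) *
          (if (e i : ℤ × ℤ) - e j = 0 then 0 else ENNReal.ofReal (FK K s ‖Lam ((e i : ℤ × ℤ) - e j)‖)) := by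
      intro i j hij
      have hne : (e i : ℤ × ℤ) - e j ≠ 0 := by
        rw [sub_ne_zero]
        intro h2
        exact hij (e.injective (Subtype.ext h2))
      have hmeas : Measurable fun g : E2 => D.indicator (1 : E2 → ℝ≥0∞) (g + Lam (e i)) :=
        (measurable_one.indicator hD).comp (measurable_id.add_const _)
      rw [if_neg hne, ← lintegral_mul_const _ hmeas]
      refine lintegral_mono fun g => ?_
      have h3 : g + Lam (e i) - (g + Lam (e j)) = Lam ((e i : ℤ × ℤ) - e j) := by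
        rw [← Lam_sub]
        abel
      simp only [h3]
      have h4 : D.indicator (1 : E2 → ℝ≥0∞) (g + Lam (e j)) ≤ 1 :=
        (indicator_le_self' (fun _ _ => bot_le) _).trans (le_of_eq rfl)
      calc D.indicator (1 : E2 → ℝ≥0∞) (g + Lam (e i)) * D.indicator 1 (g + Lam (e j)) *
            ENNReal.ofReal (FK K s ‖Lam ((e i : ℤ × ℤ) - e j)‖)
          ≤ D.indicator (1 : E2 → ℝ≥0∞) (g + Lam (e i)) * 1 *
            ENNReal.ofReal (FK K s ‖Lam ((e i : ℤ × ℤ) - e j)‖) := by gcongr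
        _ = _ := by rw [mul_one]
    calc ∑ i, ∑ j ∈ Finset.univ.erase i, ∫⁻ g in F,
          D.indicator 1 (g + Lam (e i)) * D.indicator 1 (g + Lam (e j))
            * ENNReal.ofReal (FK K s ‖(g + Lam (e i)) - (g + Lam (e j))‖)
        ≤ ∑ i, ∑ j ∈ Finset.univ.erase i, (∫⁻ g in F, D.indicator 1 (g + Lam (e i))) *
          (if (e i : ℤ × ℤ) - e j = 0 then 0 else ENNReal.ofReal (FK K s ‖Lam ((e i : ℤ × ℤ) - e j)‖)) :=
          Finset.sum_le_sum fun i _ => Finset.sum_le_sum fun j hj =>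
            hterm i j (Finset.ne_of_mem_erase hj).symm
      _ ≤ ∑ i, (∫⁻ g in F, D.indicator 1 (g + Lam (e i))) *
          ∑' w : ℤ × ℤ, (if w = 0 then 0 else ENNReal.ofReal (FK K s ‖Lam w‖)) := by
          refine Finset.sum_le_sum fun i _ => ?_
          rw [← Finset.mul_sum]
          gcongr
          have hinj : Set.InjOn (fun j : Fin V.card => (e i : ℤ × ℤ) - e j)
              (Finset.univ.erase i : Finset (Fin V.card)) := by
            intro j _ j' _ h
            have h1 : (e j : ℤ × ℤ) = e j' := by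
              have := sub_right_injective (G := ℤ × ℤ) h
              exact this
            exact e.injective (Subtype.ext h1)
          rw [← Finset.sum_image (f := fun w : ℤ × ℤ => (if w = 0 then 0 else
            ENNReal.ofReal (FK K s ‖Lam w‖))) hinj]
          exact ENNReal.sum_le_tsum _
      _ = volume D * ∑' w : ℤ × ℤ, (if w = 0 then 0 else ENNReal.ofReal (FK K s ‖Lam w‖)) := by
          rw [← Finset.sum_mul, hI]
      _ ≤ volume D * ENNReal.ofReal (1 * (1 / s * Theta (K * s / 4))) := by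
          gcongr
          exact sum_FK hK hs
      _ = ENNReal.ofReal (1 * (1 / s * Theta (K * s / 4))) * volume D := mul_comm _ _

end Pool.KS
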