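import Pool.Agent.KS.Lib

/-! Squad KS (MP_6f8d6f_an), module SRCW: the planar source made of a finite subset of the
sphere, randomly rotated. -/

open MeasureTheory Set Filter Topology
open scoped ENNReal

namespace Pool.KS

namespace SRCW

lemma abs_coord_le (u : E2) (i : Fin 2) : |u i| ≤ ‖u‖ := by
  rw [← Real.norm_eq_abs]
  exact PiLp.norm_apply_le u i

lemma ball_subset_box {rho : ℝ} (h : rho ≤ 1 / 10) : Metric.ball (0 : E2) rho ⊆ box := by
  intro u hu
  rw [mem_ball_zero_iff] at hu
  have h0 := abs_le.1 ((abs_coord_le u 0).trans hu.le)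
  have h1 := abs_le.1 ((abs_coord_le u 1).trans hu.le)
  have hpi := Real.pi_gt_three
  exact ⟨by linarith [h0.1], by linarith [h0.2], by linarith [h1.1], by linarith [h1.2]⟩

lemma law (hPINV : Stmt_PINV) {rho : ℝ} (hrho : rho ≤ 1 / 10) (h : E2 → ℝ≥0∞)
    (hh : Measurable h) :
    ∫⁻ y, (Metric.ball (0 : E2) rho).indicator h (pinv y) ∂sph =
      ENNReal.ofReal (1 / (4 * Real.pi)) * ∫⁻ u in Metric.ball (0 : E2) rho, h u := by
  have hm : Measurable ((Metric.ball (0 : E2) rho).indicator h) :=
    hh.indicator measurableSet_ball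
  rw [Lib.lintegral_sph' (fun y => (Metric.ball (0 : E2) rho).indicator h (pinv y))
    (hm.comp hPINV.2.1)]
  congr 1
  have e1 : ∫⁻ u in box, (Metric.ball (0 : E2) rho).indicator h (pinv (P u)) =
      ∫⁻ u in box, (Metric.ball (0 : E2) rho).indicator h u := by
    refine setLIntegral_congr_fun Lib.measurableSet_box ?_
    intro u hu
    simp only
    by_cases h1 : |u 1| < 1
    · rw [hPINV.2.2.2.1 u hu h1]
    · have h2 : 1 ≤ |u 1| := not_lt.1 h1
      have e2 : (pinv (P u)) 1 = u 1 := rfl
      rw [indicator_of_notMem, indicator_of_notMem]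
      · intro hc
        rw [mem_ball_zero_iff] at hc
        have := abs_coord_le u 1
        linarith
      · intro hc
        rw [mem_ball_zero_iff] at hc
        have := abs_coord_le (pinv (P u)) 1
        rw [e2] at this
        linarith
  rw [e1, setLIntegral_indicator measurableSet_ball, inter_eq_left.2 (ball_subset_box hrho)]

lemma FK_nonneg (K : ℕ) {s r : ℝ} (hs : 0 < s) (hr : 0 ≤ r) : 0 ≤ FK K s r := by
  unfold FK
  have : 0 ≤ max 0 (1 - s * r / 4) := le_max_left _ _
  positivity

lemma FK_anti (K : ℕ) {s r r' : ℝ} (hs : 0 < s) (hr : 0 < r) (h : r ≤ r') :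
    FK K s r' ≤ FK K s r := by
  unfold FK
  have h1 : s * r ≤ s * r' := mul_le_mul_of_nonneg_left h hs.le
  have h2 : 0 < s * r := mul_pos hs hr
  apply mul_le_mul
  · apply pow_le_pow_left₀ (le_max_left _ _)
    apply max_le_max le_rfl
    linarith
  · exact inv_anti₀ h2 h1
  · exact (inv_pos.2 (h2.trans_le h1)).le
  · exact pow_nonneg (le_max_left _ _) _

end SRCW

theorem SRCW_proof (hHAAR : Stmt_HAAR) (hPINV : Stmt_PINV) : Stmt_SRCW := by
  intro ε δ hε hε2 hδ hδ2 hNI w hw hM rho hrho hrhoδ
  obtain ⟨G, mG, μ, act, hμ, hact, hlaw⟩ := hHAAR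
  obtain ⟨a, ha⟩ : ∃ a : Fin w.card ≃ {x // x ∈ w}, a = w.equivFin.symm := ⟨_, rfl⟩
  have hnorm : ∀ i, ‖(a i : E3)‖ = 1 := fun i => hw _ (a i).2
  have hmact : ∀ i, Measurable (fun g => act g (a i : E3)) := fun i =>
    hact.comp (measurable_id.prodMk measurable_const)
  have hmx : ∀ i, Measurable (fun g => pinv (act g (a i : E3))) := fun i =>
    hPINV.2.1.comp (hmact i)
  have hP : ∀ g i, P (pinv (act g (a i : E3))) = act g (a i : E3) := fun g i =>
    hPINV.2.2.1 _ (by rw [LinearIsometryEquiv.norm_map, hnorm])
  have hrho10 : rho ≤ 1 / 10 := hrhoδ.trans hδ2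
  have hlaw' : ∀ (i : Fin w.card) (h : E2 → ℝ≥0∞), Measurable h →
      ∫⁻ g, (Metric.ball (0 : E2) rho).indicator h (pinv (act g (a i : E3))) ∂μ =
        ENNReal.ofReal (1 / (4 * Real.pi)) * ∫⁻ u in Metric.ball (0 : E2) rho, h u := by
    intro i h hh
    have hmm : Measurable (fun y : E3 => (Metric.ball (0 : E2) rho).indicator h (pinv y)) :=
      (hh.indicator measurableSet_ball).comp hPINV.2.1
    rw [← SRCW.law hPINV hrho10 h hh, ← hlaw (a i : E3) (hnorm i)]
    exact (lintegral_map hmm (hmact i)).symm
  have hpi := Real.pi_pos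
  refine ⟨G, mG, μ, fun i g => pinv (act g (a i : E3)), hμ, hmx, ?_, ?_, ?_⟩
  · intro g i j hij _ _ he
    apply hij
    have h1 : act g (a i : E3) = act g (a j : E3) := by
      rw [← hP g i, ← hP g j]
      exact congrArg P he
    have h2 : (a i : E3) = (a j : E3) := (act g).injective h1
    exact a.injective (Subtype.ext h2)
  · intro h hh
    rw [Finset.sum_congr rfl (fun i _ => hlaw' i h hh), Finset.sum_const, Finset.card_univ,
      Fintype.card_fin, nsmul_eq_mul, ← mul_assoc]
    congr 1
    rw [← ENNReal.ofReal_natCast, ← ENNReal.ofReal_mul (Nat.cast_nonneg _)]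
    congr 1
    ring
  · intro K s hK hs D hD hDb
    have hvolD : ∀ i : Fin w.card, ∫⁻ g, D.indicator 1 (pinv (act g (a i : E3))) ∂μ =
        ENNReal.ofReal (1 / (4 * Real.pi)) * volume D := by
      intro i
      have h1 := hlaw' i (D.indicator 1) (measurable_one.indicator hD)
      have h2 : (Metric.ball (0 : E2) rho).indicator (D.indicator (1 : E2 → ℝ≥0∞)) =
          D.indicator 1 := by
        rw [Set.indicator_indicator, inter_eq_right.2 hDb]
      rw [h2] at h1
      rw [h1, lintegral_indicator_one₀ (hD.nullMeasurableSet), Measure.restrict_apply hD,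
        inter_eq_left.2 hDb]
    -- the pointwise bound
    have hpt : ∀ i j : Fin w.card, i ≠ j → ∀ g,
        D.indicator 1 (pinv (act g (a i : E3))) * D.indicator 1 (pinv (act g (a j : E3)))
          * ENNReal.ofReal (FK K s ‖pinv (act g (a i : E3)) - pinv (act g (a j : E3))‖) ≤
        D.indicator 1 (pinv (act g (a i : E3))) * ENNReal.ofReal
          (if (a i : E3) ≠ a j ∧ ‖(a i : E3) - a j‖ ≤ 4 * rho then
            FK K s (‖(a i : E3) - a j‖ / (1 + ε)) else 0) := by
      intro i j hij g
      by_cases h1 : pinv (act g (a i : E3)) ∈ D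
      · by_cases h2 : pinv (act g (a j : E3)) ∈ D
        · rw [indicator_of_mem h1, indicator_of_mem h2]
          simp only [Pi.one_apply, one_mul]
          apply ENNReal.ofReal_le_ofReal
          have hb1 := hDb h1
          have hb2 := hDb h2
          rw [mem_ball_zero_iff] at hb1 hb2
          have hni := hNI _ _ (hb1.trans_le hrhoδ) (hb2.trans_le hrhoδ)
          rw [hP g i, hP g j, ← map_sub, LinearIsometryEquiv.norm_map] at hni
          have hne : (a i : E3) ≠ a j := fun h => hij (a.injective (Subtype.ext h))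
          have hpos : 0 < ‖(a i : E3) - a j‖ := norm_pos_iff.2 (sub_ne_zero.2 hne)
          have hle : ‖pinv (act g (a i : E3)) - pinv (act g (a j : E3))‖ ≤ 2 * rho := by
            have := norm_sub_le (pinv (act g (a i : E3))) (pinv (act g (a j : E3)))
            linarith
          have h4 : ‖(a i : E3) - a j‖ ≤ 4 * rho := by
            have h5 := hni.2
            have h6 : (1 + ε) * ‖pinv (act g (a i : E3)) - pinv (act g (a j : E3))‖ ≤
                (1 + ε) * (2 * rho) := mul_le_mul_of_nonneg_left hle (by linarith)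
            nlinarith
          rw [if_pos ⟨hne, h4⟩]
          apply SRCW.FK_anti K hs (by positivity)
          rw [div_le_iff₀ (by linarith)]
          linarith [hni.2]
        · rw [indicator_of_notMem h2]
          simp
      · rw [indicator_of_notMem h1]
        simp
    -- sum up
    set c : E3 → E3 → ℝ := fun x y => if x ≠ y ∧ ‖x - y‖ ≤ 4 * rho then
            FK K s (‖x - y‖ / (1 + ε)) else 0 with hc
    have hc0 : ∀ x y, 0 ≤ c x y := by
      intro x y
      simp only [hc]
      split_ifs
      · exact SRCW.FK_nonneg K hs (by positivity)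
      · exact le_rfl
    have hint : ∀ i j : Fin w.card, i ≠ j →
        ∫⁻ g, D.indicator 1 (pinv (act g (a i : E3))) * D.indicator 1 (pinv (act g (a j : E3)))
          * ENNReal.ofReal (FK K s ‖pinv (act g (a i : E3)) - pinv (act g (a j : E3))‖) ∂μ ≤
        ENNReal.ofReal (1 / (4 * Real.pi)) * volume D * ENNReal.ofReal (c (a i) (a j)) := by
      intro i j hij
      calc _ ≤ ∫⁻ g, D.indicator 1 (pinv (act g (a i : E3))) * ENNReal.ofReal (c (a i) (a j)) ∂μ :=
            lintegral_mono (hpt i j hij)
        _ = _ := by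
          have hmi : Measurable (fun g => D.indicator (1 : E2 → ℝ≥0∞) (pinv (act g (a i : E3)))) :=
            (measurable_one.indicator hD).comp (hmx i)
          rw [lintegral_mul_const _ hmi, hvolD i]
    calc _ ≤ ∑ i : Fin w.card, ∑ j ∈ Finset.univ.erase i,
          ENNReal.ofReal (1 / (4 * Real.pi)) * volume D * ENNReal.ofReal (c (a i) (a j)) := by
          refine Finset.sum_le_sum fun i _ => Finset.sum_le_sum fun j hj => ?_
          exact hint i j (Finset.ne_of_mem_erase hj).symm
      _ ≤ ∑ i : Fin w.card, ∑ j : Fin w.card,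
          ENNReal.ofReal (1 / (4 * Real.pi)) * volume D * ENNReal.ofReal (c (a i) (a j)) := by
          refine Finset.sum_le_sum fun i _ => ?_
          exact Finset.sum_le_sum_of_subset (Finset.erase_subset _ _)
      _ = ENNReal.ofReal (1 / (4 * Real.pi)) * volume D *
          ENNReal.ofReal (∑ i : Fin w.card, ∑ j : Fin w.card, c (a i) (a j)) := by
          simp_rw [← Finset.mul_sum]
          congr 1
          rw [ENNReal.ofReal_sum_of_nonneg (fun i _ => Finset.sum_nonneg fun j _ => hc0 _ _)]
          refine Finset.sum_congr rfl fun i _ => ?_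
          rw [ENNReal.ofReal_sum_of_nonneg (fun j _ => hc0 _ _)]
      _ = _ := by
          have e1 : ∑ i : Fin w.card, ∑ j : Fin w.card, c (a i) (a j) =
              ∑ x ∈ w, ∑ y ∈ w, c x y := by
            have e2 : ∀ f : E3 → ℝ, ∑ i : Fin w.card, f (a i) = ∑ x ∈ w, f x := by
              intro f
              rw [Equiv.sum_comp a (fun x : {x // x ∈ w} => f x)]
              exact Finset.sum_coe_sort w f
            rw [e2 (fun x => ∑ j : Fin w.card, c x (a j))]
            exact Finset.sum_congr rfl fun x _ => e2 _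
          rw [e1, mul_right_comm, ← ENNReal.ofReal_mul (by positivity)]
          congr 2
          have hM0 : (0 : ℝ) < w.card := by
            have : 0 < w.card := by omega
            exact_mod_cast this
          simp only [hc]
          field_simp

end Pool.KS
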