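import Pool.Agent.KS.Tile
import Pool.Agent.KS.HexC
import Pool.Agent.KS.HexB
import Pool.Agent.KS.HexA
import Pool.Agent.KS.IND
import Pool.Agent.KS.LIMA
import Pool.Agent.KS.LIMB
import Pool.Agent.KS.LB
import Pool.Agent.KS.LOWB
import Pool.Agent.KS.SRCL
import Pool.Agent.KS.SRCW
import Pool.Agent.KS.SPH
import Pool.Agent.KS.Haar
import Pool.Agent.KS.ISO
import Pool.Agent.KS.FUN

/-! Squad KS (MP_6f8d6f_an): final assembly. -/

open MeasureTheory Set Filter Topology

namespace Pool.KS.Final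

open Pool.KS

theorem chord : Stmt_CHORD := CHORD_proof SPH_proof
theorem pln : Stmt_PLN := PLN_proof SPH_proof
theorem pd : Stmt_PD := PD_proof SPH_proof chord pln
theorem lb : Stmt_LB := LB_proof pd
theorem haar : Stmt_HAAR := HAAR_proof SPH_proof
theorem func : Stmt_FUN := FUN_proof SPH_proof chord lb
theorem ind : Stmt_IND := IND_proof func SPH_proof chord
theorem tile : Stmt_TILE := tile_proof SPH_proof chord PINV_proof pln func ind
theorem srcw : Stmt_SRCW := SRCW_proof haar PINV_proof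
theorem lima : Stmt_LIMA := LIMA_proof ISO_proof srcw tile lb func
theorem hexc : Stmt_HEXC := HEXC_proof HEXA_proof HEXB_proof
theorem limb : Stmt_LIMB := LIMB_proof ISO_proof SRCL_proof tile hexc func
theorem lowb : Stmt_LOWB := LOWB_proof SPH_proof

/-! ### Configurations indexed by `Fin N` -/

/-- Coulomb energy of a configuration. -/
noncomputable def coul {N : ℕ} (x : Fin N → E3) : ℝ :=
  ∑ i, ∑ j ∈ Finset.Ioi i, 1 / ‖x i - x j‖

theorem coul_eq {N : ℕ} (x : Fin N → E3) (hx : Function.Injective x) :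
    coul x = energy (Finset.univ.map ⟨x, hx⟩) := by
  unfold coul energy
  rw [Finset.sum_map]
  simp only [Finset.sum_map, Function.Embedding.coeFn_mk]
  have h := Finset.sum_sum_Ioi_add_eq_sum_sum_off_diag (fun i j : Fin N => ‖x i - x j‖⁻¹)
  have h1 : ∑ i : Fin N, ∑ j ∈ {i}ᶜ, ‖x j - x i‖⁻¹ = ∑ i, ∑ j, ‖x i - x j‖⁻¹ := by
    apply Finset.sum_congr rfl
    intro i _
    rw [← Finset.sum_compl_add_sum {i}]
    simp only [Finset.sum_singleton, sub_self, norm_zero, inv_zero, add_zero]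
    apply Finset.sum_congr rfl
    intro j _
    rw [norm_sub_rev]
  rw [h1] at h
  rw [← h, eq_div_iff (by norm_num), Finset.sum_mul]
  apply Finset.sum_congr rfl
  intro i _
  rw [Finset.sum_mul]
  apply Finset.sum_congr rfl
  intro j _
  rw [norm_sub_rev (x j) (x i)]
  ring

/-- The set of energies, in terms of injective configurations. -/
theorem set_eq (N : ℕ) :
    {e : ℝ | ∃ x : Fin N → E3, Function.Injective x ∧ (∀ i, ‖x i‖ = 1) ∧ e = coul x}
      = {e : ℝ | ∃ w : Finset E3, w.card = N ∧ OnS w ∧ e = energy w} := by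
  ext e
  constructor
  · rintro ⟨x, hx, h1, rfl⟩
    refine ⟨Finset.univ.map ⟨x, hx⟩, by simp, ?_, coul_eq x hx⟩
    intro y hy
    rw [Finset.mem_map] at hy
    obtain ⟨i, _, rfl⟩ := hy
    exact h1 i
  · rintro ⟨w, hw, h1, rfl⟩
    let f : Fin N ≃ w := (finCongr hw.symm).trans w.equivFin.symm
    have hinj : Function.Injective (fun i => ((f i : w) : E3)) :=
      Subtype.val_injective.comp f.injective
    refine ⟨fun i => (f i : E3), hinj, fun i => h1 _ (f i).2, ?_⟩
    rw [coul_eq _ hinj]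
    congr 1
    ext y
    rw [Finset.mem_map]
    constructor
    · intro hy
      exact ⟨f.symm ⟨y, hy⟩, Finset.mem_univ _, by simp⟩
    · rintro ⟨i, _, rfl⟩
      exact (f i).2

theorem rpow_eq (N : ℕ) : (N : ℝ) ^ (3 / 2 : ℝ) = N * Real.sqrt N := by
  rw [Real.sqrt_eq_rpow]
  rcases Nat.eq_zero_or_pos N with h | h
  · subst h
    simp
  · have hN : (0 : ℝ) < N := by exact_mod_cast h
    rw [← Real.rpow_one_add' hN.le (by norm_num)]
    norm_num

/-! ### The constant -/

theorem zeta_real : riemannZeta (1 / 2) = (((riemannZeta (1 / 2)).re : ℝ) : ℂ) := by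
  have h5 := riemannZeta_conj (1 / 2)
  have h6 : (starRingEnd ℂ) (1 / 2 : ℂ) = 1 / 2 := by
    rw [map_div₀, map_one, Complex.conj_ofNat]
  rw [h6] at h5
  exact (Complex.conj_eq_iff_real.mp h5.symm).elim (fun r hr => by rw [hr, Complex.ofReal_re])

theorem prod_real : riemannZeta (1 / 2) * hz (1 / 2)
    = (((riemannZeta (1 / 2)).re * (hz (1 / 2)).re : ℝ) : ℂ) := by
  obtain ⟨c, hc⟩ := HEXA_proof
  have h1 := (HexC.g_main c hc).2
  rw [HexC.Lam_half c hc HEXB_proof] at h1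
  unfold HexC.Zc at h1
  have hG : Complex.Gamma (1 / 2) = ((Real.sqrt Real.pi : ℝ) : ℂ) := by
    have h2 := Complex.Gamma_ofReal (1 / 2)
    push_cast at h2
    rw [h2, Real.Gamma_one_half_eq]
  have h3 : (3 : ℂ) ^ (-(1 / 2) : ℂ) = (((Real.sqrt 3)⁻¹ : ℝ) : ℂ) := by
    have h4 : (((3 : ℝ) ^ (-(1 / 2) : ℝ) : ℝ) : ℂ) = (3 : ℂ) ^ (-(1 / 2) : ℂ) := by
      rw [Complex.ofReal_cpow (by norm_num)]
      push_cast
      rfl
    rw [← h4, ← HexC.sqrt_inv 3 (by norm_num)]
  set I := ∫ t in Ioi (0 : ℝ), HexC.g t with hI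
  have h7 : riemannZeta (1 / 2) * hz (1 / 2)
      = ((I / (Real.sqrt Real.pi * 6 * (Real.sqrt 3)⁻¹) : ℝ) : ℂ) := by
    rw [Complex.ofReal_div, h1, hG, h3]
    have hp : ((Real.sqrt Real.pi : ℝ) : ℂ) ≠ 0 := by
      rw [Complex.ofReal_ne_zero]
      exact (Real.sqrt_pos.2 Real.pi_pos).ne'
    have h33 : (((Real.sqrt 3)⁻¹ : ℝ) : ℂ) ≠ 0 := by
      rw [Complex.ofReal_ne_zero]
      positivity
    push_cast at h33 ⊢
    field_simp
  have h8 : (riemannZeta (1 / 2) * hz (1 / 2)).re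
      = (riemannZeta (1 / 2)).re * (hz (1 / 2)).re := by
    conv_lhs => rw [zeta_real]
    rw [Complex.re_ofReal_mul]
  rw [← h8, h7, Complex.ofReal_re]

end Pool.KS.Final
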