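import Pool.Agent.KS.Stmts

/-! Squad KS (MP_6f8d6f_an): HEXA, the theta function of the hexagonal lattice. -/

set_option autoImplicit false

namespace Pool.KS.HEXA

open Real HurwitzZeta Filter

/-- `∑ exp (-π (n + a)² x)` -/
noncomputable def E (a x : ℝ) : ℝ := evenKernel (a : UnitAddCircle) x

lemma hasSum_E (a : ℝ) {t : ℝ} (ht : 0 < t) :
    HasSum (fun n : ℤ => rexp (-(t * ((n : ℝ) + a) ^ 2))) (E a (t / π)) := by
  have h := hasSum_int_evenKernel a (div_pos ht pi_pos)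
  have e : (fun n : ℤ => rexp (-(t * ((n : ℝ) + a) ^ 2))) =
      fun n : ℤ => rexp (-π * (n + a) ^ 2 * (t / π)) := by
    funext n
    congr 1
    field_simp
  rw [e]
  exact h

lemma hasSum_split {f : ℤ × ℤ → ℝ} {A B : ℝ} (hA : HasSum (fun p : ℤ × ℤ => f (p.1 - p.2, 2 * p.2)) A)
    (hB : HasSum (fun p : ℤ × ℤ => f (p.1 - p.2, 2 * p.2 + 1)) B) : HasSum f (A + B) := by
  have i1 : Function.Injective (fun p : ℤ × ℤ => (p.1 - p.2, 2 * p.2)) := by
    rintro ⟨a, b⟩ ⟨c, d⟩ h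
    simp only [Prod.mk.injEq] at h ⊢
    omega
  have i2 : Function.Injective (fun p : ℤ × ℤ => (p.1 - p.2, 2 * p.2 + 1)) := by
    rintro ⟨a, b⟩ ⟨c, d⟩ h
    simp only [Prod.mk.injEq] at h ⊢
    omega
  refine HasSum.add_isCompl (s := Set.range fun p : ℤ × ℤ => (p.1 - p.2, 2 * p.2))
    (t := Set.range fun p : ℤ × ℤ => (p.1 - p.2, 2 * p.2 + 1)) ?_ (i1.hasSum_range_iff.2 hA)
    (i2.hasSum_range_iff.2 hB)
  constructor
  · rw [Set.disjoint_iff]
    rintro ⟨x, y⟩ ⟨⟨⟨a, b⟩, h1⟩, ⟨⟨c, d⟩, h2⟩⟩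
    simp only [Prod.mk.injEq] at h1 h2
    omega
  · rw [codisjoint_iff_le_sup]
    rintro ⟨x, y⟩ -
    rcases Int.even_or_odd' y with ⟨k, hk | hk⟩
    · left
      exact ⟨(x + k, k), by simp [hk]⟩
    · right
      exact ⟨(x + k, k), by simp [hk]⟩

lemma hasSum_Q {t : ℝ} (ht : 0 < t) :
    HasSum (fun p : ℤ × ℤ => rexp (-(t * ((p.1 : ℝ) ^ 2 + p.1 * p.2 + (p.2 : ℝ) ^ 2))))
      (E 0 (t / π) * E 0 (3 * t / π) + E (1 / 2) (t / π) * E (1 / 2) (3 * t / π)) := by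
  have h3 : 0 < 3 * t := by linarith
  have hm : ∀ a b : ℝ, HasSum (fun p : ℤ × ℤ => rexp (-(t * ((p.1 : ℝ) + a) ^ 2)) *
      rexp (-(3 * t * ((p.2 : ℝ) + b) ^ 2))) (E a (t / π) * E b (3 * t / π)) := by
    intro a b
    exact (hasSum_E a ht).mul (hasSum_E b h3) ((hasSum_E a ht).summable.mul_of_nonneg
      (hasSum_E b h3).summable (fun _ => (exp_pos _).le) fun _ => (exp_pos _).le)
  refine hasSum_split ?_ ?_
  · have e := hm 0 0
    have e1 : (fun p : ℤ × ℤ => rexp (-(t * ((((p.1 - p.2, 2 * p.2) : ℤ × ℤ).1 : ℝ) ^ 2 +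
        (((p.1 - p.2, 2 * p.2) : ℤ × ℤ).1 : ℝ) * (((p.1 - p.2, 2 * p.2) : ℤ × ℤ).2 : ℝ) +
        (((p.1 - p.2, 2 * p.2) : ℤ × ℤ).2 : ℝ) ^ 2)))) =
        fun p : ℤ × ℤ => rexp (-(t * ((p.1 : ℝ) + 0) ^ 2)) *
          rexp (-(3 * t * ((p.2 : ℝ) + 0) ^ 2)) := by
      funext p
      rw [← exp_add]
      congr 1
      push_cast
      ring
    rw [e1]
    exact e
  · have e := hm (1 / 2) (1 / 2)
    have e1 : (fun p : ℤ × ℤ => rexp (-(t * ((((p.1 - p.2, 2 * p.2 + 1) : ℤ × ℤ).1 : ℝ) ^ 2 +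
        (((p.1 - p.2, 2 * p.2 + 1) : ℤ × ℤ).1 : ℝ) * (((p.1 - p.2, 2 * p.2 + 1) : ℤ × ℤ).2 : ℝ) +
        (((p.1 - p.2, 2 * p.2 + 1) : ℤ × ℤ).2 : ℝ) ^ 2)))) =
        fun p : ℤ × ℤ => rexp (-(t * ((p.1 : ℝ) + 1 / 2) ^ 2)) *
          rexp (-(3 * t * ((p.2 : ℝ) + 1 / 2) ^ 2)) := by
      funext p
      rw [← exp_add]
      congr 1
      push_cast
      ring
    rw [e1]
    exact e

/-- exponential decay of the dual kernel -/
lemma cos_bound : ∃ C : ℝ, 0 ≤ C ∧ ∀ a s : ℝ, 1 ≤ s →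
    |cosKernel (a : UnitAddCircle) s - 1| ≤ C * rexp (-(π * s)) := by
  have h1 := hasSum_int_evenKernel 0 one_pos
  refine ⟨rexp π * evenKernel ((0 : ℝ) : UnitAddCircle) 1, ?_, ?_⟩
  · refine mul_nonneg (exp_pos _).le (h1.nonneg fun n => (exp_pos _).le)
  intro a s hs
  have hs0 : 0 < s := by linarith
  have h := hasSum_int_cosKernel₀ a hs0
  have hb : HasSum (fun n : ℤ => rexp (π - π * s) * rexp (-π * ((n : ℝ) + 0) ^ 2 * 1))
      (rexp (π - π * s) * evenKernel ((0 : ℝ) : UnitAddCircle) 1) := h1.mul_left _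
  have hle : ∀ n : ℤ, ‖(if n = 0 then 0 else Complex.exp (2 * π * Complex.I * a * n) *
      (rexp (-π * (n : ℝ) ^ 2 * s) : ℂ) : ℂ)‖ ≤ rexp (π - π * s) * rexp (-π * ((n : ℝ) + 0) ^ 2 * 1) := by
    intro n
    split_ifs with hn
    · rw [norm_zero]
      positivity
    · have e1 : ‖Complex.exp (2 * π * Complex.I * a * n)‖ = 1 := by
        have : (2 * π * Complex.I * a * n : ℂ) = ((2 * π * a * n : ℝ) : ℂ) * Complex.I := by
          push_cast
          ring
        rw [this, Complex.norm_exp_ofReal_mul_I]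
      rw [norm_mul, e1, one_mul, Complex.norm_real, Real.norm_of_nonneg (exp_pos _).le, ← exp_add]
      refine exp_le_exp.2 ?_
      have h2 : (1 : ℝ) ≤ (n : ℝ) ^ 2 := by
        have : 1 ≤ n ^ 2 := by
          have := Int.one_le_abs hn
          nlinarith [abs_mul_abs_self n]
        exact_mod_cast this
      have h3 : 0 ≤ π * (s - 1) * ((n : ℝ) ^ 2 - 1) := by
        have := pi_pos
        have h4 : 0 ≤ s - 1 := by linarith
        have h5 : 0 ≤ (n : ℝ) ^ 2 - 1 := by linarith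
        positivity
      nlinarith
  have h4 := tsum_of_norm_bounded hb hle
  rw [h.tsum_eq] at h4
  have e2 : ‖((cosKernel (a : UnitAddCircle) s : ℝ) : ℂ) - 1‖ = |cosKernel (a : UnitAddCircle) s - 1| := by
    rw [← Complex.ofReal_one, ← Complex.ofReal_sub, Complex.norm_real, Real.norm_eq_abs]
  rw [e2] at h4
  refine h4.trans (le_of_eq ?_)
  rw [sub_eq_add_neg, exp_add]
  ring

/-- small `x`: the kernel is `1 / √x` up to `O(x)` -/
lemma E_bound : ∃ C : ℝ, 0 ≤ C ∧ ∀ a x : ℝ, 0 < x → x ≤ 1 → |E a x - 1 / √x| ≤ C * x := by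
  obtain ⟨C, hC, h⟩ := cos_bound
  refine ⟨C, hC, fun a x hx hx1 => ?_⟩
  have hs : 1 ≤ 1 / x := by rw [le_div_iff₀ hx]; linarith
  have h1 := h a (1 / x) hs
  have h2 := evenKernel_functional_equation (a : UnitAddCircle) x
  rw [← sqrt_eq_rpow] at h2
  unfold E
  rw [h2]
  have hsx : 0 < √x := sqrt_pos.2 hx
  have e1 : 1 / √x * cosKernel (a : UnitAddCircle) (1 / x) - 1 / √x
      = 1 / √x * (cosKernel (a : UnitAddCircle) (1 / x) - 1) := by ring
  rw [e1, abs_mul, abs_of_pos (by positivity)]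
  -- `y^2 ≤ exp (π y)` for `y = 1 / x`
  have h3 : (1 / x) ^ 2 ≤ rexp (π * (1 / x)) := by
    have h4 := quadratic_le_exp_of_nonneg (x := π * (1 / x)) (by positivity)
    have h5 : (2 : ℝ) ≤ π ^ 2 := by nlinarith [pi_gt_three]
    have h6 : 0 ≤ π * (1 / x) := by positivity
    have h7 : 0 ≤ (1 / x) ^ 2 := by positivity
    nlinarith
  have h8 : 1 / √x ≤ 1 / x := by
    rw [div_le_div_iff_of_pos_left one_pos hsx hx]
    calc x = √x * √x := (mul_self_sqrt hx.le).symm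
      _ ≤ √x * 1 := by
        gcongr
        exact sqrt_le_one.2 hx1
      _ = √x := mul_one _
  have h9 : rexp (-(π * (1 / x))) ≤ x ^ 2 := by
    rw [exp_neg]
    have : (rexp (π * (1 / x)))⁻¹ ≤ ((1 / x) ^ 2)⁻¹ := by gcongr
    refine this.trans (le_of_eq ?_)
    field_simp
  calc 1 / √x * |cosKernel (a : UnitAddCircle) (1 / x) - 1|
      ≤ 1 / x * (C * x ^ 2) := by
        refine mul_le_mul h8 (h1.trans ?_) (abs_nonneg _) (by positivity)
        gcongr
    _ = C * x := by field_simp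

end Pool.KS.HEXA

namespace Pool.KS

open Real HEXA

theorem HEXA_proof : Stmt_HEXA := by
  obtain ⟨C, hC, hE⟩ := E_bound
  have hQ1 := (hasSum_Q one_pos).summable
  set S1 : ℝ := ∑' p : ℤ × ℤ, rexp (-(1 * ((p.1 : ℝ) ^ 2 + p.1 * p.2 + (p.2 : ℝ) ^ 2))) with hS1
  have hS10 : 0 ≤ S1 := tsum_nonneg fun _ => (exp_pos _).le
  refine ⟨2 * (C * (1 + 3 * C) + 3 * C) + rexp (1 / 2) * S1, fun t ht => (hasSum_Q ht).summable, ?_, ?_⟩
  · intro t ht ht1
    rw [(hasSum_Q ht).tsum_eq]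
    set x := t / π with hx
    have hpi := pi_gt_three
    have hx0 : 0 < x := div_pos ht pi_pos
    have hx1 : 3 * x ≤ 1 := by
      rw [hx, ← mul_div_assoc, div_le_one pi_pos]
      linarith
    have e3 : 3 * t / π = 3 * x := by rw [hx]; ring
    rw [e3]
    have hsx : 0 < √x := sqrt_pos.2 hx0
    have hs3x : 0 < √(3 * x) := sqrt_pos.2 (by linarith)
    have hmain : 2 * π / (√3 * t) = 1 / √x * (1 / √(3 * x)) + 1 / √x * (1 / √(3 * x)) := by
      rw [sqrt_mul (by norm_num : (0 : ℝ) ≤ 3)]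
      have h3 : (0 : ℝ) < √3 := by positivity
      have h4 : √x * √x = x := mul_self_sqrt hx0.le
      have h5 : 1 / √x * (1 / (√3 * √x)) = 1 / (√3 * (√x * √x)) := by
        field_simp
      rw [h5, h4, hx]
      field_simp
      ring
    have hbb : 1 / √(3 * x) ≤ 1 / √x := by
      rw [div_le_div_iff_of_pos_left one_pos hs3x hsx]
      exact sqrt_le_sqrt (by linarith)
    have hxa : x * (1 / √x) ≤ 1 := by
      have h4 : √x * √x = x := mul_self_sqrt hx0.le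
      have h5 : x * (1 / √x) = √x := by
        rw [mul_one_div, div_eq_iff hsx.ne', h4]
      rw [h5]
      exact sqrt_le_one.2 (by linarith)
    have key : ∀ a : ℝ, |E a x * E a (3 * x) - 1 / √x * (1 / √(3 * x))| ≤
        C * (1 + 3 * C) + 3 * C := by
      intro a
      have h1 := hE a x hx0 (by linarith)
      have h2 := hE a (3 * x) (by linarith) hx1
      have e1 : E a x * E a (3 * x) - 1 / √x * (1 / √(3 * x))
          = (E a x - 1 / √x) * (1 / √(3 * x)) + (E a x - 1 / √x) * (E a (3 * x) - 1 / √(3 * x))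
            + 1 / √x * (E a (3 * x) - 1 / √(3 * x)) := by ring
      rw [e1]
      have a1 : |(E a x - 1 / √x) * (1 / √(3 * x))| ≤ C := by
        rw [abs_mul, abs_of_pos (by positivity : 0 < 1 / √(3 * x))]
        calc |E a x - 1 / √x| * (1 / √(3 * x)) ≤ (C * x) * (1 / √x) :=
              mul_le_mul h1 hbb (by positivity) (by positivity)
          _ = C * (x * (1 / √x)) := by ring
          _ ≤ C * 1 := by gcongr
          _ = C := mul_one _
      have a2 : |(E a x - 1 / √x) * (E a (3 * x) - 1 / √(3 * x))| ≤ C * (3 * C) := by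
        rw [abs_mul]
        calc |E a x - 1 / √x| * |E a (3 * x) - 1 / √(3 * x)| ≤ (C * x) * (C * (3 * x)) :=
              mul_le_mul h1 h2 (abs_nonneg _) (by positivity)
          _ ≤ (C * 1) * (C * (3 * 1)) := by gcongr <;> linarith
          _ = C * (3 * C) := by ring
      have a3 : |1 / √x * (E a (3 * x) - 1 / √(3 * x))| ≤ 3 * C := by
        rw [abs_mul, abs_of_pos (by positivity : 0 < 1 / √x)]
        calc 1 / √x * |E a (3 * x) - 1 / √(3 * x)| ≤ 1 / √x * (C * (3 * x)) := by gcongr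
          _ = 3 * C * (x * (1 / √x)) := by ring
          _ ≤ 3 * C * 1 := by gcongr
          _ = 3 * C := mul_one _
      refine (abs_add_three _ _ _).trans ?_
      linarith
    rw [hmain]
    have k1 := key 0
    have k2 := key (1 / 2)
    have e2 : E 0 x * E 0 (3 * x) + E (1 / 2) x * E (1 / 2) (3 * x)
        - (1 / √x * (1 / √(3 * x)) + 1 / √x * (1 / √(3 * x)))
        = (E 0 x * E 0 (3 * x) - 1 / √x * (1 / √(3 * x)))
          + (E (1 / 2) x * E (1 / 2) (3 * x) - 1 / √x * (1 / √(3 * x))) := by ring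
    rw [e2]
    refine (abs_add_le _ _).trans ?_
    have h7 : 0 ≤ rexp (1 / 2) * S1 := by positivity
    linarith
  · intro t ht
    have ht0 : 0 < t := by linarith
    have hs := (hasSum_Q ht0).summable
    have h1 := hs.tsum_eq_add_tsum_ite (0 : ℤ × ℤ)
    rw [h1]
    have e1 : rexp (-(t * ((((0 : ℤ × ℤ).1 : ℤ) : ℝ) ^ 2 + ((0 : ℤ × ℤ).1 : ℤ) * ((0 : ℤ × ℤ).2 : ℤ)
        + (((0 : ℤ × ℤ).2 : ℤ) : ℝ) ^ 2))) = 1 := by simp
    rw [e1, add_sub_cancel_left]
    have hnn : ∀ p : ℤ × ℤ, 0 ≤ (if p = 0 then 0 else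
        rexp (-(t * ((p.1 : ℝ) ^ 2 + p.1 * p.2 + (p.2 : ℝ) ^ 2)))) := by
      intro p
      split_ifs
      · exact le_rfl
      · exact (exp_pos _).le
    rw [abs_of_nonneg (tsum_nonneg hnn)]
    have hle : ∀ p : ℤ × ℤ, (if p = 0 then 0 else
        rexp (-(t * ((p.1 : ℝ) ^ 2 + p.1 * p.2 + (p.2 : ℝ) ^ 2)))) ≤
        rexp (1 / 2 - t / 2) * rexp (-(1 * ((p.1 : ℝ) ^ 2 + p.1 * p.2 + (p.2 : ℝ) ^ 2))) := by
      intro p
      split_ifs with hp
      · positivity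
      · rw [← exp_add]
        refine exp_le_exp.2 ?_
        have h2 : (1 : ℝ) ≤ (p.1 : ℝ) ^ 2 + (p.2 : ℝ) ^ 2 := by
          have : 1 ≤ p.1 ^ 2 + p.2 ^ 2 := by
            by_contra hlt
            have h3 : p.1 ^ 2 + p.2 ^ 2 ≤ 0 := by omega
            have h4 : p.1 = 0 := by nlinarith [sq_nonneg p.1, sq_nonneg p.2]
            have h5 : p.2 = 0 := by nlinarith [sq_nonneg p.1, sq_nonneg p.2]
            exact hp (Prod.ext h4 h5)
          exact_mod_cast this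
        have h6 : (1 : ℝ) / 2 ≤ (p.1 : ℝ) ^ 2 + p.1 * p.2 + (p.2 : ℝ) ^ 2 := by
          nlinarith [sq_nonneg ((p.1 : ℝ) + p.2)]
        have h7 : 0 ≤ (t - 1) * ((p.1 : ℝ) ^ 2 + p.1 * p.2 + (p.2 : ℝ) ^ 2 - 1 / 2) :=
          mul_nonneg (by linarith) (by linarith)
        nlinarith
    have hsum1 := hQ1.mul_left (rexp (1 / 2 - t / 2))
    have hsum2 : Summable (fun p : ℤ × ℤ => (if p = 0 then 0 else
        rexp (-(t * ((p.1 : ℝ) ^ 2 + p.1 * p.2 + (p.2 : ℝ) ^ 2))))) :=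
      Summable.of_nonneg_of_le hnn hle hsum1
    refine (hsum2.tsum_le_tsum hle hsum1).trans ?_
    rw [tsum_mul_left, ← hS1]
    have h8 : rexp (1 / 2 - t / 2) = rexp (1 / 2) * rexp (-t / 2) := by
      rw [← exp_add]
      congr 1
      ring
    rw [h8]
    have h9 : 0 ≤ 2 * (C * (1 + 3 * C) + 3 * C) := by positivity
    have h10 : 0 < rexp (-t / 2) := exp_pos _
    nlinarith [mul_nonneg h9 h10.le]

end Pool.KS
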