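import Pool.Agent.KS.Stmts

/-! Squad KS (MP_6f8d6f_an), module LOW: explicit lower bound. -/

open MeasureTheory Set Filter Topology
open scoped ENNReal

namespace Pool.KS

namespace LOW

lemma fE_ge (hLB : Stmt_LB) (hFUN : Stmt_FUN) (N K : ℕ) :
    -((N : ℝ) ^ 2 / (K + 1)) - N * K / 8 ≤ fE N := by
  refine le_of_forall_pos_le_add fun η hη => ?_
  obtain ⟨w, hwN, hw, hwe⟩ := hFUN.2.1 N η hη
  have h := hLB w hw K
  have h0 : 0 ≤ ∑ x ∈ w, ∑ y ∈ w, ‖x - y‖⁻¹ * (1 - ‖x - y‖ / 4) ^ K := by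
    refine Finset.sum_nonneg fun x hx => Finset.sum_nonneg fun y hy => ?_
    have h1 : ‖x - y‖ ≤ 2 := by
      have := norm_sub_le x y
      rw [hw x hx, hw y hy] at this
      linarith
    have h2 : 0 ≤ 1 - ‖x - y‖ / 4 := by linarith
    positivity
  rw [hwN] at h
  unfold fE
  have e : 2 * (N : ℝ) ^ 2 / (K + 1) = 2 * ((N : ℝ) ^ 2 / (K + 1)) := by ring
  rw [e] at h
  linarith

end LOW

theorem LOW_proof (hLB : Stmt_LB) (hFUN : Stmt_FUN) : Stmt_LOW := by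
  intro η hη
  have h1 : ∀ᶠ N : ℕ in atTop, 1 / (8 * η) ≤ Real.sqrt N := by
    have : Tendsto (fun N : ℕ => Real.sqrt (N : ℝ)) atTop atTop :=
      Real.tendsto_sqrt_atTop.comp tendsto_natCast_atTop_atTop
    exact this.eventually_ge_atTop _
  filter_upwards [h1, eventually_ge_atTop 1] with N hN hN1
  have hN0 : (0 : ℝ) < N := by exact_mod_cast hN1
  have hs : 0 < Real.sqrt N := Real.sqrt_pos.2 hN0
  have hss : Real.sqrt N * Real.sqrt N = N := Real.mul_self_sqrt hN0.le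
  have h2 : 0 < Real.sqrt 2 := Real.sqrt_pos.2 (by norm_num)
  have h22 : Real.sqrt 2 * Real.sqrt 2 = 2 := Real.mul_self_sqrt (by norm_num)
  -- `K = ⌈2 √2 √N⌉`
  obtain ⟨K, hK⟩ : ∃ K : ℕ, K = ⌈2 * Real.sqrt 2 * Real.sqrt N⌉₊ := ⟨_, rfl⟩
  have hK1 : 2 * Real.sqrt 2 * Real.sqrt N ≤ K := by rw [hK]; exact Nat.le_ceil _
  have hK2 : (K : ℝ) < 2 * Real.sqrt 2 * Real.sqrt N + 1 := by
    rw [hK]; exact Nat.ceil_lt_add_one (by positivity)
  have h := LOW.fE_ge hLB hFUN N K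
  have h3 : (N : ℝ) ^ 2 / (K + 1) ≤ Real.sqrt 2 / 4 * (N * Real.sqrt N) := by
    rw [div_le_iff₀ (by positivity)]
    have h4 : (2 * Real.sqrt 2 * Real.sqrt N) * (Real.sqrt 2 / 4 * (N * Real.sqrt N)) = (N : ℝ) ^ 2 := by
      have : (2 * Real.sqrt 2 * Real.sqrt N) * (Real.sqrt 2 / 4 * (N * Real.sqrt N)) =
          (Real.sqrt 2 * Real.sqrt 2) / 2 * N * (Real.sqrt N * Real.sqrt N) := by ring
      rw [this, h22, hss]; ring
    have h5 : 0 ≤ Real.sqrt 2 / 4 * (N * Real.sqrt N) := by positivity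
    calc (N : ℝ) ^ 2 = (2 * Real.sqrt 2 * Real.sqrt N) * (Real.sqrt 2 / 4 * (N * Real.sqrt N)) := h4.symm
      _ ≤ ((K : ℝ) + 1) * (Real.sqrt 2 / 4 * (N * Real.sqrt N)) :=
        mul_le_mul_of_nonneg_right (by linarith) h5
      _ = _ := by ring
  have h6 : (N : ℝ) * K / 8 ≤ Real.sqrt 2 / 4 * (N * Real.sqrt N) + N / 8 := by
    have := mul_le_mul_of_nonneg_left hK2.le hN0.le
    nlinarith
  have h7 : (N : ℝ) / 8 ≤ η * (N * Real.sqrt N) := by
    rw [div_le_iff₀ (by positivity)] at hN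
    nlinarith
  nlinarith

end Pool.KS
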