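import Pool.Agent.KS.Stmts

/-! Squad KS (MP_6f8d6f_an): common lemmas on `sph` (Lambert coordinates). -/

open MeasureTheory Set Filter Topology
open scoped ENNReal

namespace Pool.KS.Lib

open Pool.KS

/-- The map `(a, b) ↦ !₂[a, b]` preserves the measure. -/
lemma mp_E2 : MeasurePreserving (fun p : ℝ × ℝ => (!₂[p.1, p.2] : E2))
    (volume : Measure (ℝ × ℝ)) (volume : Measure E2) := by
  have h3 := (PiLp.volume_preserving_toLp (Fin 2)).comp (volume_preserving_finTwoArrow ℝ).symm
  have e : (fun p : ℝ × ℝ => (!₂[p.1, p.2] : E2))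
      = WithLp.toLp 2 ∘ ⇑(MeasurableEquiv.finTwoArrow (α := ℝ)).symm := by
    funext p
    ext i
    fin_cases i <;> rfl
  rw [e]
  exact h3

/-- Integration over the plane in coordinates. -/
lemma lintegral_E2 (h : E2 → ℝ≥0∞) (hh : Measurable h) :
    ∫⁻ u, h u = ∫⁻ a : ℝ, ∫⁻ b : ℝ, h !₂[a, b] := by
  rw [← mp_E2.lintegral_comp hh, Measure.volume_eq_prod, lintegral_prod]
  exact (hh.comp mp_E2.measurable).aemeasurable

lemma measurable_coord (i : Fin 2) : Measurable (fun u : E2 => u i) :=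
  (EuclideanSpace.proj (𝕜 := ℝ) i).continuous.measurable

lemma measurable_coord3 (i : Fin 3) : Measurable (fun u : E3 => u i) :=
  (EuclideanSpace.proj (𝕜 := ℝ) i).continuous.measurable

lemma measurableSet_box : MeasurableSet box := by
  have h : box = ((fun u : E2 => u 0) ⁻¹' Ioc (-Real.pi) Real.pi) ∩
      ((fun u : E2 => u 1) ⁻¹' Icc (-1) 1) := by
    ext u
    simp only [box, mem_ofPred_eq, mem_inter_iff, mem_preimage, mem_Ioc, mem_Icc]
    tauto
  rw [h]
  exact (measurable_coord 0 measurableSet_Ioc).inter (measurable_coord 1 measurableSet_Icc)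

lemma continuous_P : Continuous P := by
  unfold P
  have h0 : Continuous (fun u : E2 => u 0) := (EuclideanSpace.proj (𝕜 := ℝ) 0).continuous
  have h1 : Continuous (fun u : E2 => u 1) := (EuclideanSpace.proj (𝕜 := ℝ) 1).continuous
  apply (PiLp.continuous_toLp 2 _).comp
  apply continuous_pi
  intro i
  fin_cases i
  · exact ((continuous_const.sub (h1.pow 2)).sqrt).mul (Real.continuous_cos.comp h0)
  · exact ((continuous_const.sub (h1.pow 2)).sqrt).mul (Real.continuous_sin.comp h0)
  · exact h1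

lemma measurable_P : Measurable P := continuous_P.measurable

lemma norm_P (u : E2) (hu : u ∈ box) : ‖P u‖ = 1 := by
  have h1 : 0 ≤ 1 - u 1 ^ 2 := by
    obtain ⟨_, _, h3, h4⟩ := hu
    nlinarith
  rw [EuclideanSpace.norm_eq, Fin.sum_univ_three]
  have : ‖P u 0‖ ^ 2 + ‖P u 1‖ ^ 2 + ‖P u 2‖ ^ 2 = 1 := by
    simp only [P, Real.norm_eq_abs, sq_abs]
    simp only [Matrix.cons_val_zero, Matrix.cons_val_one, Matrix.cons_val, mul_pow,
      Real.sq_sqrt h1]
    have := Real.sin_sq_add_cos_sq (u 0)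
    nlinarith
  rw [this, Real.sqrt_one]

/-- Integration against `sph`, with the plane coordinates. -/
lemma lintegral_sph' (h : E3 → ℝ≥0∞) (hh : Measurable h) :
    ∫⁻ x, h x ∂sph = ENNReal.ofReal (1 / (4 * Real.pi)) * ∫⁻ u in box, h (P u) := by
  unfold sph
  rw [lintegral_smul_measure, lintegral_map hh measurable_P, smul_eq_mul]

/-- Integration against `sph` in Lambert coordinates. -/
lemma lintegral_sph (h : E3 → ℝ≥0∞) (hh : Measurable h) :
    ∫⁻ x, h x ∂sph = ENNReal.ofReal (1 / (4 * Real.pi)) *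
      ∫⁻ φ in Ioc (-Real.pi) Real.pi, ∫⁻ z in Icc (-1 : ℝ) 1, h (P !₂[φ, z]) := by
  rw [lintegral_sph' h hh]
  congr 1
  rw [← lintegral_indicator measurableSet_box,
    lintegral_E2 (box.indicator (fun u => h (P u)))
      ((hh.comp measurable_P).indicator measurableSet_box),
    ← lintegral_indicator measurableSet_Ioc]
  apply lintegral_congr
  intro φ
  by_cases hφ : φ ∈ Ioc (-Real.pi) Real.pi
  · rw [indicator_of_mem hφ, ← lintegral_indicator measurableSet_Icc]
    apply lintegral_congr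
    intro z
    by_cases hz : z ∈ Icc (-1 : ℝ) 1
    · rw [indicator_of_mem hz, indicator_of_mem]
      exact ⟨hφ.1, hφ.2, hz.1, hz.2⟩
    · rw [indicator_of_notMem hz, indicator_of_notMem]
      rintro ⟨_, _, h3, h4⟩
      exact hz ⟨h3, h4⟩
  · rw [indicator_of_notMem hφ]
    have : ∀ z : ℝ, box.indicator (fun u => h (P u)) (!₂[φ, z] : E2) = 0 := by
      intro z
      apply indicator_of_notMem
      rintro ⟨h1, h2, _, _⟩
      exact hφ ⟨h1, h2⟩
    simp [this]

end Pool.KS.Lib
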