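import Pool.Agent.KS.PLN

/-! Squad KS (MP_6f8d6f_an), module PD: positive definiteness of the powers of
`1 - ‖x-y‖/4` relative to `sph`. -/

open MeasureTheory Set Filter Topology
open scoped ENNReal

namespace Pool.KS.PD

open Pool.KS Pool.KS.Lib

open Classical in
/-- Indicator of `x`, `y` in the same cell. -/
noncomputable def s {i : ℕ} (t : Fin i → E3 × ℝ) (x y : E3) : ℝ≥0∞ :=
  if ∀ j, (side (t j) x ↔ side (t j) y) then 1 else 0

open Classical in
/-- Sign pattern. -/
noncomputable def pat {i : ℕ} (t : Fin i → E3 × ℝ) (x : E3) : Fin i → Bool :=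
  fun j => decide (side (t j) x)

/-- Indicator of a cell. -/
noncomputable def a {i : ℕ} (t : Fin i → E3 × ℝ) (τ : Fin i → Bool) (x : E3) : ℝ≥0∞ :=
  if pat t x = τ then 1 else 0

lemma s_eq {i : ℕ} (t : Fin i → E3 × ℝ) (x y : E3) :
    s t x y = ∑ τ, a t τ x * a t τ y := by
  unfold s a
  simp only [ite_mul, one_mul, zero_mul, Finset.sum_ite_eq, Finset.mem_univ, if_true]
  congr 1
  apply propext
  constructor
  · intro h
    funext j
    simp only [pat, decide_eq_decide]
    exact (h j).symm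
  · intro h j
    have := congrFun h j
    simp only [pat, decide_eq_decide] at this
    exact this.symm

lemma measurable_s (hm : MeasurableSet {q : (E3 × ℝ) × E3 | side q.1 q.2}) (i : ℕ) :
    Measurable (fun p : (Fin i → E3 × ℝ) × E3 × E3 => s p.1 p.2.1 p.2.2) := by
  unfold s
  apply Measurable.ite _ measurable_const measurable_const
  have : {p : (Fin i → E3 × ℝ) × E3 × E3 | ∀ j, (side (p.1 j) p.2.1 ↔ side (p.1 j) p.2.2)}
      = ⋂ j, {p | side (p.1 j) p.2.1 ↔ side (p.1 j) p.2.2} := by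
    ext p; simp
  rw [this]
  apply MeasurableSet.iInter
  intro j
  have h1 : MeasurableSet {p : (Fin i → E3 × ℝ) × E3 × E3 | side (p.1 j) p.2.1} := by
    have : Measurable (fun p : (Fin i → E3 × ℝ) × E3 × E3 => (p.1 j, p.2.1)) := by fun_prop
    exact this hm
  have h2 : MeasurableSet {p : (Fin i → E3 × ℝ) × E3 × E3 | side (p.1 j) p.2.2} := by
    have : Measurable (fun p : (Fin i → E3 × ℝ) × E3 × E3 => (p.1 j, p.2.2)) := by fun_prop
    exact this hm
  have : {p : (Fin i → E3 × ℝ) × E3 × E3 | side (p.1 j) p.2.1 ↔ side (p.1 j) p.2.2}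
      = ({p | side (p.1 j) p.2.1} ∩ {p | side (p.1 j) p.2.2}) ∪
        ({p | side (p.1 j) p.2.1}ᶜ ∩ {p | side (p.1 j) p.2.2}ᶜ) := by
    ext p
    simp only [mem_ofPred_eq, mem_union, mem_inter_iff, mem_compl_iff]
    tauto
  rw [this]
  exact (h1.inter h2).union (h1.compl.inter h2.compl)

lemma measurable_a (hm : MeasurableSet {q : (E3 × ℝ) × E3 | side q.1 q.2}) {i : ℕ}
    (t : Fin i → E3 × ℝ) (τ : Fin i → Bool) : Measurable (a t τ) := by
  unfold a
  apply Measurable.ite _ measurable_const measurable_const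
  have : {x : E3 | pat t x = τ} = ⋂ j, {x | pat t x j = τ j} := by
    ext x; simp [funext_iff]
  rw [this]
  apply MeasurableSet.iInter
  intro j
  have h1 : MeasurableSet {x : E3 | side (t j) x} := by
    have : Measurable (fun x : E3 => (t j, x)) := by fun_prop
    exact this hm
  cases hτ : τ j
  · have : {x : E3 | pat t x j = false} = {x | side (t j) x}ᶜ := by
      ext x; simp [pat]
    rw [this]; exact h1.compl
  · have : {x : E3 | pat t x j = true} = {x | side (t j) x} := by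
      ext x; simp [pat]
    rw [this]; exact h1

lemma mean_s (hPLN : Stmt_PLN) (i : ℕ) (x y : E3) (hx : ‖x‖ = 1) (hy : ‖y‖ = 1) :
    ∫⁻ t, s t x y ∂(Measure.pi (fun _ : Fin i => pln))
      = ENNReal.ofReal ((1 - ‖x - y‖ / 4) ^ i) := by
  have : IsProbabilityMeasure pln := hPLN.1
  have h1 : ∀ t : Fin i → E3 × ℝ, s t x y
      = (Set.pi univ (fun _ : Fin i => {u : E3 × ℝ | side u x ↔ side u y})).indicator 1 t := by
    intro t
    unfold s
    by_cases h : ∀ j, (side (t j) x ↔ side (t j) y)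
    · rw [if_pos h, indicator_of_mem]
      · rfl
      · intro j _
        exact h j
    · rw [if_neg h, indicator_of_notMem]
      intro h2
      exact h (fun j => h2 j (mem_univ j))
  simp only [h1]
  have hA : MeasurableSet {u : E3 × ℝ | side u x ↔ side u y} := by
    have h1 : MeasurableSet {u : E3 × ℝ | side u x} := by
      have : Measurable (fun u : E3 × ℝ => (u, x)) := by fun_prop
      exact this hPLN.2.1
    have h2 : MeasurableSet {u : E3 × ℝ | side u y} := by
      have : Measurable (fun u : E3 × ℝ => (u, y)) := by fun_prop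
      exact this hPLN.2.1
    have : {u : E3 × ℝ | side u x ↔ side u y}
        = ({u | side u x} ∩ {u | side u y}) ∪ ({u | side u x}ᶜ ∩ {u | side u y}ᶜ) := by
      ext p
      simp only [mem_ofPred_eq, mem_union, mem_inter_iff, mem_compl_iff]
      tauto
    rw [this]
    exact (h1.inter h2).union (h1.compl.inter h2.compl)
  rw [lintegral_indicator_one (MeasurableSet.univ_pi (fun _ => hA)), Measure.pi_pi,
    Finset.prod_const, Finset.card_univ, Fintype.card_fin, hPLN.2.2 x y hx hy,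
    ENNReal.ofReal_pow]
  have := norm_sub_le x y
  linarith

lemma two_mul_le (A B : ℝ≥0∞) : 2 * (A * B) ≤ A * A + B * B := by
  rcases eq_or_ne A ⊤ with hA | hA
  · subst hA; simp
  rcases eq_or_ne B ⊤ with hB | hB
  · subst hB; simp
  lift A to NNReal using hA
  lift B to NNReal using hB
  have h : 2 * (A * B) ≤ A * A + B * B := by
    rw [← NNReal.coe_le_coe]
    push_cast
    nlinarith [sq_nonneg ((A : ℝ) - B)]
  exact_mod_cast h

/-- The pointwise inequality. -/
lemma pointwise (hm : MeasurableSet {q : (E3 × ℝ) × E3 | side q.1 q.2}) {i : ℕ}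
    (t : Fin i → E3 × ℝ) (w : Finset E3) :
    2 * ((w.card : ℝ≥0∞) * ∑ x ∈ w, ∫⁻ y, s t x y ∂sph)
      ≤ ∑ x ∈ w, ∑ y ∈ w, s t x y
        + (w.card : ℝ≥0∞) ^ 2 * ∫⁻ y, ∫⁻ z, s t y z ∂sph ∂sph := by
  have e1 : ∑ x ∈ w, ∫⁻ y, s t x y ∂sph
      = ∑ τ, (∑ x ∈ w, a t τ x) * ∫⁻ y, a t τ y ∂sph := by
    simp only [s_eq, Finset.sum_mul]
    rw [Finset.sum_comm]
    apply Finset.sum_congr rfl
    intro x _
    rw [lintegral_finsetSum _ (fun τ _ => (measurable_a hm t τ).const_mul _)]
    apply Finset.sum_congr rfl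
    intro τ _
    rw [lintegral_const_mul _ (measurable_a hm t τ)]
  have e2 : ∑ x ∈ w, ∑ y ∈ w, s t x y = ∑ τ, (∑ x ∈ w, a t τ x) * (∑ x ∈ w, a t τ x) := by
    simp only [s_eq, Finset.sum_mul_sum]
    symm
    rw [Finset.sum_comm]
    apply Finset.sum_congr rfl
    intro x _
    rw [Finset.sum_comm]
  have e3 : ∫⁻ y, ∫⁻ z, s t y z ∂sph ∂sph
      = ∑ τ, (∫⁻ y, a t τ y ∂sph) * (∫⁻ y, a t τ y ∂sph) := by
    have h1 : ∀ y, ∫⁻ z, s t y z ∂sph = ∑ τ, a t τ y * ∫⁻ z, a t τ z ∂sph := by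
      intro y
      simp only [s_eq]
      rw [lintegral_finsetSum _ (fun τ _ => (measurable_a hm t τ).const_mul _)]
      apply Finset.sum_congr rfl
      intro τ _
      rw [lintegral_const_mul _ (measurable_a hm t τ)]
    simp only [h1]
    rw [lintegral_finsetSum _ (fun τ _ => (measurable_a hm t τ).mul_const _)]
    apply Finset.sum_congr rfl
    intro τ _
    rw [lintegral_mul_const _ (measurable_a hm t τ)]
  rw [e1, e2, e3, Finset.mul_sum, Finset.mul_sum, Finset.mul_sum, ← Finset.sum_add_distrib]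
  apply Finset.sum_le_sum
  intro τ _
  have := two_mul_le (∑ x ∈ w, a t τ x) ((w.card : ℝ≥0∞) * ∫⁻ y, a t τ y ∂sph)
  calc _ = 2 * ((∑ x ∈ w, a t τ x) * ((w.card : ℝ≥0∞) * ∫⁻ y, a t τ y ∂sph)) := by ring
    _ ≤ _ := this
    _ = _ := by ring

end PD

open PD in
theorem PD_proof (hSPH : Stmt_SPH) (hCHORD : Stmt_CHORD) (hPLN : Stmt_PLN) : Stmt_PD := by
  intro w hw i
  have hp : IsProbabilityMeasure sph := hSPH.1
  have hq : IsProbabilityMeasure pln := hPLN.1
  have hm := hPLN.2.1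
  have hms := measurable_s hm i
  set μ := Measure.pi (fun _ : Fin i => pln) with hμ
  -- mean of the kernel over `y`
  set c : ℝ≥0∞ := ∫⁻ r in Icc (0 : ℝ) 2, ENNReal.ofReal ((1 - r / 4) ^ i)
    * ENNReal.ofReal (r / 2) with hc
  have hkey : ∀ x : E3, ‖x‖ = 1 → ∫⁻ y, ENNReal.ofReal ((1 - ‖x - y‖ / 4) ^ i) ∂sph = c := by
    intro x hx
    exact hCHORD x hx (fun r => ENNReal.ofReal ((1 - r / 4) ^ i)) (by fun_prop)
  have h1 : ∀ x : E3, ‖x‖ = 1 → ∫⁻ t, ∫⁻ y, s t x y ∂sph ∂μ = c := by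
    intro x hx
    rw [lintegral_lintegral_swap]
    · rw [← hkey x hx]
      apply lintegral_congr_ae
      filter_upwards [hSPH.2.1] with y hy
      exact mean_s hPLN i x y hx hy
    · have : Measurable (fun p : (Fin i → E3 × ℝ) × E3 => (p.1, x, p.2)) := by fun_prop
      exact (hms.comp this).aemeasurable
  have hms2 : Measurable (fun p : (Fin i → E3 × ℝ) × E3 => ∫⁻ z, s p.1 p.2 z ∂sph) := by
    have : Measurable (fun q : ((Fin i → E3 × ℝ) × E3) × E3 => (q.1.1, q.1.2, q.2)) := by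
      fun_prop
    exact (hms.comp this).lintegral_prod_right'
  have h2 : ∫⁻ t, ∫⁻ y, ∫⁻ z, s t y z ∂sph ∂sph ∂μ = c := by
    rw [lintegral_lintegral_swap hms2.aemeasurable]
    have : ∀ᵐ y ∂sph, ∫⁻ t, ∫⁻ z, s t y z ∂sph ∂μ = c := by
      filter_upwards [hSPH.2.1] with y hy
      exact h1 y hy
    rw [lintegral_congr_ae this, lintegral_const, measure_univ, mul_one]
  have h3 : 2 * ((w.card : ℝ≥0∞) * ((w.card : ℝ≥0∞) * c))
      ≤ (∑ x ∈ w, ∑ y ∈ w, ENNReal.ofReal ((1 - ‖x - y‖ / 4) ^ i))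
        + (w.card : ℝ≥0∞) ^ 2 * c := by
    have h := lintegral_mono (μ := μ) (fun t => pointwise hm t w)
    have hmt : ∀ x y : E3, Measurable (fun t : Fin i → E3 × ℝ => s t x y) := by
      intro x y
      have : Measurable (fun t : (Fin i → E3 × ℝ) => (t, x, y)) := by fun_prop
      exact hms.comp this
    have hmt2 : ∀ x : E3, Measurable (fun t : Fin i → E3 × ℝ => ∫⁻ y, s t x y ∂sph) := by
      intro x
      have : Measurable (fun t : (Fin i → E3 × ℝ) => (t, x)) := by fun_prop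
      exact hms2.comp this
    have hmt3 : Measurable (fun t : Fin i → E3 × ℝ => ∫⁻ y, ∫⁻ z, s t y z ∂sph ∂sph) :=
      hms2.lintegral_prod_right'
    rw [lintegral_const_mul _ (by fun_prop), lintegral_const_mul _ (by fun_prop),
      lintegral_finsetSum _ (fun x _ => hmt2 x), lintegral_add_left (by fun_prop),
      lintegral_const_mul _ hmt3, h2,
      lintegral_finsetSum _ (fun x _ => by fun_prop)] at h
    have e1 : ∑ x ∈ w, ∫⁻ t, ∫⁻ y, s t x y ∂sph ∂μ = (w.card : ℝ≥0∞) * c := by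
      rw [Finset.sum_congr rfl (fun x hx => h1 x (hw x hx)), Finset.sum_const, nsmul_eq_mul]
    have e2 : ∑ x ∈ w, ∫⁻ t, ∑ y ∈ w, s t x y ∂μ
        = ∑ x ∈ w, ∑ y ∈ w, ENNReal.ofReal ((1 - ‖x - y‖ / 4) ^ i) := by
      apply Finset.sum_congr rfl
      intro x hx
      rw [lintegral_finsetSum _ (fun y _ => hmt x y)]
      apply Finset.sum_congr rfl
      intro y hy
      exact mean_s hPLN i x y (hw x hx) (hw y hy)
    rw [e1, e2] at h
    exact h
  -- conversion to real numbers
  have hc1 : c = ENNReal.ofReal (∫ r in (0 : ℝ)..2, (1 - r / 4) ^ i * (r / 2)) := by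
    rw [hc, intervalIntegral.integral_of_le (by norm_num), ← integral_Icc_eq_integral_Ioc,
      ofReal_integral_eq_lintegral_ofReal]
    · apply setLIntegral_congr_fun measurableSet_Icc
      intro r hr
      simp only
      rw [ENNReal.ofReal_mul (pow_nonneg (by linarith [hr.2]) i)]
    · apply Continuous.integrableOn_Icc
      fun_prop
    · filter_upwards [ae_restrict_mem measurableSet_Icc] with r hr
      have h4 : 0 ≤ 1 - r / 4 := by linarith [hr.2]
      have h5 : 0 ≤ r := hr.1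
      exact mul_nonneg (pow_nonneg h4 i) (by linarith)
  have hI : 0 ≤ ∫ r in (0 : ℝ)..2, (1 - r / 4) ^ i * (r / 2) := by
    apply intervalIntegral.integral_nonneg (by norm_num)
    intro r hr
    exact mul_nonneg (pow_nonneg (by linarith [hr.2]) i) (by linarith [hr.1])
  have hsum : ∑ x ∈ w, ∑ y ∈ w, ENNReal.ofReal ((1 - ‖x - y‖ / 4) ^ i)
      = ENNReal.ofReal (∑ x ∈ w, ∑ y ∈ w, (1 - ‖x - y‖ / 4) ^ i) := by
    have hn : ∀ x ∈ w, ∀ y ∈ w, 0 ≤ (1 - ‖x - y‖ / 4) ^ i := by
      intro x hx y hy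
      apply pow_nonneg
      have := norm_sub_le x y
      rw [hw x hx, hw y hy] at this
      linarith
    rw [ENNReal.ofReal_sum_of_nonneg (fun x hx => Finset.sum_nonneg (fun y hy => hn x hx y hy))]
    apply Finset.sum_congr rfl
    intro x hx
    rw [ENNReal.ofReal_sum_of_nonneg (fun y hy => hn x hx y hy)]
  have hS : 0 ≤ ∑ x ∈ w, ∑ y ∈ w, (1 - ‖x - y‖ / 4) ^ i := by
    apply Finset.sum_nonneg
    intro x hx
    apply Finset.sum_nonneg
    intro y hy
    apply pow_nonneg
    have := norm_sub_le x y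
    rw [hw x hx, hw y hy] at this
    linarith
  rw [hsum, hc1] at h3
  set I := ∫ r in (0 : ℝ)..2, (1 - r / 4) ^ i * (r / 2) with hIdef
  set S := ∑ x ∈ w, ∑ y ∈ w, (1 - ‖x - y‖ / 4) ^ i with hSdef
  have hM : (w.card : ℝ≥0∞) = ENNReal.ofReal (w.card : ℝ) := by simp
  have h2' : (2 : ℝ≥0∞) = ENNReal.ofReal 2 := by simp
  rw [hM, h2', ← ENNReal.ofReal_mul (by positivity), ← ENNReal.ofReal_mul (by positivity),
    ← ENNReal.ofReal_mul (by positivity), ← ENNReal.ofReal_pow (by positivity),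
    ← ENNReal.ofReal_mul (by positivity), ← ENNReal.ofReal_add hS (by positivity),
    ENNReal.ofReal_le_ofReal_iff (by positivity)] at h3
  nlinarith [h3]

end Pool.KS
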