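import Pool.Agent.KS.Stmts

open MeasureTheory Set Filter Topology
open scoped ENNReal

namespace Pool.KS

namespace PinvAux

theorem norm_sq3 (x : E3) : ‖x‖ ^ 2 = x 0 ^ 2 + x 1 ^ 2 + x 2 ^ 2 := by
  rw [EuclideanSpace.norm_sq_eq, Fin.sum_univ_three]
  simp [sq_abs]

theorem norm_sq2 (x : E2) : ‖x‖ ^ 2 = x 0 ^ 2 + x 1 ^ 2 := by
  rw [EuclideanSpace.norm_sq_eq, Fin.sum_univ_two]
  simp [sq_abs]

theorem continuous_P : Continuous P := by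
  unfold P
  fun_prop

theorem measurable_pinv : Measurable pinv := by
  unfold pinv
  have h1 : Measurable (fun x : E3 => Complex.arg ⟨x 0, x 1⟩) := by
    refine Complex.measurable_arg.comp ?_
    have : (fun x : E3 => (⟨x 0, x 1⟩ : ℂ)) = fun x : E3 => ((x 0 : ℝ) : ℂ) + ((x 1 : ℝ) : ℂ) * Complex.I := by
      funext x
      rw [Complex.mk_eq_add_mul_I]
    rw [this]
    fun_prop
  have h2 : Measurable (fun x : E3 => x 2) := by fun_prop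
  refine (WithLp.measurable_toLp 2 _).comp ?_
  refine measurable_pi_lambda _ fun i => ?_
  fin_cases i
  · exact h1
  · exact h2

theorem mod_eq (x : E3) (hx : ‖x‖ = 1) : Real.sqrt (1 - x 2 ^ 2) = ‖(⟨x 0, x 1⟩ : ℂ)‖ := by
  have h := norm_sq3 x
  rw [hx] at h
  rw [Complex.norm_eq_sqrt_sq_add_sq]
  congr 1
  show 1 - x 2 ^ 2 = x 0 ^ 2 + x 1 ^ 2
  linarith

theorem P_pinv (x : E3) (hx : ‖x‖ = 1) : P (pinv x) = x := by
  have hm := mod_eq x hx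
  ext i
  fin_cases i
  · show Real.sqrt (1 - x 2 ^ 2) * Real.cos (Complex.arg ⟨x 0, x 1⟩) = x 0
    rw [hm, Complex.norm_mul_cos_arg]
  · show Real.sqrt (1 - x 2 ^ 2) * Real.sin (Complex.arg ⟨x 0, x 1⟩) = x 1
    rw [hm, Complex.norm_mul_sin_arg]
  · rfl

theorem pinv_P (u : E2) (hu : u ∈ box) (h1 : |u 1| < 1) : pinv (P u) = u := by
  have hr : 0 < Real.sqrt (1 - u 1 ^ 2) := by
    apply Real.sqrt_pos.2
    have := (sq_lt_one_iff_abs_lt_one (u 1)).2 h1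
    linarith
  ext i
  fin_cases i
  · show Complex.arg ⟨Real.sqrt (1 - u 1 ^ 2) * Real.cos (u 0), Real.sqrt (1 - u 1 ^ 2) * Real.sin (u 0)⟩ = u 0
    have h2 := Complex.arg_mul_cos_add_sin_mul_I hr (θ := u 0) ⟨hu.1, hu.2.1⟩
    refine Eq.trans ?_ h2
    congr 1
    apply Complex.ext
    · simp [Complex.cos_ofReal_re]
    · simp [Complex.sin_ofReal_re]
  · rfl

theorem pinv_norm (x : E3) (hx : ‖x‖ = 1) (hd : ‖x - e0‖ ≤ 1 / 10) : ‖pinv x‖ ≤ 2 * ‖x - e0‖ := by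
  have h1 := norm_sq3 x
  rw [hx] at h1
  have h2 : ‖x - e0‖ ^ 2 = 2 - 2 * x 0 := by
    rw [norm_sq3]
    have a0 : (x - e0) 0 = x 0 - 1 := rfl
    have a1 : (x - e0) 1 = x 1 - 0 := rfl
    have a2 : (x - e0) 2 = x 2 - 0 := rfl
    rw [a0, a1, a2]
    nlinarith
  have hdn : 0 ≤ ‖x - e0‖ := norm_nonneg _
  have hd2 : ‖x - e0‖ ^ 2 ≤ 1 / 100 := by nlinarith
  set φ := Complex.arg ⟨x 0, x 1⟩ with hφ
  have hm := mod_eq x hx
  have h3 : Real.sqrt (1 - x 2 ^ 2) * Real.cos φ = x 0 := by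
    rw [hm, hφ, Complex.norm_mul_cos_arg]
  have h4 : Real.sqrt (1 - x 2 ^ 2) ≤ 1 := by
    rw [Real.sqrt_le_one]
    nlinarith [sq_nonneg (x 2)]
  have h5 : 0 ≤ Real.sqrt (1 - x 2 ^ 2) := Real.sqrt_nonneg _
  have h6 : 0 < x 0 := by linarith
  have h7 : x 0 ≤ Real.cos φ := by
    have hc : 0 < Real.cos φ := by
      by_contra hc
      push Not at hc
      have := mul_nonpos_of_nonneg_of_nonpos h5 hc
      linarith
    nlinarith
  have h8 : Real.cos φ ≤ 1 - 2 / Real.pi ^ 2 * φ ^ 2 :=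
    Real.cos_le_one_sub_mul_cos_sq (Complex.abs_arg_le_pi _)
  have h9 : ‖pinv x‖ ^ 2 = φ ^ 2 + x 2 ^ 2 := by
    rw [norm_sq2]
    rfl
  have hpi : 0 < Real.pi := Real.pi_pos
  have hpi2 : Real.pi ^ 2 < 10 := by nlinarith [Real.pi_lt_d2, Real.pi_gt_three]
  have h10 : φ ^ 2 ≤ Real.pi ^ 2 / 4 * ‖x - e0‖ ^ 2 := by
    have h11 : 2 / Real.pi ^ 2 * φ ^ 2 ≤ ‖x - e0‖ ^ 2 / 2 := by linarith
    have h12 : φ ^ 2 = Real.pi ^ 2 / 2 * (2 / Real.pi ^ 2 * φ ^ 2) := by field_simp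
    rw [h12]
    have : 0 < Real.pi ^ 2 / 2 := by positivity
    calc Real.pi ^ 2 / 2 * (2 / Real.pi ^ 2 * φ ^ 2) ≤ Real.pi ^ 2 / 2 * (‖x - e0‖ ^ 2 / 2) :=
          mul_le_mul_of_nonneg_left h11 this.le
      _ = Real.pi ^ 2 / 4 * ‖x - e0‖ ^ 2 := by ring
  have h13 : x 2 ^ 2 ≤ ‖x - e0‖ ^ 2 := by
    rw [h2]
    nlinarith [sq_nonneg (x 1), sq_nonneg (x 0 - 1)]
  have h14 : ‖pinv x‖ ^ 2 ≤ (2 * ‖x - e0‖) ^ 2 := by
    rw [h9]
    nlinarith [sq_nonneg ‖x - e0‖]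
  exact (pow_le_pow_iff_left₀ (norm_nonneg _) (by positivity) two_ne_zero).1 h14

end PinvAux

open PinvAux in
theorem PINV_proof : Stmt_PINV :=
  ⟨continuous_P.measurable, measurable_pinv, P_pinv, pinv_P, pinv_norm⟩

end Pool.KS
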