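import Pool.Agent.KS.CHORD

/-! Squad KS (MP_6f8d6f_an), module PLN: random planes. -/

open MeasureTheory Set Filter Topology
open scoped ENNReal

namespace Pool.KS.PLN

open Pool.KS Pool.KS.Lib Pool.KS.CHORD

lemma lintegral_abs_Icc : ∫⁻ z in Icc (-1 : ℝ) 1, ENNReal.ofReal |z| = 1 := by
  rw [← ofReal_integral_eq_lintegral_ofReal]
  · rw [integral_Icc_eq_integral_Ioc, ← intervalIntegral.integral_of_le (by norm_num)]
    have h1 : ∫ x in (-1 : ℝ)..1, |x| = 1 := by
      rw [← intervalIntegral.integral_add_adjacent_intervals (b := 0)]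
      · have h2 : ∫ x in (-1 : ℝ)..0, |x| = 1 / 2 := by
          have : ∫ x in (-1 : ℝ)..0, |x| = ∫ x in (-1 : ℝ)..0, -x := by
            apply intervalIntegral.integral_congr
            intro x hx
            rw [uIcc_of_le (by norm_num)] at hx
            exact abs_of_nonpos hx.2
          rw [this, intervalIntegral.integral_neg, integral_id]
          norm_num
        have h3 : ∫ x in (0 : ℝ)..1, |x| = 1 / 2 := by
          have : ∫ x in (0 : ℝ)..1, |x| = ∫ x in (0 : ℝ)..1, x := by
            apply intervalIntegral.integral_congr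
            intro x hx
            rw [uIcc_of_le (by norm_num)] at hx
            exact abs_of_nonneg hx.1
          rw [this, integral_id]
          norm_num
        rw [h2, h3]; norm_num
      · exact continuous_abs.intervalIntegrable _ _
      · exact continuous_abs.intervalIntegrable _ _
    rw [h1, ENNReal.ofReal_one]
  · exact (continuous_abs.integrableOn_Icc)
  · exact Filter.Eventually.of_forall (fun x => abs_nonneg x)

/-- The mean of `|⟨n, v⟩|` is `‖v‖ / 2`. -/
lemma mean_abs (hSPH : Stmt_SPH) (v : E3) :
    ∫⁻ n, ENNReal.ofReal |inner ℝ n v| ∂sph = ENNReal.ofReal (‖v‖ / 2) := by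
  obtain ⟨R, hR⟩ := exists_isometry v (‖v‖ • nz) (by rw [norm_smul, norm_nz]; simp)
  have h1 : ∫⁻ n, ENNReal.ofReal |inner ℝ n v| ∂sph
      = ∫⁻ n, (fun m : E3 => ENNReal.ofReal (‖v‖ * |m 2|)) (R n) ∂sph := by
    apply lintegral_congr
    intro n
    simp only
    congr 1
    rw [← LinearIsometryEquiv.inner_map_map R n v, hR, inner_smul_right, abs_mul,
      abs_of_nonneg (norm_nonneg v)]
    congr 2
    simp [nz, PiLp.inner_apply, Fin.sum_univ_three]
  have hm2 : Measurable (fun m : E3 => ENNReal.ofReal (‖v‖ * |m 2|)) := by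
    have := measurable_coord3 2
    fun_prop
  rw [h1, lintegral_isometry hSPH R _ hm2, lintegral_sph _ hm2]
  have h2 : ∀ φ z : ℝ, (P !₂[φ, z]) 2 = z := by
    intro φ z
    simp [P]
  simp only [h2]
  have h3 : ∫⁻ z in Icc (-1 : ℝ) 1, ENNReal.ofReal (‖v‖ * |z|) = ENNReal.ofReal ‖v‖ := by
    have : ∀ z : ℝ, ENNReal.ofReal (‖v‖ * |z|) = ENNReal.ofReal ‖v‖ * ENNReal.ofReal |z| :=
      fun z => ENNReal.ofReal_mul (norm_nonneg v)
    simp only [this]
    rw [lintegral_const_mul _ (by fun_prop), lintegral_abs_Icc, mul_one]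
  simp only [h3, lintegral_const, Measure.restrict_apply MeasurableSet.univ, univ_inter,
    Real.volume_Ioc]
  rw [← ENNReal.ofReal_mul (norm_nonneg v), ← ENNReal.ofReal_mul (by positivity)]
  congr 1
  have := Real.pi_pos
  field_simp
  ring

lemma measurableSet_side : MeasurableSet {q : (E3 × ℝ) × E3 | side q.1 q.2} := by
  unfold side
  apply measurableSet_le
  · fun_prop
  · exact (continuous_fst.fst.inner continuous_snd).measurable

end PLN

open PLN CHORD Lib in
theorem PLN_proof (hSPH : Stmt_SPH) : Stmt_PLN := by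
  have hp : IsProbabilityMeasure sph := hSPH.1
  have hq : IsProbabilityMeasure
      (ENNReal.ofReal (1 / 2) • (volume : Measure ℝ).restrict (Icc (-1 : ℝ) 1)) := by
    constructor
    rw [Measure.smul_apply, Measure.restrict_apply MeasurableSet.univ, univ_inter,
      Real.volume_Icc, smul_eq_mul, ← ENNReal.ofReal_mul (by norm_num)]
    norm_num
  have hpln : IsProbabilityMeasure pln := by
    unfold pln; infer_instance
  refine ⟨hpln, measurableSet_side, ?_⟩
  intro x y hx hy
  have hmx : MeasurableSet {t : E3 × ℝ | side t x} :=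
    (measurable_id.prodMk measurable_const) measurableSet_side
  have hmy : MeasurableSet {t : E3 × ℝ | side t y} :=
    (measurable_id.prodMk measurable_const) measurableSet_side
  have hms : MeasurableSet {t : E3 × ℝ | side t x ↔ side t y} := by
    have : {t : E3 × ℝ | side t x ↔ side t y}
        = ({t | side t x} ∩ {t | side t y}) ∪ ({t | side t x}ᶜ ∩ {t | side t y}ᶜ) := by
      ext t
      simp only [mem_ofPred_eq, mem_union, mem_inter_iff, mem_compl_iff]
      tauto
    rw [this]
    exact (hmx.inter hmy).union (hmx.compl.inter hmy.compl)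
  have hc : pln {t : E3 × ℝ | side t x ↔ side t y}ᶜ = ENNReal.ofReal (‖x - y‖ / 4) := by
    unfold pln
    rw [Measure.prod_apply hms.compl]
    have h1 : ∀ᵐ n ∂sph, (ENNReal.ofReal (1 / 2) • (volume : Measure ℝ).restrict
        (Icc (-1 : ℝ) 1)) (Prod.mk n ⁻¹' {t : E3 × ℝ | side t x ↔ side t y}ᶜ)
        = ENNReal.ofReal (1 / 2) * ENNReal.ofReal |inner ℝ n (x - y)| := by
      filter_upwards [hSPH.2.1] with n hn
      have ha : |inner ℝ n x| ≤ 1 := by
        have := abs_real_inner_le_norm n x
        rwa [hn, hx, mul_one] at this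
      have hb : |inner ℝ n y| ≤ 1 := by
        have := abs_real_inner_le_norm n y
        rwa [hn, hy, mul_one] at this
      have hset : Prod.mk n ⁻¹' {t : E3 × ℝ | side t x ↔ side t y}ᶜ ∩ Icc (-1) 1
          = Ioc (min (inner ℝ n x) (inner ℝ n y)) (max (inner ℝ n x) (inner ℝ n y)) := by
        ext t
        simp only [mem_inter_iff, mem_preimage, mem_compl_iff, mem_ofPred_eq, side, mem_Icc,
          mem_Ioc, min_lt_iff, le_max_iff]
        rw [abs_le] at ha hb
        constructor
        · rintro ⟨h1, -, -⟩
          by_cases h2 : t ≤ inner ℝ n x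
          · have h3 : ¬ t ≤ inner ℝ n y := fun h => h1 ⟨fun _ => h, fun _ => h2⟩
            exact ⟨Or.inr (not_le.1 h3), Or.inl h2⟩
          · have h3 : t ≤ inner ℝ n y := by
              by_contra h
              exact h1 ⟨fun h' => absurd h' h2, fun h' => absurd h' h⟩
            exact ⟨Or.inl (not_le.1 h2), Or.inr h3⟩
        · rintro ⟨h1, h2⟩
          refine ⟨?_, ?_, ?_⟩
          · intro h
            rcases h1 with h1 | h1
            · rcases h2 with h2 | h2
              · exact absurd h1 (not_lt.2 h2)
              · exact absurd h1 (not_lt.2 (h.2 h2))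
            · rcases h2 with h2 | h2
              · exact absurd h1 (not_lt.2 (h.1 h2))
              · exact absurd h1 (not_lt.2 h2)
          · rcases h1 with h1 | h1 <;> linarith [ha.1, hb.1]
          · rcases h2 with h2 | h2 <;> linarith [ha.2, hb.2]
      have hmn : MeasurableSet (Prod.mk n ⁻¹' {t : E3 × ℝ | side t x ↔ side t y}ᶜ) :=
        measurable_prodMk_left hms.compl
      rw [Measure.smul_apply, Measure.restrict_apply hmn, hset, Real.volume_Ioc, smul_eq_mul,
        max_sub_min_eq_abs, inner_sub_right, abs_sub_comm]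
    rw [lintegral_congr_ae h1, lintegral_const_mul _ (by
      have : Measurable (fun n : E3 => inner ℝ n (x - y)) :=
        (continuous_id.inner continuous_const).measurable
      fun_prop), mean_abs hSPH, ← ENNReal.ofReal_mul (by norm_num)]
    congr 1
    ring
  have h2 := prob_compl_eq_one_sub (μ := pln) hms.compl
  rw [compl_compl] at h2
  rw [h2, hc, ENNReal.ofReal_sub _ (by positivity), ENNReal.ofReal_one]

end Pool.KS
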