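import Pool.Agent.KS.Defs

/-! Squad KS (MP_6f8d6f_an): statements of the modules.  Proofs:
`/team-store/MP_6f8d6f_PROOF.md`. -/

open MeasureTheory Set Filter Topology
open scoped ENNReal

namespace Pool.KS

/-! ## Sphere measure -/

/-- SPH: `sph` is a probability measure carried by the unit sphere and invariant under
linear isometries. -/
def Stmt_SPH : Prop :=
  IsProbabilityMeasure sph ∧ (∀ᵐ x ∂sph, ‖x‖ = 1) ∧
    ∀ R : E3 ≃ₗᵢ[ℝ] E3, Measure.map R sph = sph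

/-- CHORD: law of the chord length. -/
def Stmt_CHORD : Prop :=
  ∀ x : E3, ‖x‖ = 1 → ∀ g : ℝ → ℝ≥0∞, Measurable g →
    ∫⁻ y, g ‖x - y‖ ∂sph = ∫⁻ r in Icc (0 : ℝ) 2, g r * ENNReal.ofReal (r / 2)

/-- HAAR: a random linear isometry that makes every unit vector uniform. -/
def Stmt_HAAR : Prop :=
  ∃ (G : Type) (_ : MeasurableSpace G) (μ : Measure G) (act : G → E3 ≃ₗᵢ[ℝ] E3),
    IsProbabilityMeasure μ ∧ Measurable (fun p : G × E3 => act p.1 p.2) ∧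
      ∀ x : E3, ‖x‖ = 1 → Measure.map (fun g => act g x) μ = sph

/-- PINV: `pinv` inverts `P`. -/
def Stmt_PINV : Prop :=
  Measurable P ∧ Measurable pinv ∧ (∀ x : E3, ‖x‖ = 1 → P (pinv x) = x) ∧
    (∀ u ∈ box, |u 1| < 1 → pinv (P u) = u) ∧
    (∀ x : E3, ‖x‖ = 1 → ‖x - e0‖ ≤ 1 / 10 → ‖pinv x‖ ≤ 2 * ‖x - e0‖)

/-- ISO: near-isometry on small balls. -/
def Stmt_ISO : Prop :=
  ∀ ε : ℝ, 0 < ε → ∃ δ : ℝ, 0 < δ ∧ δ ≤ 1 / 10 ∧ NearIso ε δ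

/-! ## Random planes -/

/-- PLN: two unit vectors are on the same side of a random plane with probability
`1 - ‖x-y‖/4`. -/
def Stmt_PLN : Prop :=
  IsProbabilityMeasure pln ∧
    MeasurableSet {q : (E3 × ℝ) × E3 | side q.1 q.2} ∧
    ∀ x y : E3, ‖x‖ = 1 → ‖y‖ = 1 →
      pln {t | side t x ↔ side t y} = ENNReal.ofReal (1 - ‖x - y‖ / 4)

/-- PD: positive definiteness of the powers of `1 - ‖x-y‖/4` relative to `sph`. -/
def Stmt_PD : Prop :=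
  ∀ w : Finset E3, OnS w → ∀ i : ℕ,
    (w.card : ℝ) ^ 2 * ∫ r in (0 : ℝ)..2, (1 - r / 4) ^ i * (r / 2)
      ≤ ∑ x ∈ w, ∑ y ∈ w, (1 - ‖x - y‖ / 4) ^ i

/-- LB: truncated pair sums are controlled by the energy. -/
def Stmt_LB : Prop :=
  ∀ w : Finset E3, OnS w → ∀ K : ℕ,
    ∑ x ∈ w, ∑ y ∈ w, ‖x - y‖⁻¹ * (1 - ‖x - y‖ / 4) ^ K
      ≤ 2 * energy w - (w.card : ℝ) ^ 2 + 2 * (w.card : ℝ) ^ 2 / (K + 1) + w.card * K / 4

/-! ## Elementary properties of the minimal energy -/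

/-- FUN: monotonicity and bounds of `fE`. -/
def Stmt_FUN : Prop :=
  (∀ w : Finset E3, OnS w → Emin w.card ≤ energy w) ∧
    (∀ n : ℕ, ∀ η : ℝ, 0 < η → ∃ w : Finset E3, w.card = n ∧ OnS w ∧ energy w < Emin n + η) ∧
    (∀ n : ℕ, fE (n + 1) ≤ fE n) ∧
    (∀ n : ℕ, fE n ≤ fE (n + 1) + 4 * Real.sqrt (n + 1)) ∧
    (∀ n : ℕ, -(2 * (n * Real.sqrt n)) ≤ fE n ∧ fE n ≤ 0)

/-! ## Independent cells -/

/-- IND: superposition of independent random cell configurations with exactly uniform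
intensity. -/
def Stmt_IND : Prop :=
  ∀ (C : Type) (_ : Fintype C) (G : Type) (_ : MeasurableSpace G) (μ : Measure G) (N m : ℕ)
    (cell : C → Set E3) (x : C → Fin m → G → E3) (A : ℝ) (B : ℝ),
    IsProbabilityMeasure μ → 1 ≤ N →
    (∀ c, MeasurableSet (cell c)) →
    (∀ c c', c ≠ c' → Disjoint (cell c) (cell c')) →
    (∀ c, ∀ y ∈ cell c, ‖y‖ = 1) →
    sph (⋃ c, cell c) = 1 →
    (∀ c i, Measurable (x c i)) →
    (∀ c g i j, i ≠ j → x c i g ∈ cell c → x c j g ∈ cell c → x c i g ≠ x c j g) →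
    (∀ c, ∀ h : E3 → ℝ≥0∞, Measurable h →
      ∑ i, ∫⁻ g, (cell c).indicator h (x c i g) ∂μ = N * ∫⁻ y in cell c, h y ∂sph) →
    0 ≤ A →
    (∑ c, ∑ i, ∑ j ∈ Finset.univ.erase i, ∫⁻ g,
        (cell c).indicator 1 (x c i g) * (cell c).indicator 1 (x c j g)
          * ENNReal.ofReal (‖x c i g - x c j g‖⁻¹) ∂μ ≤ ENNReal.ofReal A) →
    ENNReal.ofReal B ≤ ∑ c, ∫⁻ y in cell c, ∫⁻ z in cell c, ENNReal.ofReal (‖y - z‖⁻¹) ∂sph ∂sph →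
    fE N ≤ A / 2 - (N : ℝ) ^ 2 / 2 * B + 8 * m * N

/-! ## Tiling bound -/

/-- TILE: upper bound of `fE` from a planar source. -/
def Stmt_TILE : Prop :=
  ∀ ε δ : ℝ, 0 < ε → ε ≤ 1 / 2 → 0 < δ → δ ≤ 1 / 10 → NearIso ε δ →
    ∀ (lam rho : ℝ) (m : ℕ) (S : ℕ → ℝ → ℝ), 0 < lam → 0 < rho →
      (∀ K s, 0 < s → 0 ≤ S K s) → IsSource lam rho m S →
      ∀ (N K : ℕ) (a : ℝ), 1 ≤ N → 1 ≤ K → 0 < a →
        4 * a < Real.sqrt (4 * Real.pi * lam / N) * rho →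
        Real.sqrt (4 * Real.pi * lam / N) * rho ≤ δ →
        fE N ≤ N / 2 * S K ((1 - ε) * Real.sqrt (4 * Real.pi * lam / N))
          - (N : ℝ) ^ 2 / (K + 1) * (1 - (1 / 2) ^ (K + 1))
          + 12 * (N : ℝ) ^ 2 / (a * (K + 1) ^ 2) + 8 * m * N

/-! ## Sources -/

/-- SRCW: the source made of a finite subset of the sphere, randomly rotated. -/
def Stmt_SRCW : Prop :=
  ∀ ε δ : ℝ, 0 < ε → ε ≤ 1 / 2 → 0 < δ → δ ≤ 1 / 10 → NearIso ε δ →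
    ∀ w : Finset E3, OnS w → 2 ≤ w.card → ∀ rho : ℝ, 0 < rho → rho ≤ δ →
      IsSource (w.card / (4 * Real.pi)) rho w.card
        (fun K s => (1 / (w.card : ℝ)) * ∑ x ∈ w, ∑ y ∈ w,
          if x ≠ y ∧ ‖x - y‖ ≤ 4 * rho then FK K s (‖x - y‖ / (1 + ε)) else 0)

/-- SRCL: the source made of the randomly shifted hexagonal lattice. -/
def Stmt_SRCL : Prop :=
  (∀ ν : ℝ, 0 < ν → Summable (fun p : ℤ × ℤ =>
      if p = 0 then 0 else Real.exp (-(ν * hexn p)) / hexn p)) ∧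
  ∀ rho : ℝ, 0 < rho → ∃ m : ℕ, IsSource 1 rho m (fun K s => 1 / s * Theta (K * s / 4))

/-! ## The hexagonal constant -/

/-- HEXA: theta function of the hexagonal lattice near `0` and near infinity. -/
def Stmt_HEXA : Prop :=
  ∃ c : ℝ, (∀ t : ℝ, 0 < t → Summable (fun p : ℤ × ℤ =>
      Real.exp (-(t * ((p.1 : ℝ) ^ 2 + p.1 * p.2 + (p.2 : ℝ) ^ 2))))) ∧
    (∀ t : ℝ, 0 < t → t ≤ 1 →
      |(∑' p : ℤ × ℤ, Real.exp (-(t * ((p.1 : ℝ) ^ 2 + p.1 * p.2 + (p.2 : ℝ) ^ 2))))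
        - 2 * Real.pi / (Real.sqrt 3 * t)| ≤ c) ∧
    (∀ t : ℝ, 1 ≤ t →
      |(∑' p : ℤ × ℤ, Real.exp (-(t * ((p.1 : ℝ) ^ 2 + p.1 * p.2 + (p.2 : ℝ) ^ 2)))) - 1|
        ≤ c * Real.exp (-t / 2))

/-- HEXB: the Epstein zeta function of the hexagonal lattice for real `s > 1`. -/
def Stmt_HEXB : Prop :=
  ∀ s : ℝ, 1 < s →
    Summable (fun p : ℤ × ℤ =>
      if p = 0 then (0 : ℝ) else ((p.1 : ℝ) ^ 2 + p.1 * p.2 + (p.2 : ℝ) ^ 2) ^ (-s)) ∧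
    ((∑' p : ℤ × ℤ,
      if p = 0 then (0 : ℝ) else ((p.1 : ℝ) ^ 2 + p.1 * p.2 + (p.2 : ℝ) ^ 2) ^ (-s) : ℝ) : ℂ)
      = 6 * riemannZeta s * (3 : ℂ) ^ (-(s : ℂ)) * hz s

/-- HEXC: the limit of the Yukawa sums. -/
def Stmt_HEXC : Prop :=
  Tendsto (fun ν : ℝ => Theta ν - 2 * Real.pi / ν) (𝓝[>] 0)
    (𝓝 (4 * Real.sqrt Real.pi * CKS))

/-! ## Limits -/

/-- LOW: explicit lower bound. -/
def Stmt_LOW : Prop :=
  ∀ η : ℝ, 0 < η → ∀ᶠ N : ℕ in atTop, (-(Real.sqrt 2 / 2) - η) * (N * Real.sqrt N) ≤ fE N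

/-- LIMA: existence of the limit. -/
def Stmt_LIMA : Prop :=
  ∃ L : ℝ, Tendsto (fun N : ℕ => fE N / (N * Real.sqrt N)) atTop (𝓝 L)

/-- LIMB: asymptotic upper bound by the Kuijlaars-Saff constant. -/
def Stmt_LIMB : Prop :=
  ∀ η : ℝ, 0 < η → ∀ᶠ N : ℕ in atTop, fE N ≤ (CKS + η) * (N * Real.sqrt N)

end Pool.KS
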