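import Pool.Agent.KS.TileE

/-! Squad KS: module TILE. -/

open MeasureTheory Set Filter Topology
open scoped ENNReal

namespace Pool.KS

namespace TILE

theorem shm_ae {a : ℝ} (ha : 0 < a) : ∀ᵐ s ∂(shm a), ∀ i, 0 ≤ s i ∧ s i < a := by
  have : Fact (0 < a) := ⟨ha⟩
  rw [ae_all_iff]
  intro i
  have hmp := measurePreserving_eval
    (fun _ : Fin 3 => (ENNReal.ofReal a)⁻¹ • (volume.restrict (Ico (0 : ℝ) a))) i
  have h1 : ∀ᵐ x ∂((ENNReal.ofReal a)⁻¹ • (volume.restrict (Ico (0 : ℝ) a))), 0 ≤ x ∧ x < a := by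
    refine Measure.ae_smul_measure ?_ _
    exact ae_restrict_mem measurableSet_Ico
  exact hmp.quasiMeasurePreserving.ae h1

theorem ind_eq (a : ℝ) {B : ℕ} (z : Zt B) (s : Fin 3 → ℝ) (y : E3) :
    (cube a s z).indicator (1 : E3 → ℝ≥0∞) y =
      {p : (Fin 3 → ℝ) × E3 | p.2 ∈ cube a p.1 z}.indicator 1 (s, y) := by
  by_cases h : y ∈ cube a s z
  · rw [indicator_of_mem h, indicator_of_mem (show (s, y) ∈ {p : (Fin 3 → ℝ) × E3 | p.2 ∈ cube a p.1 z} from h)]
    rfl
  · rw [indicator_of_notMem h, indicator_of_notMem (fun h' : (s, y) ∈ {p : (Fin 3 → ℝ) × E3 | p.2 ∈ cube a p.1 z} => h h')]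

theorem ind_meas (a : ℝ) {B : ℕ} (z : Zt B) {Ω : Type*} [MeasurableSpace Ω] {f : Ω → Fin 3 → ℝ}
    {g : Ω → E3} (hf : Measurable f) (hg : Measurable g) :
    Measurable fun w => (cube a (f w) z).indicator (1 : E3 → ℝ≥0∞) (g w) := by
  simp only [ind_eq]
  exact ((measurable_one (α := ℝ≥0∞)).indicator (meas_cube_joint a z)).comp (hf.prodMk hg)

theorem shift_avg (hS : Stmt_SPH) {a : ℝ} (ha : 0 < a) {B : ℕ} (hB : 1 / a + 2 ≤ B) {k : E3 × E3 → ℝ≥0∞}
    (hk : Measurable k) :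
    ∫⁻ q : E3 × E3, ENNReal.ofReal (1 - 3 * ‖q.1 - q.2‖ / a) * k q ∂(sph.prod sph) ≤
      ∫⁻ s, ∑ z : Zt B, ∫⁻ q : E3 × E3, (cube a s z).indicator (1 : E3 → ℝ≥0∞) q.1 *
        (cube a s z).indicator 1 q.2 * k q ∂(sph.prod sph) ∂(shm a) := by
  have := hS.1
  have : Fact (0 < a) := ⟨ha⟩
  have mz : ∀ (z : Zt B), Measurable fun w : (Fin 3 → ℝ) × (E3 × E3) =>
      (cube a w.1 z).indicator (1 : E3 → ℝ≥0∞) w.2.1 * (cube a w.1 z).indicator 1 w.2.2 := by
    intro z
    have m1 : Measurable fun w : (Fin 3 → ℝ) × (E3 × E3) => w.2.1 :=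
      measurable_fst.comp measurable_snd
    have m2 : Measurable fun w : (Fin 3 → ℝ) × (E3 × E3) => w.2.2 :=
      measurable_snd.comp measurable_snd
    exact (ind_meas a z measurable_fst m1).mul (ind_meas a z measurable_fst m2)
  have e1 : ∀ s : Fin 3 → ℝ, ∑ z : Zt B, ∫⁻ q : E3 × E3, (cube a s z).indicator (1 : E3 → ℝ≥0∞) q.1 *
        (cube a s z).indicator 1 q.2 * k q ∂(sph.prod sph) =
      ∫⁻ q : E3 × E3, (∑ z : Zt B, (cube a s z).indicator (1 : E3 → ℝ≥0∞) q.1 *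
        (cube a s z).indicator 1 q.2) * k q ∂(sph.prod sph) := by
    intro s
    rw [← lintegral_finsetSum]
    · refine lintegral_congr fun q => ?_
      rw [Finset.sum_mul]
    · intro z _
      exact ((ind_meas a z measurable_const measurable_fst).mul
        (ind_meas a z measurable_const measurable_snd)).mul hk
  simp only [e1]
  have mj : Measurable fun w : (Fin 3 → ℝ) × (E3 × E3) =>
      (∑ z : Zt B, (cube a w.1 z).indicator (1 : E3 → ℝ≥0∞) w.2.1 *
        (cube a w.1 z).indicator 1 w.2.2) * k w.2 :=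
    (Finset.measurable_sum _ fun z _ => mz z).mul (hk.comp measurable_snd)
  rw [lintegral_lintegral_swap mj.aemeasurable]
  refine lintegral_mono_ae ?_
  have hun : ∀ᵐ q ∂(sph.prod sph), ‖q.1‖ = 1 ∧ ‖q.2‖ = 1 := by
    have h1 := hS.2.1
    have a1 : ∀ᵐ q ∂(sph.prod sph), ‖q.1‖ = 1 := Measure.quasiMeasurePreserving_fst.ae h1
    have a2 : ∀ᵐ q ∂(sph.prod sph), ‖q.2‖ = 1 := Measure.quasiMeasurePreserving_snd.ae h1
    filter_upwards [a1, a2] with q h1 h2 using ⟨h1, h2⟩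
  filter_upwards [hun] with q hq
  have m2 : Measurable fun s : Fin 3 → ℝ => ∑ z : Zt B, (cube a s z).indicator (1 : E3 → ℝ≥0∞) q.1 *
        (cube a s z).indicator 1 q.2 :=
    Finset.measurable_sum _ fun z _ => (ind_meas a z measurable_id measurable_const).mul
      (ind_meas a z measurable_id measurable_const)
  rw [lintegral_mul_const _ m2]
  gcongr
  refine (shm_sep ha q.1 q.2).trans ?_
  have ms : MeasurableSet {s : Fin 3 → ℝ | ∀ i, ⌊(q.1 i - s i) / a⌋ = ⌊(q.2 i - s i) / a⌋} := by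
    rw [Set.ofPred_forall]
    refine MeasurableSet.iInter fun i => ?_
    have mm : ∀ c : ℝ, Measurable fun s : Fin 3 → ℝ => ⌊(c - s i) / a⌋ := by
      intro c
      have m1 : Measurable fun s : Fin 3 → ℝ => (c - s i) / a := by fun_prop
      exact Int.measurable_floor.comp m1
    exact measurableSet_eq_fun (mm _) (mm _)
  rw [← lintegral_indicator_one ms]
  refine lintegral_mono_ae ?_
  filter_upwards [shm_ae ha] with s hs
  by_cases h : s ∈ {s : Fin 3 → ℝ | ∀ i, ⌊(q.1 i - s i) / a⌋ = ⌊(q.2 i - s i) / a⌋}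
  · rw [indicator_of_mem h]
    obtain ⟨z, hz⟩ := exists_cube ha hB hs hq.1
    have hz2 : q.2 ∈ cube a s z := ⟨hq.2, fun i => (h i).symm.trans (hz.2 i)⟩
    refine le_trans ?_ (Finset.single_le_sum (f := fun z : Zt B =>
      (cube a s z).indicator (1 : E3 → ℝ≥0∞) q.1 * (cube a s z).indicator 1 q.2)
      (fun _ _ => zero_le) (Finset.mem_univ z))
    rw [indicator_of_mem hz, indicator_of_mem hz2]
    simp
  · rw [indicator_of_notMem h]
    exact zero_le

theorem real_int {a : ℝ} (ha : 0 < a) (K : ℕ) :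
    2 / (K + 1) * (1 - (1 / 2) ^ (K + 1)) - 24 / (a * (K + 1) ^ 2) ≤
      ∫ r in (0 : ℝ)..2, 1 / 2 * (1 - 3 * r / a) * (1 - r / 4) ^ K := by
  have hd : ∀ r : ℝ, HasDerivAt (fun r : ℝ => -2 * ((1 - 12 / a) * (1 - r / 4) ^ (K + 1) / (K + 1) +
      12 / a * (1 - r / 4) ^ (K + 2) / (K + 2))) (1 / 2 * (1 - 3 * r / a) * (1 - r / 4) ^ K) r := by
    intro r
    have h1 : HasDerivAt (fun r : ℝ => 1 - r / 4) (-(1 / 4)) r := by
      have := ((hasDerivAt_id r).div_const 4).const_sub 1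
      simpa using this
    have h2 := (h1.pow (K + 1)).const_mul ((1 - 12 / a) / (K + 1))
    have h3 := (h1.pow (K + 2)).const_mul (12 / a / (K + 2))
    have h4 := (h2.add h3).const_mul (-2)
    refine (h4.congr_deriv ?_).congr_of_eventuallyEq (Eventually.of_forall fun x => ?_)
    · push_cast
      have e1 : (K : ℝ) + 1 ≠ 0 := by positivity
      have e2 : (K : ℝ) + 2 ≠ 0 := by positivity
      rw [pow_succ]
      field_simp
      ring
    · simp only [Pi.pow_apply, Pi.add_apply]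
      ring
  rw [intervalIntegral.integral_eq_sub_of_hasDerivAt (fun r _ => hd r)
    (Continuous.intervalIntegrable (by fun_prop) _ _)]
  set p : ℝ := (1 / 2) ^ (K + 1) with hp
  have hp0 : 0 < p := by positivity
  have h5 : (1 - (2 : ℝ) / 4) ^ (K + 1) = p := by rw [hp]; norm_num
  have h6 : (1 - (2 : ℝ) / 4) ^ (K + 2) = p / 2 := by
    rw [hp, pow_succ (1 - (2:ℝ)/4) (K + 1)]; norm_num; ring
  rw [h5, h6]
  simp only [zero_div, sub_zero, one_pow, mul_one]
  have hK1 : (0 : ℝ) < K + 1 := by positivity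
  have hK2 : (0 : ℝ) < K + 2 := by positivity
  have key : (1 - p) / (K + 1) - (1 - p / 2) / (K + 2) ≤ 1 / (K + 1) ^ 2 := by
    have h7 : (1 - p) / (K + 1) - (1 - p / 2) / (K + 2) =
        (1 - p * (K + 2) + p * (K + 1) / 2) / ((K + 1) * (K + 2)) := by
      field_simp
      ring
    rw [h7]
    calc (1 - p * (K + 2) + p * (K + 1) / 2) / ((K + 1) * (K + 2)) ≤ 1 / ((K + 1) * (K + 2)) := by
          gcongr
          nlinarith
      _ ≤ 1 / (K + 1) ^ 2 := by
          apply one_div_le_one_div_of_le (by positivity)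
          nlinarith
  have h8 : 24 / a * ((1 - p) / (K + 1) - (1 - p / 2) / (K + 2)) ≤ 24 / a * (1 / (K + 1) ^ 2) :=
    mul_le_mul_of_nonneg_left key (by positivity)
  have h9 : 24 / a * (1 / ((K : ℝ) + 1) ^ 2) = 24 / (a * (K + 1) ^ 2) := by
    field_simp
  rw [h9] at h8
  have h10 : -2 * ((1 - 12 / a) * p / (K + 1) + 12 / a * (p / 2) / (K + 2)) -
      -2 * ((1 - 12 / a) / (K + 1) + 12 / a / (K + 2)) =
      2 / (K + 1) * (1 - p) - 24 / a * ((1 - p) / (K + 1) - (1 - p / 2) / (K + 2)) := by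
    field_simp
    ring
  rw [h10]
  linarith

theorem chord_int (hS : Stmt_SPH) (hC : Stmt_CHORD) {a : ℝ} (ha : 0 < a) (K : ℕ) :
    ENNReal.ofReal (2 / (K + 1) * (1 - (1 / 2) ^ (K + 1)) - 24 / (a * (K + 1) ^ 2)) ≤
      ∫⁻ q : E3 × E3, ENNReal.ofReal (1 - 3 * ‖q.1 - q.2‖ / a) *
        (ENNReal.ofReal (1 - ‖q.1 - q.2‖ / 4) ^ K * ENNReal.ofReal (‖q.1 - q.2‖⁻¹)) ∂(sph.prod sph) := by
  have := hS.1
  let g : ℝ → ℝ≥0∞ := fun r => ENNReal.ofReal (1 - 3 * r / a) *
    (ENNReal.ofReal (1 - r / 4) ^ K * ENNReal.ofReal (r⁻¹))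
  have mg : Measurable g := by
    have m1 : Measurable fun r : ℝ => ENNReal.ofReal (1 - 3 * r / a) :=
      ENNReal.measurable_ofReal.comp (by fun_prop)
    have m2 : Measurable fun r : ℝ => ENNReal.ofReal (1 - r / 4) ^ K :=
      (ENNReal.measurable_ofReal.comp (by fun_prop)).pow_const K
    have m3 : Measurable fun r : ℝ => ENNReal.ofReal (r⁻¹) :=
      ENNReal.measurable_ofReal.comp measurable_inv
    exact m1.mul (m2.mul m3)
  have mq : Measurable fun q : E3 × E3 => g ‖q.1 - q.2‖ :=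
    mg.comp (measurable_fst.sub measurable_snd).norm
  have h1 : ∫⁻ q : E3 × E3, g ‖q.1 - q.2‖ ∂(sph.prod sph) =
      ∫⁻ r in Icc (0 : ℝ) 2, g r * ENNReal.ofReal (r / 2) := by
    rw [lintegral_prod _ mq.aemeasurable]
    have h2 : ∀ᵐ x ∂sph, ∫⁻ y, g ‖x - y‖ ∂sph = ∫⁻ r in Icc (0 : ℝ) 2, g r * ENNReal.ofReal (r / 2) := by
      filter_upwards [hS.2.1] with x hx using hC x hx g mg
    rw [lintegral_congr_ae h2, lintegral_const, measure_univ, mul_one]
  have h3 : ∫⁻ q : E3 × E3, ENNReal.ofReal (1 - 3 * ‖q.1 - q.2‖ / a) *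
        (ENNReal.ofReal (1 - ‖q.1 - q.2‖ / 4) ^ K * ENNReal.ofReal (‖q.1 - q.2‖⁻¹)) ∂(sph.prod sph) =
      ∫⁻ q : E3 × E3, g ‖q.1 - q.2‖ ∂(sph.prod sph) := rfl
  rw [h3, h1]
  set f : ℝ → ℝ := fun r => 1 / 2 * (1 - 3 * r / a) * (1 - r / 4) ^ K with hf
  have hfc : Continuous f := by
    simp only [hf]
    fun_prop
  have h4 : ∫⁻ r in Icc (0 : ℝ) 2, ENNReal.ofReal (f r) ≤ ∫⁻ r in Icc (0 : ℝ) 2, g r * ENNReal.ofReal (r / 2) := by
    refine lintegral_mono_ae ?_
    have h5 : ∀ᵐ r ∂(volume.restrict (Icc (0 : ℝ) 2)), r ≠ 0 := by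
      refine ae_restrict_of_ae ?_
      exact Measure.ae_ne volume 0
    filter_upwards [h5, ae_restrict_mem measurableSet_Icc] with r hr0 hr
    have hr1 : 0 < r := lt_of_le_of_ne hr.1 (Ne.symm hr0)
    have hr2 : r ≤ 2 := hr.2
    by_cases h6 : 0 ≤ 1 - 3 * r / a
    · have h7 : 0 ≤ 1 - r / 4 := by linarith
      simp only [g, hf]
      rw [← ENNReal.ofReal_pow h7, ← ENNReal.ofReal_mul (pow_nonneg h7 K), ← ENNReal.ofReal_mul h6,
        ← ENNReal.ofReal_mul (mul_nonneg h6 (mul_nonneg (pow_nonneg h7 K) (inv_nonneg.2 hr1.le)))]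
      apply ENNReal.ofReal_le_ofReal
      apply le_of_eq
      field_simp
    · have h8 : f r ≤ 0 := by
        simp only [hf]
        have h7 : 0 ≤ 1 - r / 4 := by linarith
        have := pow_nonneg h7 K
        push Not at h6
        nlinarith
      rw [ENNReal.ofReal_of_nonpos h8]
      exact zero_le
  refine le_trans ?_ h4
  have h5 : ∫⁻ r in Icc (0 : ℝ) 2, ENNReal.ofReal (f r) = ENNReal.ofReal (∫ r in Icc (0 : ℝ) 2, max (f r) 0) := by
    rw [ofReal_integral_eq_lintegral_ofReal]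
    · refine lintegral_congr fun r => ?_
      rw [ENNReal.ofReal_max, ENNReal.ofReal_zero, max_eq_left (zero_le)]
    · exact (hfc.max continuous_const).integrableOn_Icc
    · exact Eventually.of_forall fun r => le_max_right _ _
  rw [h5]
  apply ENNReal.ofReal_le_ofReal
  refine (real_int ha K).trans ?_
  rw [intervalIntegral.integral_of_le (by norm_num), ← integral_Icc_eq_integral_Ioc]
  refine setIntegral_mono hfc.integrableOn_Icc (hfc.max continuous_const).integrableOn_Icc ?_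
  intro r
  exact le_max_left _ _

end TILE

open TILE in
theorem tile_proof (hS : Stmt_SPH) (hC : Stmt_CHORD) (hI : Stmt_PINV) (hL : Stmt_PLN)
    (hF : Stmt_FUN) (hInd : Stmt_IND) : Stmt_TILE := by
  intro ε δ hε0 hε hδ0 hδ hiso lam rho m S hlam hrho hS0 hsrc N K a hN hK ha h4a hcr
  have : Fact (0 < a) := ⟨ha⟩
  set c := Real.sqrt (4 * Real.pi * lam / N) with hc
  obtain ⟨B, hB⟩ := exists_nat_ge (1 / a + 2)
  have hf0 : fE N ≤ 0 := (hF.2.2.2.2 N).2
  have hf : fE N ≤ 8 * m * N := hf0.trans (by positivity)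
  have hkm : Measurable fun q : E3 × E3 => ENNReal.ofReal (1 - ‖q.1 - q.2‖ / 4) ^ K *
      ENNReal.ofReal (‖q.1 - q.2‖⁻¹) := by
    refine Measurable.mul ?_ inv_meas
    refine (ENNReal.measurable_ofReal.comp ?_).pow_const K
    exact measurable_const.sub ((measurable_fst.sub measurable_snd).norm.div_const 4)
  have h1 := (chord_int hS hC ha K).trans (shift_avg hS ha hB hkm)
  have h2 : ENNReal.ofReal ((N : ℝ) ^ 2 / 2) * ∫⁻ s, ∑ z : Zt B, ∫⁻ q : E3 × E3,
      (cube a s z).indicator (1 : E3 → ℝ≥0∞) q.1 * (cube a s z).indicator 1 q.2 *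
        (ENNReal.ofReal (1 - ‖q.1 - q.2‖ / 4) ^ K * ENNReal.ofReal (‖q.1 - q.2‖⁻¹))
          ∂(sph.prod sph) ∂(shm a) ≤
      ENNReal.ofReal (N / 2 * S K ((1 - ε) * c)) + ENNReal.ofReal (8 * m * N - fE N) := by
    rw [← lintegral_const_mul' _ _ ENNReal.ofReal_ne_top]
    refine le_trans (lintegral_mono_ae (g := fun _ => ENNReal.ofReal (N / 2 * S K ((1 - ε) * c)) +
      ENNReal.ofReal (8 * m * N - fE N)) ?_) ?_
    · filter_upwards [shm_ae ha] with s hs
      have := fixed_shift hS hI hL hInd hε hδ hiso hlam hS0 hsrc hN hK ha hc h4a hcr hf hB hs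
      simp only [mul_assoc] at this ⊢
      exact this
    · rw [lintegral_const, measure_univ, mul_one]
  have h3 := (mul_le_mul_right h1 (ENNReal.ofReal ((N : ℝ) ^ 2 / 2))).trans h2
  have hs0 : 0 < (1 - ε) * c := by
    have : 0 < 1 - ε := by linarith
    have hN' : (0 : ℝ) < N := by exact_mod_cast hN
    have : 0 < c := by rw [hc]; positivity
    positivity
  have hSK := hS0 K _ hs0
  rw [← ENNReal.ofReal_mul (by positivity), ← ENNReal.ofReal_add (by positivity) (by linarith),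
    ENNReal.ofReal_le_ofReal_iff (by
      have : 0 ≤ (N : ℝ) / 2 * S K ((1 - ε) * c) := by positivity
      linarith)] at h3
  have h4 : (N : ℝ) ^ 2 / 2 * (2 / (K + 1) * (1 - (1 / 2) ^ (K + 1)) - 24 / (a * (K + 1) ^ 2)) =
      (N : ℝ) ^ 2 / (K + 1) * (1 - (1 / 2) ^ (K + 1)) - 12 * (N : ℝ) ^ 2 / (a * (K + 1) ^ 2) := by
    field_simp
    ring
  rw [h4] at h3
  linarith

end Pool.KS
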