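import Pool.Agent.KS.Stmts

/-! Squad KS: module TILE, part A: shifts and planes. -/

open MeasureTheory Set Filter Topology
open scoped ENNReal

namespace Pool.KS

namespace TILE

/-- A random shift of the lattice `a ℤ` separates `u` and `v` with small probability. -/
theorem floor_sep {a : ℝ} (ha : 0 < a) (u v : ℝ) :
    volume {s ∈ Ico (0 : ℝ) a | ⌊(u - s) / a⌋ ≠ ⌊(v - s) / a⌋} ≤ ENNReal.ofReal |u - v| := by
  wlog huv : u ≤ v generalizing u v
  · have := this v u (le_of_not_ge huv)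
    rw [abs_sub_comm]
    refine le_trans (le_of_eq ?_) this
    congr 1
    ext s
    simp only [mem_setOf_eq, ne_eq, and_congr_right_iff]
    intro _
    exact ⟨fun h h' => h h'.symm, fun h h' => h h'.symm⟩
  have habs : |u - v| = v - u := by
    rw [abs_sub_comm]; exact abs_of_nonneg (sub_nonneg.2 huv)
  rw [habs]
  by_cases hva : a ≤ v - u
  · calc volume {s ∈ Ico (0 : ℝ) a | ⌊(u - s) / a⌋ ≠ ⌊(v - s) / a⌋} ≤ volume (Ico (0 : ℝ) a) :=
          measure_mono fun s hs => hs.1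
      _ = ENNReal.ofReal a := by rw [Real.volume_Ico, sub_zero]
      _ ≤ ENNReal.ofReal (v - u) := ENNReal.ofReal_le_ofReal hva
  push Not at hva
  set n := ⌊u / a⌋ with hn
  have h1 : (n : ℝ) * a ≤ u := by
    have := Int.floor_le (u / a)
    rw [le_div_iff₀ ha] at this
    exact this
  have h2 : u < (n + 1) * a := by
    have := Int.lt_floor_add_one (u / a)
    rw [div_lt_iff₀ ha] at this
    exact this
  have hsub : {s ∈ Ico (0 : ℝ) a | ⌊(u - s) / a⌋ ≠ ⌊(v - s) / a⌋} ⊆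
      Icc (u - n * a) (min (v - n * a) a) ∪ Icc 0 (v - n * a - a) := by
    rintro s ⟨⟨hs0, hsa⟩, hne⟩
    have hle : ⌊(u - s) / a⌋ ≤ ⌊(v - s) / a⌋ := by
      apply Int.floor_le_floor
      gcongr
    have hlt : ⌊(u - s) / a⌋ < ⌊(v - s) / a⌋ := lt_of_le_of_ne hle hne
    set p := ⌊(v - s) / a⌋ with hp
    -- `u - s < p a ≤ v - s`
    have q1 : u - s < p * a := by
      have : (u - s) / a < p := Int.floor_lt.1 hlt
      rwa [div_lt_iff₀ ha] at this
    have q2 : (p : ℝ) * a ≤ v - s := by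
      have : (p : ℝ) ≤ (v - s) / a := Int.floor_le _
      rwa [le_div_iff₀ ha] at this
    -- `p = n` or `p = n + 1`
    have p1 : n ≤ p := by
      by_contra hcon
      push Not at hcon
      have : (p : ℝ) ≤ n - 1 := by exact_mod_cast Int.le_sub_one_of_lt hcon
      nlinarith
    have p2 : p ≤ n + 1 := by
      by_contra hcon
      push Not at hcon
      have : (n : ℝ) + 2 ≤ p := by
        have : n + 2 ≤ p := by omega
        exact_mod_cast this
      nlinarith
    rcases (show p = n ∨ p = n + 1 by omega) with h | h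
    · left
      rw [h] at q1 q2
      exact ⟨by linarith, le_min (by linarith) hsa.le⟩
    · right
      rw [h] at q1 q2
      push_cast at q1 q2
      exact ⟨hs0, by linarith⟩
  refine (measure_mono hsub).trans ((measure_union_le _ _).trans ?_)
  rw [Real.volume_Icc, Real.volume_Icc, sub_zero]
  by_cases h3 : v - n * a ≤ a
  · rw [min_eq_left h3, ENNReal.ofReal_of_nonpos (by linarith : v - n * a - a ≤ 0), add_zero]
    exact ENNReal.ofReal_le_ofReal (by linarith)
  · push Not at h3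
    rw [min_eq_right h3.le, ← ENNReal.ofReal_add (by linarith) (by linarith)]
    exact ENNReal.ofReal_le_ofReal (by linarith)

/-- The uniform measure on shifts. -/
noncomputable def shm (a : ℝ) : Measure (Fin 3 → ℝ) :=
  Measure.pi fun _ => (ENNReal.ofReal a)⁻¹ • volume.restrict (Ico (0 : ℝ) a)

instance shm1 (a : ℝ) [Fact (0 < a)] :
    IsProbabilityMeasure ((ENNReal.ofReal a)⁻¹ • (volume.restrict (Ico (0 : ℝ) a))) := by
  have ha : 0 < a := Fact.out
  refine ⟨?_⟩
  rw [Measure.smul_apply, Measure.restrict_apply MeasurableSet.univ, univ_inter, Real.volume_Ico,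
    sub_zero, smul_eq_mul]
  exact ENNReal.inv_mul_cancel (by simpa using ha) ENNReal.ofReal_ne_top

instance (a : ℝ) [Fact (0 < a)] : IsProbabilityMeasure (shm a) := by
  unfold shm; infer_instance

theorem shm_sep {a : ℝ} (ha : 0 < a) (x y : E3) :
    ENNReal.ofReal (1 - 3 * ‖x - y‖ / a) ≤
      shm a {s | ∀ i, ⌊(x i - s i) / a⌋ = ⌊(y i - s i) / a⌋} := by
  haveI : Fact (0 < a) := ⟨ha⟩
  have hmeas : ∀ i : Fin 3, MeasurableSet {s : ℝ | ⌊(x i - s) / a⌋ ≠ ⌊(y i - s) / a⌋} := by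
    intro i
    refine (measurableSet_eq_fun ?_ ?_).compl
    · exact Int.measurable_floor.comp ((measurable_const.sub measurable_id).div_const a)
    · exact Int.measurable_floor.comp ((measurable_const.sub measurable_id).div_const a)
  have hcompl : (univ : Set (Fin 3 → ℝ)) ⊆ {s | ∀ i, ⌊(x i - s i) / a⌋ = ⌊(y i - s i) / a⌋} ∪
      ⋃ i : Fin 3, (fun s : Fin 3 → ℝ => s i) ⁻¹' {s : ℝ | ⌊(x i - s) / a⌋ ≠ ⌊(y i - s) / a⌋} := by
    intro s _
    by_cases h : ∀ i, ⌊(x i - s i) / a⌋ = ⌊(y i - s i) / a⌋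
    · exact Or.inl h
    · push Not at h
      obtain ⟨i, hi⟩ := h
      exact Or.inr (mem_iUnion.2 ⟨i, hi⟩)
  have h1 : (1 : ℝ≥0∞) ≤ shm a {s | ∀ i, ⌊(x i - s i) / a⌋ = ⌊(y i - s i) / a⌋} +
      ∑ i : Fin 3, shm a ((fun s : Fin 3 → ℝ => s i) ⁻¹' {s : ℝ | ⌊(x i - s) / a⌋ ≠ ⌊(y i - s) / a⌋}) := by
    calc (1 : ℝ≥0∞) = shm a univ := measure_univ.symm
      _ ≤ _ := measure_mono hcompl
      _ ≤ _ := measure_union_le _ _
      _ ≤ _ := by
        gcongr
        exact measure_iUnion_fintype_le _ _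
  have h2 : ∀ i : Fin 3, shm a ((fun s : Fin 3 → ℝ => s i) ⁻¹' {s : ℝ | ⌊(x i - s) / a⌋ ≠ ⌊(y i - s) / a⌋})
      ≤ ENNReal.ofReal (‖x - y‖ / a) := by
    intro i
    have hmp := measurePreserving_eval
      (fun _ : Fin 3 => (ENNReal.ofReal a)⁻¹ • (volume.restrict (Ico (0 : ℝ) a))) i
    have := hmp.measure_preimage (hmeas i).nullMeasurableSet
    unfold shm
    have e : (fun s : Fin 3 → ℝ => s i) = Function.eval i := rfl
    rw [e, this, Measure.smul_apply, Measure.restrict_apply (hmeas i), smul_eq_mul]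
    have h3 : volume ({s : ℝ | ⌊(x i - s) / a⌋ ≠ ⌊(y i - s) / a⌋} ∩ Ico 0 a) ≤
        ENNReal.ofReal ‖x - y‖ := by
      refine le_trans (measure_mono ?_) ((floor_sep ha (x i) (y i)).trans ?_)
      · intro s hs; exact ⟨hs.2, hs.1⟩
      · apply ENNReal.ofReal_le_ofReal
        have := EuclideanSpace.norm_eq (x - y)
        have h4 := PiLp.norm_apply_le (x - y) i
        simpa using h4
    calc (ENNReal.ofReal a)⁻¹ * volume ({s : ℝ | ⌊(x i - s) / a⌋ ≠ ⌊(y i - s) / a⌋} ∩ Ico 0 a)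
        ≤ (ENNReal.ofReal a)⁻¹ * ENNReal.ofReal ‖x - y‖ := by gcongr
      _ = ENNReal.ofReal (‖x - y‖ / a) := by
        rw [ENNReal.ofReal_div_of_pos ha, mul_comm, div_eq_mul_inv]
  have h3 : (1 : ℝ≥0∞) ≤ shm a {s | ∀ i, ⌊(x i - s i) / a⌋ = ⌊(y i - s i) / a⌋} +
      ENNReal.ofReal (3 * ‖x - y‖ / a) := by
    refine h1.trans ?_
    gcongr
    calc ∑ i : Fin 3, _ ≤ ∑ _i : Fin 3, ENNReal.ofReal (‖x - y‖ / a) := Finset.sum_le_sum fun i _ => h2 i
      _ = ENNReal.ofReal (3 * ‖x - y‖ / a) := by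
        rw [Finset.sum_const, Finset.card_univ, Fintype.card_fin, nsmul_eq_mul, mul_div_assoc,
          ENNReal.ofReal_mul (by norm_num)]
        norm_num
  calc ENNReal.ofReal (1 - 3 * ‖x - y‖ / a) = 1 - ENNReal.ofReal (3 * ‖x - y‖ / a) := by
        rw [ENNReal.ofReal_sub _ (by positivity), ENNReal.ofReal_one]
    _ ≤ _ := tsub_le_iff_right.2 h3

/-- `K` independent random planes. -/
noncomputable def plns (K : ℕ) : Measure (Fin K → E3 × ℝ) := Measure.pi fun _ => pln

theorem plns_same (h : Stmt_PLN) (K : ℕ) {x y : E3} (hx : ‖x‖ = 1) (hy : ‖y‖ = 1) :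
    plns K {t | ∀ k, side (t k) x ↔ side (t k) y} = ENNReal.ofReal (1 - ‖x - y‖ / 4) ^ K := by
  haveI := h.1
  have e : {t : Fin K → E3 × ℝ | ∀ k, side (t k) x ↔ side (t k) y} =
      Set.univ.pi fun _ : Fin K => {t : E3 × ℝ | side t x ↔ side t y} := by
    ext t; simp
  rw [e]
  unfold plns
  rw [Measure.pi_pi]
  simp [h.2.2 x y hx hy]

end TILE

end Pool.KS
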