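import Pool.Agent.KS.Stmts

/-! Squad KS: module TILE, part B: from the plane to the sphere. -/

open MeasureTheory Set Filter Topology
open scoped ENNReal

namespace Pool.KS

namespace TILE

theorem P_two (u : E2) : P u 2 = u 1 := by simp [P]

theorem pinv_one (x : E3) : pinv x 1 = x 2 := by simp [pinv]

theorem abs_le_norm2 (u : E2) (i : Fin 2) : |u i| ≤ ‖u‖ := by
  have := PiLp.norm_apply_le u i
  simpa using this

theorem ball_subset_box {r : ℝ} (hr : r ≤ 1 / 10) : Metric.ball (0 : E2) r ⊆ box := by
  intro u hu
  have h1 : ‖u‖ < r := by simpa using hu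
  have h2 := abs_le_norm2 u 0
  have h3 := abs_le_norm2 u 1
  have h4 := abs_le.1 (h2.trans (h1.le.trans hr))
  have h5 := abs_le.1 (h3.trans (h1.le.trans hr))
  have h6 := Real.pi_gt_three
  exact ⟨by linarith [h4.1], by linarith [h4.2], by linarith [h5.1], by linarith [h5.2]⟩

/-- scaling -/
theorem lintegral_ball_smul {F : E2 → ℝ≥0∞} (hF : Measurable F) {c rho : ℝ} (hc : 0 < c) :
    ∫⁻ u in Metric.ball (0 : E2) rho, F (c • u) =
      ENNReal.ofReal (c ^ 2)⁻¹ * ∫⁻ v in Metric.ball (0 : E2) (c * rho), F v := by
  have hb : MeasurableSet (Metric.ball (0 : E2) (c * rho)) := measurableSet_ball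
  have hb' : MeasurableSet (Metric.ball (0 : E2) rho) := measurableSet_ball
  have hmap := Measure.map_addHaar_smul (volume : Measure E2) hc.ne'
  have hfin : Module.finrank ℝ E2 = 2 := by simp [E2]
  rw [hfin] at hmap
  have h1 : ∫⁻ v, (Metric.ball (0 : E2) (c * rho)).indicator F v ∂(Measure.map (fun x : E2 => c • x) volume) =
      ∫⁻ u, (Metric.ball (0 : E2) (c * rho)).indicator F (c • u) := by
    rw [lintegral_map (hF.indicator hb) (measurable_const_smul c)]
  rw [← lintegral_indicator hb', ← lintegral_indicator hb]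
  have h2 : ∀ u : E2, (Metric.ball (0 : E2) (c * rho)).indicator F (c • u) =
      (Metric.ball (0 : E2) rho).indicator (fun u => F (c • u)) u := by
    intro u
    by_cases hu : u ∈ Metric.ball (0 : E2) rho
    · have : c • u ∈ Metric.ball (0 : E2) (c * rho) := by
        simp only [Metric.mem_ball, dist_zero_right, norm_smul, Real.norm_eq_abs, abs_of_pos hc] at hu ⊢
        exact mul_lt_mul_of_pos_left hu hc
      rw [indicator_of_mem this, indicator_of_mem hu]
    · have : c • u ∉ Metric.ball (0 : E2) (c * rho) := by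
        simp only [Metric.mem_ball, dist_zero_right, norm_smul, Real.norm_eq_abs, abs_of_pos hc] at hu ⊢
        intro h
        exact hu (lt_of_mul_lt_mul_left h hc.le)
      rw [indicator_of_notMem this, indicator_of_notMem hu]
  simp only [h2] at h1
  rw [← h1, hmap, lintegral_smul_measure, smul_eq_mul, abs_of_pos (by positivity)]

theorem lintegral_sph (hP : Measurable P) {φ : E3 → ℝ≥0∞} (hφ : Measurable φ) :
    ∫⁻ y, φ y ∂sph = ENNReal.ofReal (1 / (4 * Real.pi)) * ∫⁻ v in box, φ (P v) := by
  unfold sph
  rw [lintegral_smul_measure, lintegral_map hφ hP, smul_eq_mul]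

theorem isBox : MeasurableSet box := by
  unfold box
  have m0 : Measurable fun u : E2 => u 0 := by fun_prop
  have m1 : Measurable fun u : E2 => u 1 := by fun_prop
  exact (measurableSet_lt measurable_const m0).inter ((measurableSet_le m0 measurable_const).inter
    ((measurableSet_le measurable_const m1).inter (measurableSet_le m1 measurable_const)))

/-- The transfer of intensity from the plane to the sphere. -/
theorem transfer (hS : Stmt_SPH) (hI : Stmt_PINV) {r : ℝ} (hr : r ≤ 1 / 10) (R : E3 ≃ₗᵢ[ℝ] E3)
    {Q : Set E3} (hQ : MeasurableSet Q) (hQR : ∀ y ∈ Q, ‖y‖ = 1 ∧ ‖pinv (R y)‖ < r) {h : E3 → ℝ≥0∞}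
    (hh : Measurable h) :
    ∫⁻ v in Metric.ball (0 : E2) r, Q.indicator h (R.symm (P v)) =
      ENNReal.ofReal (4 * Real.pi) * ∫⁻ y in Q, h y ∂sph := by
  obtain ⟨mP, mI, hPI, hIP, _⟩ := hI
  have hb : MeasurableSet (Metric.ball (0 : E2) r) := measurableSet_ball
  have mQ : Measurable (Q.indicator h) := hh.indicator hQ
  have mR : Measurable R := R.continuous.measurable
  have mRs : Measurable R.symm := R.symm.continuous.measurable
  -- the test function on the sphere
  let φ : E3 → ℝ≥0∞ := fun y => (pinv ⁻¹' Metric.ball (0 : E2) r).indicator (fun _ => 1) y *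
    Q.indicator h (R.symm y)
  have mφ : Measurable φ :=
    (measurable_const.indicator (mI hb)).mul (mQ.comp mRs)
  have h1 : ∫⁻ y, φ y ∂sph = ∫⁻ y in Q, h y ∂sph := by
    have hinv := hS.2.2 R
    calc ∫⁻ y, φ y ∂sph = ∫⁻ y, φ y ∂(Measure.map R sph) := by rw [hinv]
      _ = ∫⁻ y, φ (R y) ∂sph := lintegral_map mφ mR
      _ = ∫⁻ y, Q.indicator h y ∂sph := by
        refine lintegral_congr fun y => ?_
        simp only [φ, LinearIsometryEquiv.symm_apply_apply]
        by_cases hy : y ∈ Q
        · have : R y ∈ pinv ⁻¹' Metric.ball (0 : E2) r := by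
            simpa using (hQR y hy).2
          rw [indicator_of_mem this, one_mul]
        · rw [indicator_of_notMem hy, mul_zero]
      _ = ∫⁻ y in Q, h y ∂sph := lintegral_indicator hQ _
  have h2 : ∫⁻ v in box, φ (P v) = ∫⁻ v in Metric.ball (0 : E2) r, Q.indicator h (R.symm (P v)) := by
    rw [← lintegral_indicator isBox, ← lintegral_indicator hb]
    refine lintegral_congr fun v => ?_
    by_cases hv : v ∈ Metric.ball (0 : E2) r
    · have hvb := ball_subset_box hr hv
      have hv1 : |v 1| < 1 := by
        have h1 : ‖v‖ < r := by simpa using hv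
        have h3 := abs_le_norm2 v 1
        linarith
      rw [indicator_of_mem hvb, indicator_of_mem hv]
      simp only [φ]
      have : P v ∈ pinv ⁻¹' Metric.ball (0 : E2) r := by
        rw [mem_preimage, hIP v hvb hv1]; exact hv
      rw [indicator_of_mem this, one_mul]
    · rw [indicator_of_notMem hv]
      by_cases hvb : v ∈ box
      · rw [indicator_of_mem hvb]
        simp only [φ]
        have : P v ∉ pinv ⁻¹' Metric.ball (0 : E2) r := by
          rw [mem_preimage]
          by_cases hv1 : |v 1| < 1
          · rw [hIP v hvb hv1]; exact hv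
          · intro hcon
            have h1 : ‖pinv (P v)‖ < r := by simpa using hcon
            have h2 := abs_le_norm2 (pinv (P v)) 1
            rw [pinv_one, P_two] at h2
            linarith
        rw [indicator_of_notMem this, zero_mul]
      · rw [indicator_of_notMem hvb]
  have h3 := lintegral_sph mP mφ
  rw [h1, h2] at h3
  rw [h3, ← mul_assoc, ← ENNReal.ofReal_mul (by positivity)]
  have : 4 * Real.pi * (1 / (4 * Real.pi)) = 1 := by
    field_simp
  rw [this, ENNReal.ofReal_one, one_mul]

end TILE

end Pool.KS
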