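import Pool.Agent.KS.TileA
import Pool.Agent.KS.TileB

/-! Squad KS: module TILE, part C: cells. -/

open MeasureTheory Set Filter Topology
open scoped ENNReal

namespace Pool.KS

namespace TILE

/-- indices of cubes -/
abbrev Zt (B : ℕ) : Type := Fin 3 → ↥(Finset.Icc (-(B : ℤ)) (B : ℤ))

/-- a cube met with the sphere -/
def cube (a : ℝ) (s : Fin 3 → ℝ) {B : ℕ} (z : Zt B) : Set E3 :=
  {y | ‖y‖ = 1 ∧ ∀ i, ⌊(y i - s i) / a⌋ = (z i : ℤ)}

/-- cells cut out by planes -/
def cellT (Q : Set E3) {K : ℕ} (t : Fin K → E3 × ℝ) (τ : Fin K → Bool) : Set E3 :=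
  Q ∩ {y | ∀ k, side (t k) y ↔ τ k = true}

theorem meas_coord (i : Fin 3) : Measurable fun y : E3 => y i := by fun_prop

theorem meas_cube_joint (a : ℝ) {B : ℕ} (z : Zt B) :
    MeasurableSet {p : (Fin 3 → ℝ) × E3 | p.2 ∈ cube a p.1 z} := by
  have h1 : MeasurableSet {p : (Fin 3 → ℝ) × E3 | ‖p.2‖ = 1} :=
    measurableSet_eq_fun (measurable_snd.norm) measurable_const
  have h2 : MeasurableSet {p : (Fin 3 → ℝ) × E3 | ∀ i, ⌊(p.2 i - p.1 i) / a⌋ = (z i : ℤ)} := by
    rw [Set.ofPred_forall]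
    refine MeasurableSet.iInter fun i => ?_
    refine measurableSet_eq_fun ?_ measurable_const
    refine Int.measurable_floor.comp (Measurable.div_const ?_ a)
    exact ((meas_coord i).comp measurable_snd).sub ((measurable_pi_apply i).comp measurable_fst)
  exact h1.inter h2

theorem meas_cube (a : ℝ) (s : Fin 3 → ℝ) {B : ℕ} (z : Zt B) : MeasurableSet (cube a s z) := by
  have := measurable_prodMk_left (x := s) (meas_cube_joint a z)
  exact this

theorem cube_unit {a : ℝ} {s : Fin 3 → ℝ} {B : ℕ} {z : Zt B} : ∀ y ∈ cube a s z, ‖y‖ = 1 :=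
  fun _ hy => hy.1

theorem cube_disj {a : ℝ} {s : Fin 3 → ℝ} {B : ℕ} {z z' : Zt B} (h : z ≠ z') :
    Disjoint (cube a s z) (cube a s z') := by
  rw [Set.disjoint_left]
  intro y hy hy'
  apply h
  funext i
  exact Subtype.ext ((hy.2 i).symm.trans (hy'.2 i))

theorem meas_sides_joint (h : Stmt_PLN) {K : ℕ} (τ : Fin K → Bool) :
    MeasurableSet {p : (Fin K → E3 × ℝ) × E3 | ∀ k, side (p.1 k) p.2 ↔ τ k = true} := by
  rw [Set.ofPred_forall]
  refine MeasurableSet.iInter fun k => ?_
  have h1 : MeasurableSet {p : (Fin K → E3 × ℝ) × E3 | side (p.1 k) p.2} := by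
    have hm : Measurable fun p : (Fin K → E3 × ℝ) × E3 => (p.1 k, p.2) :=
      ((measurable_pi_apply k).comp measurable_fst).prodMk measurable_snd
    exact hm h.2.1
  by_cases hk : τ k = true
  · simpa [hk] using h1
  · have h2 : {p : (Fin K → E3 × ℝ) × E3 | side (p.1 k) p.2 ↔ τ k = true} =
        {p : (Fin K → E3 × ℝ) × E3 | side (p.1 k) p.2}ᶜ := by
      ext p
      simp only [mem_setOf_eq, hk, iff_false, mem_compl_iff]
      simp
    rw [h2]
    exact h1.compl

theorem meas_cellT_joint (h : Stmt_PLN) {Q : Set E3} (hQ : MeasurableSet Q) {K : ℕ}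
    (τ : Fin K → Bool) : MeasurableSet {p : (Fin K → E3 × ℝ) × E3 | p.2 ∈ cellT Q p.1 τ} :=
  (measurable_snd hQ).inter (meas_sides_joint h τ)

theorem meas_cellT (h : Stmt_PLN) {Q : Set E3} (hQ : MeasurableSet Q) {K : ℕ}
    (t : Fin K → E3 × ℝ) (τ : Fin K → Bool) : MeasurableSet (cellT Q t τ) :=
  measurable_prodMk_left (x := t) (meas_cellT_joint h hQ τ)

theorem cellT_sub {Q : Set E3} {K : ℕ} {t : Fin K → E3 × ℝ} {τ : Fin K → Bool} : cellT Q t τ ⊆ Q :=
  inter_subset_left

open Classical in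
theorem sum_cellT (Q : Set E3) {K : ℕ} (t : Fin K → E3 × ℝ) (x y : E3) :
    ∑ τ : Fin K → Bool, (cellT Q t τ).indicator (1 : E3 → ℝ≥0∞) x * (cellT Q t τ).indicator 1 y =
      Q.indicator (1 : E3 → ℝ≥0∞) x * Q.indicator 1 y *
        {t : Fin K → E3 × ℝ | ∀ k, side (t k) x ↔ side (t k) y}.indicator 1 t := by
  by_cases hx : x ∈ Q
  · by_cases hy : y ∈ Q
    · rw [indicator_of_mem hx, indicator_of_mem hy]
      simp only [Pi.one_apply, one_mul]
      let τ₀ : Fin K → Bool := fun k => decide (side (t k) x)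
      have hx0 : ∀ τ, x ∈ cellT Q t τ ↔ τ = τ₀ := by
        intro τ
        constructor
        · intro h
          funext k
          have := h.2 k
          by_cases hs : side (t k) x
          · rw [this.1 hs]; simp [τ₀, hs]
          · have h2 : ¬ τ k = true := fun h' => hs (this.2 h')
            have h3 : τ k = false := by simpa using h2
            rw [h3]; simp [τ₀, hs]
        · rintro rfl
          exact ⟨hx, fun k => by simp [τ₀]⟩
      rw [Finset.sum_eq_single τ₀]
      · rw [indicator_of_mem ((hx0 τ₀).2 rfl)]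
        simp only [Pi.one_apply, one_mul]
        by_cases hs : ∀ k, side (t k) x ↔ side (t k) y
        · have h1 : t ∈ {t : Fin K → E3 × ℝ | ∀ k, side (t k) x ↔ side (t k) y} := hs
          rw [indicator_of_mem h1, indicator_of_mem]
          · rfl
          · exact ⟨hy, fun k => by simp [τ₀, hs k]⟩
        · have h1 : t ∉ {t : Fin K → E3 × ℝ | ∀ k, side (t k) x ↔ side (t k) y} := hs
          rw [indicator_of_notMem h1, indicator_of_notMem]
          intro h
          apply hs
          intro k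
          have := h.2 k
          rw [this]
          simp [τ₀]
      · intro τ _ hne
        rw [indicator_of_notMem (fun h => hne ((hx0 τ).1 h)), zero_mul]
      · intro h; exact absurd (Finset.mem_univ _) h
    · rw [indicator_of_notMem hy, mul_zero, zero_mul]
      refine Finset.sum_eq_zero fun τ _ => ?_
      rw [indicator_of_notMem (fun h => hy (cellT_sub h)), mul_zero]
  · rw [indicator_of_notMem hx, zero_mul, zero_mul]
    refine Finset.sum_eq_zero fun τ _ => ?_
    rw [indicator_of_notMem (fun h => hx (cellT_sub h)), zero_mul]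

theorem meas_same (h : Stmt_PLN) {Ω : Type*} [MeasurableSpace Ω] {K : ℕ} {p q : Ω → E3}
    (hp : Measurable p) (hq : Measurable q) :
    MeasurableSet {w : (Fin K → E3 × ℝ) × Ω | ∀ k, side (w.1 k) (p w.2) ↔ side (w.1 k) (q w.2)} := by
  rw [Set.ofPred_forall]
  refine MeasurableSet.iInter fun k => ?_
  have h1 : ∀ r : Ω → E3, Measurable r →
      MeasurableSet {w : (Fin K → E3 × ℝ) × Ω | side (w.1 k) (r w.2)} := by
    intro r hr
    have hm : Measurable fun w : (Fin K → E3 × ℝ) × Ω => (w.1 k, r w.2) :=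
      ((measurable_pi_apply k).comp measurable_fst).prodMk (hr.comp measurable_snd)
    exact hm h.2.1
  exact (h1 p hp).iff (h1 q hq)

/-- averaging over the planes -/
theorem plane_avg (h : Stmt_PLN) {Ω : Type*} [MeasurableSpace Ω] (κ : Measure Ω) [SFinite κ]
    {p q : Ω → E3} (hp : Measurable p) (hq : Measurable q) {W : Ω → ℝ≥0∞} (hW : Measurable W)
    {Q : Set E3} (hQ : MeasurableSet Q) (hQ1 : ∀ y ∈ Q, ‖y‖ = 1) (K : ℕ) :
    ∫⁻ t, ∑ τ : Fin K → Bool, ∫⁻ ω, (cellT Q t τ).indicator (1 : E3 → ℝ≥0∞) (p ω) *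
        (cellT Q t τ).indicator 1 (q ω) * W ω ∂κ ∂(plns K) =
      ∫⁻ ω, Q.indicator (1 : E3 → ℝ≥0∞) (p ω) * Q.indicator 1 (q ω) *
        ENNReal.ofReal (1 - ‖p ω - q ω‖ / 4) ^ K * W ω ∂κ := by
  haveI := h.1
  haveI : IsProbabilityMeasure (plns K) := by unfold plns; infer_instance
  have mc : ∀ (t : Fin K → E3 × ℝ) (τ : Fin K → Bool), Measurable fun ω =>
      (cellT Q t τ).indicator (1 : E3 → ℝ≥0∞) (p ω) * (cellT Q t τ).indicator 1 (q ω) * W ω := by
    intro t τ
    have m1 : Measurable ((cellT Q t τ).indicator (1 : E3 → ℝ≥0∞)) :=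
      measurable_one.indicator (meas_cellT h hQ t τ)
    exact ((m1.comp hp).mul (m1.comp hq)).mul hW
  have e1 : ∀ t : Fin K → E3 × ℝ, ∑ τ : Fin K → Bool, ∫⁻ ω,
      (cellT Q t τ).indicator (1 : E3 → ℝ≥0∞) (p ω) * (cellT Q t τ).indicator 1 (q ω) * W ω ∂κ =
      ∫⁻ ω, Q.indicator (1 : E3 → ℝ≥0∞) (p ω) * Q.indicator 1 (q ω) *
        {w : (Fin K → E3 × ℝ) × Ω | ∀ k, side (w.1 k) (p w.2) ↔ side (w.1 k) (q w.2)}.indicator 1 (t, ω) *
        W ω ∂κ := by
    intro t
    rw [← lintegral_finsetSum _ (fun τ _ => mc t τ)]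
    refine lintegral_congr fun ω => ?_
    rw [← Finset.sum_mul, sum_cellT]
    rfl
  simp only [e1]
  have mQ : Measurable (Q.indicator (1 : E3 → ℝ≥0∞)) := measurable_one.indicator hQ
  have mj : Measurable fun w : (Fin K → E3 × ℝ) × Ω =>
      Q.indicator (1 : E3 → ℝ≥0∞) (p w.2) * Q.indicator 1 (q w.2) *
        {w : (Fin K → E3 × ℝ) × Ω | ∀ k, side (w.1 k) (p w.2) ↔ side (w.1 k) (q w.2)}.indicator 1 w *
        W w.2 := by
    refine Measurable.mul (Measurable.mul (Measurable.mul ?_ ?_) ?_) (hW.comp measurable_snd)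
    · exact mQ.comp (hp.comp measurable_snd)
    · exact mQ.comp (hq.comp measurable_snd)
    · exact measurable_one.indicator (meas_same h hp hq)
  rw [lintegral_lintegral_swap]
  · refine lintegral_congr fun ω => ?_
    by_cases hx : p ω ∈ Q
    · by_cases hy : q ω ∈ Q
      · rw [indicator_of_mem hx, indicator_of_mem hy]
        simp only [Pi.one_apply, one_mul]
        rw [lintegral_mul_const]
        · congr 1
          have hms : MeasurableSet {t : Fin K → E3 × ℝ | ∀ k, side (t k) (p ω) ↔ side (t k) (q ω)} :=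
            measurable_prodMk_right (y := ω) (meas_same h hp hq)
          rw [← plns_same h K (hQ1 _ hx) (hQ1 _ hy), ← lintegral_indicator_one hms]
          rfl
        · exact (measurable_one.indicator (meas_same h hp hq)).comp (measurable_prodMk_right (y := ω))
      · rw [indicator_of_notMem hy]
        simp
    · rw [indicator_of_notMem hx]
      simp
  · exact mj.aemeasurable

end TILE

end Pool.KS
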