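import Pool.Agent.KS.TileC

/-! Squad KS: module TILE, part D: a fixed shift. -/

open MeasureTheory Set Filter Topology
open scoped ENNReal

namespace Pool.KS

namespace TILE

theorem norm_e0 : ‖e0‖ = 1 := by
  rw [EuclideanSpace.norm_eq]
  simp [e0, Fin.sum_univ_three]

theorem exists_rot (q : E3) (hq : ‖q‖ = 1) : ∃ R : E3 ≃ₗᵢ[ℝ] E3, R q = e0 :=
  ⟨_, Submodule.reflection_sub (hq.trans norm_e0.symm)⟩

theorem cube_diam {a : ℝ} (ha : 0 < a) {s : Fin 3 → ℝ} {B : ℕ} {z : Zt B} {q y : E3}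
    (hq : q ∈ cube a s z) (hy : y ∈ cube a s z) : ‖y - q‖ < 2 * a := by
  have hc : ∀ i, (y i - q i) ^ 2 ≤ a ^ 2 := by
    intro i
    have h : |(y i - s i) / a - (q i - s i) / a| < 1 :=
      Int.abs_sub_lt_one_of_floor_eq_floor ((hy.2 i).trans (hq.2 i).symm)
    have h2 : (y i - s i) / a - (q i - s i) / a = (y i - q i) / a := by ring
    rw [h2, abs_div, abs_of_pos ha, div_lt_one ha] at h
    rw [← sq_abs (y i - q i)]
    exact pow_le_pow_left₀ (abs_nonneg _) h.le 2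
  have h1 : ‖y - q‖ ^ 2 ≤ 3 * a ^ 2 := by
    rw [EuclideanSpace.norm_sq_eq]
    simp only [Fin.sum_univ_three, PiLp.sub_apply, Real.norm_eq_abs, sq_abs]
    have := hc 0
    have := hc 1
    have := hc 2
    linarith
  have h2 : ‖y - q‖ ^ 2 < (2 * a) ^ 2 := by nlinarith
  exact lt_of_pow_lt_pow_left₀ 2 (by positivity) h2

theorem cube_near (hI : Stmt_PINV) {a r : ℝ} (ha : 0 < a) (har : 4 * a < r) (hr : r ≤ 1 / 10)
    {s : Fin 3 → ℝ} {B : ℕ} {z : Zt B} {q : E3} (hq : q ∈ cube a s z) {R : E3 ≃ₗᵢ[ℝ] E3}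
    (hR : R q = e0) : ∀ y ∈ cube a s z, ‖y‖ = 1 ∧ ‖pinv (R y)‖ < r := by
  intro y hy
  refine ⟨hy.1, ?_⟩
  have h1 : ‖R y - e0‖ = ‖y - q‖ := by
    rw [← hR, ← map_sub, R.norm_map]
  have h2 := cube_diam ha hq hy
  have h3 : ‖R y‖ = 1 := by rw [R.norm_map]; exact hy.1
  have h4 := hI.2.2.2.2 (R y) h3 (by rw [h1]; linarith)
  rw [h1] at h4
  linarith

theorem exists_cube {a : ℝ} (ha : 0 < a) {B : ℕ} (hB : 1 / a + 2 ≤ B) {s : Fin 3 → ℝ}
    (hs : ∀ i, 0 ≤ s i ∧ s i < a) {y : E3} (hy : ‖y‖ = 1) : ∃ z : Zt B, y ∈ cube a s z := by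
  have hb : ∀ i, ⌊(y i - s i) / a⌋ ∈ Finset.Icc (-(B : ℤ)) (B : ℤ) := by
    intro i
    have h1 : |y i| ≤ 1 := by
      have := PiLp.norm_apply_le y i
      rw [hy] at this
      simpa using this
    obtain ⟨h2, h3⟩ := abs_le.1 h1
    obtain ⟨h4, h5⟩ := hs i
    rw [Finset.mem_Icc]
    have h6 : (y i - s i) / a ≤ 1 / a := by gcongr; linarith
    have h7 : -(1 / a) - 1 ≤ (y i - s i) / a := by
      rw [le_div_iff₀ ha]
      have : (-(1 / a) - 1) * a = -1 - a := by field_simp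
      rw [this]; linarith
    constructor
    · rw [Int.le_floor]
      push_cast
      linarith
    · have h8 : (⌊(y i - s i) / a⌋ : ℝ) ≤ B := (Int.floor_le _).trans (by linarith)
      exact_mod_cast h8
  exact ⟨fun i => ⟨_, hb i⟩, hy, fun i => rfl⟩

/-- the random points of a cube -/
noncomputable def pts {G : Type} {m : ℕ} (c rho : ℝ) (x : Fin m → G → E2) (R : E3 ≃ₗᵢ[ℝ] E3)
    (i : Fin m) (g : G) : E3 :=
  (Metric.ball (0 : E2) rho).indicator (fun u => R.symm (P (c • u))) (x i g)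

theorem pts_meas (hI : Stmt_PINV) {G : Type} [MeasurableSpace G] {m : ℕ} (c rho : ℝ)
    {x : Fin m → G → E2} (hx : ∀ i, Measurable (x i)) (R : E3 ≃ₗᵢ[ℝ] E3) (i : Fin m) :
    Measurable (pts c rho x R i) := by
  have : Measurable fun u : E2 => R.symm (P (c • u)) :=
    R.symm.continuous.measurable.comp (hI.1.comp (measurable_const_smul c))
  exact (this.indicator measurableSet_ball).comp (hx i)

theorem pts_ball {G : Type} {m : ℕ} {c rho : ℝ} {x : Fin m → G → E2} {R : E3 ≃ₗᵢ[ℝ] E3}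
    {i : Fin m} {g : G} (h : ‖pts c rho x R i g‖ = 1) :
    x i g ∈ Metric.ball (0 : E2) rho ∧ pts c rho x R i g = R.symm (P (c • x i g)) := by
  by_cases hx : x i g ∈ Metric.ball (0 : E2) rho
  · exact ⟨hx, by unfold pts; rw [indicator_of_mem hx]⟩
  · exfalso
    unfold pts at h
    rw [indicator_of_notMem hx, norm_zero] at h
    exact zero_ne_one h

theorem pts_ind {G : Type} {m : ℕ} {c rho : ℝ} {x : Fin m → G → E2} {R : E3 ≃ₗᵢ[ℝ] E3}
    {Q : Set E3} (hQ : ∀ y ∈ Q, ‖y‖ = 1) (h : E3 → ℝ≥0∞) (i : Fin m) (g : G) :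
    Q.indicator h (pts c rho x R i g) = (Metric.ball (0 : E2) rho).indicator
      (fun u => Q.indicator h (R.symm (P (c • u)))) (x i g) := by
  by_cases hx : x i g ∈ Metric.ball (0 : E2) rho
  · unfold pts; rw [indicator_of_mem hx, indicator_of_mem hx]
  · unfold pts
    rw [indicator_of_notMem hx, indicator_of_notMem hx, indicator_of_notMem]
    intro h0
    have := hQ _ h0
    rw [norm_zero] at this
    exact zero_ne_one this

/-- planar intensity to spherical intensity -/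
theorem planar_int (hS : Stmt_SPH) (hI : Stmt_PINV) {lam rho c : ℝ} {N : ℕ} (hlam : 0 < lam)
    (hN : 1 ≤ N) (hc : c = Real.sqrt (4 * Real.pi * lam / N)) (hcr : c * rho ≤ 1 / 10)
    {R : E3 ≃ₗᵢ[ℝ] E3} {Q : Set E3} (hQ : MeasurableSet Q)
    (hQR : ∀ y ∈ Q, ‖y‖ = 1 ∧ ‖pinv (R y)‖ < c * rho) {h : E3 → ℝ≥0∞} (hh : Measurable h) :
    ENNReal.ofReal lam * ∫⁻ u in Metric.ball (0 : E2) rho, Q.indicator h (R.symm (P (c • u))) =
      N * ∫⁻ y in Q, h y ∂sph := by
  have hN' : (0 : ℝ) < N := by exact_mod_cast hN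
  have hc0 : 0 < c := by rw [hc]; positivity
  have hc2 : c ^ 2 = 4 * Real.pi * lam / N := by
    rw [hc, Real.sq_sqrt (by positivity)]
  have mF : Measurable fun v : E2 => Q.indicator h (R.symm (P v)) :=
    (hh.indicator hQ).comp (R.symm.continuous.measurable.comp hI.1)
  rw [lintegral_ball_smul mF hc0, transfer hS hI hcr R hQ hQR hh, ← mul_assoc, ← mul_assoc,
    ← ENNReal.ofReal_mul hlam.le, ← ENNReal.ofReal_mul (by positivity), hc2]
  congr 1
  rw [show lam * (4 * Real.pi * lam / (N : ℝ))⁻¹ * (4 * Real.pi) = N by field_simp]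
  exact ENNReal.ofReal_natCast N

theorem FK_bound {ε δ c rho : ℝ} (hε : ε ≤ 1 / 2) (hc : 0 < c) (hcr : c * rho ≤ δ)
    (hiso : NearIso ε δ) (K : ℕ) (R : E3 ≃ₗᵢ[ℝ] E3) {u v : E2} (hu : u ∈ Metric.ball (0 : E2) rho)
    (hv : v ∈ Metric.ball (0 : E2) rho) :
    ENNReal.ofReal (1 - ‖R.symm (P (c • u)) - R.symm (P (c • v))‖ / 4) ^ K *
      ENNReal.ofReal (‖R.symm (P (c • u)) - R.symm (P (c • v))‖⁻¹) ≤
      ENNReal.ofReal (FK K ((1 - ε) * c) ‖u - v‖) := by
  have e : ‖R.symm (P (c • u)) - R.symm (P (c • v))‖ = ‖P (c • u) - P (c • v)‖ := by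
    rw [← map_sub, R.symm.norm_map]
  rw [e]
  have hb : ∀ w ∈ Metric.ball (0 : E2) rho, ‖c • w‖ < δ := by
    intro w hw
    rw [norm_smul, Real.norm_eq_abs, abs_of_pos hc]
    have : ‖w‖ < rho := by simpa using hw
    exact lt_of_lt_of_le (mul_lt_mul_of_pos_left this hc) hcr
  have h1 := (hiso (c • u) (c • v) (hb u hu) (hb v hv)).1
  rw [← smul_sub, norm_smul, Real.norm_eq_abs, abs_of_pos hc, ← mul_assoc] at h1
  set r := ‖P (c • u) - P (c • v)‖
  by_cases huv : u = v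
  · have : r = 0 := by simp [r, huv]
    rw [this]; simp
  · have h0 : 0 < (1 - ε) * c * ‖u - v‖ := by
      have : 0 < ‖u - v‖ := norm_pos_iff.2 (sub_ne_zero.2 huv)
      have : 0 < 1 - ε := by linarith
      positivity
    have hr : 0 < r := h0.trans_le h1
    unfold FK
    rw [ENNReal.ofReal_mul (by positivity), ENNReal.ofReal_pow (le_max_left _ _)]
    refine mul_le_mul' (pow_le_pow_left' (ENNReal.ofReal_le_ofReal ?_) K)
      (ENNReal.ofReal_le_ofReal (inv_anti₀ h0 h1))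
    exact le_trans (by linarith) (le_max_right _ _)

theorem sph_prob_cubes (hS : Stmt_SPH) (a : ℝ) (s : Fin 3 → ℝ) (B : ℕ) :
    ∑ z : Zt B, sph (cube a s z) ≤ 1 := by
  have := hS.1
  rw [← tsum_fintype (L := .unconditional _), ← measure_iUnion (fun z z' h => cube_disj h) (fun z => meas_cube a s z)]
  exact prob_le_one

section

variable {G : Type} [MeasurableSpace G] (μ : Measure G) [IsProbabilityMeasure μ] {m K B : ℕ}

/-- pair sums in the cells -/
noncomputable def AA (X : Zt B → Fin m → G → E3) (a : ℝ) (s : Fin 3 → ℝ) (t : Fin K → E3 × ℝ) : ℝ≥0∞ :=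
  ∑ z : Zt B, ∑ i, ∑ j ∈ Finset.univ.erase i, ∑ τ : Fin K → Bool, ∫⁻ g,
    (cellT (cube a s z) t τ).indicator (1 : E3 → ℝ≥0∞) (X z i g) *
      (cellT (cube a s z) t τ).indicator 1 (X z j g) * ENNReal.ofReal (‖X z i g - X z j g‖⁻¹) ∂μ

/-- background in the cells -/
noncomputable def BB (B : ℕ) (a : ℝ) (s : Fin 3 → ℝ) (t : Fin K → E3 × ℝ) : ℝ≥0∞ :=
  ∑ z : Zt B, ∑ τ : Fin K → Bool, ∫⁻ q : E3 × E3,
    (cellT (cube a s z) t τ).indicator (1 : E3 → ℝ≥0∞) q.1 *
      (cellT (cube a s z) t τ).indicator 1 q.2 * ENNReal.ofReal (‖q.1 - q.2‖⁻¹) ∂(sph.prod sph)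

theorem meas_plane (h : Stmt_PLN) {Ω : Type*} [MeasurableSpace Ω] (κ : Measure Ω) [SFinite κ]
    {p q : Ω → E3} (hp : Measurable p) (hq : Measurable q) {W : Ω → ℝ≥0∞} (hW : Measurable W)
    {Q : Set E3} (hQ : MeasurableSet Q) (τ : Fin K → Bool) :
    Measurable fun t : Fin K → E3 × ℝ => ∫⁻ ω, (cellT Q t τ).indicator (1 : E3 → ℝ≥0∞) (p ω) *
        (cellT Q t τ).indicator 1 (q ω) * W ω ∂κ := by
  refine Measurable.lintegral_prod_right' (f := fun w : (Fin K → E3 × ℝ) × Ω =>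
    (cellT Q w.1 τ).indicator (1 : E3 → ℝ≥0∞) (p w.2) * (cellT Q w.1 τ).indicator 1 (q w.2) * W w.2) ?_
  have key : ∀ r : Ω → E3, Measurable r → Measurable fun w : (Fin K → E3 × ℝ) × Ω =>
      (cellT Q w.1 τ).indicator (1 : E3 → ℝ≥0∞) (r w.2) := by
    intro r hr
    have hm : Measurable fun w : (Fin K → E3 × ℝ) × Ω => (w.1, r w.2) :=
      measurable_fst.prodMk (hr.comp measurable_snd)
    have := (measurable_one (α := ℝ≥0∞)).indicator (meas_cellT_joint h hQ τ)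
    exact this.comp hm
  exact ((key p hp).mul (key q hq)).mul (hW.comp measurable_snd)

theorem inv_meas : Measurable fun q : E3 × E3 => ENNReal.ofReal (‖q.1 - q.2‖⁻¹) :=
  ENNReal.measurable_ofReal.comp ((measurable_fst.sub measurable_snd).norm.inv)

theorem BB_avg (hS : Stmt_SPH) (hL : Stmt_PLN) (a : ℝ) (s : Fin 3 → ℝ) :
    ∫⁻ t, BB (K := K) B a s t ∂(plns K) = ∑ z : Zt B, ∫⁻ q : E3 × E3,
      (cube a s z).indicator (1 : E3 → ℝ≥0∞) q.1 * (cube a s z).indicator 1 q.2 *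
        ENNReal.ofReal (1 - ‖q.1 - q.2‖ / 4) ^ K * ENNReal.ofReal (‖q.1 - q.2‖⁻¹) ∂(sph.prod sph) := by
  haveI := hS.1
  unfold BB
  rw [lintegral_finsetSum]
  · refine Finset.sum_congr rfl fun z _ => ?_
    exact plane_avg hL (sph.prod sph) measurable_fst measurable_snd inv_meas (meas_cube a s z)
      cube_unit K
  · intro z _
    refine Finset.measurable_sum _ fun τ _ => ?_
    exact meas_plane hL (sph.prod sph) measurable_fst measurable_snd inv_meas (meas_cube a s z) τ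

theorem AA_avg (hL : Stmt_PLN) {X : Zt B → Fin m → G → E3} (hX : ∀ z i, Measurable (X z i))
    (a : ℝ) (s : Fin 3 → ℝ) :
    ∫⁻ t, AA (K := K) μ X a s t ∂(plns K) = ∑ z : Zt B, ∑ i, ∑ j ∈ Finset.univ.erase i, ∫⁻ g,
      (cube a s z).indicator (1 : E3 → ℝ≥0∞) (X z i g) * (cube a s z).indicator 1 (X z j g) *
        ENNReal.ofReal (1 - ‖X z i g - X z j g‖ / 4) ^ K *
          ENNReal.ofReal (‖X z i g - X z j g‖⁻¹) ∂μ := by
  have mW : ∀ z i j, Measurable fun g => ENNReal.ofReal (‖X z i g - X z j g‖⁻¹) := fun z i j =>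
    ENNReal.measurable_ofReal.comp (((hX z i).sub (hX z j)).norm.inv)
  have mt : ∀ z i j τ, Measurable fun t : Fin K → E3 × ℝ => ∫⁻ g,
      (cellT (cube a s z) t τ).indicator (1 : E3 → ℝ≥0∞) (X z i g) *
      (cellT (cube a s z) t τ).indicator 1 (X z j g) * ENNReal.ofReal (‖X z i g - X z j g‖⁻¹) ∂μ :=
    fun z i j τ => meas_plane hL μ (hX z i) (hX z j) (mW z i j) (meas_cube a s z) τ
  unfold AA
  rw [lintegral_finsetSum]
  · refine Finset.sum_congr rfl fun z _ => ?_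
    rw [lintegral_finsetSum]
    · refine Finset.sum_congr rfl fun i _ => ?_
      rw [lintegral_finsetSum]
      · refine Finset.sum_congr rfl fun j _ => ?_
        exact plane_avg hL μ (hX z i) (hX z j) (mW z i j) (meas_cube a s z) cube_unit K
      · intro j _
        exact Finset.measurable_sum _ fun τ _ => mt z i j τ
    · intro i _
      exact Finset.measurable_sum _ fun j _ => Finset.measurable_sum _ fun τ _ => mt z i j τ
  · intro z _
    exact Finset.measurable_sum _ fun i _ => Finset.measurable_sum _ fun j _ =>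
      Finset.measurable_sum _ fun τ _ => mt z i j τ

theorem AA_meas (hL : Stmt_PLN) {X : Zt B → Fin m → G → E3} (hX : ∀ z i, Measurable (X z i))
    (a : ℝ) (s : Fin 3 → ℝ) : Measurable fun t : Fin K → E3 × ℝ => AA μ X a s t := by
  have mW : ∀ z i j, Measurable fun g => ENNReal.ofReal (‖X z i g - X z j g‖⁻¹) := fun z i j =>
    ENNReal.measurable_ofReal.comp (((hX z i).sub (hX z j)).norm.inv)
  unfold AA
  exact Finset.measurable_sum _ fun z _ => Finset.measurable_sum _ fun i _ =>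
    Finset.measurable_sum _ fun j _ => Finset.measurable_sum _ fun τ _ =>
      meas_plane hL μ (hX z i) (hX z j) (mW z i j) (meas_cube a s z) τ

end

end TILE

end Pool.KS
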