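import Pool.Agent.KS.TileD

/-! Squad KS: module TILE, part E: the inequality for a fixed shift. -/

open MeasureTheory Set Filter Topology
open scoped ENNReal

namespace Pool.KS

namespace TILE

theorem BB_eq (hS : Stmt_SPH) {Q : Set E3} (hQ : MeasurableSet Q) :
    ∫⁻ y in Q, ∫⁻ z in Q, ENNReal.ofReal (‖y - z‖⁻¹) ∂sph ∂sph =
      ∫⁻ q : E3 × E3, Q.indicator (1 : E3 → ℝ≥0∞) q.1 * Q.indicator 1 q.2 *
        ENNReal.ofReal (‖q.1 - q.2‖⁻¹) ∂(sph.prod sph) := by
  have := hS.1
  have mQ : Measurable (Q.indicator (1 : E3 → ℝ≥0∞)) := measurable_one.indicator hQ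
  have mF : Measurable fun q : E3 × E3 => Q.indicator (1 : E3 → ℝ≥0∞) q.1 * Q.indicator 1 q.2 *
        ENNReal.ofReal (‖q.1 - q.2‖⁻¹) :=
    ((mQ.comp measurable_fst).mul (mQ.comp measurable_snd)).mul inv_meas
  rw [lintegral_prod _ mF.aemeasurable, ← lintegral_indicator hQ]
  refine lintegral_congr fun x => ?_
  by_cases hx : x ∈ Q
  · simp only [indicator_of_mem hx, Pi.one_apply, one_mul]
    rw [← lintegral_indicator hQ]
    refine lintegral_congr fun y => ?_
    by_cases hy : y ∈ Q
    · simp [indicator_of_mem hy]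
    · simp [indicator_of_notMem hy]
  · simp only [indicator_of_notMem hx, zero_mul, lintegral_zero]

theorem fixed_shift (hS : Stmt_SPH) (hI : Stmt_PINV) (hL : Stmt_PLN) (hInd : Stmt_IND)
    {ε δ : ℝ} (hε : ε ≤ 1 / 2) (hδ : δ ≤ 1 / 10) (hiso : NearIso ε δ)
    {lam rho : ℝ} {m : ℕ} {S : ℕ → ℝ → ℝ} (hlam : 0 < lam) (hS0 : ∀ K s, 0 < s → 0 ≤ S K s)
    (hsrc : IsSource lam rho m S) {N K : ℕ} {a c : ℝ} (hN : 1 ≤ N) (hK : 1 ≤ K) (ha : 0 < a)
    (hc : c = Real.sqrt (4 * Real.pi * lam / N)) (h4a : 4 * a < c * rho) (hcr : c * rho ≤ δ)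
    (hf : fE N ≤ 8 * m * N) {B : ℕ} (hB : 1 / a + 2 ≤ B) {s : Fin 3 → ℝ}
    (hs : ∀ i, 0 ≤ s i ∧ s i < a) :
    ENNReal.ofReal ((N : ℝ) ^ 2 / 2) * ∑ z : Zt B, ∫⁻ q : E3 × E3,
      (cube a s z).indicator (1 : E3 → ℝ≥0∞) q.1 * (cube a s z).indicator 1 q.2 *
        ENNReal.ofReal (1 - ‖q.1 - q.2‖ / 4) ^ K * ENNReal.ofReal (‖q.1 - q.2‖⁻¹) ∂(sph.prod sph)
      ≤ ENNReal.ofReal (N / 2 * S K ((1 - ε) * c)) + ENNReal.ofReal (8 * m * N - fE N) := by
  have := hS.1
  have := hL.1
  have : IsProbabilityMeasure (plns K) := by unfold plns; infer_instance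
  obtain ⟨G, mG, μ, x, hμ, hxm, hxd, hxi, hxp⟩ := hsrc
  have hN' : (0 : ℝ) < N := by exact_mod_cast hN
  have hc0 : 0 < c := by rw [hc]; positivity
  have hcr' : c * rho ≤ 1 / 10 := hcr.trans hδ
  -- rotations
  have hRex : ∀ z : Zt B, ∃ R : E3 ≃ₗᵢ[ℝ] E3, ∀ y ∈ cube a s z, ‖y‖ = 1 ∧ ‖pinv (R y)‖ < c * rho := by
    intro z
    rcases (cube a s z).eq_empty_or_nonempty with h | ⟨q, hq⟩
    · exact ⟨LinearIsometryEquiv.refl ℝ E3, fun y hy => by rw [h] at hy; exact absurd hy (notMem_empty y)⟩
    · obtain ⟨R, hR⟩ := exists_rot q hq.1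
      exact ⟨R, cube_near hI ha h4a hcr' hq hR⟩
  choose R hR using hRex
  let X : Zt B → Fin m → G → E3 := fun z i g => pts c rho x (R z) i g
  have hXm : ∀ z i, Measurable (X z i) := fun z i => pts_meas hI c rho hxm (R z) i
  -- intensity
  have hint : ∀ (z : Zt B) (Q : Set E3), MeasurableSet Q → Q ⊆ cube a s z → ∀ h : E3 → ℝ≥0∞,
      Measurable h → ∑ i, ∫⁻ g, Q.indicator h (X z i g) ∂μ = N * ∫⁻ y in Q, h y ∂sph := by
    intro z Q hQ hQs h hh
    have e : ∀ i, ∫⁻ g, Q.indicator h (X z i g) ∂μ = ∫⁻ g, (Metric.ball (0 : E2) rho).indicator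
        (fun u => Q.indicator h ((R z).symm (P (c • u)))) (x i g) ∂μ := by
      intro i
      refine lintegral_congr fun g => ?_
      exact pts_ind (fun y hy => (hR z y (hQs hy)).1) h i g
    simp only [e]
    rw [hxi]
    · exact planar_int hS hI hlam hN hc hcr' hQ (fun y hy => hR z y (hQs hy)) hh
    · exact (hh.indicator hQ).comp ((R z).symm.continuous.measurable.comp
        (hI.1.comp (measurable_const_smul c)))
  -- the inequality for fixed planes
  have E1 : ∀ t : Fin K → E3 × ℝ, ENNReal.ofReal ((N : ℝ) ^ 2 / 2) * BB B a s t ≤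
      ENNReal.ofReal (1 / 2) * AA μ X a s t + ENNReal.ofReal (8 * m * N - fE N) := by
    intro t
    by_cases hA : AA μ X a s t = ⊤
    · rw [hA, ENNReal.mul_top (by simp), top_add]
      exact le_top
    -- apply IND
    have hIND := fun b => hInd (Zt B × (Fin K → Bool)) inferInstance G mG μ N m
      (fun c => cellT (cube a s c.1) t c.2) (fun c => X c.1) (AA μ X a s t).toReal b hμ hN
      (fun c => meas_cellT hL (meas_cube a s c.1) t c.2) ?_ (fun c y hy => hy.1.1) ?_
      (fun c i => hXm c.1 i) ?_ ?_ ENNReal.toReal_nonneg ?_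
    · have hBsum : ∑ c : Zt B × (Fin K → Bool), ∫⁻ y in cellT (cube a s c.1) t c.2,
          ∫⁻ z in cellT (cube a s c.1) t c.2, ENNReal.ofReal (‖y - z‖⁻¹) ∂sph ∂sph = BB B a s t := by
        rw [Fintype.sum_prod_type]
        unfold BB
        refine Finset.sum_congr rfl fun z _ => Finset.sum_congr rfl fun τ _ => ?_
        exact BB_eq hS (meas_cellT hL (meas_cube a s z) t τ)
      rw [hBsum] at hIND
      have hdiv : BB B a s t ≤ (ENNReal.ofReal (1 / 2) * AA μ X a s t + ENNReal.ofReal (8 * m * N - fE N)) /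
          ENNReal.ofReal ((N : ℝ) ^ 2 / 2) := by
        refine ENNReal.le_of_forall_nnreal_lt fun b hb => ?_
        rw [ENNReal.le_div_iff_mul_le (Or.inl (by simp; positivity)) (Or.inl ENNReal.ofReal_ne_top)]
        have h1 := hIND b (by simpa using hb.le)
        have h2 : (b : ℝ≥0∞) * ENNReal.ofReal ((N : ℝ) ^ 2 / 2) = ENNReal.ofReal (b * ((N : ℝ) ^ 2 / 2)) := by
          rw [ENNReal.ofReal_mul (NNReal.coe_nonneg b), ENNReal.ofReal_coe_nnreal]
        have h3 : ENNReal.ofReal (1 / 2) * AA μ X a s t =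
            ENNReal.ofReal (1 / 2 * (AA μ X a s t).toReal) := by
          rw [ENNReal.ofReal_mul (by norm_num), ENNReal.ofReal_toReal hA]
        rw [h2, h3, ← ENNReal.ofReal_add (by positivity) (by linarith)]
        apply ENNReal.ofReal_le_ofReal
        linarith
      have := mul_le_mul_right hdiv (ENNReal.ofReal ((N : ℝ) ^ 2 / 2))
      refine this.trans (le_of_eq ?_)
      rw [ENNReal.mul_div_cancel (by simp; positivity) ENNReal.ofReal_ne_top]
    · -- disjointness
      rintro ⟨z, τ⟩ ⟨z', τ'⟩ hne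
      by_cases hz : z = z'
      · subst hz
        have hτ : τ ≠ τ' := fun h => hne (by rw [h])
        rw [Set.disjoint_left]
        intro y hy hy'
        apply hτ
        funext k
        have h1 := (hy.2 k).symm.trans (hy'.2 k)
        exact Bool.eq_iff_iff.2 h1
      · exact (cube_disj hz).mono cellT_sub cellT_sub
    · -- covering
      refine le_antisymm prob_le_one ?_
      have h1 : sph {y | ‖y‖ = 1} = 1 := by
        have := hS.2.1
        rw [← prob_compl_eq_zero_iff₀ (measurableSet_eq_fun measurable_norm measurable_const).nullMeasurableSet]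
        exact this
      rw [← h1]
      refine measure_mono fun y hy => ?_
      obtain ⟨z, hz⟩ := exists_cube ha hB hs hy
      classical
      exact mem_iUnion.2 ⟨(z, fun k => decide (side (t k) y)), hz, fun k => by simp⟩
    · -- distinct points
      rintro ⟨z, τ⟩ g i j hij hi hj
      obtain ⟨b1, e1⟩ := pts_ball (hi.1.1 : ‖X z i g‖ = 1)
      obtain ⟨b2, e2⟩ := pts_ball (hj.1.1 : ‖X z j g‖ = 1)
      have hb1 : ‖x i g‖ < rho := by simpa using b1
      have hb2 : ‖x j g‖ < rho := by simpa using b2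
      have hne := hxd g i j hij hb1 hb2
      intro heq
      have heq' : pts c rho x (R z) i g = pts c rho x (R z) j g := heq
      rw [e1, e2] at heq'
      have h3 : P (c • x i g) = P (c • x j g) := (R z).symm.injective heq'
      have hb : ∀ w : E2, ‖w‖ < rho → ‖c • w‖ < δ := by
        intro w hw
        rw [norm_smul, Real.norm_eq_abs, abs_of_pos hc0]
        exact lt_of_lt_of_le (mul_lt_mul_of_pos_left hw hc0) hcr
      have h4 := (hiso (c • x i g) (c • x j g) (hb _ hb1) (hb _ hb2)).1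
      rw [h3, sub_self, norm_zero, ← smul_sub, norm_smul, Real.norm_eq_abs, abs_of_pos hc0] at h4
      have h5 : 0 < ‖x i g - x j g‖ := norm_pos_iff.2 (sub_ne_zero.2 hne)
      have h6 : 0 < 1 - ε := by linarith
      have : 0 < (1 - ε) * (c * ‖x i g - x j g‖) := by positivity
      linarith
    · -- intensity
      rintro ⟨z, τ⟩ h hh
      exact hint z _ (meas_cellT hL (meas_cube a s z) t τ) cellT_sub h hh
    · rw [ENNReal.ofReal_toReal hA, Fintype.sum_prod_type]
      unfold AA
      refine Finset.sum_le_sum fun z _ => ?_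
      rw [Finset.sum_comm]
      refine Finset.sum_le_sum fun i _ => ?_
      rw [Finset.sum_comm]
  -- integrate over the planes
  have hEint : ENNReal.ofReal ((N : ℝ) ^ 2 / 2) * ∫⁻ t, BB (K := K) B a s t ∂(plns K) ≤
      ENNReal.ofReal (1 / 2) * ∫⁻ t, AA (K := K) μ X a s t ∂(plns K) +
        ENNReal.ofReal (8 * m * N - fE N) := by
    have h1 := lintegral_mono E1 (μ := plns K)
    rw [lintegral_const_mul' _ _ ENNReal.ofReal_ne_top,
      lintegral_add_right _ measurable_const, lintegral_const_mul' _ _ ENNReal.ofReal_ne_top,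
      lintegral_const, measure_univ, mul_one] at h1
    exact h1
  rw [BB_avg hS hL, AA_avg μ hL hXm] at hEint
  refine hEint.trans ?_
  gcongr
  -- bound of the averaged pair sums
  have hs0 : 0 < (1 - ε) * c := by
    have : 0 < 1 - ε := by linarith
    positivity
  have hSK := hS0 K _ hs0
  have hpair : ∀ z : Zt B, ∑ i, ∑ j ∈ Finset.univ.erase i, ∫⁻ g,
      (cube a s z).indicator (1 : E3 → ℝ≥0∞) (X z i g) * (cube a s z).indicator 1 (X z j g) *
        ENNReal.ofReal (1 - ‖X z i g - X z j g‖ / 4) ^ K *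
          ENNReal.ofReal (‖X z i g - X z j g‖⁻¹) ∂μ ≤
      ENNReal.ofReal (S K ((1 - ε) * c)) * (N * sph (cube a s z)) := by
    intro z
    let D : Set E2 := Metric.ball (0 : E2) rho ∩ (fun u => (R z).symm (P (c • u))) ⁻¹' (cube a s z)
    have mD : MeasurableSet D := measurableSet_ball.inter
      (((R z).symm.continuous.measurable.comp (hI.1.comp (measurable_const_smul c))) (meas_cube a s z))
    have h1 := hxp K ((1 - ε) * c) hK hs0 D mD inter_subset_left
    have h2 : ENNReal.ofReal lam * volume D = N * sph (cube a s z) := by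
      have h3 := planar_int hS hI hlam hN hc hcr' (meas_cube a s z) (hR z) (h := fun _ => 1) measurable_const
      rw [setLIntegral_one, ← lintegral_indicator measurableSet_ball] at h3
      rw [← h3]
      congr 1
      rw [← lintegral_indicator_one mD]
      refine lintegral_congr fun u => ?_
      by_cases hu : u ∈ Metric.ball (0 : E2) rho
      · rw [indicator_of_mem hu]
        by_cases hu' : (R z).symm (P (c • u)) ∈ cube a s z
        · rw [indicator_of_mem hu', indicator_of_mem (show u ∈ D from ⟨hu, hu'⟩)]; rfl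
        · rw [indicator_of_notMem hu', indicator_of_notMem (fun h : u ∈ D => hu' h.2)]
      · rw [indicator_of_notMem hu, indicator_of_notMem (fun h : u ∈ D => hu h.1)]
    have h4 : ENNReal.ofReal (lam * S K ((1 - ε) * c)) * volume D =
        ENNReal.ofReal (S K ((1 - ε) * c)) * (N * sph (cube a s z)) := by
      rw [← h2, ENNReal.ofReal_mul hlam.le]; ring
    rw [← h4]
    refine le_trans ?_ h1
    refine Finset.sum_le_sum fun i _ => Finset.sum_le_sum fun j _ => lintegral_mono fun g => ?_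
    by_cases hi : X z i g ∈ cube a s z
    · by_cases hj : X z j g ∈ cube a s z
      · obtain ⟨b1, e1⟩ := pts_ball (hi.1 : ‖X z i g‖ = 1)
        obtain ⟨b2, e2⟩ := pts_ball (hj.1 : ‖X z j g‖ = 1)
        have e1' : X z i g = (R z).symm (P (c • x i g)) := e1
        have e2' : X z j g = (R z).symm (P (c • x j g)) := e2
        have d1 : x i g ∈ D := ⟨b1, by rw [mem_preimage, ← e1']; exact hi⟩
        have d2 : x j g ∈ D := ⟨b2, by rw [mem_preimage, ← e2']; exact hj⟩
        rw [indicator_of_mem hi, indicator_of_mem hj, indicator_of_mem d1, indicator_of_mem d2, e1', e2']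
        simp only [Pi.one_apply, one_mul]
        exact FK_bound hε hc0 hcr hiso K (R z) b1 b2
      · rw [indicator_of_notMem hj]; simp
    · rw [indicator_of_notMem hi]; simp
  calc ENNReal.ofReal (1 / 2) * ∑ z : Zt B, ∑ i, ∑ j ∈ Finset.univ.erase i, ∫⁻ g,
      (cube a s z).indicator (1 : E3 → ℝ≥0∞) (X z i g) * (cube a s z).indicator 1 (X z j g) *
        ENNReal.ofReal (1 - ‖X z i g - X z j g‖ / 4) ^ K *
          ENNReal.ofReal (‖X z i g - X z j g‖⁻¹) ∂μ
      ≤ ENNReal.ofReal (1 / 2) * ∑ z : Zt B, ENNReal.ofReal (S K ((1 - ε) * c)) * (N * sph (cube a s z)) := by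
        gcongr with z _
        exact hpair z
    _ = ENNReal.ofReal (1 / 2) * (ENNReal.ofReal (S K ((1 - ε) * c)) * (N * ∑ z : Zt B, sph (cube a s z))) := by
        congr 1
        simp only [Finset.mul_sum]
    _ ≤ ENNReal.ofReal (1 / 2) * (ENNReal.ofReal (S K ((1 - ε) * c)) * (N * 1)) := by
        gcongr
        exact sph_prob_cubes hS a s B
    _ = ENNReal.ofReal (N / 2 * S K ((1 - ε) * c)) := by
        rw [mul_one, ← ENNReal.ofReal_natCast N, ← ENNReal.ofReal_mul hSK,
          ← ENNReal.ofReal_mul (by norm_num)]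
        congr 1
        ring

end TILE

end Pool.KS
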